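import Pool.Agent.H64.Win.Wgt
import Pool.Agent.H74.Win.Pot

/-!
# Increments of the environments `X_j` and `X_(j+1)` of a window
-/

namespace Pool.Agent.H64.Win

open Pool.Agent.H64.Q1 hiding Tl
open Pool.Agent.H81.G1 Pool.Agent.Q1 Pool.Agent.H33.Q1
open Pool.Agent.H75.Perc hiding ph
open Pool.Agent.H75.TwoArm
open Pool.Agent.H74.R45 hiding Tl Out mem_EJ EJ WJ XJ mem_PJ PJ XJ_E XJ_c0 XJ_k0 XJ_T tilesJ
open Pool.Agent.H46.Sp
open Pool.Agent.H46.Sp.Win
open Pool.Agent.H74.Win (FW FW_eq tileW SameW)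
open Finset

/-! ### Corners -/

/-- the tile which is left at an outgoing end -/
theorem plab_ce {q : ℤ × ℤ} {e : Dir} (h : inq q e = false) : plab (ce q e) = lt q := by
  obtain ⟨x, y⟩ := q
  unfold inq at h
  rcases Int.emod_two_eq_zero_or_one (x + y) with h2 | h2 <;> cases e <;>
    simp [h2, Dir.v] at h
  · change plab (ve (x, y)) = _
    rw [plab_ve_W h2]
  · change plab (ve (x + 1, y)) = _
    rw [plab_ve_E (by omega), add_sub_cancel_right]
  · change plab (he (x, y + 1)) = _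
    rw [plab_he_N (by omega), add_sub_cancel_right]
  · change plab (he (x, y)) = _
    rw [plab_he_S h2]

/-- a deterministic step, expectations -/
theorem incW_step {X : Env} (q : ℤ × ℤ → ℂ) {c : ℤ × ℤ} (hc : c ∈ X.S) (hl : lab c ∉ X.E)
    (h0 : X.out c ≠ X.c0) : X.incW q (X.out c) = ph (X.dout c) * X.incW q c := by
  unfold Env.incW
  rw [← Ec_smul]
  exact Ec_congr fun ω hω => incO_step hω hc hl h0

section plane

variable {X : Env} {E W P : Finset (ℤ × ℤ)}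

/-- **Turn.** `q` is a deterministic tile in the state `β`, its neighbours at the ends `e`, `e.mate β` are
random. -/
theorem turn (I : IsEnv X E W) (T : Tiles X (lbP : TP P → ℤ × ℤ) tyP crP) {q : ℤ × ℤ} {β : Bool}
    (hs : sto E W q = some β) {e : Dir} (h1 : nb q e ∈ P) (h2 : nb q (e.mate β) ∈ P)
    (h0 : plab X.c0 ≠ lt q) (w : ℤ × ℤ → ℂ) :
    X.incW w (ce q (e.mate β)) = ph (e.tn β) * X.incW w (ce q e) := by
  have main : ∀ {e : Dir}, inq q e = true → nb q e ∈ P →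
      X.incW w (ce q (e.mate β)) = ph (e.tn β) * X.incW w (ce q e) := by
    intro e he h1
    obtain ⟨x, y⟩ := q
    obtain ⟨a1, a2, a3⟩ := nx_ce W he
    have hb := sto_some.1 hs
    have e1 : (decide (lt (x, y) ∈ W) == decide ((x + y) % 2 = 1)) = β := hb.2.symm
    simp only [e1] at a2 a3
    rw [← I.out] at a2
    rw [← I.dout] at a3
    rw [← a2, ← a3]
    refine incW_step w ?_ ?_ ?_
    · have := out_mem_S T (x := (⟨nb (x, y) e, h1⟩, op e)) (by
        change inq (nb (x, y) e) (op e) = false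
        rw [inq_nb, he]; rfl)
      have e2 : crP ((⟨nb (x, y) e, h1⟩ : TP P), op e) = ce (x, y) e := ce_nb _ _
      rwa [e2] at this
    · rw [a1, I.E]; exact hb.1
    · rw [a2]
      intro h
      apply h0
      rw [← h, plab_ce]
      rw [inq_mate, he]; rfl
  cases he : inq q e
  · have := main (e := e.mate β) (by rw [inq_mate, he]; rfl) h2
    rw [mate_mate, tn_mate] at this
    rw [this, ← mul_assoc, mul_comm (ph _), ph_neg, one_mul]
  · exact main he h1

end plane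

/-! ### Windows -/

variable {D : Pool.Agent.H46.Sp.Win} {O : Out D} {j x y : ℤ} {u : ℂ}

/-- the root leaves a tile outside of the box -/
theorem root_ex (O : Out D) : ∃ z0 : End, ce z0.1 z0.2 = O.c0 ∧ inq z0.1 z0.2 = false ∧
    ¬ D.InZ z0.1.1 z0.1.2 := by
  obtain ⟨z, h1, h2⟩ := ce_surj O.c0
  refine ⟨z, h1, h2, fun h3 => O.hroot ?_⟩
  rw [← h1, plab_ce h2]
  obtain ⟨⟨x, y⟩, e⟩ := z
  exact Pool.Agent.H46.Sp.Win.mem_GA.2 h3

theorem Kb_Z (h0 : 0 ≤ j) (h1 : j < D.h) {cL cR : Bool} {q : ℤ × ℤ}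
    (h : Kb (D.a j) (D.b j) j cL cR q) : D.InZ q.1 q.2 := by
  have k1 := a_min (D := D) h0 h1
  have k2 := b_max (D := D) h0 h1
  have k3 := bi_le cL
  have k4 := bi_le cR
  obtain ⟨h2, h3, h4⟩ := h
  unfold InZ
  omega

/-- increments of the environment number `j`, the weights of the angle `u` -/
noncomputable abbrev Fu (O : Out D) (u : ℂ) (j : ℤ) : ℤ × ℤ → ℂ :=
  FW O (wa u) (wa (u + Real.pi / 2)) (wa (u - Real.pi / 2)) j

/-- corresponding ends of `X_j`, `X_(j+1)` -/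
abbrev EndsJ (O : Out D) (j : ℤ) : End → End → ℤ → Prop :=
  Ends (σJ O j) (σJ O (j + 1)) (D.a j) (D.b j) j (fS D j) (fL D j) (gL D j) (fN D j) (fR D j)
    (gR D j)

/-- **The comparison of `X_j` and `X_(j+1)`.** -/
theorem incJ (hu : Complex.sin (2 * u) ≠ 0) (h0 : 0 ≤ j) (h1 : j < D.h) {z z' : End} {δ : ℤ}
    (h : EndsJ O j z z' δ) :
    Fu O u (j + 1) (ce z'.1 z'.2) =
      zt ^ (6 * (ty (ce z'.1 z'.2) - ty (ce z.1 z.2)) + 2 * δ) * Fu O u j (ce z.1 z.2) := by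
  obtain ⟨z0, r1, r2, r3⟩ := root_ex O
  unfold Fu
  rw [FW_eq h0, FW_eq (by omega)]
  exact strip_inc (cfg O h0 h1) hu (wt h0 h1 _ _ _) (hasW _ _ _) (hasW _ _ _) rfl rfl r1 r1 r2
    (fun hK => r3 (Kb_Z h0 h1 hK.1)) h

/-- ends of tiles which are random in both environments -/
theorem F_reg (hu : Complex.sin (2 * u) ≠ 0) (h0 : 0 ≤ j) (h1 : j < D.h) {e : Dir}
    (e1 : D.InE j x y) (e2 : D.InE (j + 1) x y)
    (hK : Yk (Kb (D.a j) (D.b j) j (gL D j) (gR D j)) ((x, y), e)) :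
    Fu O u (j + 1) (ce (x, y) e) = Fu O u j (ce (x, y) e) := by
  have := incJ (O := O) hu h0 h1 (z := ((x, y), e)) (z' := ((x, y), e)) (δ := 0)
    (Or.inl ⟨rfl, rfl, (σJ_none O).2 e1, (σJ_none O).2 e2, hK⟩)
  simpa using this

/-- edges above the strip -/
theorem F_up (hu : Complex.sin (2 * u) ≠ 0) (h0 : 0 ≤ j) (h1 : j < D.h) {e : Dir}
    (e1 : D.InU x y) (hy : j < y ∨ y = j ∧ e = .N) :
    Fu O u (j + 1) (ce (x, y) e) = Fu O u j (ce (x, y) e) := by
  refine F_reg hu h0 h1 (Or.inl e1) (Or.inl e1) ?_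
  rintro ⟨k1, k2⟩
  have k3 := k1.2.2
  have k4 := k2.2.2
  simp only at k3
  rcases hy with hy | ⟨hy, he⟩
  · omega
  · rw [he] at k4
    simp only [nb] at k4
    omega

/-- edges below the strip -/
theorem F_dn (hu : Complex.sin (2 * u) ≠ 0) (h0 : 0 ≤ j) (h1 : j < D.h) {e : Dir}
    (e1 : D.InU x y) (hy : y < j - 1 ∨ y = j - 1 ∧ e = .S) :
    Fu O u (j + 1) (ce (x, y) e) = Fu O u j (ce (x, y) e) := by
  refine F_reg hu h0 h1 (Or.inl e1) (Or.inl e1) ?_
  rintro ⟨k1, k2⟩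
  have k3 := k1.2.2
  have k4 := k2.2.2
  simp only at k3
  rcases hy with hy | ⟨hy, he⟩
  · omega
  · rw [he] at k4
    simp only [nb] at k4
    omega

end Pool.Agent.H64.Win
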