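import Pool.Agent.H64.Win.SameW

/-!
# Windows without rows with two reflex ends
-/

namespace Pool.Agent.H64.Win

open Pool.Agent.H64.Q1 (wa)
open Pool.Agent.H46.Sp (Out)
open Pool.Agent.H74.Win (SameW)

/-- no row has a reflex corner at both ends -/
def NoRR (D : Pool.Agent.H46.Sp.Win) : Prop :=
  ∀ j, 0 ≤ j → j < D.h → ¬ (fL D j = true ∧ fR D j = true)

/-- explicit form of `fL` -/
theorem fL_iff (D : Pool.Agent.H46.Sp.Win) (j : ℤ) : fL D j = true ↔
    (j + 1 < D.yP ∧ D.a (j + 1) < D.a j) ∨ (D.yP ≤ j ∧ D.a (j - 1) < D.a j) := by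
  unfold fL
  split_ifs with h
  · simp only [decide_eq_true_eq]; omega
  · simp only [decide_eq_true_eq]; omega

/-- explicit form of `fR` -/
theorem fR_iff (D : Pool.Agent.H46.Sp.Win) (j : ℤ) : fR D j = true ↔
    (j < D.yQ ∧ D.b j < D.b (j + 1)) ∨ (D.yQ < j ∧ D.b j < D.b (j - 1)) := by
  unfold fR
  split_ifs with h
  · simp only [decide_eq_true_eq]; omega
  · simp only [decide_eq_true_eq]; omega

theorem sin2_ne {u : ℂ} (hu : 1 ≤ u.im) : Complex.sin (2 * u) ≠ 0 := by
  intro h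
  rw [Complex.sin_eq_zero_iff] at h
  obtain ⟨k, hk⟩ := h
  have h1 := congrArg Complex.im hk
  simp at h1
  rw [h1] at hu
  norm_num at hu

end Pool.Agent.H64.Win
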