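import Pool.Agent.H64.Win.NoRR
import Pool.Agent.Q1.M6b.ABWdef

/-!
# `SameC` for classes of windows without rows with two reflex ends
-/

namespace Pool.Agent.H64.Win

open Pool.Agent.H46.Sp (Out)

/-- **`SameC`** -/
theorem sameC_of {S : ℕ → Set (Σ D : Pool.Agent.H46.Sp.Win, Out D)}
    (hS : ∀ R v, v ∈ S R → NoRR v.1) : Pool.Agent.Q1.M6b.ABW.SameC S := fun R v hv u hu =>
  sameW_wa v.2 u (sin2_ne hu) (hS R v hv)

end Pool.Agent.H64.Win
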