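import Pool.Agent.H64.Q1.Reg11
import Pool.Agent.H74.R45.TilesJ

/-!
# Wires without orientation

An end is a position and a direction. `G σ z w t` : the wire which leaves the end `z` reaches the random
end `w`, with the turning `t`; `σ` are the states of the tiles (`none` : random).
-/

namespace Pool.Agent.H64.Win

open Pool.Agent.H64.Q1 hiding Tl
open Pool.Agent.H81.G1 Pool.Agent.Q1 Pool.Agent.H33.Q1
open Pool.Agent.H75.Perc Pool.Agent.H75.TwoArm
open Pool.Agent.H74.R45 hiding Tl

/-- an end: position and direction -/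
abbrev End : Type := (ℤ × ℤ) × Dir

/-- the neighbour in the direction `d` -/
def nb (q : ℤ × ℤ) : Dir → ℤ × ℤ
  | .W => (q.1 - 1, q.2)
  | .E => (q.1 + 1, q.2)
  | .N => (q.1, q.2 + 1)
  | .S => (q.1, q.2 - 1)

/-- the opposite direction -/
def op : Dir → Dir
  | .W => .E | .E => .W | .N => .S | .S => .N

@[simp] theorem op_op (d : Dir) : op (op d) = d := by cases d <;> rfl

theorem op_v (d : Dir) : (op d).v = d.v := by cases d <;> rfl

@[simp] theorem nb_nb (q : ℤ × ℤ) (d : Dir) : nb (nb q d) (op d) = q := by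
  obtain ⟨x, y⟩ := q
  cases d <;> simp [nb, op]

theorem mate_mate (b : Bool) (d : Dir) : (d.mate b).mate b = d := by cases b <;> cases d <;> rfl

theorem tn_mate (b : Bool) (d : Dir) : (d.mate b).tn b = -(d.tn b) := by
  cases b <;> cases d <;> rfl

theorem ce_nb (q : ℤ × ℤ) (d : Dir) : ce (nb q d) (op d) = ce q d := by
  obtain ⟨x, y⟩ := q
  cases d
  · exact ve_eq (by simp only [nb]; ring) rfl
  · exact he_eq rfl rfl
  · exact ve_eq rfl rfl
  · exact he_eq rfl (by simp only [nb]; ring)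

theorem inq_nb (q : ℤ × ℤ) (d : Dir) : inq (nb q d) (op d) = !inq q d := by
  obtain ⟨x, y⟩ := q
  unfold inq
  rw [op_v]
  have key : decide (((nb (x, y) d).1 + (nb (x, y) d).2) % 2 = 1) =
      !decide ((x + y) % 2 = 1) := by
    rcases Int.emod_two_eq_zero_or_one (x + y) with h | h
    · have h2 : ((nb (x, y) d).1 + (nb (x, y) d).2) % 2 = 1 := by
        cases d <;> simp only [nb] <;> omega
      rw [h, h2]; rfl
    · have h2 : ((nb (x, y) d).1 + (nb (x, y) d).2) % 2 = 0 := by
        cases d <;> simp only [nb] <;> omega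
      rw [h, h2]; rfl
  simp only at key ⊢
  rw [key]
  cases decide ((x + y) % 2 = 1) <;> cases d.v <;> rfl

/-- states of the tiles -/
abbrev State : Type := ℤ × ℤ → Option Bool

/-- the wire which leaves `z` reaches `w` with the turning `t` -/
inductive G (σ : State) : End → End → ℤ → Prop
  | stop {z : End} (h : σ (nb z.1 z.2) = none) : G σ z (nb z.1 z.2, op z.2) 0
  | pass {z w : End} {b : Bool} {t : ℤ} (h : σ (nb z.1 z.2) = some b)
      (H : G σ (nb z.1 z.2, (op z.2).mate b) w t) : G σ z w ((op z.2).tn b + t)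

/-- a part of a wire -/
inductive Pa (σ : State) : End → End → ℤ → Prop
  | nil (z : End) : Pa σ z z 0
  | cons {z w : End} {b : Bool} {t : ℤ} (h : σ (nb z.1 z.2) = some b)
      (H : Pa σ (nb z.1 z.2, (op z.2).mate b) w t) : Pa σ z w ((op z.2).tn b + t)

variable {σ : State}

theorem G.stop' {z w : End} {t : ℤ} (h : σ w.1 = none) (h1 : nb z.1 z.2 = w.1)
    (h2 : op z.2 = w.2) (ht : t = 0) : G σ z w t := by
  obtain ⟨p, d⟩ := w
  simp only at h h1 h2
  subst ht h2 h1
  exact G.stop h

theorem G.pass' {z w : End} {c : ℤ × ℤ} {d : Dir} {b : Bool} {t t' : ℤ} (h : σ c = some b)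
    (h1 : nb z.1 z.2 = c) (h2 : (op z.2).mate b = d) (H : G σ (c, d) w t)
    (ht : t' = (op z.2).tn b + t) : G σ z w t' := by
  subst ht h2 h1
  exact G.pass h H

theorem Pa.cons' {z w : End} {c : ℤ × ℤ} {d : Dir} {b : Bool} {t t' : ℤ} (h : σ c = some b)
    (h1 : nb z.1 z.2 = c) (h2 : (op z.2).mate b = d) (H : Pa σ (c, d) w t)
    (ht : t' = (op z.2).tn b + t) : Pa σ z w t' := by
  subst ht h2 h1
  exact Pa.cons h H

theorem G.det {z w w' : End} {t t' : ℤ} (h : G σ z w t) (h' : G σ z w' t') :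
    w = w' ∧ t = t' := by
  induction h generalizing w' t' with
  | stop h1 =>
    cases h' with
    | stop => exact ⟨rfl, rfl⟩
    | pass h2 => rw [h1] at h2; exact absurd h2 (by simp)
  | pass h1 H ih =>
    cases h' with
    | stop h2 => rw [h1] at h2; exact absurd h2 (by simp)
    | pass h2 H' =>
      rw [h1] at h2
      simp only [Option.some.injEq] at h2
      subst h2
      obtain ⟨e1, e2⟩ := ih H'
      exact ⟨e1, by rw [e2]⟩

theorem G.random {z w : End} {t : ℤ} (h : G σ z w t) : σ w.1 = none := by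
  induction h with
  | stop h1 => exact h1
  | pass h1 H ih => exact ih

theorem Pa.G {z y w : End} {t s : ℤ} (h : Pa σ z y t) (h' : G σ y w s) : G σ z w (t + s) := by
  induction h with
  | nil => rwa [zero_add]
  | cons h1 H ih =>
    rw [add_assoc]
    exact G.pass h1 (ih h')

theorem Pa.back {z y w : End} {t s : ℤ} (h : Pa σ z y t) (h' : Win.G σ z w s) :
    Win.G σ y w (s - t) := by
  induction h generalizing s with
  | nil => rwa [sub_zero]
  | cons h1 H ih =>
    cases h' with
    | stop h2 => rw [h1] at h2; exact absurd h2 (by simp)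
    | pass h2 H' =>
      rw [h1] at h2
      simp only [Option.some.injEq] at h2
      subst h2
      have := ih H'
      rwa [add_sub_add_left_eq_sub]

/-- continuation of the reversed wire at `y` -/
def Cont (σ : State) (y w : End) (s : ℤ) : Prop :=
  (σ y.1 = none ∧ w = y ∧ s = 0) ∨ ∃ b, σ y.1 = some b ∧ ∃ s', G σ (y.1, y.2.mate b) w s' ∧
    s = y.2.tn b + s'

theorem Cont.G {y w : End} {s : ℤ} (h : Cont σ y w s) :
    G σ (nb y.1 y.2, op y.2) w s := by
  rcases h with ⟨h1, rfl, rfl⟩ | ⟨b, h1, s', h2, rfl⟩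
  · exact G.stop' h1 (nb_nb _ _) (op_op _) rfl
  · exact G.pass' (c := y.1) (b := b) h1 (nb_nb _ _) rfl (by rw [op_op]; exact h2)
      (by rw [op_op])

theorem G.rev {y z' : End} {t : ℤ} (h : G σ y z' t) : ∀ {w : End} {s : ℤ}, Cont σ y w s →
    G σ z' w (s - t) := by
  induction h with
  | stop h1 =>
    intro w s hc
    rw [sub_zero]
    exact hc.G
  | @pass y z' b t h1 H ih =>
    intro w s hc
    have h2 : Cont σ (nb y.1 y.2, (op y.2).mate b) w (-((op y.2).tn b) + s) := by
      refine Or.inr ⟨b, h1, s, ?_, ?_⟩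
      · simp only [mate_mate]
        exact hc.G
      · simp only [tn_mate]
    have := ih h2
    convert this using 1
    ring

/-- **Wires are symmetric.** -/
theorem G.symm {z w : End} {t : ℤ} (hz : σ z.1 = none) (h : G σ z w t) : G σ w z (-t) := by
  have := h.rev (Or.inl ⟨hz, rfl, rfl⟩)
  rwa [zero_sub] at this

/-! ### States of an environment -/

/-- the states of the tiles: random labels `E`, open labels `O` -/
noncomputable def sto (E O : Finset (ℤ × ℤ)) (q : ℤ × ℤ) : Option Bool :=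
  if lt q ∈ E then none else some (decide (lt q ∈ O) == decide ((q.1 + q.2) % 2 = 1))

theorem sto_none {E O : Finset (ℤ × ℤ)} {q : ℤ × ℤ} : sto E O q = none ↔ lt q ∈ E := by
  unfold sto
  split_ifs with h <;> simp [h]

theorem sto_some {E O : Finset (ℤ × ℤ)} {q : ℤ × ℤ} {b : Bool} : sto E O q = some b ↔
    lt q ∉ E ∧ b = (decide (lt q ∈ O) == decide ((q.1 + q.2) % 2 = 1)) := by
  unfold sto
  split_ifs with h
  · simp [h]
  · simp only [h, not_false_eq_true, true_and, Option.some.injEq]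
    exact eq_comm

/-- one step through a tile -/
theorem nx_ce (O : Finset (ℤ × ℤ)) {q : ℤ × ℤ} {e : Dir} (h : inq q e = true) :
    lab (ce q e) = lt q ∧
    nx O (ce q e) = ce q (e.mate (decide (lt q ∈ O) == decide ((q.1 + q.2) % 2 = 1))) ∧
    del O (ce q e) = e.tn (decide (lt q ∈ O) == decide ((q.1 + q.2) % 2 = 1)) := by
  obtain ⟨x, y⟩ := q
  unfold inq at h
  simp only at h
  cases e
  · have hp : (x + y) % 2 = 1 := by simpa [Dir.v] using h
    refine ⟨lab_ve_E hp, ?_⟩
    by_cases ho : lt (x, y) ∈ O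
    · obtain ⟨a1, a2⟩ := ES hp ho
      simp only [ho, hp]
      exact ⟨a1, a2⟩
    · obtain ⟨a1, a2⟩ := EN hp ho
      simp only [ho, hp]
      exact ⟨a1, a2⟩
  · have hp : (x + y) % 2 = 0 := by
      have : ¬ (x + y) % 2 = 1 := by simpa [Dir.v] using h
      omega
    have hp' : (x + (y + 1)) % 2 = 1 := by omega
    have e1 : y + 1 - 1 = y := by ring
    refine ⟨?_, ?_⟩
    · change lab (he (x, y + 1)) = _
      rw [lab_he_S hp', e1]
    by_cases ho : lt (x, y) ∈ O
    · obtain ⟨a1, a2⟩ := SW (w := O) hp' (by rw [e1]; exact ho)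
      rw [e1] at a1
      simp only [ho, hp]
      exact ⟨a1, a2⟩
    · obtain ⟨a1, a2⟩ := SE (w := O) hp' (by rw [e1]; exact ho)
      rw [e1] at a1
      simp only [ho, hp]
      exact ⟨a1, a2⟩
  · have hp : (x + y) % 2 = 1 := by simpa [Dir.v] using h
    have hp' : (x + 1 + y) % 2 = 0 := by omega
    have e1 : x + 1 - 1 = x := by ring
    refine ⟨?_, ?_⟩
    · change lab (ve (x + 1, y)) = _
      rw [lab_ve_W hp', e1]
    by_cases ho : lt (x, y) ∈ O
    · obtain ⟨a1, a2⟩ := WN (w := O) hp' (by rw [e1]; exact ho)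
      rw [e1] at a1
      simp only [ho, hp]
      exact ⟨a1, a2⟩
    · obtain ⟨a1, a2⟩ := WS (w := O) hp' (by rw [e1]; exact ho)
      rw [e1] at a1
      simp only [ho, hp]
      exact ⟨a1, a2⟩
  · have hp : (x + y) % 2 = 0 := by
      have : ¬ (x + y) % 2 = 1 := by simpa [Dir.v] using h
      omega
    refine ⟨lab_he_N hp, ?_⟩
    by_cases ho : lt (x, y) ∈ O
    · obtain ⟨a1, a2⟩ := NE hp ho
      simp only [ho, hp]
      exact ⟨a1, a2⟩
    · obtain ⟨a1, a2⟩ := NW hp ho
      simp only [ho, hp]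
      exact ⟨a1, a2⟩

/-- an environment with the random labels `E` and the open labels `O` -/
structure IsEnv (X : Env) (E O : Finset (ℤ × ℤ)) : Prop where
  E : X.E = E
  out : ∀ c, X.out c = nx O c
  dout : ∀ c, X.dout c = del O c

variable {X : Env} {E O : Finset (ℤ × ℤ)}

/-- a wire which leaves an outgoing end -/
theorem G.out (hX : IsEnv X E O) {z w : End} {t : ℤ} (h : G (sto E O) z w t)
    (hz : inq z.1 z.2 = false) :
    Wire X (ce z.1 z.2) (ce w.1 w.2) t ∧ inq w.1 w.2 = true := by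
  induction h with
  | @stop z h1 =>
    refine ⟨?_, ?_⟩
    · simp only [ce_nb]
      exact Wire.nil _
    · simp only [inq_nb, hz]
      rfl
  | @pass z w b t h1 H ih =>
    have h2 : inq (nb z.1 z.2) (op z.2) = true := by rw [inq_nb, hz]; rfl
    obtain ⟨h3, h4⟩ := sto_some.1 h1
    obtain ⟨a1, a2, a3⟩ := nx_ce O h2
    rw [← h4, ce_nb] at a2
    rw [← h4, ce_nb] at a3
    rw [ce_nb] at a1
    have h5 : inq (nb z.1 z.2) ((op z.2).mate b) = false := by
      have : ∀ (q : ℤ × ℤ) (d : Dir) (b : Bool), inq q (d.mate b) = !inq q d := by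
        intro q d b
        unfold inq
        cases b <;> cases d <;> cases decide ((q.1 + q.2) % 2 = 1) <;> rfl
      rw [this, h2]; rfl
    obtain ⟨i1, i2⟩ := ih h5
    refine ⟨Wire.cons (d := (op z.2).tn b) ?_ ?_ ?_ i1 rfl, i2⟩
    · rw [hX.E, a1]; exact h3
    · rw [hX.out, a2]
    · rw [hX.dout, a3]

theorem inq_mate (q : ℤ × ℤ) (d : Dir) (b : Bool) : inq q (d.mate b) = !inq q d := by
  unfold inq
  cases b <;> cases d <;> cases decide ((q.1 + q.2) % 2 = 1) <;> rfl

/-- a wire which leaves an incoming end -/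
theorem G.inn (hX : IsEnv X E O) {z w : End} {t : ℤ} (h : G (sto E O) z w t)
    (hz : inq z.1 z.2 = true) :
    Wire X (ce w.1 w.2) (ce z.1 z.2) (-t) ∧ inq w.1 w.2 = false := by
  induction h with
  | @stop z h1 =>
    refine ⟨?_, ?_⟩
    · simp only [ce_nb, neg_zero]
      exact Wire.nil _
    · simp only [inq_nb, hz]
      rfl
  | @pass z w b t h1 H ih =>
    have h2 : inq (nb z.1 z.2) (op z.2) = false := by rw [inq_nb, hz]; rfl
    have h5 : inq (nb z.1 z.2) ((op z.2).mate b) = true := by rw [inq_mate, h2]; rfl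
    obtain ⟨i1, i2⟩ := ih h5
    obtain ⟨h3, h4⟩ := sto_some.1 h1
    obtain ⟨a1, a2, a3⟩ := nx_ce O h5
    rw [← h4, mate_mate, ce_nb] at a2
    rw [← h4, tn_mate] at a3
    refine ⟨?_, i2⟩
    have k : Wire X (ce (nb z.1 z.2) ((op z.2).mate b)) (ce z.1 z.2) (-((op z.2).tn b)) := by
      refine Wire.cons (d := -((op z.2).tn b)) (t := 0) ?_ ?_ ?_ (Wire.nil _) (by ring)
      · rw [hX.E, a1]; exact h3
      · rw [hX.out, a2]
      · rw [hX.dout, a3]
    have := i1.trans k
    convert this using 1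
    ring

/-- a strand which meets a random tile is a wire -/
theorem G.ex (hX : IsEnv X E O) : ∀ (n : ℕ) (z : End), inq z.1 z.2 = false →
    lab (X.out^[n] (ce z.1 z.2)) ∈ X.E → ∃ w t, G (sto E O) z w t := by
  intro n
  induction n with
  | zero =>
    intro z hz h
    have h2 : inq (nb z.1 z.2) (op z.2) = true := by rw [inq_nb, hz]; rfl
    obtain ⟨a1, a2, a3⟩ := nx_ce O h2
    rw [ce_nb] at a1
    rw [Function.iterate_zero_apply, a1, hX.E] at h
    exact ⟨_, _, G.stop (sto_none.2 h)⟩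
  | succ n ih =>
    intro z hz h
    have h2 : inq (nb z.1 z.2) (op z.2) = true := by rw [inq_nb, hz]; rfl
    obtain ⟨a1, a2, a3⟩ := nx_ce O h2
    rw [ce_nb] at a1 a2
    by_cases hE : lt (nb z.1 z.2) ∈ E
    · exact ⟨_, _, G.stop (sto_none.2 hE)⟩
    · rw [Function.iterate_succ_apply, hX.out, a2] at h
      obtain ⟨w, t, H⟩ := ih (nb z.1 z.2, _) (by
        change inq (nb z.1 z.2) ((op z.2).mate _) = false
        rw [inq_mate, h2]; rfl) h
      exact ⟨w, _, G.pass (sto_some.2 ⟨hE, rfl⟩) H⟩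

/-- every corner is a directed end -/
theorem ce_surj (c : ℤ × ℤ) : ∃ z : End, ce z.1 z.2 = c ∧ inq z.1 z.2 = false := by
  obtain ⟨c1, c2⟩ := c
  rcases Int.emod_two_eq_zero_or_one (c1 + c2) with h | h
  · -- a horizontal edge
    have e1 : (c1 - 1 + (c2 - 1)) % 2 = 0 := by omega
    have e2 : c2 - 1 = (c1 - 1 + (c2 - 1)) / 2 + (c2 - 1 - (c1 - 1)) / 2 := by omega
    have e3 : c1 - 1 = (c1 - 1 + (c2 - 1)) / 2 - (c2 - 1 - (c1 - 1)) / 2 := by omega
    set x := (c1 - 1 + (c2 - 1)) / 2
    set y := (c2 - 1 - (c1 - 1)) / 2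
    have hc : he (x, y) = (c1, c2) := by
      unfold he
      refine Prod.ext ?_ ?_ <;> simp only <;> omega
    rcases Int.emod_two_eq_zero_or_one (x + y) with h1 | h1
    · -- towards N: leaves (x, y - 1)
      refine ⟨((x, y - 1), .N), ?_, ?_⟩
      · rw [← hc]
        exact he_eq rfl (by simp only; ring)
      · unfold inq
        have : (x + (y - 1)) % 2 = 1 := by omega
        simp only [this]
        rfl
    · refine ⟨((x, y), .S), ?_, ?_⟩
      · rw [← hc]; rfl
      · unfold inq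
        simp only [h1]
        rfl
  · -- a vertical edge
    have e1 : (c1 + (c2 - 1)) % 2 = 0 := by omega
    set x := (c1 + (c2 - 1)) / 2
    set y := (c2 - 1 - c1) / 2
    have hc : ve (x, y) = (c1, c2) := by
      unfold ve
      refine Prod.ext ?_ ?_ <;> simp only <;> omega
    rcases Int.emod_two_eq_zero_or_one (x + y) with h1 | h1
    · -- towards W: leaves (x, y)
      refine ⟨((x, y), .W), ?_, ?_⟩
      · rw [← hc]; rfl
      · unfold inq
        simp only [h1]
        rfl
    · refine ⟨((x - 1, y), .E), ?_, ?_⟩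
      · rw [← hc]
        exact ve_eq (by simp only; ring) rfl
      · unfold inq
        have : (x - 1 + y) % 2 = 0 := by omega
        simp only [this]
        rfl

/-! ### Wires of the network -/

variable {ι : Type*} [Fintype ι] {lb : ι → ℤ × ℤ} {p : ι → Bool} {cr : ι × Dir → ℤ × ℤ}

/-- a wire of the network -/
theorem G.wπ (hX : IsEnv X E O) (T : Tiles X lb p cr) {z w : ι × Dir} {z' w' : End} {t : ℤ}
    (hz : cr z = ce z'.1 z'.2) (hw : cr w = ce w'.1 w'.2) (pz : inc p z = inq z'.1 z'.2)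
    (pw : inc p w = inq w'.1 w'.2) (h : G (sto E O) z' w' t) :
    wπ T z = w ∧ wτ T z = t := by
  cases hi : inq z'.1 z'.2
  · obtain ⟨h1, h2⟩ := h.out hX hi
    obtain ⟨a1, a2, a3, a4⟩ := wpi_of T (z := z) (z' := w) (t := t) (by rw [pz, hi]) (by rw [pw, h2])
      (by rw [hz, hw]; exact h1)
    exact ⟨a1, a3⟩
  · obtain ⟨h1, h2⟩ := h.inn hX hi
    obtain ⟨a1, a2, a3, a4⟩ := wpi_of T (z := w) (z' := z) (t := -t) (by rw [pw, h2]) (by rw [pz, hi])
      (by rw [hz, hw]; exact h1)
    exact ⟨a2, by rw [a4, neg_neg]⟩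

end Pool.Agent.H64.Win
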