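import Pool.Agent.H64.Q1.Reg12

/-!
# One row as a region; four positions of the two ends of the line
-/

namespace Pool.Agent.H64.Win

open Pool.Agent.H64.Q1 LP Pool.Agent.H81.G1 Pool.Agent.H13.Q1

/-- `0` or `1` -/
def bn (b : Bool) : ℕ := if b then 1 else 0

@[simp] theorem bn_true : bn true = 1 := rfl
@[simp] theorem bn_false : bn false = 0 := rfl

/-- length of the first line -/
abbrev m1 (w : ℕ) (L R : Bool) : ℕ := bn L + w + bn R

/-- length of the second line -/
abbrev m2 (w : ℕ) (L R : Bool) : ℕ := bn (!R) + w + bn (!L)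

section

variable {w : ℕ} (L R : Bool)

/-- the first part of the front -/
def sf1 (w : ℕ) (i : Fin (m1 w L R)) : RA :=
  if (i : ℕ) < bn L then rnm 3 0 0 else if (i : ℕ) < bn L + w then rnm 1 (i - bn L) 0
  else rnm 2 w 0

/-- the second part of the front -/
def sf2 (w : ℕ) (i : Fin (m2 w L R)) : RA :=
  if (i : ℕ) < bn (!R) then rnm 2 w 0 else if (i : ℕ) < bn (!R) + w then
    rnm 0 (w - 1 - (i - bn (!R))) 1 else rnm 3 0 0

/-- the directions -/
def skf : RA → ℤ
  | .inl (k, _, _) => if k = 3 then (if L then 2 else 6) else if k = 1 then 3 else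
      if k = 2 then 4 else 5
  | .inr _ => 0

/-- the ports of the first part -/
def sp1 (hw : 0 < w) (i : Fin (m1 w L R)) : RQ w 1 × Dir :=
  if (i : ℕ) < bn L then (⟨(0, 0), hw, Nat.one_pos⟩, .W)
  else if h : (i : ℕ) < bn L + w then (⟨(i - bn L, 0), by simp only; omega, Nat.one_pos⟩, .S)
  else (⟨(w - 1, 0), by simp only; omega, Nat.one_pos⟩, .E)

/-- the ports of the second part -/
def sp2 (hw : 0 < w) (i : Fin (m2 w L R)) : RQ w 1 × Dir :=
  if (i : ℕ) < bn (!R) then (⟨(w - 1, 0), by simp only; omega, Nat.one_pos⟩, .E)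
  else if (i : ℕ) < bn (!R) + w then
    (⟨(w - 1 - (i - bn (!R)), 0), by simp only; omega, Nat.one_pos⟩, .N)
  else (⟨(0, 0), hw, Nat.one_pos⟩, .W)

theorem sfront1 (φ : ℂ) : List.ofFn (fun i : Fin (m1 w L R) =>
    (sf1 L R w i, skf L (sf1 L R w i), ang φ (skf L (sf1 L R w i)))) =
      (if L then [(rnm 3 0 0, (2 : ℤ), ang φ 2)] else []) ++
        ((List.range w).map fun x => (rnm 1 x 0, (3 : ℤ), ang φ 3)) ++
        (if R then [(rnm 2 w 0, (4 : ℤ), ang φ 4)] else []) := by
  apply List.ext_getElem
  · cases L <;> cases R <;> simp [m1] <;> omega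
  · intro i h1 h2
    rw [List.getElem_ofFn]
    rw [List.length_ofFn] at h1
    by_cases c1 : i < bn L
    · cases L
      · simp at c1
      · simp only [bn_true] at c1
        obtain rfl : i = 0 := by omega
        rw [List.getElem_append_left (by simp), List.getElem_append_left (by simp)]
        rfl
    · by_cases c2 : i < bn L + w
      · have e1 : (if L then [(rnm 3 0 0, (2 : ℤ), ang φ 2)] else []).length = bn L := by
          cases L <;> rfl
        rw [List.getElem_append_left (by rw [List.length_append, e1]; simpa using c2),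
          List.getElem_append_right (by rw [e1]; omega)]
        simp only [e1]
        rw [List.getElem_map, List.getElem_range]
        unfold sf1
        simp only [if_neg c1, if_pos c2]
        rfl
      · cases R
        · simp only [m1, bn_false] at h1; omega
        · have hi : i = bn L + w := by simp only [m1, bn_true] at h1; omega
          subst hi
          have e1 : (if L then [(rnm 3 0 0, (2 : ℤ), ang φ 2)] else []).length = bn L := by
            cases L <;> rfl
          rw [List.getElem_append_right (by rw [List.length_append, e1]; simp)]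
          unfold sf1
          simp only [if_neg c1, if_neg c2]
          simp only [List.length_append, e1, List.length_map, List.length_range, Nat.sub_self,
            if_true, List.getElem_cons_zero]
          rfl

theorem sfront2 (φ : ℂ) : List.ofFn (fun i : Fin (m2 w L R) =>
    (sf2 L R w i, skf L (sf2 L R w i), ang φ (skf L (sf2 L R w i)))) =
      (if R then [] else [(rnm 2 w 0, (4 : ℤ), ang φ 4)]) ++
        ((List.range w).map fun x => (rnm 0 x 1, (5 : ℤ), ang φ 5)).reverse ++
        (if L then [] else [(rnm 3 0 0, (6 : ℤ), ang φ 6)]) := by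
  apply List.ext_getElem
  · cases L <;> cases R <;> simp [m2] <;> omega
  · intro i h1 h2
    rw [List.getElem_ofFn]
    rw [List.length_ofFn] at h1
    have e1 : (if R then [] else [(rnm 2 w 0, (4 : ℤ), ang φ 4)]).length = bn (!R) := by
      cases R <;> rfl
    by_cases c1 : i < bn (!R)
    · cases R
      · simp only [Bool.not_false, bn_true] at c1
        obtain rfl : i = 0 := by omega
        rw [List.getElem_append_left (by simp), List.getElem_append_left (by simp)]
        rfl
      · simp at c1
    · by_cases c2 : i < bn (!R) + w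
      · rw [List.getElem_append_left (by rw [List.length_append, e1]; simpa using c2),
          List.getElem_append_right (by rw [e1]; omega)]
        simp only [e1]
        rw [List.getElem_reverse, List.getElem_map, List.getElem_range]
        simp only [List.length_map, List.length_range]
        unfold sf2
        simp only [if_neg c1, if_pos c2]
        rfl
      · cases L
        · have hi : i = bn (!R) + w := by simp only [m2, Bool.not_false, bn_true] at h1; omega
          subst hi
          rw [List.getElem_append_right (by rw [List.length_append, e1]; simp)]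
          unfold sf2
          simp only [if_neg c1, if_neg c2]
          simp only [List.length_append, e1, List.length_reverse, List.length_map,
            List.length_range, Nat.sub_self, Bool.false_eq_true, if_false,
            List.getElem_cons_zero]
          rfl
        · simp only [m2, Bool.not_true, bn_false] at h1; omega

/-- wires inside the row -/
theorem srow_cases (hw : 0 < w) (x : RQ w 1 × Dir) :
    (∃ y : RQ w 1 × Dir, rg (rer x) = rer y) ∨ (∃ i, x = sp1 L R hw i) ∨
      ∃ i, x = sp2 L R hw i := by
  obtain ⟨⟨⟨a, b⟩, ha, hb⟩, d⟩ := x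
  simp only at ha hb
  obtain rfl : b = 0 := by omega
  have left : ((∃ i, ((⟨(0, 0), hw, hb⟩, .W) : RQ w 1 × Dir) = sp1 L R hw i) ∨
      ∃ i, ((⟨(0, 0), hw, hb⟩, .W) : RQ w 1 × Dir) = sp2 L R hw i) := by
    cases L
    · right
      refine ⟨⟨bn (!R) + w, by simp [m2]⟩, ?_⟩
      unfold sp2
      simp only [if_neg (show ¬ bn (!R) + w < bn (!R) by omega), lt_irrefl, if_false]
    · left
      refine ⟨⟨0, by simp [m1]⟩, ?_⟩
      unfold sp1
      simp only [bn_true, Nat.zero_lt_one, if_true]
  have right : ((∃ i, ((⟨(w - 1, 0), by simp only; omega, hb⟩, .E) : RQ w 1 × Dir) =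
      sp1 L R hw i) ∨
      ∃ i, ((⟨(w - 1, 0), by simp only; omega, hb⟩, .E) : RQ w 1 × Dir) = sp2 L R hw i) := by
    cases R
    · right
      refine ⟨⟨0, by simp [m2]⟩, ?_⟩
      unfold sp2
      simp only [Bool.not_false, bn_true, Nat.zero_lt_one, if_true]
    · left
      refine ⟨⟨bn L + w, by simp [m1]⟩, ?_⟩
      unfold sp1
      simp only [if_neg (show ¬ bn L + w < bn L by omega), lt_irrefl, dif_neg, not_false_eq_true]
  cases d
  · by_cases h : a = 0
    · subst h
      exact Or.inr left
    · left
      refine ⟨(⟨(a - 1, 0), by simp; omega, hb⟩, .E), ?_⟩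
      change (Sum.inl (flk 2, a, 0) : RA) = .inl (3, a - 1 + 1, 0)
      rw [Nat.sub_add_cancel (by omega)]
      rfl
  · right; right
    refine ⟨⟨bn (!R) + (w - 1 - a), by simp only [m2]; omega⟩, ?_⟩
    unfold sp2
    simp only [if_neg (show ¬ bn (!R) + (w - 1 - a) < bn (!R) by omega),
      if_pos (show bn (!R) + (w - 1 - a) < bn (!R) + w by omega)]
    simp only [Prod.mk.injEq, Subtype.mk.injEq, and_true]
    omega
  · by_cases h : a = w - 1
    · subst h
      exact Or.inr right
    · left
      refine ⟨(⟨(a + 1, 0), by simp; omega, hb⟩, .W), ?_⟩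
      rfl
  · right; left
    refine ⟨⟨bn L + a, by simp only [m1]; omega⟩, ?_⟩
    unfold sp1
    simp only [if_neg (show ¬ bn L + a < bn L by omega)]
    rw [dif_pos (show bn L + a < bn L + w by omega)]
    simp only [Prod.mk.injEq, Subtype.mk.injEq, and_true]
    omega

/-- **One row.** -/
noncomputable def srow (w : ℕ) (hw : 0 < w) (φ : ℂ)
    (hφ : ∀ k, Complex.sin (ang φ k) ≠ 0) : Rgn (RQ w 1) RA (m1 w L R) (m2 w L R) where
  g := rg
  u := .inr true
  v := .inr false
  er := rer
  f1 := sf1 L R w
  f2 := sf2 L R w
  kf := skf L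
  t1 := fun i => ang φ (skf L (sf1 L R w i))
  t2 := fun i => ang φ (skf L (sf2 L R w i))
  p1 := sp1 L R hw
  p2 := sp2 L R hw
  st := fun _ => .S
  I := rIs w 1
  wt := fun _ => 1 / 2
  nd := by
    unfold rIs
    apply List.Nodup.pmap _ rI_nodup
    intro a ha b hb h
    exact congrArg Subtype.val h
  all := by
    rintro ⟨p, hp⟩
    unfold rIs
    rw [List.mem_pmap]
    exact ⟨p, mem_rI.2 hp, rfl⟩
  er_inj := rer_inj
  kuv := ⟨rfl, rfl⟩
  erf := by
    rintro ⟨⟨⟨a, b⟩, ha, hb⟩, d⟩
    simp only at ha hb
    refine ⟨by cases d <;> simp [rer, rnm], by cases d <;> simp [rer, rnm], ?_, ?_⟩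
    · intro i
      unfold sf1
      cases d <;> split_ifs <;> simp only [rer, rnm, ne_eq, Sum.inl.injEq, Prod.mk.injEq] <;>
        first
        | (intro h; exact absurd h.1 (by decide))
        | omega
    · intro i
      unfold sf2
      cases d <;> split_ifs <;> simp only [rer, rnm, ne_eq, Sum.inl.injEq, Prod.mk.injEq] <;>
        first
        | (intro h; exact absurd h.1 (by decide))
        | omega
  gp1 := by
    intro i
    unfold sp1 sf1
    split_ifs with h1 h2
    · rfl
    · rfl
    · change (Sum.inl (flk 3, w - 1 + 1, 0) : RA) = .inl (2, w, 0)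
      rw [Nat.sub_add_cancel hw]
      rfl
  gp2 := by
    intro i
    unfold sp2 sf2
    split_ifs with h1 h2
    · change (Sum.inl (flk 3, w - 1 + 1, 0) : RA) = .inl (2, w, 0)
      rw [Nat.sub_add_cancel hw]
      rfl
    · rfl
    · rfl
  cls := srow_cases L R hw
  bt := by
    obtain ⟨T, hT⟩ := rect_bt (rectN w 1) hw hφ
    refine ⟨T, ?_⟩
    rw [sfront1, sfront2]
    have e : (rIs w 1).map (rgT rer (fun _ => .S) (fun _ => 1 / 2)) =
        (rI w 1).map (rT rnm) := by
      unfold rIs
      rw [List.map_pmap]
      rw [← List.pmap_eq_map (p := fun p => p.1 < w ∧ p.2 < 1) (H := fun _ hp => mem_rI.1 hp)]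
      rfl
    rw [e]
    have e1 : ((List.range 1).map fun y => (rnm 3 0 y, (2 : ℤ), ang φ 2)).reverse =
        [(rnm 3 0 0, (2 : ℤ), ang φ 2)] := rfl
    have e2 : ((List.range 1).map fun y => (rnm 2 w y, (4 : ℤ), ang φ 4)) =
        [(rnm 2 w 0, (4 : ℤ), ang φ 4)] := rfl
    rw [e1, e2] at hT
    cases L
    · have h1 := Bt.rots [(rnm 3 0 0, (2 : ℤ), ang φ 2)] _ (by rw [List.append_assoc] at hT; exact hT)
      have a6 : ang φ 2 + 2 * (Real.pi : ℂ) = ang φ 6 := by rw [← ang_add_four]; norm_num
      have e3 : [(rnm 3 0 0, (2 : ℤ), ang φ 2)].map rt4 = [(rnm 3 0 0, (6 : ℤ), ang φ 6)] := by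
        simp only [List.map_cons, List.map_nil, rt4]
        rw [a6]
        norm_num
      rw [e3] at h1
      cases R
      · simpa using h1
      · simpa using h1
    · cases R
      · simpa using hT
      · simpa using hT

end

end Pool.Agent.H64.Win
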