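import Pool.Agent.H64.Win.Match
import Pool.Agent.H64.R45.Same

/-!
# The comparison theorem for two environments which differ in a strip
-/

namespace Pool.Agent.H64.Win

open Pool.Agent.H64.Q1 hiding Tl
open Pool.Agent.H81.G1 Pool.Agent.Q1 Pool.Agent.H33.Q1
open Pool.Agent.H75.Perc Pool.Agent.H75.TwoArm
open Pool.Agent.H74.R45 hiding Tl
open Pool.Agent.H46.Sp (TP lbP tyP crP)
open Pool.Agent.H46.Sp.Win (wal)
open Pool.Agent.H64.R45 (sin_ne sin_u sin_third wa2 wa3 wa4 wa5)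
open Finset

/-! ### The trigonometric weights -/

section trig

variable {u : ℂ}

theorem wa4' (hu : Complex.sin (2 * u) ≠ 0) :
    wa (ang (-u - Real.pi / 2) 4) = 1 - wa (u - Real.pi / 2) := by
  have h1 : Complex.sin ((u - Real.pi / 2 + Real.pi) / 3) ≠ 0 := by
    apply sin_third
    have := sin_u hu 1
    convert this using 2
    push_cast
    ring
  rw [one_sub_wa _ h1]
  unfold wa ang
  have e1 : (-u - (Real.pi : ℂ) / 2 + ((4 : ℤ) : ℂ) * (Real.pi / 2)) / 3 =
      ((Real.pi : ℂ) - (u - Real.pi / 2)) / 3 := by push_cast; ring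
  have e2 : (-u - (Real.pi : ℂ) / 2 + ((4 : ℤ) : ℂ) * (Real.pi / 2) + Real.pi) / 3 =
      Real.pi - (u - Real.pi / 2 + Real.pi) / 3 := by push_cast; ring
  rw [e1, e2, Complex.sin_pi_sub]

theorem wa6 (u : ℂ) : (wa (ang (-u - Real.pi / 2) 6))⁻¹ = wa (u - Real.pi / 2) := by
  unfold wa ang
  rw [inv_div]
  have e1 : (-u - (Real.pi : ℂ) / 2 + ((6 : ℤ) : ℂ) * (Real.pi / 2)) / 3 =
      Real.pi - (u - Real.pi / 2 + Real.pi) / 3 := by push_cast; ring
  have e2 : (-u - (Real.pi : ℂ) / 2 + ((6 : ℤ) : ℂ) * (Real.pi / 2) + Real.pi) / 3 =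
      Real.pi - (u - Real.pi / 2) / 3 := by push_cast; ring
  rw [e1, e2, Complex.sin_pi_sub, Complex.sin_pi_sub]

end trig

/-- **Weights** of the state {W-N, S-E} of the tiles of two environments which differ in a strip;
`AL`, `AR` : weights of the row tiles at the reflex corners -/
structure Wt (P1 P2 : Finset (ℤ × ℤ)) (a b j : ℤ) (lS lR rN rR : Bool) (A B C AL AR : ℂ)
    (α1 α2 : ℤ × ℤ → ℂ) : Prop where
  reg1 : ∀ x, a ≤ x → x < b → α1 (x, j) = 1 / 2
  reg2 : ∀ x, a ≤ x → x < b → α2 (x, j - 1) = 1 / 2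
  row1 : ∀ x, a ≤ x → x < b → α1 (x, j - 1) = A
  row2 : ∀ x, a ≤ x → x < b → α2 (x, j) = A
  l1 : lS = true → lR = false → α1 (a - 1, j) = 1 - B
  l1r : lS = true → lR = true → α1 (a - 1, j) = 1 - (1 - AL) * B ∧ α2 (a - 1, j) = AL
  l2 : lS = false → lR = false → α2 (a - 1, j - 1) = 1 - C
  l2r : lS = false → lR = true → α2 (a - 1, j - 1) = AL * (1 - C) ∧ α1 (a - 1, j - 1) = AL
  r1 : rN = true → rR = false → α1 (b, j) = 1 - C
  r1r : rN = true → rR = true → α1 (b, j) = (1 - C) * AR ∧ α2 (b, j) = AR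
  r2 : rN = false → rR = false → α2 (b, j - 1) = 1 - B
  r2r : rN = false → rR = true → α2 (b, j - 1) = 1 - B * (1 - AR) ∧ α1 (b, j - 1) = AR
  out : ∀ q ∈ PO P1 P2 a b j, q ≠ (a - 1, j) → q ≠ (a - 1, j - 1) → q ≠ (b, j) →
    q ≠ (b, j - 1) → α1 q = α2 q

section weights

variable {w : ℕ} {a b j : ℤ} {lS rN : Bool} {P1 P2 : Finset (ℤ × ℤ)} {lR rR : Bool}

/-- weights of the first split network -/
noncomputable def A1 (a b j : ℤ) (lS lR rN rR : Bool) (B C AL AR : ℂ) (α : ℤ × ℤ → ℂ) :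
    TP P1 ⊕ ↥(Mf P1 (mp1 a b j lS lR rN rR)) → ℂ
  | .inl i => if mp1 a b j lS lR rN rR i.1 = true then (if i.1.1 < a then AL else AR) else α i.1
  | .inr k => if k.1.1.1 < a then 1 - B else 1 - C

/-- weights of the second split network -/
noncomputable def A2 (a b j : ℤ) (lS lR rN rR : Bool) (B C AL AR : ℂ) (α : ℤ × ℤ → ℂ) :
    TP P2 ⊕ ↥(Mf P2 (mp2 a b j lS lR rN rR)) → ℂ
  | .inl i => if mp2 a b j lS lR rN rR i.1 = true then (if i.1.1 < a then AL else AR) else α i.1
  | .inr k => if k.1.1.1 < a then 1 - C else 1 - B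

variable (T : TabP P1 P2 a b j lS lR rN rR) (hw : b = a + w) (B C AL AR : ℂ) (α : ℤ × ℤ → ℂ)

theorem A1_J (x : Ix1 P1 P2 a b j w lS rN) :
    A1 a b j lS lR rN rR B C AL AR α (J1 T hw x) =
      if v1 lR rR x = true then (if (u1 x).1 < a then 1 - B else 1 - C) else
        if mp1 a b j lS lR rN rR (u1 x) = true then (if (u1 x).1 < a then AL else AR)
          else α (u1 x) := by
  unfold J1
  rw [mkJ_apply]
  unfold mkf
  by_cases h : v1 lR rR x = true
  · rw [dif_pos h, if_pos h]; rfl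
  · rw [dif_neg h, if_neg h]; rfl

theorem A2_J (x : Ix2 P1 P2 a b j w lS rN) :
    A2 a b j lS lR rN rR B C AL AR α (J2 T hw x) =
      if v2 lR rR x = true then (if (u2 x).1 < a then 1 - C else 1 - B) else
        if mp2 a b j lS lR rN rR (u2 x) = true then (if (u2 x).1 < a then AL else AR)
          else α (u2 x) := by
  unfold J2
  rw [mkJ_apply]
  unfold mkf
  by_cases h : v2 lR rR x = true
  · rw [dif_pos h, if_pos h]; rfl
  · rw [dif_neg h, if_neg h]; rfl

theorem A1_reg (p : RQ w 1) : A1 a b j lS lR rN rR B C AL AR α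
    (J1 (P1 := P1) (P2 := P2) T hw (.inl p)) = α (a + p.1.1, j) := by
  have h1 := p.2.1
  rw [A1_J, if_neg (by simp [v1]), if_neg]
  · rfl
  · change ¬ mp1 a b j lS lR rN rR (a + (p.1.1 : ℤ), j) = true
    rw [mp1_row (by omega) (by omega)]
    simp

theorem A2_reg (p : RQ w 1) : A2 a b j lS lR rN rR B C AL AR α
    (J2 (P1 := P1) (P2 := P2) T hw (.inl p)) = α (a + p.1.1, j - 1) := by
  have h1 := p.2.1
  rw [A2_J, if_neg (by simp [v2]), if_neg]
  · rfl
  · change ¬ mp2 a b j lS lR rN rR (a + (p.1.1 : ℤ), j - 1) = true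
    rw [mp2_row (by omega) (by omega)]
    simp

theorem A1_o (o : OT P1 P2 a b j) : A1 a b j lS lR rN rR B C AL AR α
    (J1 (P1 := P1) (P2 := P2) T hw (.inr (.inl o))) =
      if mp1 a b j lS lR rN rR o.1 = true then (if o.1.1 < a then AL else AR) else α o.1 := by
  rw [A1_J, if_neg (by simp [v1])]
  rfl

theorem A2_o (o : OT P1 P2 a b j) : A2 a b j lS lR rN rR B C AL AR α
    (J2 (P1 := P1) (P2 := P2) T hw (.inr (.inl o))) =
      if mp2 a b j lS lR rN rR o.1 = true then (if o.1.1 < a then AL else AR) else α o.1 := by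
  rw [A2_J, if_neg (by simp [v2])]
  rfl

theorem A1_l {i : Fin (m1 w lS rN)} {q : ℤ × ℤ} (h : lp1 a b j w lS i = q) :
    A1 a b j lS lR rN rR B C AL AR α (J1 (P1 := P1) (P2 := P2) T hw (.inr (.inr i))) =
      if mp1 a b j lS lR rN rR q = true then (if q.1 < a then 1 - B else 1 - C) else α q := by
  subst h
  rw [A1_J]
  change (if mp1 a b j lS lR rN rR (lp1 a b j w lS i) = true then
      (if (lp1 a b j w lS i).1 < a then _ else _) else
        if mp1 a b j lS lR rN rR (lp1 a b j w lS i) = true then _ else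
          α (lp1 a b j w lS i)) = _
  by_cases hm : mp1 a b j lS lR rN rR (lp1 a b j w lS i) = true
  · rw [if_pos hm, if_pos hm]
  · rw [if_neg hm, if_neg hm, if_neg hm]

theorem A2_l {i : Fin (m2 w lS rN)} {q : ℤ × ℤ} (h : lp2 a b j w rN i = q) :
    A2 a b j lS lR rN rR B C AL AR α (J2 (P1 := P1) (P2 := P2) T hw (.inr (.inr i))) =
      if mp2 a b j lS lR rN rR q = true then (if q.1 < a then 1 - C else 1 - B) else α q := by
  subst h
  rw [A2_J]
  change (if mp2 a b j lS lR rN rR (lp2 a b j w rN i) = true then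
      (if (lp2 a b j w rN i).1 < a then _ else _) else
        if mp2 a b j lS lR rN rR (lp2 a b j w rN i) = true then _ else
          α (lp2 a b j w rN i)) = _
  by_cases hm : mp2 a b j lS lR rN rR (lp2 a b j w rN i) = true
  · rw [if_pos hm, if_pos hm]
  · rw [if_neg hm, if_neg hm, if_neg hm]

end weights

/-! ### The data of the exchange theorem -/

variable {w : ℕ} {a b j : ℤ} {lS rN : Bool}
variable {X1 X2 : Env} {W1 W2 P1 P2 : Finset (ℤ × ℤ)} {lR cL rR cR : Bool}

/-- the weight of the state {W-N, S-E} of a tile is `α` -/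
def HasW (P : Finset (ℤ × ℤ)) (q : ℤ × ℤ → ℂ) (α : ℤ × ℤ → ℂ) : Prop :=
  ∀ x y, (x, y) ∈ P → q (lt (x, y)) = wal x y (α (x, y))

theorem HasW.A {P : Finset (ℤ × ℤ)} {q α : ℤ × ℤ → ℂ} (h : HasW P q α) (i : TP P) :
    wA lbP tyP q i = α i.1 ∧ wB lbP tyP q i = 1 - α i.1 := by
  obtain ⟨⟨x, y⟩, hi⟩ := i
  have h1 := h x y hi
  unfold wA wB lbP tyP
  simp only
  rw [h1]
  unfold wal
  rcases Int.emod_two_eq_zero_or_one (x + y) with h2 | h2
  · rw [h2]; simp
  · rw [h2]; simp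

variable {u AL AR : ℂ} {q1 q2 α1 α2 : ℤ × ℤ → ℂ}

/-- **The data of the exchange theorem.** -/
theorem epair (H : Cfg X1 X2 W1 W2 P1 P2 a b j w lS lR cL rN rR cR)
    (hu : Complex.sin (2 * u) ≠ 0)
    (HW : Wt P1 P2 a b j lS lR rN rR (wa u) (wa (u + Real.pi / 2)) (wa (u - Real.pi / 2)) AL AR
      α1 α2) (h1 : HasW P1 q1 α1) (h2 : HasW P2 q2 α2) (k0 : X1.k0 = X2.k0) (T0 : X1.T = X2.T)
    {z0 : End} (hz1 : ce z0.1 z0.2 = X1.c0) (hz2 : ce z0.1 z0.2 = X2.c0)
    (hi : inq z0.1 z0.2 = false) (hY : Yk (Kb a b j cL cR) z0) :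
    EPairS (RX H (-u - Real.pi / 2) (sin_ne hu)) H.n1 H.n2 H.T1 H.T2
      (Mf P1 (mp1 a b j lS lR rN rR)) (Mf P2 (mp2 a b j lS lR rN rR)) (μf P1 (μ1 a))
      (μf P2 (μ2 a)) (J1 H.tab H.hw) (J2 H.tab H.hw) (fun i => d1 w lS i) (fun i => d2 w rN i)
      q1 q2 (A1 a b j lS lR rN rR (wa (u + Real.pi / 2)) (wa (u - Real.pi / 2)) AL AR α1)
      (fun i => 1 - A1 a b j lS lR rN rR (wa (u + Real.pi / 2)) (wa (u - Real.pi / 2)) AL AR α1 i)
      (A2 a b j lS lR rN rR (wa (u + Real.pi / 2)) (wa (u - Real.pi / 2)) AL AR α2)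
      (fun i => 1 - A2 a b j lS lR rN rR (wa (u + Real.pi / 2)) (wa (u - Real.pi / 2)) AL AR α2
        i) := by
  have hw0 := H.hw0
  have hw := H.hw
  have hab := H.S.ab
  refine ⟨line1 H _ _, line2 H _ _, ?_, ex_io H _ _, ?_, ?_, ?_, ?_, ?_, ?_, ?_, k0, T0,
    ex_root H _ _ hz1 hz2 hi hY⟩
  · intro q
    obtain ⟨q', P⟩ := ex_pr H _ (sin_ne hu) q
    exact ⟨q', P.p1, P.p2, P.t⟩
  · -- weights of the first network
    refine ⟨?_, ?_, ?_, ?_⟩
    · intro i; rw [(h1.A i).1, (h1.A i).2]; ring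
    · intro i; ring
    · intro i hi
      rw [(h1.A i).1]
      change _ = if _ then _ else _
      rw [if_neg (fun h => hi (mem_Mf.2 h))]
    · intro m hm
      have hm' := mem_Mf.1 hm
      rw [(h1.A m).1, (h1.A m).2]
      have e1 : A1 (P1 := P1) a b j lS lR rN rR (wa (u + Real.pi / 2)) (wa (u - Real.pi / 2)) AL AR
          α1 (.inl m) = if m.1.1 < a then AL else AR := by
        change (if _ then _ else _) = _
        rw [if_pos hm']
      have e2 : A1 a b j lS lR rN rR (wa (u + Real.pi / 2)) (wa (u - Real.pi / 2)) AL AR α1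
          (.inr ⟨m, hm⟩) = if m.1.1 < a then 1 - wa (u + Real.pi / 2) else
            1 - wa (u - Real.pi / 2) := rfl
      rw [e1, e2]
      unfold μf
      rcases mp1_true hm' with ⟨f1, f2, f3⟩ | ⟨f1, f2, f3⟩
      · have hμ : μ1 a m.1 = .W := by unfold μ1; rw [f3]; simp only; rw [if_pos (by omega)]
        rw [hμ, f3, (HW.l1r f1 f2).1]
        simp only [Dir.v, Bool.false_eq_true, if_false]
        rw [if_pos (by omega), if_pos (by omega)]
        ring
      · have hμ : μ1 a m.1 = .N := by unfold μ1; rw [f3]; simp only; rw [if_neg (by omega)]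
        rw [hμ, f3, (HW.r1r f1 f2).1]
        simp only [Dir.v, if_true]
        rw [if_neg (by omega), if_neg (by omega)]
        ring
  · -- weights of the second network
    refine ⟨?_, ?_, ?_, ?_⟩
    · intro i; rw [(h2.A i).1, (h2.A i).2]; ring
    · intro i; ring
    · intro i hi
      rw [(h2.A i).1]
      change _ = if _ then _ else _
      rw [if_neg (fun h => hi (mem_Mf.2 h))]
    · intro m hm
      have hm' := mem_Mf.1 hm
      rw [(h2.A m).1, (h2.A m).2]
      have e1 : A2 (P2 := P2) a b j lS lR rN rR (wa (u + Real.pi / 2)) (wa (u - Real.pi / 2)) AL AR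
          α2 (.inl m) = if m.1.1 < a then AL else AR := by
        change (if _ then _ else _) = _
        rw [if_pos hm']
      have e2 : A2 a b j lS lR rN rR (wa (u + Real.pi / 2)) (wa (u - Real.pi / 2)) AL AR α2
          (.inr ⟨m, hm⟩) = if m.1.1 < a then 1 - wa (u - Real.pi / 2) else
            1 - wa (u + Real.pi / 2) := rfl
      rw [e1, e2]
      unfold μf
      rcases mp2_true hm' with ⟨f1, f2, f3⟩ | ⟨f1, f2, f3⟩
      · have hμ : μ2 a m.1 = .S := by unfold μ2; rw [f3]; simp only; rw [if_pos (by omega)]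
        rw [hμ, f3, (HW.l2r f1 f2).1]
        simp only [Dir.v, if_true]
        rw [if_pos (by omega), if_pos (by omega)]
      · have hμ : μ2 a m.1 = .E := by unfold μ2; rw [f3]; simp only; rw [if_neg (by omega)]
        rw [hμ, f3, (HW.r2r f1 f2).1]
        simp only [Dir.v, Bool.false_eq_true, if_false]
        rw [if_neg (by omega), if_neg (by omega)]
        ring
  · -- the region
    intro p
    have h1 := p.2.1
    have k := A1_reg H.tab H.hw (wa (u + Real.pi / 2)) (wa (u - Real.pi / 2)) AL AR α1 p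
    rw [HW.reg1 _ (by omega) (by omega)] at k
    exact k
  · intro p
    have h1 := p.2.1
    have k := A2_reg H.tab H.hw (wa (u + Real.pi / 2)) (wa (u - Real.pi / 2)) AL AR α2 p
    rw [HW.reg2 _ (by omega) (by omega)] at k
    exact k
  · -- the other tiles
    intro o
    change 1 - A1 a b j lS lR rN rR _ _ AL AR α1 (J1 H.tab H.hw _) =
      1 - A2 a b j lS lR rN rR _ _ AL AR α2 (J2 H.tab H.hw _)
    congr 1
    rw [A1_o, A2_o]
    obtain ⟨⟨o1, o2⟩, o3⟩ := mem_PO.1 o.2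
    by_cases c1 : mp1 a b j lS lR rN rR o.1 = true
    · rw [if_pos c1]
      rcases mp1_true c1 with ⟨f1, f2, f3⟩ | ⟨f1, f2, f3⟩
      · have hn : ¬ mp2 a b j lS lR rN rR o.1 = true := by
          intro hc
          rcases mp2_true hc with ⟨g1, -⟩ | ⟨-, -, g1⟩
          · rw [f1] at g1; exact absurd g1 (by simp)
          · rw [f3, Prod.mk.injEq] at g1; omega
        rw [if_neg hn, f3, (HW.l1r f1 f2).2, if_pos (by simp)]
      · have hn : ¬ mp2 a b j lS lR rN rR o.1 = true := by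
          intro hc
          rcases mp2_true hc with ⟨-, -, g1⟩ | ⟨g1, -⟩
          · rw [f3, Prod.mk.injEq] at g1; omega
          · rw [f1] at g1; exact absurd g1 (by simp)
        rw [if_neg hn, f3, (HW.r1r f1 f2).2, if_neg (by simp only; omega)]
    · rw [if_neg c1]
      by_cases c2 : mp2 a b j lS lR rN rR o.1 = true
      · rw [if_pos c2]
        rcases mp2_true c2 with ⟨f1, f2, f3⟩ | ⟨f1, f2, f3⟩
        · rw [f3, (HW.l2r f1 f2).2, if_pos (by simp)]
        · rw [f3, (HW.r2r f1 f2).2, if_neg (by simp only; omega)]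
      · rw [if_neg c2]
        refine HW.out _ o.2 ?_ ?_ ?_ ?_
        · intro h
          rw [h] at o2 c1
          apply c1
          rw [mp1_l hab, (H.tab.a2.1 o2).1, (H.tab.a2.1 o2).2]; rfl
        · intro h
          rw [h] at o1 c2
          apply c2
          rw [mp2_l hab, (H.tab.a4.1 o1).1, (H.tab.a4.1 o1).2]; rfl
        · intro h
          rw [h] at o2 c1
          apply c1
          rw [mp1_r hab, (H.tab.b2.1 o2).1, (H.tab.b2.1 o2).2]; rfl
        · intro h
          rw [h] at o1 c2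
          apply c2
          rw [mp2_r hab, (H.tab.b4.1 o1).1, (H.tab.b4.1 o1).2]; rfl
  · -- the first line
    intro i
    change (if (d1 w lS i).v then A1 a b j lS lR rN rR _ _ AL AR α1 (J1 H.tab H.hw _) else
      1 - A1 a b j lS lR rN rR _ _ AL AR α1 (J1 H.tab H.hw _)) =
        wa (ang _ (skf lS (sf1 lS rN w i)))
    rcases c1 (a := a) (b := b) (j := j) (rN := rN) hw0 i with ⟨e0, e1, e2, e3, e4, e5, e6⟩ |
      ⟨x, ex, e0, e2, e3, e4, e5, e6⟩ | ⟨e0, e1, e2, e3, e4, e5, e6⟩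
    · rw [A1_l _ _ _ _ _ _ _ e2, e3, e6, wa2 hu, if_pos (show Dir.N.v = true from rfl), mp1_l hab]
      rcases bf lR with hR | hR
      · rw [hR, Bool.and_false, if_neg (by simp)]
        exact HW.l1 e1 hR
      · rw [hR, e1, if_pos (by simp), if_pos (by simp)]
    · rw [A1_l _ _ _ _ _ _ _ e2, e3, e6, wa3 hu, if_neg (by decide), mp1_row (by omega) (by omega),
        if_neg (by simp), HW.row1 _ (by omega) (by omega)]
    · rw [A1_l _ _ _ _ _ _ _ e2, e3, e6, wa4' hu, if_pos (show Dir.S.v = true from rfl), mp1_r hab]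
      rcases bf rR with hR | hR
      · rw [hR, Bool.and_false, if_neg (by simp)]
        exact HW.r1 e1 hR
      · rw [hR, e1, if_pos (by simp), if_neg (by simp only; omega)]
  · -- the second line
    intro i
    change (if (d2 w rN i).v then A2 a b j lS lR rN rR _ _ AL AR α2 (J2 H.tab H.hw _) else
      1 - A2 a b j lS lR rN rR _ _ AL AR α2 (J2 H.tab H.hw _)) =
        1 - (wa (ang _ (skf lS (sf2 lS rN w i))))⁻¹
    rcases c2 (a := a) (b := b) (j := j) (lS := lS) hw0 i with ⟨e0, e1, e2, e3, e4, e5, e6⟩ |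
      ⟨x, ex, e0, e2, e3, e4, e5, e6⟩ | ⟨e0, e1, e2, e3, e4, e5, e6⟩
    · rw [A2_l _ _ _ _ _ _ _ e2, e3, e6, wa4, if_pos (show Dir.S.v = true from rfl), mp2_r hab]
      rcases bf rR with hR | hR
      · rw [hR, Bool.and_false, if_neg (by simp)]
        exact HW.r2 e1 hR
      · rw [hR, e1, if_pos (by simp), if_neg (by simp only; omega)]
    · rw [A2_l _ _ _ _ _ _ _ e2, e3, e6, wa5, if_neg (by decide), mp2_row (by omega) (by omega),
        if_neg (by simp), HW.row2 _ (by omega) (by omega)]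
    · rw [A2_l _ _ _ _ _ _ _ e2, e3, e6, wa6, if_pos (show Dir.N.v = true from rfl), mp2_l hab]
      rcases bf lR with hR | hR
      · rw [hR, Bool.and_false, if_neg (by simp)]
        exact HW.l2 e1 hR
      · rw [hR, e1, if_pos (by simp), if_pos (by simp)]

/-- **The comparison theorem.** -/
theorem strip_inc (H : Cfg X1 X2 W1 W2 P1 P2 a b j w lS lR cL rN rR cR)
    (hu : Complex.sin (2 * u) ≠ 0)
    (HW : Wt P1 P2 a b j lS lR rN rR (wa u) (wa (u + Real.pi / 2)) (wa (u - Real.pi / 2)) AL AR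
      α1 α2) (h1 : HasW P1 q1 α1) (h2 : HasW P2 q2 α2) (k0 : X1.k0 = X2.k0) (T0 : X1.T = X2.T)
    {z0 : End} (hz1 : ce z0.1 z0.2 = X1.c0) (hz2 : ce z0.1 z0.2 = X2.c0)
    (hi : inq z0.1 z0.2 = false) (hY : Yk (Kb a b j cL cR) z0) {z z' : End} {δ : ℤ}
    (h : Ends (sto X1.E W1) (sto X2.E W2) a b j lS lR cL rN rR cR z z' δ) :
    X2.incW q2 (ce z'.1 z'.2) = zt ^ (6 * (ty (ce z'.1 z'.2) - ty (ce z.1 z.2)) + 2 * δ) *
      X1.incW q1 (ce z.1 z.2) := by
  obtain ⟨q, hq⟩ := ends_pl H (-u - Real.pi / 2) (sin_ne hu) h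
  obtain ⟨m1, n1⟩ := hq.l
  obtain ⟨m2, n2⟩ := hq.r
  have key := env_exchange_s (epair H hu HW h1 h2 k0 T0 hz1 hz2 hi hY) (q := q)
    (z1 := (⟨z.1, m1⟩, z.2)) (z2 := (⟨z'.1, m2⟩, z'.2)) n1.symm n2.symm
  have e := hq.d
  change X2.incW q2 (ce z'.1 z'.2) = zt ^ (6 * (ty (ce z'.1 z'.2) - ty (ce z.1 z.2)) +
    2 * dd H _ _ q) * X1.incW q1 (ce z.1 z.2) at key
  rw [e] at key
  exact key

end Pool.Agent.H64.Win
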