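import Pool.Agent.H64.Win.NoRR
import Pool.Agent.H5.FM.Dis

/-!
# The windows of a shape with `Dis`
-/

namespace Pool.Agent.H64.Win

open Pool.Agent.H64.Q1 (wa)
open Pool.Agent.H46.Sp (Out)
open Pool.Agent.H74.Win (SameW)
open Pool.Agent.H5.FM (RfL RfR RowF Dis winOf)
open Pool.Agent.H21.FM (Shape)

variable {D : Pool.Agent.H46.Sp.Win} {j : ℤ}

theorem fL_RfL : fL D j = true ↔ RfL D j := by
  unfold fL RfL
  split_ifs <;> simp

theorem fR_RfR : fR D j = true ↔ RfR D j := by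
  unfold fR RfR
  split_ifs <;> simp

theorem noRR_of (h : ∀ j, 0 ≤ j → j < D.h → ¬ (RfL D j ∧ RfR D j)) : NoRR D := by
  intro j h0 h1
  rw [fL_RfL, fR_RfR]
  exact h j h0 h1

/-- the windows of a shape with `Dis` -/
theorem noRR_win {S : Shape} {y0 y1 : ℤ} {a b : ℤ → ℤ} {yP yQ : ℤ}
    (F : RowF S.P.Q y0 y1 a b yP yQ) (hD : Dis S.P.Q) {n : ℕ} (hn : 1 ≤ n) (h2 : 2 ≤ n) :
    NoRR (winOf F n hn) :=
  noRR_of fun j j0 jH => Pool.Agent.H5.FM.dis_win F hD hn h2 j j0 jH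

end Pool.Agent.H64.Win
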