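import Pool.Agent.H64.Win.Lines

/-!
# The exposed ends of the two networks
-/

namespace Pool.Agent.H64.Win

open Pool.Agent.H64.Q1 hiding Tl
open Pool.Agent.H81.G1 Pool.Agent.Q1 Pool.Agent.H33.Q1
open Pool.Agent.H75.Perc Pool.Agent.H75.TwoArm
open Pool.Agent.H74.R45 hiding Tl
open Pool.Agent.H46.Sp (TP lbP tyP crP)
open Finset

variable {w : ℕ} {a b j : ℤ} {lS rN : Bool}
variable {X1 X2 : Env} {W1 W2 P1 P2 : Finset (ℤ × ℤ)} {lR cL rR cR : Bool}
  (H : Cfg X1 X2 W1 W2 P1 P2 a b j w lS lR cL rN rR cR) (φ : ℂ)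
  (hφ : ∀ k, Complex.sin (ang φ k) ≠ 0)

/-- exposed ends -/
abbrev EX (P1 P2 : Finset (ℤ × ℤ)) (a b j : ℤ) (w : ℕ) (lS rN : Bool) : Type :=
  Ex (OT P1 P2 a b j) (m1 w lS rN) (m2 w lS rN)

theorem Cfg.n1 (H : Cfg X1 X2 W1 W2 P1 P2 a b j w lS lR cL rN rR cR) : 0 < m1 w lS rN := by
  have := H.hw0
  simp only [m1]
  omega

theorem Cfg.n2 (H : Cfg X1 X2 W1 W2 P1 P2 a b j w lS lR cL rN rR cR) : 0 < m2 w lS rN := by
  have := H.hw0
  simp only [m2]
  omega

/-- the exposed ends of the first network -/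
noncomputable abbrev ee1 (q : EX P1 P2 a b j w lS rN) :
    (TP P1 ⊕ ↥(Mf P1 (mp1 a b j lS lR rN rR))) × Dir :=
  (RX H φ hφ).E1 H.n1 (J1 H.tab H.hw) (fun i => d1 w lS i) q

/-- the exposed ends of the second network -/
noncomputable abbrev ee2 (q : EX P1 P2 a b j w lS rN) :
    (TP P2 ⊕ ↥(Mf P2 (mp2 a b j lS lR rN rR))) × Dir :=
  (RX H φ hφ).E2 H.n2 (J2 H.tab H.hw) (fun i => d2 w rN i) q

/-- difference of the turnings -/
noncomputable abbrev dd (q : EX P1 P2 a b j w lS rN) : ℤ := (RX H φ hφ).dl H.n1 H.n2 q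

/-- the place of an exposed end in the first environment -/
abbrev Q1 (q : EX P1 P2 a b j w lS rN) (z : End) : Prop :=
  R1 P1 a b j lS lR rN rR (ee1 H φ hφ q) z

/-- the place of an exposed end in the second environment -/
abbrev Q2 (q : EX P1 P2 a b j w lS rN) (z : End) : Prop :=
  R2 P2 a b j lS lR rN rR (ee2 H φ hφ q) z

/-! ### Turnings -/

theorem dd_f1 (i) : dd H φ hφ (.f1 i) = 0 := rfl
theorem dd_f2 (i) : dd H φ hφ (.f2 i) = 0 := rfl
theorem dd_o (x) : dd H φ hφ (.o x) = 0 := rfl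

theorem dd_u : dd H φ hφ .u = 1 := by
  have hw0 := H.hw0
  change 1 - skf lS (sf2 lS rN w ⟨0, H.n2⟩) + 0 -
    (0 - (skf lS (sf1 lS rN w ⟨m1 w lS rN - 1, _⟩) + 1)) = 1
  have k1 := c1 (a := a) (b := b) (j := j) hw0 (⟨m1 w lS rN - 1, by have := H.n1; omega⟩ :
    Fin (m1 w lS rN))
  have k2 := c2 (a := a) (b := b) (j := j) hw0 (⟨0, H.n2⟩ : Fin (m2 w lS rN))
  simp only at k1 k2
  have hab := H.S.ab
  have hw := H.hw
  cases rN
  · rcases k1 with ⟨e0, -⟩ | ⟨x, ex, e0, -, -, -, -, e6⟩ | ⟨-, e1, -⟩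
    · simp only [m1, bn_false] at e0; omega
    · rcases k2 with ⟨-, -, -, -, -, -, f6⟩ | ⟨y, ey, f0, -⟩ | ⟨f0, -⟩
      · rw [e6, f6]; norm_num
      · simp only [Bool.not_false, bn_true] at f0; omega
      · simp only [Bool.not_false, bn_true] at f0; omega
    · exact absurd e1 (by simp)
  · rcases k1 with ⟨e0, -⟩ | ⟨x, ex, e0, -⟩ | ⟨-, -, -, -, -, -, e6⟩
    · simp only [m1, bn_true] at e0; omega
    · simp only [m1, bn_true] at e0; omega
    · rcases k2 with ⟨-, f1, -⟩ | ⟨y, ey, f0, -, -, -, -, f6⟩ | ⟨f0, -⟩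
      · exact absurd f1 (by simp)
      · rw [e6, f6]; norm_num
      · simp only [Bool.not_true, bn_false] at f0; omega

theorem dd_v : dd H φ hφ .v = -1 := by
  have hw0 := H.hw0
  change 4 - (skf lS (sf2 lS rN w ⟨m2 w lS rN - 1, _⟩) + 1) -
    (1 - skf lS (sf1 lS rN w ⟨0, H.n1⟩) + 0) = -1
  have k1 := c1 (a := a) (b := b) (j := j) hw0 (⟨0, H.n1⟩ : Fin (m1 w lS rN))
  have k2 := c2 (a := a) (b := b) (j := j) hw0 (⟨m2 w lS rN - 1, by have := H.n2; omega⟩ :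
    Fin (m2 w lS rN))
  simp only at k1 k2
  have hab := H.S.ab
  have hw := H.hw
  cases lS
  · rcases k1 with ⟨-, e1, -⟩ | ⟨x, ex, e0, -, -, -, -, e6⟩ | ⟨e0, -⟩
    · exact absurd e1 (by simp)
    · rcases k2 with ⟨f0, -⟩ | ⟨y, ey, f0, -⟩ | ⟨-, -, -, -, -, -, f6⟩
      · simp only [m2, Bool.not_false, bn_true] at f0; omega
      · simp only [m2, Bool.not_false, bn_true] at f0; omega
      · rw [e6, f6]; norm_num
    · simp only [bn_false] at e0; omega
  · rcases k1 with ⟨-, -, -, -, -, -, e6⟩ | ⟨x, ex, e0, -⟩ | ⟨e0, -⟩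
    · rcases k2 with ⟨f0, -⟩ | ⟨y, ey, f0, -, -, -, -, f6⟩ | ⟨-, f1, -⟩
      · simp only [m2, Bool.not_true, bn_false] at f0; omega
      · rw [e6, f6]; norm_num
      · exact absurd f1 (by simp)
    · simp only [bn_true] at e0; omega
    · simp only [bn_true] at e0; omega

/-! ### Places -/

/-- tops -/
theorem p_top {x : ℤ} (h1 : a ≤ x) (h2 : x < b) : ∃ i, Q1 H φ hφ (.f2 i) ((x, j), .N) ∧
    Q2 H φ hφ (.f2 i) ((x, j), .N) := by
  have hw0 := H.hw0
  have hw := H.hw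
  obtain ⟨i, i1, i2, i3, i4⟩ := ix2_t (lS := lS) (rN := rN) H.tab H.hw h1 h2
  have k1 := r1_reg H.tab H.hw (sp2 lS rN hw0 i)
  rcases c2 (a := a) (b := b) (j := j) (lS := lS) hw0 i with ⟨e0, e1, e2, e3, e4, e5, -⟩ |
      ⟨y, ey, e0, e2, e3, e4, e5, -⟩ | ⟨e0, e1, e2, e3, e4, e5, -⟩
  · rw [e2, Prod.mk.injEq] at i4; omega
  · refine ⟨i, ?_, ?_⟩
    · rw [e4, e5] at k1
      have e : ((a + ((w - 1 - y : ℕ) : ℤ), j) : ℤ × ℤ) = (x, j) := by
        rw [Prod.mk.injEq]; omega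
      rw [e] at k1
      exact k1
    · have k2 := r2_t H.tab H.hw i4 h1 h2 (rc (rc (rc (d2 w rN i))))
      have e : rc (rc (rc (d2 w rN i))) = .N := by rw [e3]; rfl
      rw [e] at k2
      change Rl _ _ _ (jl _ _ (rc (rc (rc (d2 w rN i))))) _
      rw [e]
      exact k2
  · rw [e2, Prod.mk.injEq] at i4; omega

/-- bottoms -/
theorem p_bot {x : ℤ} (h1 : a ≤ x) (h2 : x < b) : ∃ i, Q1 H φ hφ (.f1 i) ((x, j - 1), .S) ∧
    Q2 H φ hφ (.f1 i) ((x, j - 1), .S) := by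
  have hw0 := H.hw0
  have hw := H.hw
  obtain ⟨i, i1, i2, i3, i4⟩ := ix1_b (lS := lS) (rN := rN) H.tab H.hw h1 h2
  have k1 := r2_reg H.tab H.hw (sp1 lS rN hw0 i)
  rcases c1 (a := a) (b := b) (j := j) (rN := rN) hw0 i with ⟨e0, e1, e2, e3, e4, e5, -⟩ |
      ⟨y, ey, e0, e2, e3, e4, e5, -⟩ | ⟨e0, e1, e2, e3, e4, e5, -⟩
  · rw [e2, Prod.mk.injEq] at i4; omega
  · refine ⟨i, ?_, ?_⟩
    · have k2 := r1_b H.tab H.hw i4 h1 h2 (rc (rc (rc (d1 w lS i))))
      have e : rc (rc (rc (d1 w lS i))) = .S := by rw [e3]; rfl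
      rw [e] at k2
      change Rl _ _ _ (jl _ _ (rc (rc (rc (d1 w lS i))))) _
      rw [e]
      exact k2
    · rw [e4, e5] at k1
      have e : ((a + ((y : ℕ) : ℤ), j - 1) : ℤ × ℤ) = (x, j - 1) := by
        rw [Prod.mk.injEq]; omega
      rw [e] at k1
      exact k1
  · rw [e2, Prod.mk.injEq] at i4; omega

/-- left end, first line -/
theorem p_f1l (h : lS = true) {i : Fin (m1 w lS rN)} (hi : (i : ℕ) = 0) :
    (lR = false → Q1 H φ hφ (.f1 i) ((a - 1, j), .W)) ∧ Q2 H φ hφ (.f1 i) ((a, j - 1), .W) := by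
  have hw0 := H.hw0
  have hw := H.hw
  have hab := H.S.ab
  have hb : bn lS = 1 := by rw [h]; rfl
  have k1 := r2_reg H.tab H.hw (sp1 lS rN hw0 i)
  rcases c1 (a := a) (b := b) (j := j) (rN := rN) hw0 i with ⟨e0, e1, e2, e3, e4, e5, -⟩ |
      ⟨y, ey, e0, e2, e3, e4, e5, -⟩ | ⟨e0, e1, e2, e3, e4, e5, -⟩
  · constructor
    · intro hR
      have k2 := r1_l H.tab H.hw e2 (d := rc (rc (rc (d1 w lS i)))) (Or.inl hR)
      have e : rc (rc (rc (d1 w lS i))) = .W := by rw [e3]; rfl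
      rw [e] at k2
      change Rl _ _ _ (jl _ _ (rc (rc (rc (d1 w lS i))))) _
      rw [e]
      exact k2
    · rw [e4, e5] at k1
      have e : ((a + ((0 : ℕ) : ℤ), j - 1) : ℤ × ℤ) = (a, j - 1) := by
        rw [Prod.mk.injEq]; omega
      rw [e] at k1
      exact k1
  · omega
  · omega

/-- right end, first line -/
theorem p_f1r (h : rN = true) {i : Fin (m1 w lS rN)} (hi : (i : ℕ) = bn lS + w) :
    (rR = false → Q1 H φ hφ (.f1 i) ((b, j), .E)) ∧
      Q2 H φ hφ (.f1 i) ((b - 1, j - 1), .E) := by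
  have hw0 := H.hw0
  have hw := H.hw
  have hab := H.S.ab
  have k1 := r2_reg H.tab H.hw (sp1 lS rN hw0 i)
  rcases c1 (a := a) (b := b) (j := j) (rN := rN) hw0 i with ⟨e0, e1, e2, e3, e4, e5, -⟩ |
      ⟨y, ey, e0, e2, e3, e4, e5, -⟩ | ⟨e0, e1, e2, e3, e4, e5, -⟩
  · omega
  · omega
  · constructor
    · intro hR
      have k2 := r1_r H.tab H.hw e2 (d := rc (rc (rc (d1 w lS i)))) (Or.inl hR)
      have e : rc (rc (rc (d1 w lS i))) = .E := by rw [e3]; rfl
      rw [e] at k2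
      change Rl _ _ _ (jl _ _ (rc (rc (rc (d1 w lS i))))) _
      rw [e]
      exact k2
    · rw [e4, e5] at k1
      have e : ((a + ((w - 1 : ℕ) : ℤ), j - 1) : ℤ × ℤ) = (b - 1, j - 1) := by
        rw [Prod.mk.injEq]; omega
      rw [e] at k1
      exact k1

/-- right end, second line -/
theorem p_f2r (h : rN = false) {i : Fin (m2 w lS rN)} (hi : (i : ℕ) = 0) :
    Q1 H φ hφ (.f2 i) ((b - 1, j), .E) ∧
      (rR = false → Q2 H φ hφ (.f2 i) ((b, j - 1), .E)) := by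
  have hw0 := H.hw0
  have hw := H.hw
  have hab := H.S.ab
  have hb : bn (!rN) = 1 := by rw [h]; rfl
  have k1 := r1_reg H.tab H.hw (sp2 lS rN hw0 i)
  rcases c2 (a := a) (b := b) (j := j) (lS := lS) hw0 i with ⟨e0, e1, e2, e3, e4, e5, -⟩ |
      ⟨y, ey, e0, e2, e3, e4, e5, -⟩ | ⟨e0, e1, e2, e3, e4, e5, -⟩
  · constructor
    · rw [e4, e5] at k1
      have e : ((a + ((w - 1 : ℕ) : ℤ), j) : ℤ × ℤ) = (b - 1, j) := by
        rw [Prod.mk.injEq]; omega
      rw [e] at k1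
      exact k1
    · intro hR
      have k2 := r2_r H.tab H.hw e2 (d := rc (rc (rc (d2 w rN i)))) (Or.inl hR)
      have e : rc (rc (rc (d2 w rN i))) = .E := by rw [e3]; rfl
      rw [e] at k2
      change Rl _ _ _ (jl _ _ (rc (rc (rc (d2 w rN i))))) _
      rw [e]
      exact k2
  · omega
  · omega

/-- left end, second line -/
theorem p_f2l (h : lS = false) {i : Fin (m2 w lS rN)} (hi : (i : ℕ) = bn (!rN) + w) :
    Q1 H φ hφ (.f2 i) ((a, j), .W) ∧
      (lR = false → Q2 H φ hφ (.f2 i) ((a - 1, j - 1), .W)) := by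
  have hw0 := H.hw0
  have hw := H.hw
  have hab := H.S.ab
  have k1 := r1_reg H.tab H.hw (sp2 lS rN hw0 i)
  rcases c2 (a := a) (b := b) (j := j) (lS := lS) hw0 i with ⟨e0, e1, e2, e3, e4, e5, -⟩ |
      ⟨y, ey, e0, e2, e3, e4, e5, -⟩ | ⟨e0, e1, e2, e3, e4, e5, -⟩
  · omega
  · omega
  · constructor
    · rw [e4, e5] at k1
      have e : ((a + ((0 : ℕ) : ℤ), j) : ℤ × ℤ) = (a, j) := by
        rw [Prod.mk.injEq]; omega
      rw [e] at k1
      exact k1
    · intro hR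
      have k2 := r2_l H.tab H.hw e2 (d := rc (rc (rc (d2 w rN i)))) (Or.inl hR)
      have e : rc (rc (rc (d2 w rN i))) = .W := by rw [e3]; rfl
      rw [e] at k2
      change Rl _ _ _ (jl _ _ (rc (rc (rc (d2 w rN i))))) _
      rw [e]
      exact k2

/-- the mark at the left end, line towards S -/
theorem p_vS (h : lS = true) : (lR = false → Q1 H φ hφ .v ((a - 1, j), .N)) ∧
    Q2 H φ hφ .v ((a, j), .W) := by
  have hw0 := H.hw0
  have hw := H.hw
  have hab := H.S.ab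
  have hb : bn (!lS) = 0 := by rw [h]; rfl
  constructor
  · intro hR
    rcases c1 (a := a) (b := b) (j := j) (rN := rN) hw0 (⟨0, H.n1⟩ : Fin (m1 w lS rN)) with
      ⟨e0, e1, e2, e3, -⟩ | ⟨y, ey, e0, -⟩ | ⟨e0, -⟩
    · have k2 := r1_l H.tab H.hw e2 (d := d1 w lS 0) (Or.inl hR)
      simp only at e3
      rw [e3] at k2
      change Rl _ _ _ (jl _ _ (d1 w lS 0)) _
      rw [e3]
      exact k2
    · simp only [h, bn_true] at e0; omega
    · simp only [h, bn_true] at e0; omega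
  · have hn : m2 w lS rN - 1 < m2 w lS rN := by have := H.n2; omega
    rcases c2 (a := a) (b := b) (j := j) (lS := lS) hw0 (⟨m2 w lS rN - 1, hn⟩ :
      Fin (m2 w lS rN)) with ⟨e0, -⟩ | ⟨y, ey, e0, e2, e3, -⟩ | ⟨-, e1, -⟩
    · simp only [m2] at e0; omega
    · simp only [m2] at e0
      have k2 := r2_t H.tab H.hw e2 (by omega) (by omega) (rc (rc (d2 w rN (m2 w lS rN - 1))))
      simp only at e3
      have e : rc (rc (d2 w rN (m2 w lS rN - 1))) = .W := by rw [e3]; rfl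
      have e' : ((b - 1 - (y : ℤ), j) : ℤ × ℤ) = (a, j) := by
        rw [Prod.mk.injEq]; omega
      rw [e, e'] at k2
      change Rl _ _ _ (jl _ _ (rc (rc (d2 w rN (m2 w lS rN - 1))))) _
      rw [e]
      exact k2
    · rw [h] at e1; exact absurd e1 (by simp)

/-- the mark at the left end, line towards N -/
theorem p_vN (h : lS = false) : Q1 H φ hφ .v ((a, j - 1), .W) ∧
    (lR = false → Q2 H φ hφ .v ((a - 1, j - 1), .S)) := by
  have hw0 := H.hw0
  have hw := H.hw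
  have hab := H.S.ab
  have hb : bn (!lS) = 1 := by rw [h]; rfl
  have hb' : bn lS = 0 := by rw [h]; rfl
  constructor
  · rcases c1 (a := a) (b := b) (j := j) (rN := rN) hw0 (⟨0, H.n1⟩ : Fin (m1 w lS rN)) with
      ⟨e0, e1, e2, e3, -⟩ | ⟨y, ey, e0, e2, e3, -⟩ | ⟨e0, -⟩
    · rw [h] at e1; exact absurd e1 (by simp)
    · simp only at e0
      have k2 := r1_b H.tab H.hw e2 (by omega) (by omega) (d1 w lS 0)
      simp only at e3
      have e' : ((a + (y : ℤ), j - 1) : ℤ × ℤ) = (a, j - 1) := by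
        rw [Prod.mk.injEq]; omega
      rw [e3, e'] at k2
      change Rl _ _ _ (jl _ _ (d1 w lS 0)) _
      rw [e3]
      exact k2
    · simp only at e0; omega
  · intro hR
    have hn : m2 w lS rN - 1 < m2 w lS rN := by have := H.n2; omega
    rcases c2 (a := a) (b := b) (j := j) (lS := lS) hw0 (⟨m2 w lS rN - 1, hn⟩ :
      Fin (m2 w lS rN)) with ⟨e0, -⟩ | ⟨y, ey, e0, -⟩ | ⟨-, e1, e2, e3, -⟩
    · simp only [m2] at e0; omega
    · simp only [m2] at e0; omega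
    · have k2 := r2_l H.tab H.hw e2 (d := rc (rc (d2 w rN (m2 w lS rN - 1)))) (Or.inl hR)
      simp only at e3
      have e : rc (rc (d2 w rN (m2 w lS rN - 1))) = .S := by rw [e3]; rfl
      rw [e] at k2
      change Rl _ _ _ (jl _ _ (rc (rc (d2 w rN (m2 w lS rN - 1))))) _
      rw [e]
      exact k2

/-- the mark at the right end, line towards N -/
theorem p_uN (h : rN = true) : (rR = false → Q1 H φ hφ .u ((b, j), .N)) ∧
    Q2 H φ hφ .u ((b - 1, j), .E) := by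
  have hw0 := H.hw0
  have hw := H.hw
  have hab := H.S.ab
  have hb : bn rN = 1 := by rw [h]; rfl
  have hb' : bn (!rN) = 0 := by rw [h]; rfl
  constructor
  · intro hR
    have hn : m1 w lS rN - 1 < m1 w lS rN := by have := H.n1; omega
    rcases c1 (a := a) (b := b) (j := j) (rN := rN) hw0 (⟨m1 w lS rN - 1, hn⟩ :
      Fin (m1 w lS rN)) with ⟨e0, -⟩ | ⟨y, ey, e0, -⟩ | ⟨-, e1, e2, e3, -⟩
    · simp only [m1] at e0; omega
    · simp only [m1] at e0; omega
    · have k2 := r1_r H.tab H.hw e2 (d := rc (rc (d1 w lS (m1 w lS rN - 1)))) (Or.inl hR)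
      simp only at e3
      have e : rc (rc (d1 w lS (m1 w lS rN - 1))) = .N := by rw [e3]; rfl
      rw [e] at k2
      change Rl _ _ _ (jl _ _ (rc (rc (d1 w lS (m1 w lS rN - 1))))) _
      rw [e]
      exact k2
  · rcases c2 (a := a) (b := b) (j := j) (lS := lS) hw0 (⟨0, H.n2⟩ : Fin (m2 w lS rN)) with
      ⟨e0, e1, -⟩ | ⟨y, ey, e0, e2, e3, -⟩ | ⟨e0, -⟩
    · rw [h] at e1; exact absurd e1 (by simp)
    · simp only at e0
      have k2 := r2_t H.tab H.hw e2 (by omega) (by omega) (d2 w rN 0)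
      simp only at e3
      have e' : ((b - 1 - (y : ℤ), j) : ℤ × ℤ) = (b - 1, j) := by
        rw [Prod.mk.injEq]; omega
      rw [e3, e'] at k2
      change Rl _ _ _ (jl _ _ (d2 w rN 0)) _
      rw [e3]
      exact k2
    · simp only at e0; omega

/-- the mark at the right end, line towards S -/
theorem p_uS (h : rN = false) : Q1 H φ hφ .u ((b - 1, j - 1), .E) ∧
    (rR = false → Q2 H φ hφ .u ((b, j - 1), .S)) := by
  have hw0 := H.hw0
  have hw := H.hw
  have hab := H.S.ab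
  have hb : bn rN = 0 := by rw [h]; rfl
  have hb' : bn (!rN) = 1 := by rw [h]; rfl
  constructor
  · have hn : m1 w lS rN - 1 < m1 w lS rN := by have := H.n1; omega
    rcases c1 (a := a) (b := b) (j := j) (rN := rN) hw0 (⟨m1 w lS rN - 1, hn⟩ :
      Fin (m1 w lS rN)) with ⟨e0, -⟩ | ⟨y, ey, e0, e2, e3, -⟩ | ⟨-, e1, -⟩
    · simp only [m1] at e0; omega
    · simp only [m1] at e0
      have k2 := r1_b H.tab H.hw e2 (by omega) (by omega) (rc (rc (d1 w lS (m1 w lS rN - 1))))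
      simp only at e3
      have e : rc (rc (d1 w lS (m1 w lS rN - 1))) = .E := by rw [e3]; rfl
      have e' : ((a + (y : ℤ), j - 1) : ℤ × ℤ) = (b - 1, j - 1) := by
        rw [Prod.mk.injEq]; omega
      rw [e, e'] at k2
      change Rl _ _ _ (jl _ _ (rc (rc (d1 w lS (m1 w lS rN - 1))))) _
      rw [e]
      exact k2
    · rw [h] at e1; exact absurd e1 (by simp)
  · intro hR
    rcases c2 (a := a) (b := b) (j := j) (lS := lS) hw0 (⟨0, H.n2⟩ : Fin (m2 w lS rN)) with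
      ⟨e0, e1, e2, e3, -⟩ | ⟨y, ey, e0, -⟩ | ⟨e0, -⟩
    · have k2 := r2_r H.tab H.hw e2 (d := d2 w rN 0) (Or.inl hR)
      simp only at e3
      rw [e3] at k2
      change Rl _ _ _ (jl _ _ (d2 w rN 0)) _
      rw [e3]
      exact k2
    · simp only at e0; omega
    · simp only at e0; omega

/-- other tiles -/
theorem p_o (o : OT P1 P2 a b j) (d : Dir)
    (h1 : ¬ (mp1 a b j lS lR rN rR o.1 = true ∧ old2 (μ1 a o.1) d = true)) :
    Q1 H φ hφ (.o (o, d)) (o.1, d) := r1_o H.tab H.hw o h1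

theorem p_o' (o : OT P1 P2 a b j) (d : Dir)
    (h1 : ¬ (mp2 a b j lS lR rN rR o.1 = true ∧ old2 (μ2 a o.1) d = true)) :
    Q2 H φ hφ (.o (o, d)) (o.1, d) := r2_o H.tab H.hw o h1

end Pool.Agent.H64.Win
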