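import Pool.Agent.H64.Win.SplitZ
import Pool.Agent.H74.R45.TilesJ

/-!
# The exchange theorem for environments with split tiles
-/

namespace Pool.Agent.H64.Win

open Pool.Agent.H64.Q1 hiding Tl
open LP Pool.Agent.H81.G1 Pool.Agent.H13.Q1 Pool.Agent.Q1 Pool.Agent.H33.Q1
open Pool.Agent.H75.Perc Pool.Agent.H75.TwoArm Pool.Agent.H74.R45
open Finset

section pair

variable {R A O ι1 ι2 : Type*} [DecidableEq A] [DecidableEq O] [Fintype O] [Fintype ι1]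
  [DecidableEq ι1] [Fintype ι2] [DecidableEq ι2] {n1 n2 : ℕ}

/-- **Data for the comparison of two environments with split tiles** -/
structure EPairS (X : Rgn R A n1 n2) (h1 : 0 < n1) (h2 : 0 < n2) {X1 X2 : Env}
    {lb1 : ι1 → ℤ × ℤ} {lb2 : ι2 → ℤ × ℤ} {P1 : ι1 → Bool} {P2 : ι2 → Bool}
    {cr1 : ι1 × Dir → ℤ × ℤ} {cr2 : ι2 × Dir → ℤ × ℤ}
    (T1 : Tiles X1 lb1 P1 cr1) (T2 : Tiles X2 lb2 P2 cr2) (M1 : Finset ι1) (M2 : Finset ι2)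
    (μ1 : ι1 → Dir) (μ2 : ι2 → Dir) (J1 : R ⊕ O ⊕ Fin n1 ≃ ι1 ⊕ ↥M1)
    (J2 : R ⊕ O ⊕ Fin n2 ≃ ι2 ⊕ ↥M2) (s1 : Fin n1 → Dir) (s2 : Fin n2 → Dir)
    (w1 w2 : ℤ × ℤ → ℂ) (a1 b1 : ι1 ⊕ ↥M1 → ℂ) (a2 b2 : ι2 ⊕ ↥M2 → ℂ) : Prop where
  L1 : ∀ x y, LineNet X.g X.er X.p1 (fun i => X.kf (X.f1 i)) J1 s1
    ⟨sπ M1 μ1 (wπ T1), sτ M1 μ1 (wτ T1), x, y⟩
  L2 : ∀ x y, LineNet X.g X.er X.p2 (fun i => X.kf (X.f2 i)) J2 s2
    ⟨sπ M2 μ2 (wπ T2), sτ M2 μ2 (wτ T2), x, y⟩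
  pair : ∀ q, ∃ q', sπ M1 μ1 (wπ T1) (X.E1 h1 J1 s1 q) = X.E1 h1 J1 s1 q' ∧
    sπ M2 μ2 (wπ T2) (X.E2 h2 J2 s2 q) = X.E2 h2 J2 s2 q' ∧
    sτ M2 μ2 (wτ T2) (X.E2 h2 J2 s2 q) =
      sτ M1 μ1 (wτ T1) (X.E1 h1 J1 s1 q) + X.dl h1 h2 q - X.dl h1 h2 q'
  io : ∀ q, inc (sp M1 P1) (X.E1 h1 J1 s1 q) = inc (sp M2 P2) (X.E2 h2 J2 s2 q)
  sw1 : SW M1 μ1 (wA lb1 P1 w1) (wB lb1 P1 w1) a1 b1
  sw2 : SW M2 μ2 (wA lb2 P2 w2) (wB lb2 P2 w2) a2 b2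
  wR1 : ∀ i, (if (X.st i).v then a1 (J1 (.inl i)) else b1 (J1 (.inl i))) = X.wt i
  wR2 : ∀ i, (if (X.st i).v then a2 (J2 (.inl i)) else b2 (J2 (.inl i))) = X.wt i
  wO : ∀ o, b1 (J1 (.inr (.inl o))) = b2 (J2 (.inr (.inl o)))
  wL1 : ∀ i, (if (s1 i).v then a1 (J1 (.inr (.inr i))) else b1 (J1 (.inr (.inr i)))) =
    wa (X.t1 i)
  wL2 : ∀ i, (if (s2 i).v then a2 (J2 (.inr (.inr i))) else b2 (J2 (.inr (.inr i)))) =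
    1 - (wa (X.t2 i))⁻¹
  k0 : X1.k0 = X2.k0
  T0 : X1.T = X2.T
  root : (¬ Meets X1 ∧ ¬ Meets X2) ∨ ∃ (m1 : Meets X1) (m2 : Meets X2) (q0 : Ex O n1 n2),
    kp M1 μ1 (rx0 T1 m1) = X.E1 h1 J1 s1 q0 ∧ kp M2 μ2 (rx0 T2 m2) = X.E2 h2 J2 s2 q0 ∧
    dsh X2 (rn0 X2) = dsh X1 (rn0 X1) - X.dl h1 h2 q0

variable {X : Rgn R A n1 n2} {h1 : 0 < n1} {h2 : 0 < n2} {X1 X2 : Env}
    {lb1 : ι1 → ℤ × ℤ} {lb2 : ι2 → ℤ × ℤ} {P1 : ι1 → Bool} {P2 : ι2 → Bool}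
    {cr1 : ι1 × Dir → ℤ × ℤ} {cr2 : ι2 × Dir → ℤ × ℤ}
    {T1 : Tiles X1 lb1 P1 cr1} {T2 : Tiles X2 lb2 P2 cr2} {M1 : Finset ι1} {M2 : Finset ι2}
    {μ1 : ι1 → Dir} {μ2 : ι2 → Dir} {J1 : R ⊕ O ⊕ Fin n1 ≃ ι1 ⊕ ↥M1}
    {J2 : R ⊕ O ⊕ Fin n2 ≃ ι2 ⊕ ↥M2} {s1 : Fin n1 → Dir} {s2 : Fin n2 → Dir}
    {w1 w2 : ℤ × ℤ → ℂ} {a1 b1 : ι1 ⊕ ↥M1 → ℂ} {a2 b2 : ι2 ⊕ ↥M2 → ℂ}

/-- **The relation of the state sums**, for all exposed ends -/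
theorem EPairS.zrel (H : EPairS X h1 h2 T1 T2 M1 M2 μ1 μ2 J1 J2 s1 s2 w1 w2 a1 b1 a2 b2)
    {N1 : Net (ι1 ⊕ ↥M1)} {N2 : Net (ι2 ⊕ ↥M2)} {p1 : ι1 ⊕ ↥M1 → Bool} {p2 : ι2 ⊕ ↥M2 → Bool}
    (G1 : N1.Good p1) (G2 : N2.Good p2) (e1 : N1.π = sπ M1 μ1 (wπ T1))
    (e1' : N1.t = sτ M1 μ1 (wτ T1)) (e2 : N2.π = sπ M2 μ2 (wπ T2))
    (e2' : N2.t = sτ M2 μ2 (wτ T2)) {q0 q : Ex O n1 n2} (hq : q ≠ q0)
    (r1 : N1.x0 = X.E1 h1 J1 s1 q0) (r2 : N2.x0 = X.E2 h2 J2 s2 q0)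
    (y1 : N1.y0 = X.E1 h1 J1 s1 q) (y2 : N2.y0 = X.E2 h2 J2 s2 q) :
    N2.Z a2 b2 = zt ^ (2 * (X.dl h1 h2 q - X.dl h1 h2 q0)) * N1.Z a1 b1 := by
  classical
  have hex := H.pair
  choose ρ0 hρ0 using hex
  have E1i := X.E1_inj (n2 := n2) (O := O) h1 J1 s1
  have ππ : ∀ z, sπ M1 μ1 (wπ T1) (sπ M1 μ1 (wπ T1) z) = z := by
    intro z
    rw [← e1]; exact G1.inv z
  have ττ : ∀ z, sτ M1 μ1 (wτ T1) (sπ M1 μ1 (wπ T1) z) = -sτ M1 μ1 (wτ T1) z := by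
    intro z
    rw [← e1, ← e1']; exact G1.t_neg z
  have ρρ : ∀ q, ρ0 (ρ0 q) = q := by
    intro q
    apply E1i
    rw [← (hρ0 (ρ0 q)).1, ← (hρ0 q).1, ππ]
  set ρ : LP (Ex O n1 n2) :=
    { p := Function.Involutive.toPerm ρ0 ρρ
      d := fun q => sτ M1 μ1 (wτ T1) (X.E1 h1 J1 s1 q) - X.lam1 h1 q + X.lam1 h1 (ρ0 q)
      inv := ρρ
      ne' := fun q hq => by
        have h3 := (hρ0 q).1
        change ρ0 q = q at hq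
        rw [hq, ← e1] at h3
        exact G1.ne _ h3
      ant := fun q => by
        change sτ M1 μ1 (wτ T1) (X.E1 h1 J1 s1 (ρ0 q)) - X.lam1 h1 (ρ0 q) +
          X.lam1 h1 (ρ0 (ρ0 q)) =
          -(sτ M1 μ1 (wτ T1) (X.E1 h1 J1 s1 q) - X.lam1 h1 q + X.lam1 h1 (ρ0 q))
        rw [ρρ, ← (hρ0 q).1, ττ]
        ring } with hρ
  have ρa : ∀ q, ρ q = ρ0 q := fun _ => rfl
  have ρd : ∀ q, ρ.d q = sτ M1 μ1 (wτ T1) (X.E1 h1 J1 s1 q) - X.lam1 h1 q + X.lam1 h1 (ρ0 q) :=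
    fun _ => rfl
  have l1 := H.L1 N1.x0 N1.y0
  have l2 := H.L2 N2.x0 N2.y0
  have k1 : (⟨sπ M1 μ1 (wπ T1), sτ M1 μ1 (wτ T1), N1.x0, N1.y0⟩ : Net (ι1 ⊕ ↥M1)) = N1 := by
    rw [← e1, ← e1']
  have k2 : (⟨sπ M2 μ2 (wπ T2), sτ M2 μ2 (wτ T2), N2.x0, N2.y0⟩ : Net (ι2 ⊕ ↥M2)) = N2 := by
    rw [← e2, ← e2']
  rw [k1] at l1
  rw [k2] at l2
  have key := net_exchange' X h1 h2 G1 G2 J1 J2 s1 s2 l1 l2 ρ
    (fun q => ⟨by rw [e1, ρa]; exact (hρ0 q).1, by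
      rw [ρd, ρa, e1']
      ring⟩)
    (fun q => ⟨by rw [e2, ρa]; exact (hρ0 q).2.1, by
      rw [ρd, ρa, e2']
      have h5 := (hρ0 q).2.2
      unfold Rgn.dl at h5
      rw [h5]
      ring⟩) (q0 := q0) (q1 := q) hq (by
        rw [ρa]
        intro h
        have h5 := G1.ty N1.x0
        have h6 := G1.x0_in
        have h7 := G1.y0_in
        rw [e1, r1, (hρ0 q0).1, ← h, ← y1, h7, ← r1, h6] at h5
        simp at h5) r1 y1 r2 y2 H.sw1.ab' H.sw2.ab' H.wR1 H.wR2 H.wO H.wL1 H.wL2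
  rw [key]
  unfold Rgn.dl
  rfl

/-- **The exchange theorem for environments with split tiles.** -/
theorem env_exchange_s (H : EPairS X h1 h2 T1 T2 M1 M2 μ1 μ2 J1 J2 s1 s2 w1 w2 a1 b1 a2 b2)
    {q : Ex O n1 n2} {z1 : ι1 × Dir} {z2 : ι2 × Dir} (hz1 : kp M1 μ1 z1 = X.E1 h1 J1 s1 q)
    (hz2 : kp M2 μ2 z2 = X.E2 h2 J2 s2 q) :
    X2.incW w2 (cr2 z2) = zt ^ (6 * (ty (cr2 z2) - ty (cr1 z1)) + 2 * X.dl h1 h2 q) *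
      X1.incW w1 (cr1 z1) := by
  classical
  rcases H.root with ⟨m1, m2⟩ | ⟨m1, m2, q0, r1, r2, r3⟩
  · rw [incW_not_meets T1 m1, incW_not_meets T2 m2, mul_zero]
  have E1i := X.E1_inj (n2 := n2) (O := O) h1 J1 s1
  have E2i := X.E2_inj (n1 := n1) (O := O) h2 J2 s2
  -- incoming exposed ends
  have key : ∀ (q : Ex O n1 n2) (z1 : ι1 × Dir) (z2 : ι2 × Dir),
      kp M1 μ1 z1 = X.E1 h1 J1 s1 q → kp M2 μ2 z2 = X.E2 h2 J2 s2 q → inc P1 z1 = true →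
      X2.incW w2 (cr2 z2) = zt ^ (6 * (ty (cr2 z2) - ty (cr1 z1)) + 2 * X.dl h1 h2 q) *
        X1.incW w1 (cr1 z1) := by
    intro q z1 z2 hz1 hz2 hq
    have hq2 : inc P2 z2 = true := by
      rw [← inc_kp (M := M2) (s := μ2) P2, hz2, ← H.io, ← hz1, inc_kp, hq]
    by_cases hqq : q = q0
    · subst hqq
      have c1 : z1 = rx0 T1 m1 := kp_inj M1 μ1 (hz1.trans r1.symm)
      have c2 : z2 = rx0 T2 m2 := kp_inj M2 μ2 (hz2.trans r2.symm)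
      have f1 := incW_first T1 m1 w1
      have f2 := incW_first T2 m2 w2
      have t1 := ty_root T1 m1
      have t2 := ty_root T2 m2
      rw [← c1] at f1 t1
      rw [← c2] at f2 t2
      rw [f1, f2, ph_zt, ph_zt]
      have e1 : zt ^ (6 * (ty (cr2 z2) - ty (cr1 z1))) = zt ^ (6 * (-X.dl h1 h2 q)) := by
        apply zt_mod
        rw [← H.k0, r3] at t2
        omega
      rw [zpow_add₀ zt_ne, e1, ← zpow_add₀ zt_ne, ← zpow_add₀ zt_ne, ← H.k0, r3]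
      congr 1
      ring
    · have n1' : z1 ≠ rx0 T1 m1 := fun h => hqq (E1i (by rw [← hz1, h, r1]))
      have n2' : z2 ≠ rx0 T2 m2 := fun h => hqq (E2i (by rw [← hz2, h, r2]))
      have W1 := net_wired T1 m1 hq n1'
      have W2 := net_wired T2 m2 hq2 n2'
      have e1 := incW_eq W1 w1
      have e2 := incW_eq W2 w2
      have key := H.zrel (spl_good (s := μ1) W1.good) (spl_good (s := μ2) W2.good) rfl rfl rfl rfl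
        (q0 := q0) (q := q) hqq r1 r2 hz1 hz2
      rw [spl_Z W1.good H.sw1, spl_Z W2.good H.sw2] at key
      unfold Env.incW
      change Ec w2 X2.E (fun ω => X2.incO ω (cr2 z2)) = _ at e2
      change Ec w1 X1.E (fun ω => X1.incO ω (cr1 z1)) = _ at e1
      rw [e1, e2, key, r3, ← H.k0, ← mul_assoc, ← mul_assoc, ← zpow_add₀ zt_ne,
        ← zpow_add₀ zt_ne]
      congr 2
      change 6 * ty (cr2 z2) - _ + _ = _ + (6 * ty (cr1 z1) - _)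
      ring
  cases hq : inc P1 z1
  swap
  · exact key q z1 z2 hz1 hz2 hq
  -- outgoing exposed ends
  have hq2 : inc P2 z2 = false := by
    rw [← inc_kp (M := M2) (s := μ2) P2, hz2, ← H.io, ← hz1, inc_kp, hq]
  obtain ⟨q', p1, p2, p3⟩ := H.pair q
  rw [← hz1, sπ_kp] at p1
  rw [← hz2, sπ_kp] at p2
  rw [← hz1, ← hz2, sτ_kp, sτ_kp] at p3
  have t1 := ty_wire T1 hq
  have t2 := ty_wire T2 hq2
  have s1' : sg T1 z1 = wπ T1 z1 := by unfold wπ; rw [if_pos hq]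
  have s2' : sg T2 z2 = wπ T2 z2 := by unfold wπ; rw [if_pos hq2]
  have u1 : wτ T1 z1 = Pool.Agent.H81.G1.wt T1 z1 := by unfold wτ; rw [if_pos hq]
  have u2 : wτ T2 z2 = Pool.Agent.H81.G1.wt T2 z2 := by unfold wτ; rw [if_pos hq2]
  rw [s1', ← u1] at t1
  rw [s2', ← u2] at t2
  by_cases h0 : q' = q0
  · have c1 : wπ T1 z1 = rx0 T1 m1 := kp_inj M1 μ1 (by rw [p1, r1, h0])
    have c2 : wπ T2 z2 = rx0 T2 m2 := kp_inj M2 μ2 (by rw [p2, r2, h0])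
    have f1 := incW_wire_root T1 m1 w1 hq c1
    have f2 := incW_wire_root T2 m2 w2 hq2 c2
    have v1 := ty_root T1 m1
    have v2 := ty_root T2 m2
    rw [← c1] at v1
    rw [← c2] at v2
    rw [← h0] at r3
    rw [f1, f2, ph_zt, ph_zt]
    have e1 : zt ^ (6 * (ty (cr2 z2) - ty (cr1 z1))) = zt ^ (6 * (-X.dl h1 h2 q)) := by
      apply zt_mod
      rw [← H.k0, r3] at v2
      omega
    rw [zpow_add₀ zt_ne, e1, ← zpow_add₀ zt_ne, ← zpow_add₀ zt_ne, ← H.k0, ← H.T0, r3, p3]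
    congr 1
    ring
  · have f1 := incW_wire T1 m1 w1 hq (fun h => h0 (E1i (by rw [← p1, h, r1])))
    have f2 := incW_wire T2 m2 w2 hq2 (fun h => h0 (E2i (by rw [← p2, h, r2])))
    have hin' : inc P1 (wπ T1 z1) = true := by
      rw [inc_wπ, hq]; rfl
    have k := key q' _ _ p1 p2 hin'
    rw [f1, f2] at k
    have e1 : zt ^ (6 * (ty (cr2 (wπ T2 z2)) - ty (cr1 (wπ T1 z1)))) =
        zt ^ (6 * ((ty (cr2 z2) - ty (cr1 z1)) + (X.dl h1 h2 q - X.dl h1 h2 q'))) := by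
      apply zt_mod
      omega
    rw [zpow_add₀ zt_ne, e1] at k
    have e2 : X2.incW w2 (cr2 z2) =
        Pool.Agent.Q1.ph (-wτ T2 z2) * (Pool.Agent.Q1.ph (wτ T2 z2) * X2.incW w2 (cr2 z2)) := by
      rw [← mul_assoc, ph_neg, one_mul]
    rw [e2, k, ph_zt, ph_zt, p3]
    have e3 : ∀ (a b c d : ℤ) (F : ℂ), zt ^ a * (zt ^ b * zt ^ c * (zt ^ d * F)) =
        zt ^ (a + b + c + d) * F := by
      intro a b c d F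
      rw [zpow_add₀ zt_ne, zpow_add₀ zt_ne, zpow_add₀ zt_ne]
      ring
    rw [e3]
    congr 2
    ring

end pair

end Pool.Agent.H64.Win
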