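import Pool.Agent.H64.Win.Pos

/-!
# The two line networks
-/

namespace Pool.Agent.H64.Win

open Pool.Agent.H64.Q1 hiding Tl
open Pool.Agent.H81.G1 Pool.Agent.Q1 Pool.Agent.H33.Q1
open Pool.Agent.H75.Perc Pool.Agent.H75.TwoArm
open Pool.Agent.H74.R45 hiding Tl
open Pool.Agent.H46.Sp (TP lbP tyP crP)
open Finset

/-! ### Corners of the line -/

theorem turn_aux {σ : State} {U V B : ℤ × ℤ} {n i : Dir} (hn : n.v = true) (hi : i.v = false)
    (eV : V = nb U (op n)) (eB : B = nb V i) (sV : σ V = some (nu n i)) (rB : σ B = none) :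
    G σ (U, op n) (B, op i) (ep n i) := by
  refine G.pass' (c := V) (d := i) (t := 0) sV eV.symm ?_ (G.stop' rB eB.symm rfl rfl) ?_
  · simp only [op_op]
    revert hn hi
    cases n <;> cases i <;> simp [Dir.v, nu, Dir.mate]
  · simp only [op_op]
    rw [add_zero]
    rfl

section corner

variable {σ σ' : State} {a b j : ℤ} {lS lR cL rN rR cR : Bool}
  (S : Strip σ σ' a b j lS lR cL rN rR cR)

include S

theorem Strip.cL1 (h : lS = true) : G σ ((a - 1, j), Dir.S) ((a, j - 1), Dir.W) 1 := by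
  cases h1 : lR
  · have Z := S.l1 h1 h
    exact turn_aux Z.hn Z.hi Z.eV Z.eB Z.sV Z.rB.1
  · have Z := S.l3 h1 h
    exact turn_aux Z.hn Z.hi Z.eV Z.eB Z.sV.1 Z.rB.1

theorem Strip.cR1 (h : rN = true) : G σ ((b, j), Dir.S) ((b - 1, j - 1), Dir.E) (-1) := by
  cases h1 : rR
  · have Z := S.r1 h1 h
    exact turn_aux Z.hn Z.hi Z.eV Z.eB Z.sV Z.rB.1
  · have Z := S.r3 h1 h
    exact turn_aux Z.hn Z.hi Z.eV Z.eB Z.sV.1 Z.rB.1

theorem Strip.cR2 (h : rN = false) : G σ' ((b, j - 1), Dir.N) ((b - 1, j), Dir.E) 1 := by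
  cases h1 : rR
  · have Z := S.r2 h1 h
    exact turn_aux Z.hn Z.hi Z.eV Z.eB Z.sV Z.rB.1
  · have Z := S.r4 h1 h
    exact turn_aux Z.hn Z.hi Z.eV Z.eB Z.sV.1 Z.rB.1

theorem Strip.cL2 (h : lS = false) : G σ' ((a - 1, j - 1), Dir.N) ((a, j), Dir.W) (-1) := by
  cases h1 : lR
  · have Z := S.l2 h1 h
    exact turn_aux Z.hn Z.hi Z.eV Z.eB Z.sV Z.rB.1
  · have Z := S.l4 h1 h
    exact turn_aux Z.hn Z.hi Z.eV Z.eB Z.sV.1 Z.rB.1

end corner

/-! ### Directions -/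

/-- first ends of the tiles of the first line -/
def d1 (w : ℕ) (L : Bool) (i : ℕ) : Dir :=
  if i < bn L then .N else if i < bn L + w then .W else .S

/-- first ends of the tiles of the second line -/
def d2 (w : ℕ) (R : Bool) (i : ℕ) : Dir :=
  if i < bn (!R) then .S else if i < bn (!R) + w then .E else .N

variable {w : ℕ} {a b j : ℤ} {lS rN : Bool}

/-- the three kinds of tiles of the first line -/
theorem c1 (hw0 : 0 < w) (i : Fin (m1 w lS rN)) :
    ((i : ℕ) = 0 ∧ lS = true ∧ lp1 a b j w lS i = (a - 1, j) ∧ d1 w lS i = .N ∧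
      (sp1 lS rN hw0 i).1.1 = (0, 0) ∧ (sp1 lS rN hw0 i).2 = .W ∧
      skf lS (sf1 lS rN w i) = 2) ∨
    (∃ x : ℕ, x < w ∧ (i : ℕ) = bn lS + x ∧ lp1 a b j w lS i = (a + x, j - 1) ∧
      d1 w lS i = .W ∧ (sp1 lS rN hw0 i).1.1 = (x, 0) ∧ (sp1 lS rN hw0 i).2 = .S ∧
      skf lS (sf1 lS rN w i) = 3) ∨
    ((i : ℕ) = bn lS + w ∧ rN = true ∧ lp1 a b j w lS i = (b, j) ∧ d1 w lS i = .S ∧
      (sp1 lS rN hw0 i).1.1 = (w - 1, 0) ∧ (sp1 lS rN hw0 i).2 = .E ∧
      skf lS (sf1 lS rN w i) = 4) := by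
  have hi := i.2
  unfold lp1 d1 sp1 sf1
  by_cases h1 : (i : ℕ) < bn lS
  · left
    cases lS
    · simp at h1
    · simp only [bn_true] at h1
      have h2 : (i : ℕ) = 0 := by omega
      simp [h2, skf, rnm]
  · by_cases h2 : (i : ℕ) < bn lS + w
    · right; left
      refine ⟨i - bn lS, by omega, by omega, ?_, ?_, ?_, ?_, ?_⟩
      · rw [if_neg h1, if_pos h2, Prod.mk.injEq]; omega
      · rw [if_neg h1, if_pos h2]
      · rw [if_neg h1, dif_pos h2]
      · rw [if_neg h1, dif_pos h2]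
      · rw [if_neg h1, if_pos h2]; rfl
    · right; right
      cases rN
      · simp only [m1, bn_false] at hi; omega
      · simp only [m1, bn_true] at hi
        refine ⟨by omega, rfl, ?_, ?_, ?_, ?_, ?_⟩
        · rw [if_neg h1, if_neg h2]
        · rw [if_neg h1, if_neg h2]
        · rw [if_neg h1, dif_neg h2]
        · rw [if_neg h1, dif_neg h2]
        · rw [if_neg h1, if_neg h2]; rfl

/-- the three kinds of tiles of the second line -/
theorem c2 (hw0 : 0 < w) (i : Fin (m2 w lS rN)) :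
    ((i : ℕ) = 0 ∧ rN = false ∧ lp2 a b j w rN i = (b, j - 1) ∧ d2 w rN i = .S ∧
      (sp2 lS rN hw0 i).1.1 = (w - 1, 0) ∧ (sp2 lS rN hw0 i).2 = .E ∧
      skf lS (sf2 lS rN w i) = 4) ∨
    (∃ x : ℕ, x < w ∧ (i : ℕ) = bn (!rN) + x ∧ lp2 a b j w rN i = (b - 1 - x, j) ∧
      d2 w rN i = .E ∧ (sp2 lS rN hw0 i).1.1 = (w - 1 - x, 0) ∧
      (sp2 lS rN hw0 i).2 = .N ∧ skf lS (sf2 lS rN w i) = 5) ∨
    ((i : ℕ) = bn (!rN) + w ∧ lS = false ∧ lp2 a b j w rN i = (a - 1, j - 1) ∧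
      d2 w rN i = .N ∧ (sp2 lS rN hw0 i).1.1 = (0, 0) ∧ (sp2 lS rN hw0 i).2 = .W ∧
      skf lS (sf2 lS rN w i) = 6) := by
  have hi := i.2
  unfold lp2 d2 sp2 sf2
  by_cases h1 : (i : ℕ) < bn (!rN)
  · left
    cases rN
    · simp only [Bool.not_false, bn_true] at h1
      have h2 : (i : ℕ) = 0 := by omega
      simp [h2, skf, rnm]
    · simp at h1
  · by_cases h2 : (i : ℕ) < bn (!rN) + w
    · right; left
      refine ⟨i - bn (!rN), by omega, by omega, ?_, ?_, ?_, ?_, ?_⟩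
      · rw [if_neg h1, if_pos h2, Prod.mk.injEq]; omega
      · rw [if_neg h1, if_pos h2]
      · rw [if_neg h1, if_pos h2]
      · rw [if_neg h1, if_pos h2]
      · rw [if_neg h1, if_pos h2]; rfl
    · right; right
      cases lS
      · simp only [m2, Bool.not_false, bn_true] at hi
        refine ⟨by omega, rfl, ?_, ?_, ?_, ?_, ?_⟩
        · rw [if_neg h1, if_neg h2]
        · rw [if_neg h1, if_neg h2]
        · rw [if_neg h1, if_neg h2]
        · rw [if_neg h1, if_neg h2]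
        · rw [if_neg h1, if_neg h2]; rfl
      · simp only [m2, Bool.not_true, bn_false] at hi; omega

/-! ### Real ends -/

section real

variable {P1 P2 : Finset (ℤ × ℤ)} {lR rR : Bool} (T : TabP P1 P2 a b j lS lR rN rR)
  (hw : b = a + w)

theorem r1_reg (p : RQ w 1 × Dir) : R1 P1 a b j lS lR rN rR (jr (J1 T hw) p)
    ((a + p.1.1.1, j), p.2) := by
  obtain ⟨⟨⟨x, y⟩, hx, hy⟩, d⟩ := p
  simp only at hx
  refine r1_of T hw rfl ?_
  change false = (mp1 a b j lS lR rN rR (a + x, j) && _)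
  rw [mp1_row (by omega) (by omega)]
  rfl

theorem r2_reg (p : RQ w 1 × Dir) : R2 P2 a b j lS lR rN rR (jr (J2 T hw) p)
    ((a + p.1.1.1, j - 1), p.2) := by
  obtain ⟨⟨⟨x, y⟩, hx, hy⟩, d⟩ := p
  simp only at hx
  refine r2_of T hw rfl ?_
  change false = (mp2 a b j lS lR rN rR (a + x, j - 1) && _)
  rw [mp2_row (by omega) (by omega)]
  rfl

theorem r1_b {i : Fin (m1 w lS rN)} {x : ℤ} (h : lp1 a b j w lS i = (x, j - 1)) (h1 : a ≤ x)
    (h2 : x < b) (d : Dir) : R1 P1 a b j lS lR rN rR (jl (J1 T hw) i d) ((x, j - 1), d) := by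
  refine r1_of T hw (by rw [← h]; rfl) ?_
  change mp1 a b j lS lR rN rR (lp1 a b j w lS i) = _
  rw [h, mp1_row h1 h2, Bool.false_and]

theorem r2_t {i : Fin (m2 w lS rN)} {x : ℤ} (h : lp2 a b j w rN i = (x, j)) (h1 : a ≤ x)
    (h2 : x < b) (d : Dir) : R2 P2 a b j lS lR rN rR (jl (J2 T hw) i d) ((x, j), d) := by
  refine r2_of T hw (by rw [← h]; rfl) ?_
  change mp2 a b j lS lR rN rR (lp2 a b j w rN i) = _
  rw [h, mp2_row h1 h2, Bool.false_and]

theorem r1_l {i : Fin (m1 w lS rN)} (h : lp1 a b j w lS i = (a - 1, j)) {d : Dir}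
    (hd : lR = false ∨ d = .E ∨ d = .S) :
    R1 P1 a b j lS lR rN rR (jl (J1 T hw) i d) ((a - 1, j), d) := by
  refine r1_of T hw (by rw [← h]; rfl) ?_
  change mp1 a b j lS lR rN rR (lp1 a b j w lS i) = _
  have hab := T.ab
  rw [h, mp1_l hab]
  unfold μ1
  simp only
  rw [if_pos (by omega)]
  rcases hd with rfl | rfl | rfl
  · simp
  · have : old2 .W .E = true := rfl
    rw [this]; simp
  · have : old2 .W .S = true := rfl
    rw [this]; simp

theorem r1_r {i : Fin (m1 w lS rN)} (h : lp1 a b j w lS i = (b, j)) {d : Dir}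
    (hd : rR = false ∨ d = .W ∨ d = .S) :
    R1 P1 a b j lS lR rN rR (jl (J1 T hw) i d) ((b, j), d) := by
  refine r1_of T hw (by rw [← h]; rfl) ?_
  change mp1 a b j lS lR rN rR (lp1 a b j w lS i) = _
  have hab := T.ab
  rw [h, mp1_r hab]
  unfold μ1
  simp only
  rw [if_neg (by omega)]
  rcases hd with rfl | rfl | rfl
  · simp
  · have : old2 .N .W = true := rfl
    rw [this]; simp
  · have : old2 .N .S = true := rfl
    rw [this]; simp

theorem r2_l {i : Fin (m2 w lS rN)} (h : lp2 a b j w rN i = (a - 1, j - 1)) {d : Dir}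
    (hd : lR = false ∨ d = .E ∨ d = .N) :
    R2 P2 a b j lS lR rN rR (jl (J2 T hw) i d) ((a - 1, j - 1), d) := by
  refine r2_of T hw (by rw [← h]; rfl) ?_
  change mp2 a b j lS lR rN rR (lp2 a b j w rN i) = _
  have hab := T.ab
  rw [h, mp2_l hab]
  unfold μ2
  simp only
  rw [if_pos (by omega)]
  rcases hd with rfl | rfl | rfl
  · simp
  · have : old2 .S .E = true := rfl
    rw [this]; simp
  · have : old2 .S .N = true := rfl
    rw [this]; simp

theorem r2_r {i : Fin (m2 w lS rN)} (h : lp2 a b j w rN i = (b, j - 1)) {d : Dir}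
    (hd : rR = false ∨ d = .W ∨ d = .N) :
    R2 P2 a b j lS lR rN rR (jl (J2 T hw) i d) ((b, j - 1), d) := by
  refine r2_of T hw (by rw [← h]; rfl) ?_
  change mp2 a b j lS lR rN rR (lp2 a b j w rN i) = _
  have hab := T.ab
  rw [h, mp2_r hab]
  unfold μ2
  simp only
  rw [if_neg (by omega)]
  rcases hd with rfl | rfl | rfl
  · simp
  · have : old2 .E .W = true := rfl
    rw [this]; simp
  · have : old2 .E .N = true := rfl
    rw [this]; simp

theorem r1_o (o : OT P1 P2 a b j) {d : Dir}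
    (hd : ¬ (mp1 a b j lS lR rN rR o.1 = true ∧ old2 (μ1 a o.1) d = true)) :
    R1 P1 a b j lS lR rN rR (jo (J1 T hw) (o, d)) (o.1, d) := by
  refine r1_of T hw rfl ?_
  change false = _
  rw [eq_comm, Bool.eq_false_iff]
  intro h
  rw [Bool.and_eq_true] at h
  exact hd h

theorem r2_o (o : OT P1 P2 a b j) {d : Dir}
    (hd : ¬ (mp2 a b j lS lR rN rR o.1 = true ∧ old2 (μ2 a o.1) d = true)) :
    R2 P2 a b j lS lR rN rR (jo (J2 T hw) (o, d)) (o.1, d) := by
  refine r2_of T hw rfl ?_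
  change false = _
  rw [eq_comm, Bool.eq_false_iff]
  intro h
  rw [Bool.and_eq_true] at h
  exact hd h

end real

/-! ### The line networks -/

section net

variable {X1 X2 : Env} {W1 W2 P1 P2 : Finset (ℤ × ℤ)} {lR cL rR cR : Bool}
  (H : Cfg X1 X2 W1 W2 P1 P2 a b j w lS lR cL rN rR cR)

/-- the ends in the row -/
theorem rg_rer' {x y : RQ w 1 × Dir} (e : rg (rer x) = rer y) :
    (x.2 = .W ∧ y.2 = .E ∧ y.1.1.1 + 1 = x.1.1.1) ∨
    (x.2 = .E ∧ y.2 = .W ∧ y.1.1.1 = x.1.1.1 + 1) := by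
  obtain ⟨⟨⟨a, b⟩, ha, hb⟩, d⟩ := x
  obtain ⟨⟨⟨a', b'⟩, ha', hb'⟩, d'⟩ := y
  simp only at ha hb ha' hb'
  cases d <;> cases d' <;> simp only [rer, rnm, rg_l, Sum.inl.injEq, Prod.mk.injEq] at e <;>
    first
    | exact absurd e.1 (by decide)
    | (exfalso; omega)
    | (simp only [true_and, and_true]; simp; omega)

theorem Cfg.hw0 (H : Cfg X1 X2 W1 W2 P1 P2 a b j w lS lR cL rN rR cR) : 0 < w := by
  have := H.hw
  have := H.S.ab
  omega

/-- a wire of the first network -/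
theorem Cfg.w1 {x y : (TP P1 ⊕ ↥(Mf P1 (mp1 a b j lS lR rN rR))) × Dir} {z v : End} {t : ℤ}
    (hx : R1 P1 a b j lS lR rN rR x z) (hy : R1 P1 a b j lS lR rN rR y v)
    (h : G (sto X1.E W1) z v t) :
    sπ (Mf P1 (mp1 a b j lS lR rN rR)) (μf P1 (μ1 a)) (wπ H.T1) x = y ∧
      sτ (Mf P1 (mp1 a b j lS lR rN rR)) (μf P1 (μ1 a)) (wτ H.T1) x = t :=
  wire_rl H.I1 H.T1 hx hy h

/-- a wire of the second network -/
theorem Cfg.w2 {x y : (TP P2 ⊕ ↥(Mf P2 (mp2 a b j lS lR rN rR))) × Dir} {z v : End} {t : ℤ}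
    (hx : R2 P2 a b j lS lR rN rR x z) (hy : R2 P2 a b j lS lR rN rR y v)
    (h : G (sto X2.E W2) z v t) :
    sπ (Mf P2 (mp2 a b j lS lR rN rR)) (μf P2 (μ2 a)) (wπ H.T2) x = y ∧
      sτ (Mf P2 (mp2 a b j lS lR rN rR)) (μf P2 (μ2 a)) (wτ H.T2) x = t :=
  wire_rl H.I2 H.T2 hx hy h

/-- the row as a region -/
noncomputable abbrev RX (H : Cfg X1 X2 W1 W2 P1 P2 a b j w lS lR cL rN rR cR) (φ : ℂ)
    (hφ : ∀ k, Complex.sin (ang φ k) ≠ 0) : Rgn (RQ w 1) RA (m1 w lS rN) (m2 w lS rN) :=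
  srow lS rN w H.hw0 φ hφ

theorem line1 (φ : ℂ) (hφ : ∀ k, Complex.sin (ang φ k) ≠ 0)
    (x y : (TP P1 ⊕ ↥(Mf P1 (mp1 a b j lS lR rN rR))) × Dir) :
    LineNet (RX H φ hφ).g (RX H φ hφ).er (RX H φ hφ).p1 (fun t => (RX H φ hφ).kf ((RX H φ hφ).f1 t))
      (J1 H.tab H.hw) (fun i => d1 w lS i)
      ⟨sπ (Mf P1 (mp1 a b j lS lR rN rR)) (μf P1 (μ1 a)) (wπ H.T1),
        sτ (Mf P1 (mp1 a b j lS lR rN rR)) (μf P1 (μ1 a)) (wτ H.T1), x, y⟩ := by
  have hw := H.hw
  have hab := H.S.ab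
  have hw0 := H.hw0
  refine ⟨fun z => sπ_sπ (wπ_wπ _) z, fun z => sτ_sπ (wτ_wπ _) z, ?_, ?_, ?_⟩
  · intro x y e
    have k1 := r1_reg H.tab H.hw x
    have k2 := r1_reg H.tab H.hw y
    have hx := x.1.2.1
    have hy := y.1.2.1
    refine H.w1 k1 k2 ?_
    rcases rg_rer' e with ⟨e1, e2, e3⟩ | ⟨e1, e2, e3⟩
    · rw [e1, e2]
      refine G.stop' (H.S.row _ (by omega) (by omega)).1.1 ?_ rfl rfl
      simp only [nb, Prod.mk.injEq, and_true]
      omega
    · rw [e1, e2]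
      refine G.stop' (H.S.row _ (by omega) (by omega)).1.1 ?_ rfl rfl
      simp only [nb, Prod.mk.injEq, and_true]
      omega
  · intro i
    have k1 := r1_reg H.tab H.hw (sp1 lS rN hw0 i)
    rcases c1 (a := a) (b := b) (j := j) (rN := rN) hw0 i with ⟨e0, e1, e2, e3, e4, e5, -⟩ |
      ⟨x, ex, e0, e2, e3, e4, e5, -⟩ | ⟨e0, e1, e2, e3, e4, e5, -⟩
    · rw [e4, e5] at k1
      have k2 := r1_l H.tab H.hw e2 (d := rc (d1 w lS i)) (by rw [e3]; exact Or.inr (Or.inl rfl))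
      refine H.w1 k1 k2 ?_
      rw [e3]
      refine G.stop' (H.S.tab.a1.2 e1) ?_ rfl rfl
      simp only [nb, Prod.mk.injEq, and_true]
      push_cast; ring
    · rw [e4, e5] at k1
      have k2 := r1_b H.tab H.hw e2 (by omega) (by omega) (rc (d1 w lS i))
      refine H.w1 k1 k2 ?_
      rw [e3]
      exact G.stop' (H.S.row _ (by omega) (by omega)).2.1 rfl rfl rfl
    · rw [e4, e5] at k1
      have k2 := r1_r H.tab H.hw e2 (d := rc (d1 w lS i)) (by rw [e3]; exact Or.inr (Or.inl rfl))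
      refine H.w1 k1 k2 ?_
      rw [e3]
      refine G.stop' (H.S.tab.b1.2 e1) ?_ rfl rfl
      simp only [nb, Prod.mk.injEq, and_true]
      omega
  · intro i i' ei
    have q1 : (RX H φ hφ).kf ((RX H φ hφ).f1 i) = skf lS (sf1 lS rN w i) := rfl
    have q2 : (RX H φ hφ).kf ((RX H φ hφ).f1 i') = skf lS (sf1 lS rN w i') := rfl
    rcases c1 (a := a) (b := b) (j := j) (rN := rN) hw0 i with ⟨e0, e1, e2, e3, -, -, e6⟩ |
      ⟨x, ex, e0, e2, e3, -, -, e6⟩ | ⟨e0, e1, e2, e3, -, -, e6⟩ <;>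
    rcases c1 (a := a) (b := b) (j := j) (rN := rN) hw0 i' with ⟨f0, f1, f2, f3, -, -, f6⟩ |
      ⟨y, ey, f0, f2, f3, -, -, f6⟩ | ⟨f0, f1, f2, f3, -, -, f6⟩
    · omega
    · have k1 := r1_l H.tab H.hw e2 (d := rc (rc (d1 w lS i))) (by rw [e3]; exact Or.inr (Or.inr rfl))
      have k2 := r1_b H.tab H.hw f2 (by omega) (by omega) (d1 w lS i')
      have hb1 : bn lS = 1 := by rw [e1]; rfl
      have : y = 0 := by omega
      subst this
      simp only [q1, q2, e6, f6]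
      refine H.w1 k1 k2 ?_
      rw [e3, f3]
      have := H.S.cL1 e1
      have ea : a + ((0 : ℕ) : ℤ) = a := by push_cast; ring
      rw [ea]
      exact this
    · omega
    · omega
    · have k1 := r1_b H.tab H.hw e2 (by omega) (by omega) (rc (rc (d1 w lS i)))
      have k2 := r1_b H.tab H.hw f2 (by omega) (by omega) (d1 w lS i')
      simp only [q1, q2, e6, f6]
      refine H.w1 k1 k2 ?_
      rw [e3, f3]
      refine G.stop' (H.S.row _ (by omega) (by omega)).2.1 ?_ rfl rfl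
      simp only [rc, nb, Prod.mk.injEq, and_true]
      omega
    · have k1 := r1_b H.tab H.hw e2 (by omega) (by omega) (rc (rc (d1 w lS i)))
      have k2 := r1_r H.tab H.hw f2 (d := d1 w lS i') (by rw [f3]; exact Or.inr (Or.inr rfl))
      simp only [q1, q2, e6, f6]
      refine H.w1 k1 k2 ?_
      rw [e3, f3]
      have h3 := (H.S.cR1 f1).symm (H.S.tab.b1.2 f1)
      have ea : a + (x : ℤ) = b - 1 := by omega
      rw [ea]
      rw [neg_neg] at h3
      exact h3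
    · omega
    · omega
    · omega

theorem line2 (φ : ℂ) (hφ : ∀ k, Complex.sin (ang φ k) ≠ 0)
    (x y : (TP P2 ⊕ ↥(Mf P2 (mp2 a b j lS lR rN rR))) × Dir) :
    LineNet (RX H φ hφ).g (RX H φ hφ).er (RX H φ hφ).p2 (fun t => (RX H φ hφ).kf ((RX H φ hφ).f2 t))
      (J2 H.tab H.hw) (fun i => d2 w rN i)
      ⟨sπ (Mf P2 (mp2 a b j lS lR rN rR)) (μf P2 (μ2 a)) (wπ H.T2),
        sτ (Mf P2 (mp2 a b j lS lR rN rR)) (μf P2 (μ2 a)) (wτ H.T2), x, y⟩ := by
  have hw := H.hw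
  have hab := H.S.ab
  have hw0 := H.hw0
  refine ⟨fun z => sπ_sπ (wπ_wπ _) z, fun z => sτ_sπ (wτ_wπ _) z, ?_, ?_, ?_⟩
  · intro x y e
    have k1 := r2_reg H.tab H.hw x
    have k2 := r2_reg H.tab H.hw y
    have hx := x.1.2.1
    have hy := y.1.2.1
    refine H.w2 k1 k2 ?_
    rcases rg_rer' e with ⟨e1, e2, e3⟩ | ⟨e1, e2, e3⟩
    · rw [e1, e2]
      refine G.stop' (H.S.row _ (by omega) (by omega)).2.2 ?_ rfl rfl
      simp only [nb, Prod.mk.injEq, and_true]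
      omega
    · rw [e1, e2]
      refine G.stop' (H.S.row _ (by omega) (by omega)).2.2 ?_ rfl rfl
      simp only [nb, Prod.mk.injEq, and_true]
      omega
  · intro i
    have k1 := r2_reg H.tab H.hw (sp2 lS rN hw0 i)
    rcases c2 (a := a) (b := b) (j := j) (lS := lS) hw0 i with ⟨e0, e1, e2, e3, e4, e5, -⟩ |
      ⟨x, ex, e0, e2, e3, e4, e5, -⟩ | ⟨e0, e1, e2, e3, e4, e5, -⟩
    · rw [e4, e5] at k1
      have k2 := r2_r H.tab H.hw e2 (d := rc (d2 w rN i)) (by rw [e3]; exact Or.inr (Or.inl rfl))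
      refine H.w2 k1 k2 ?_
      rw [e3]
      refine G.stop' (H.S.tab.b3.2 e1) ?_ rfl rfl
      simp only [nb, Prod.mk.injEq, and_true]
      omega
    · rw [e4, e5] at k1
      have k2 := r2_t H.tab H.hw e2 (by omega) (by omega) (rc (d2 w rN i))
      refine H.w2 k1 k2 ?_
      rw [e3]
      refine G.stop' (H.S.row _ (by omega) (by omega)).1.2 ?_ rfl rfl
      simp only [nb, Prod.mk.injEq, and_true]
      omega
    · rw [e4, e5] at k1
      have k2 := r2_l H.tab H.hw e2 (d := rc (d2 w rN i)) (by rw [e3]; exact Or.inr (Or.inl rfl))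
      refine H.w2 k1 k2 ?_
      rw [e3]
      refine G.stop' (H.S.tab.a3.2 e1) ?_ rfl rfl
      simp only [nb, Prod.mk.injEq, and_true]
      push_cast; ring
  · intro i i' ei
    have q1 : (RX H φ hφ).kf ((RX H φ hφ).f2 i) = skf lS (sf2 lS rN w i) := rfl
    have q2 : (RX H φ hφ).kf ((RX H φ hφ).f2 i') = skf lS (sf2 lS rN w i') := rfl
    rcases c2 (a := a) (b := b) (j := j) (lS := lS) hw0 i with ⟨e0, e1, e2, e3, -, -, e6⟩ |
      ⟨x, ex, e0, e2, e3, -, -, e6⟩ | ⟨e0, e1, e2, e3, -, -, e6⟩ <;>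
    rcases c2 (a := a) (b := b) (j := j) (lS := lS) hw0 i' with ⟨f0, f1, f2, f3, -, -, f6⟩ |
      ⟨y, ey, f0, f2, f3, -, -, f6⟩ | ⟨f0, f1, f2, f3, -, -, f6⟩
    · omega
    · have k1 := r2_r H.tab H.hw e2 (d := rc (rc (d2 w rN i))) (by rw [e3]; exact Or.inr (Or.inr rfl))
      have k2 := r2_t H.tab H.hw f2 (by omega) (by omega) (d2 w rN i')
      have hb1 : bn (!rN) = 1 := by rw [e1]; rfl
      have : y = 0 := by omega
      subst this
      simp only [q1, q2, e6, f6]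
      refine H.w2 k1 k2 ?_
      rw [e3, f3]
      have := H.S.cR2 e1
      have ea : b - 1 - ((0 : ℕ) : ℤ) = b - 1 := by push_cast; ring
      rw [ea]
      exact this
    · omega
    · omega
    · have k1 := r2_t H.tab H.hw e2 (by omega) (by omega) (rc (rc (d2 w rN i)))
      have k2 := r2_t H.tab H.hw f2 (by omega) (by omega) (d2 w rN i')
      simp only [q1, q2, e6, f6]
      refine H.w2 k1 k2 ?_
      rw [e3, f3]
      refine G.stop' (H.S.row _ (by omega) (by omega)).1.2 ?_ rfl rfl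
      simp only [rc, nb, Prod.mk.injEq, and_true]
      omega
    · have k1 := r2_t H.tab H.hw e2 (by omega) (by omega) (rc (rc (d2 w rN i)))
      have k2 := r2_l H.tab H.hw f2 (d := d2 w rN i') (by rw [f3]; exact Or.inr (Or.inr rfl))
      simp only [q1, q2, e6, f6]
      refine H.w2 k1 k2 ?_
      rw [e3, f3]
      have h3 := (H.S.cL2 f1).symm (H.S.tab.a3.2 f1)
      have ea : b - 1 - (x : ℤ) = a := by omega
      rw [ea]
      rw [neg_neg] at h3
      exact h3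
    · omega
    · omega
    · omega

end net

end Pool.Agent.H64.Win
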