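import Pool.Agent.H64.Win.Geo

/-!
# Comparison of two environments which differ in a box

`Yk K z` : the edge of the end `z` is not inside the box `K`. `Loc` : the wires of two states outside
the box are the same.
-/

namespace Pool.Agent.H64.Win

open Pool.Agent.H64.Q1 hiding Tl
open Pool.Agent.H81.G1 Pool.Agent.Q1 Pool.Agent.H33.Q1
open Pool.Agent.H75.Perc Pool.Agent.H75.TwoArm
open Pool.Agent.H74.R45 hiding Tl

variable {σ σ' : State}

theorem Pa.cont {z y : End} {t : ℤ} (h : Pa σ z y t) : ∀ {w : End} {s : ℤ}, Cont σ z w s →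
    Cont σ y w (s - t) := by
  induction h with
  | nil => intro w s hc; rwa [sub_zero]
  | @cons z y b t h1 H ih =>
    intro w s hc
    have h2 : Cont σ (nb z.1 z.2, (op z.2).mate b) w (-((op z.2).tn b) + s) := by
      refine Or.inr ⟨b, h1, s, ?_, ?_⟩
      · simp only [mate_mate]
        exact hc.G
      · simp only [tn_mate]
    have := ih h2
    convert this using 1
    ring

/-- the reversed part of a wire -/
theorem Pa.symm {z y : End} {t : ℤ} (hz : σ z.1 = none) (h : Pa σ z y t) :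
    Win.G σ (nb y.1 y.2, op y.2) z (-t) := by
  have := (h.cont (Or.inl ⟨hz, rfl, rfl⟩ : Cont σ z z 0)).G
  rwa [zero_sub] at this

theorem Pa.trans {z y w : End} {t s : ℤ} (h : Pa σ z y t) (h' : Pa σ y w s) :
    Pa σ z w (t + s) := by
  induction h with
  | nil => rwa [zero_add]
  | cons h1 H ih =>
    rw [add_assoc]
    exact Pa.cons h1 (ih h')

/-- the edge is not inside the box -/
def Yk (K : ℤ × ℤ → Prop) (z : End) : Prop := ¬ (K z.1 ∧ K (nb z.1 z.2))

theorem Yk.rev {K : ℤ × ℤ → Prop} {z : End} (h : Yk K z) : Yk K (nb z.1 z.2, op z.2) := by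
  unfold Yk at h ⊢
  simp only [nb_nb]
  tauto

/-- corresponding ends leave the box through `y` -/
def Gate (σ σ' : State) (Ends : End → End → ℤ → Prop) (y : End) : Prop :=
  ∃ w w' δ τ, Ends w w' δ ∧ Pa σ w y τ ∧ Pa σ' w' y (τ + δ)

/-- the comparison of two states outside a box; `Ends w w' δ` : corresponding ends -/
structure Loc (σ σ' : State) (K : ℤ × ℤ → Prop) (Ends : End → End → ℤ → Prop) : Prop where
  rnd : ∀ w w' δ, Ends w w' δ → σ w.1 = none ∧ σ' w'.1 = none
  step : ∀ c e, Yk K (c, e) → (∃ b, σ c = some b ∧ σ' c = some b ∧ Yk K (c, e.mate b)) ∨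
    Gate σ σ' Ends (c, e)
  gate : ∀ w w' δ, Ends w w' δ → ∃ y τ, Yk K y ∧ Pa σ w y τ ∧ Pa σ' w' y (τ + δ)

variable {K : ℤ × ℤ → Prop} {Ends : End → End → ℤ → Prop}

theorem Loc.symm (L : Loc σ σ' K Ends) : Loc σ' σ K (fun w w' δ => Ends w' w (-δ)) where
  rnd := fun w w' δ h => (L.rnd _ _ _ h).symm
  step := by
    intro c e h
    rcases L.step c e h with ⟨b, h1, h2, h3⟩ | ⟨w, w', δ, τ, h1, h2, h3⟩
    · exact Or.inl ⟨b, h2, h1, h3⟩
    · refine Or.inr ⟨w', w, -δ, τ + δ, by change Ends w w' (- -δ); rw [neg_neg]; exact h1, h3, ?_⟩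
      rw [add_neg_cancel_right]
      exact h2
  gate := by
    intro w w' δ h
    obtain ⟨y, τ, h1, h2, h3⟩ := L.gate _ _ _ h
    refine ⟨y, τ + -δ, h1, h3, ?_⟩
    rw [neg_add_cancel_right]
    exact h2

/-- **A wire outside the box.** -/
theorem Loc.main (L : Loc σ σ' K Ends) {y w : End} {t : ℤ} (h : G σ y w t) (hy : Yk K y) :
    ∃ w' δ, Ends w w' δ ∧ G σ' y w' (t - δ) := by
  induction h with
  | @stop y h1 =>
    rcases L.step _ _ hy.rev with ⟨b, h2, -⟩ | ⟨w, w', δ, τ, h2, h3, h4⟩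
    · rw [h1] at h2; exact absurd h2 (by simp)
    · obtain ⟨r1, r2⟩ := L.rnd _ _ _ h2
      have g1 := h3.symm r1
      have g2 := h4.symm r2
      simp only [nb_nb, op_op] at g1 g2
      have g0 : G σ y (nb y.1 y.2, op y.2) 0 := G.stop h1
      obtain ⟨e1, e2⟩ := g0.det g1
      refine ⟨w', δ, e1 ▸ h2, ?_⟩
      convert g2 using 1
      omega
  | @pass y w b t h1 H ih =>
    rcases L.step _ _ hy.rev with ⟨b', h2, h3, h4⟩ | ⟨w0, w', δ, τ, h2, h3, h4⟩
    · rw [h1] at h2
      simp only [Option.some.injEq] at h2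
      subst h2
      obtain ⟨w', δ, h5, h6⟩ := ih h4
      refine ⟨w', δ, h5, ?_⟩
      exact G.pass' h3 rfl rfl h6 (by ring)
    · obtain ⟨r1, r2⟩ := L.rnd _ _ _ h2
      have g1 := h3.symm r1
      have g2 := h4.symm r2
      simp only [nb_nb, op_op] at g1 g2
      have g0 : G σ y w ((op y.2).tn b + t) := G.pass h1 H
      obtain ⟨e1, e2⟩ := g0.det g1
      refine ⟨w', δ, e1 ▸ h2, ?_⟩
      convert g2 using 1
      omega

/-- **Corresponding ends are wired to corresponding ends.** -/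
theorem Loc.pair (L : Loc σ σ' K Ends) {w w' v : End} {δ t : ℤ} (h : Ends w w' δ)
    (hG : G σ w v t) : ∃ v' δ', Ends v v' δ' ∧ G σ' w' v' (t + δ - δ') := by
  obtain ⟨y, τ, h1, h2, h3⟩ := L.gate _ _ _ h
  obtain ⟨v', δ', h4, h5⟩ := L.main (h2.back hG) h1
  refine ⟨v', δ', h4, ?_⟩
  have := h3.G h5
  convert this using 1
  ring

/-! ### Zones -/

/-- the state which joins the ends `n` and `i` -/
def nu (n i : Dir) : Bool := decide (n.mate true = i)

/-- the turning from `n` to `i` -/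
def ep (n i : Dir) : ℤ := n.tn (nu n i)

/-- **A straight zone**: the tile `U` is random in the first state only, the tile `V` behind it turns
the line. `ch` : the natural state of `V` is not the state of the turn. -/
structure ZS (ch : Bool) (σ1 σ2 : State) (U V A B U2 V2 : ℤ × ℤ) (n i : Dir) : Prop where
  hn : n.v = true
  hi : i.v = false
  eV : V = nb U (op n)
  eA : A = nb U i
  eB : B = nb V i
  eU : U2 = nb U (op i)
  eV2 : V2 = nb V (op i)
  rU : σ1 U = none
  sU : σ2 U = some (nu n i)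
  sV : σ1 V = some (nu n i)
  rA : σ1 A = none ∧ σ2 A = none
  rB : σ1 B = none ∧ σ2 B = none
  nc : ch = false → σ2 V = some (nu n i)
  yc : ch = true → σ2 V = some (!nu n i) ∧ σ1 U2 = some (!nu n i) ∧ σ2 U2 = some (!nu n i) ∧
    σ1 V2 = some (nu n i) ∧ σ2 V2 = some (nu n i)

/-- **A zone with a reflex corner**: the tile `U` is random in both states -/
structure ZR (σ1 σ2 : State) (U V A B : ℤ × ℤ) (n i : Dir) : Prop where
  hn : n.v = true
  hi : i.v = false
  eV : V = nb U (op n)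
  eA : A = nb U i
  eB : B = nb V i
  rU : σ1 U = none ∧ σ2 U = none
  sV : σ1 V = some (nu n i) ∧ σ2 V = some (nu n i)
  rA : σ1 A = none ∧ σ2 A = none
  rB : σ1 B = none ∧ σ2 B = none

section zone

variable {σ1 σ2 : State} {U V A B U2 V2 : ℤ × ℤ} {n i : Dir} {ch : Bool}

/-- the line end -/
theorem ZS.line (Z : ZS ch σ1 σ2 U V A B U2 V2 n i) : Pa σ2 (A, op i) (U, n) (-(ep n i)) := by
  obtain ⟨hn, hi, eV, eA, eB, eU, eV2, rU, sU, sV, rA, rB, nc, yc⟩ := Z
  refine Pa.cons' (c := U) (t := 0) sU ?_ ?_ (Pa.nil _) ?_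
  · rw [eA]; exact nb_nb _ _
  · simp only [op_op]
    revert hn hi
    cases n <;> cases i <;> simp [Dir.v, nu, Dir.mate]
  · simp only [op_op]
    revert hn hi
    unfold ep nu
    cases n <;> cases i <;> simp [Dir.v, Dir.mate, Dir.tn]

/-- the end of the region, unchanged -/
theorem ZS.reg_nc (Z : ZS false σ1 σ2 U V A B U2 V2 n i) : Pa σ2 (B, op i) (U, op i) 0 := by
  obtain ⟨hn, hi, eV, eA, eB, eU, eV2, rU, sU, sV, rA, rB, nc, yc⟩ := Z
  refine Pa.cons' (c := V) (d := n) (t := ep n i) (nc rfl) ?_ ?_ (Pa.cons' (c := U) (t := 0) sU ?_ ?_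
    (Pa.nil _) ?_) ?_
  · rw [eB]; exact nb_nb _ _
  · simp only [op_op]
    revert hn hi
    cases n <;> cases i <;> simp [Dir.v, nu, Dir.mate]
  · simp only
    rw [eV]
    have := nb_nb U (op n)
    rwa [op_op] at this
  · simp only
    revert hn hi
    cases n <;> cases i <;> simp [Dir.v, nu, Dir.mate, op]
  · simp only
    revert hn hi
    unfold ep nu
    cases n <;> cases i <;> simp [Dir.v, Dir.mate, Dir.tn, op]
  · simp only [op_op]
    revert hn hi
    unfold ep nu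
    cases n <;> cases i <;> simp [Dir.v, Dir.mate, Dir.tn]

/-- the end of the region, changed -/
theorem ZS.reg_yc (Z : ZS true σ1 σ2 U V A B U2 V2 n i) :
    Pa σ1 (U, op i) (V, op n) (ep n i) ∧ Pa σ2 (B, op i) (V, op n) (ep n i) := by
  obtain ⟨hn, hi, eV, eA, eB, eU, eV2, rU, sU, sV, rA, rB, nc, yc⟩ := Z
  obtain ⟨y1, y2, y3, y4, y5⟩ := yc rfl
  constructor
  · refine Pa.cons' (c := U2) (d := op n) (t := 0) y2 eU.symm ?_ (Pa.cons' (c := V2) (d := i)
      (t := -(ep n i)) y4 ?_ ?_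
      (Pa.cons' (c := V) (t := 0) sV ?_ ?_ (Pa.nil _) ?_) ?_) ?_
    · simp only [op_op]
      revert hn hi
      cases n <;> cases i <;> simp [Dir.v, nu, Dir.mate, op]
    · simp only
      rw [eU, eV2, eV]
      obtain ⟨x, y⟩ := U
      revert hn hi
      cases n <;> cases i <;> simp [Dir.v, op, nb]
    · simp only [op_op]
      revert hn hi
      cases n <;> cases i <;> simp [Dir.v, nu, Dir.mate]
    · simp only
      rw [eV2]
      have := nb_nb V (op i)
      rwa [op_op] at this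
    · simp only
      revert hn hi
      cases n <;> cases i <;> simp [Dir.v, nu, Dir.mate, op]
    · simp only
      revert hn hi
      unfold ep nu
      cases n <;> cases i <;> simp [Dir.v, Dir.mate, Dir.tn, op]
    · simp only [op_op]
      revert hn hi
      unfold ep nu
      cases n <;> cases i <;> simp [Dir.v, Dir.mate, Dir.tn]
    · simp only [op_op]
      revert hn hi
      unfold ep nu
      cases n <;> cases i <;> simp [Dir.v, Dir.mate, Dir.tn]
  · refine Pa.cons' (c := V) (t := 0) y1 ?_ ?_ (Pa.nil _) ?_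
    · rw [eB]; exact nb_nb _ _
    · simp only [op_op]
      revert hn hi
      cases n <;> cases i <;> simp [Dir.v, nu, Dir.mate, op]
    · simp only [op_op]
      revert hn hi
      unfold ep nu
      cases n <;> cases i <;> simp [Dir.v, Dir.mate, Dir.tn]

/-- boundary entries of a straight zone -/
def Bd (ch : Bool) (U V U2 V2 : ℤ × ℤ) (n i : Dir) (z : End) : Prop :=
  z = (U, n) ∨ (ch = false ∧ (z = (U, op i) ∨ z = (V, op i) ∨ z = (V, op n))) ∨
    (ch = true ∧ (z = (V, op n) ∨ z = (U2, n) ∨ z = (U2, op i) ∨ z = (V2, op i) ∨ z = (V2, op n)))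

theorem ZS.entry (Z : ZS ch σ1 σ2 U V A B U2 V2 n i) {z : End} (h : Bd ch U V U2 V2 n i z) :
    (∃ b, σ1 z.1 = some b ∧ σ2 z.1 = some b ∧ Bd ch U V U2 V2 n i (z.1, z.2.mate b)) ∨
      z = (U, n) ∨ (ch = false ∧ z = (U, op i)) ∨ (ch = true ∧ z = (V, op n)) := by
  obtain ⟨hn, hi, eV, eA, eB, eU, eV2, rU, sU, sV, rA, rB, nc, yc⟩ := Z
  have m1 : (op i).mate (nu n i) = op n := by
    revert hn hi; cases n <;> cases i <;> simp [Dir.v, nu, Dir.mate, op]
  have m2 : (op n).mate (nu n i) = op i := by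
    revert hn hi; cases n <;> cases i <;> simp [Dir.v, nu, Dir.mate, op]
  have m3 : n.mate (!nu n i) = op i := by
    revert hn hi; cases n <;> cases i <;> simp [Dir.v, nu, Dir.mate, op]
  have m4 : (op i).mate (!nu n i) = n := by
    revert hn hi; cases n <;> cases i <;> simp [Dir.v, nu, Dir.mate, op]
  rcases h with rfl | ⟨hc, rfl | rfl | rfl⟩ | ⟨hc, rfl | rfl | rfl | rfl | rfl⟩
  · exact Or.inr (Or.inl rfl)
  · exact Or.inr (Or.inr (Or.inl ⟨hc, rfl⟩))
  · refine Or.inl ⟨_, sV, nc hc, ?_⟩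
    simp only [m1]
    exact Or.inr (Or.inl ⟨hc, Or.inr (Or.inr rfl)⟩)
  · refine Or.inl ⟨_, sV, nc hc, ?_⟩
    simp only [m2]
    exact Or.inr (Or.inl ⟨hc, Or.inr (Or.inl rfl)⟩)
  · exact Or.inr (Or.inr (Or.inr ⟨hc, rfl⟩))
  · obtain ⟨y1, y2, y3, y4, y5⟩ := yc hc
    refine Or.inl ⟨_, y2, y3, ?_⟩
    simp only [m3]
    exact Or.inr (Or.inr ⟨hc, Or.inr (Or.inr (Or.inl rfl))⟩)
  · obtain ⟨y1, y2, y3, y4, y5⟩ := yc hc
    refine Or.inl ⟨_, y2, y3, ?_⟩
    simp only [m4]
    exact Or.inr (Or.inr ⟨hc, Or.inr (Or.inl rfl)⟩)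
  · obtain ⟨y1, y2, y3, y4, y5⟩ := yc hc
    refine Or.inl ⟨_, y4, y5, ?_⟩
    simp only [m1]
    exact Or.inr (Or.inr ⟨hc, Or.inr (Or.inr (Or.inr (Or.inr rfl)))⟩)
  · obtain ⟨y1, y2, y3, y4, y5⟩ := yc hc
    refine Or.inl ⟨_, y4, y5, ?_⟩
    simp only [m2]
    exact Or.inr (Or.inr ⟨hc, Or.inr (Or.inr (Or.inr (Or.inl rfl)))⟩)

/-- boundary entries of a zone with a reflex corner -/
def BR (U V : ℤ × ℤ) (n i : Dir) (z : End) : Prop :=
  z = (U, n) ∨ z = (U, op i) ∨ z = (V, op i) ∨ z = (V, op n)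

theorem ZR.entry (Z : ZR σ1 σ2 U V A B n i) {z : End} (h : BR U V n i z) :
    (∃ b, σ1 z.1 = some b ∧ σ2 z.1 = some b ∧ BR U V n i (z.1, z.2.mate b)) ∨
      z = (U, n) ∨ z = (U, op i) := by
  obtain ⟨hn, hi, eV, eA, eB, rU, sV, rA, rB⟩ := Z
  have m1 : (op i).mate (nu n i) = op n := by
    revert hn hi; cases n <;> cases i <;> simp [Dir.v, nu, Dir.mate, op]
  have m2 : (op n).mate (nu n i) = op i := by
    revert hn hi; cases n <;> cases i <;> simp [Dir.v, nu, Dir.mate, op]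
  rcases h with rfl | rfl | rfl | rfl
  · exact Or.inr (Or.inl rfl)
  · exact Or.inr (Or.inr rfl)
  · refine Or.inl ⟨_, sV.1, sV.2, ?_⟩
    simp only [m1]
    exact Or.inr (Or.inr (Or.inr rfl))
  · refine Or.inl ⟨_, sV.1, sV.2, ?_⟩
    simp only [m2]
    exact Or.inr (Or.inr (Or.inl rfl))

/-- the wires of the tile at a reflex corner in the state where it is a row tile -/
theorem ZR.inner (Z : ZR σ1 σ2 U V A B n i) : G σ2 (U, i) (A, op i) 0 ∧
    G σ2 (U, op n) (B, op i) (ep n i) := by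
  obtain ⟨hn, hi, eV, eA, eB, rU, sV, rA, rB⟩ := Z
  constructor
  · exact G.stop' rA.2 eA.symm rfl rfl
  · refine G.pass' (c := V) (d := i) (t := 0) sV.2 eV.symm ?_ (G.stop' rB.2 eB.symm rfl rfl) ?_
    · simp only [op_op]
      revert hn hi
      cases n <;> cases i <;> simp [Dir.v, nu, Dir.mate]
    · simp only [op_op]
      rw [add_zero]
      rfl

end zone

end Pool.Agent.H64.Win
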