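import Pool.Agent.H64.Win.Pairs

/-!
# All the wires between the exposed ends agree
-/

namespace Pool.Agent.H64.Win

open Pool.Agent.H64.Q1 hiding Tl
open Pool.Agent.H81.G1 Pool.Agent.Q1 Pool.Agent.H33.Q1
open Pool.Agent.H75.Perc Pool.Agent.H75.TwoArm
open Pool.Agent.H74.R45 hiding Tl
open Pool.Agent.H46.Sp (TP lbP tyP crP)
open Finset

variable {w : ℕ} {a b j : ℤ} {lS rN : Bool}
variable {X1 X2 : Env} {W1 W2 P1 P2 : Finset (ℤ × ℤ)} {lR cL rR cR : Bool}
  (H : Cfg X1 X2 W1 W2 P1 P2 a b j w lS lR cL rN rR cR) (φ : ℂ)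
  (hφ : ∀ k, Complex.sin (ang φ k) ≠ 0)

theorem bf (b : Bool) : b = false ∨ b = true := by cases b <;> simp

/-- corresponding ends of the two environments -/
abbrev Cfg.ES (_ : Cfg X1 X2 W1 W2 P1 P2 a b j w lS lR cL rN rR cR) : End → End → ℤ → Prop :=
  Ends (sto X1.E W1) (sto X2.E W2) a b j lS lR cL rN rR cR

/-- the ends which belong to the second half of a split tile are inside the box -/
theorem split_in (hab : a + 2 ≤ b) {q : ℤ × ℤ} {d : Dir}
    (h : (mp1 a b j lS lR rN rR q = true ∧ old2 (μ1 a q) d = true) ∨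
      (mp2 a b j lS lR rN rR q = true ∧ old2 (μ2 a q) d = true)) :
    ¬ Yk (Kb a b j cL cR) (q, d) := by
  have h1 := bi_le cL
  have h2 := bi_le cR
  unfold Yk
  rw [not_not]
  rcases h with ⟨h, hd⟩ | ⟨h, hd⟩
  · rcases mp1_true h with ⟨-, -, rfl⟩ | ⟨-, -, rfl⟩
    · have hμ : μ1 a (a - 1, j) = .W := by unfold μ1; simp only; rw [if_pos (by omega)]
      rw [hμ] at hd
      refine ⟨⟨by simp only; omega, by simp only; omega, Or.inl rfl⟩, ?_⟩
      cases d
      · exact absurd hd (by decide)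
      · exact absurd hd (by decide)
      · exact ⟨by simp only [nb]; omega, by simp only [nb]; omega, Or.inl rfl⟩
      · exact ⟨by simp only [nb]; omega, by simp only [nb]; omega, Or.inr rfl⟩
    · have hμ : μ1 a (b, j) = .N := by unfold μ1; simp only; rw [if_neg (by omega)]
      rw [hμ] at hd
      refine ⟨⟨by simp only; omega, by simp only; omega, Or.inl rfl⟩, ?_⟩
      cases d
      · exact ⟨by simp only [nb]; omega, by simp only [nb]; omega, Or.inl rfl⟩
      · exact absurd hd (by decide)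
      · exact absurd hd (by decide)
      · exact ⟨by simp only [nb]; omega, by simp only [nb]; omega, Or.inr rfl⟩
  · rcases mp2_true h with ⟨-, -, rfl⟩ | ⟨-, -, rfl⟩
    · have hμ : μ2 a (a - 1, j - 1) = .S := by unfold μ2; simp only; rw [if_pos (by omega)]
      rw [hμ] at hd
      refine ⟨⟨by simp only; omega, by simp only; omega, Or.inr rfl⟩, ?_⟩
      cases d
      · exact absurd hd (by decide)
      · exact ⟨by simp only [nb]; omega, by simp only [nb]; omega, Or.inl (by simp only [nb]; omega)⟩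
      · exact ⟨by simp only [nb]; omega, by simp only [nb]; omega, Or.inr rfl⟩
      · exact absurd hd (by decide)
    · have hμ : μ2 a (b, j - 1) = .E := by unfold μ2; simp only; rw [if_neg (by omega)]
      rw [hμ] at hd
      refine ⟨⟨by simp only; omega, by simp only; omega, Or.inr rfl⟩, ?_⟩
      cases d
      · exact ⟨by simp only [nb]; omega, by simp only [nb]; omega, Or.inr rfl⟩
      · exact ⟨by simp only [nb]; omega, by simp only [nb]; omega, Or.inl (by simp only [nb]; omega)⟩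
      · exact absurd hd (by decide)
      · exact absurd hd (by decide)

/-- **Corresponding ends are exposed ends.** -/
theorem ends_pl {z z' : End} {δ : ℤ} (h : H.ES z z' δ) : ∃ q, Pl H φ hφ q z z' δ := by
  have hab := H.S.ab
  have hL := bi_le cL
  have hR' := bi_le cR
  rcases h with ⟨rfl, rfl, h1, h2, h3⟩ | ⟨hR, h⟩ | ⟨hR, h⟩
  · obtain ⟨⟨x, y⟩, d⟩ := z
    simp only at h1 h2
    by_cases c : a ≤ x ∧ x < b ∧ (y = j ∨ y = j - 1)
    · obtain ⟨c1, c2, c3⟩ := c
      rcases c3 with rfl | rfl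
      · have hd : d = .N := by
          by_contra hd
          apply h3
          refine ⟨⟨by simp only; omega, by simp only; omega, Or.inl rfl⟩, ?_⟩
          cases d
          · exact ⟨by simp only [nb]; omega, by simp only [nb]; omega, Or.inl rfl⟩
          · exact absurd rfl hd
          · exact ⟨by simp only [nb]; omega, by simp only [nb]; omega, Or.inl rfl⟩
          · exact ⟨by simp only [nb]; omega, by simp only [nb]; omega, Or.inr rfl⟩
        subst hd
        obtain ⟨i, k1, k2⟩ := p_top H φ hφ c1 c2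
        exact ⟨_, k1, k2, rfl⟩
      · have hd : d = .S := by
          by_contra hd
          apply h3
          refine ⟨⟨by simp only; omega, by simp only; omega, Or.inr rfl⟩, ?_⟩
          cases d
          · exact ⟨by simp only [nb]; omega, by simp only [nb]; omega, Or.inr rfl⟩
          · exact ⟨by simp only [nb]; omega, by simp only [nb]; omega,
              Or.inl (by simp only [nb]; omega)⟩
          · exact ⟨by simp only [nb]; omega, by simp only [nb]; omega, Or.inr rfl⟩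
          · exact absurd rfl hd
        subst hd
        obtain ⟨i, k1, k2⟩ := p_bot H φ hφ c1 c2
        exact ⟨_, k1, k2, rfl⟩
    · have ho : (x, y) ∈ PO P1 P2 a b j := mem_PO.2 ⟨⟨(H.p1 _).1 h1, (H.p2 _).1 h2⟩, c⟩
      refine ⟨.o (⟨(x, y), ho⟩, d), p_o H φ hφ ⟨(x, y), ho⟩ d ?_, p_o' H φ hφ ⟨(x, y), ho⟩ d ?_, rfl⟩
      · intro h4
        exact split_in hab (Or.inl h4) h3
      · intro h4
        exact split_in hab (Or.inr h4) h3
  · unfold SpL at h
    rcases bf lS with hS | hS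
    · rw [hS] at h
      simp only [Bool.false_eq_true, if_false] at h
      rcases h with ⟨rfl, rfl, rfl⟩ | ⟨rfl, rfl, rfl⟩
      · obtain ⟨k1, k2⟩ := p_vN H φ hφ hS
        exact ⟨_, k1, k2 hR, dd_v H φ hφ⟩
      · obtain ⟨i0, j0, j1⟩ := ix2_l (a := a) (b := b) (j := j) (w := w) (rN := rN) H.tab H.hw hS
        obtain ⟨k1, k2⟩ := p_f2l H φ hφ hS j0
        exact ⟨_, k1, k2 hR, rfl⟩
    · rw [hS] at h
      simp only [if_true] at h
      rcases h with ⟨rfl, rfl, rfl⟩ | ⟨rfl, rfl, rfl⟩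
      · obtain ⟨k1, k2⟩ := p_vS H φ hφ hS
        exact ⟨_, k1 hR, k2, dd_v H φ hφ⟩
      · obtain ⟨i0, j0, j1⟩ := ix1_l (a := a) (b := b) (j := j) (w := w) (rN := rN) H.tab H.hw hS
        obtain ⟨k1, k2⟩ := p_f1l H φ hφ hS j0
        exact ⟨_, k1 hR, k2, rfl⟩
  · unfold SpR at h
    rcases bf rN with hS | hS
    · rw [hS] at h
      simp only [Bool.false_eq_true, if_false] at h
      rcases h with ⟨rfl, rfl, rfl⟩ | ⟨rfl, rfl, rfl⟩
      · obtain ⟨k1, k2⟩ := p_uS H φ hφ hS
        exact ⟨_, k1, k2 hR, dd_u H φ hφ⟩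
      · obtain ⟨i0, j0, j1⟩ := ix2_r (a := a) (b := b) (j := j) (w := w) (lS := lS) H.tab H.hw hS
        obtain ⟨k1, k2⟩ := p_f2r H φ hφ hS j0
        exact ⟨_, k1, k2 hR, rfl⟩
    · rw [hS] at h
      simp only [if_true] at h
      rcases h with ⟨rfl, rfl, rfl⟩ | ⟨rfl, rfl, rfl⟩
      · obtain ⟨k1, k2⟩ := p_uN H φ hφ hS
        exact ⟨_, k1 hR, k2, dd_u H φ hφ⟩
      · obtain ⟨i0, j0, j1⟩ := ix1_r (a := a) (b := b) (j := j) (w := w) (lS := lS) H.tab H.hw hS
        obtain ⟨k1, k2⟩ := p_f1r H φ hφ hS j0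
        exact ⟨_, k1 hR, k2, rfl⟩

/-- the changed tiles behind the column are not random -/
theorem Strip.behL {σ σ' : State} (S : Strip σ σ' a b j lS lR cL rN rR cR) (h : cL = true) :
    σ' (a - 2, j) ≠ none ∧ σ' (a - 2, j - 1) ≠ none := by
  have hR : lR = false := by
    cases h1 : lR
    · rfl
    · rw [S.lc h1] at h; exact absurd h (by simp)
  cases h2 : lS
  · obtain ⟨y1, y2, y3, y4, y5⟩ := (S.l2 hR h2).yc h
    rw [y4, y2]; simp
  · obtain ⟨y1, y2, y3, y4, y5⟩ := (S.l1 hR h2).yc h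
    rw [y3, y5]; simp

theorem Strip.behR {σ σ' : State} (S : Strip σ σ' a b j lS lR cL rN rR cR) (h : cR = true) :
    σ' (b + 1, j) ≠ none ∧ σ' (b + 1, j - 1) ≠ none := by
  have hR : rR = false := by
    cases h1 : rR
    · rfl
    · rw [S.rc h1] at h; exact absurd h (by simp)
  cases h2 : rN
  · obtain ⟨y1, y2, y3, y4, y5⟩ := (S.r2 hR h2).yc h
    rw [y4, y2]; simp
  · obtain ⟨y1, y2, y3, y4, y5⟩ := (S.r1 hR h2).yc h
    rw [y3, y5]; simp

/-- **An exposed end has corresponding places or is joined to an internal end.** -/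
theorem pl_or (q : EX P1 P2 a b j w lS rN) : (∃ z z' δ, H.ES z z' δ ∧ Pl H φ hφ q z z' δ) ∨
    ∃ q', Pr H φ hφ q q' := by
  have hw0 := H.hw0
  have hw := H.hw
  have hab := H.S.ab
  have hL := bi_le cL
  have hR' := bi_le cR
  rcases q with i | i | ⟨o, d⟩ | _ | _
  · -- first line
    rcases c1 (a := a) (b := b) (j := j) (rN := rN) hw0 i with ⟨e0, e1, e2, -⟩ |
      ⟨x, ex, e0, e2, -⟩ | ⟨e0, e1, e2, -⟩
    · obtain ⟨k1, k2⟩ := p_f1l H φ hφ e1 e0
      rcases bf lR with hR | hR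
      · left
        refine ⟨_, _, 0, Or.inr (Or.inl ⟨hR, ?_⟩), k1 hR, k2, rfl⟩
        unfold SpL
        rw [if_pos e1]
        exact Or.inr ⟨rfl, rfl, rfl⟩
      · right
        have ho : (a - 1, j) ∈ PO P1 P2 a b j := mem_PO.2 ⟨⟨H.tab.a1.2 e1, H.tab.a2.2 ⟨e1, hR⟩⟩,
          by simp only; omega⟩
        exact ⟨_, ((i1 H φ hφ e1 hR ⟨_, ho⟩ rfl).2 i e0).symm⟩
    · left
      obtain ⟨i', k1, k2⟩ := p_bot H φ hφ (x := a + x) (by omega) (by omega)
      have e : i' = i := by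
        have h3 : jl (J1 H.tab H.hw) i' = jl (J1 H.tab H.hw) i' := rfl
        obtain ⟨h, h4⟩ := k1
        have r := (r1_b H.tab H.hw e2 (by omega) (by omega) (rc (rc (rc (d1 w lS i))))).2
        have ed : d1 w lS i = .W := by
          unfold d1; rw [if_neg (by omega), if_pos (by omega)]
        rw [ed] at r
        have h5 : ee1 H φ hφ (.f1 i) = ee1 H φ hφ (.f1 i') := by
          rw [h4]
          change jl _ _ (rc (rc (rc (d1 w lS i)))) = _
          rw [ed]
          exact r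
        have h6 := Rgn.E1_inj _ _ _ _ h5
        simp only [Ex.f1.injEq] at h6
        exact h6.symm
      subst e
      refine ⟨_, _, 0, Or.inl ⟨rfl, rfl, (H.S.row _ (by omega) (by omega)).2.1,
        (H.S.row _ (by omega) (by omega)).2.2, ?_⟩, k1, k2, rfl⟩
      rintro ⟨-, -, -, h⟩
      simp only [nb] at h
      omega
    · obtain ⟨k1, k2⟩ := p_f1r H φ hφ e1 e0
      rcases bf rR with hR | hR
      · left
        refine ⟨_, _, 0, Or.inr (Or.inr ⟨hR, ?_⟩), k1 hR, k2, rfl⟩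
        unfold SpR
        rw [if_pos e1]
        exact Or.inr ⟨rfl, rfl, rfl⟩
      · right
        have ho : (b, j) ∈ PO P1 P2 a b j := mem_PO.2 ⟨⟨H.tab.b1.2 e1, H.tab.b2.2 ⟨e1, hR⟩⟩,
          by simp only; omega⟩
        exact ⟨_, ((i3 H φ hφ e1 hR ⟨_, ho⟩ rfl).2 i e0).symm⟩
  · -- second line
    rcases c2 (a := a) (b := b) (j := j) (lS := lS) hw0 i with ⟨e0, e1, e2, -⟩ |
      ⟨x, ex, e0, e2, -⟩ | ⟨e0, e1, e2, -⟩
    · obtain ⟨k1, k2⟩ := p_f2r H φ hφ e1 e0
      rcases bf rR with hR | hR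
      · left
        refine ⟨_, _, 0, Or.inr (Or.inr ⟨hR, ?_⟩), k1, k2 hR, rfl⟩
        unfold SpR
        rw [if_neg (by rw [e1]; simp)]
        exact Or.inr ⟨rfl, rfl, rfl⟩
      · right
        have ho : (b, j - 1) ∈ PO P1 P2 a b j := mem_PO.2 ⟨⟨H.tab.b4.2 ⟨e1, hR⟩, H.tab.b3.2 e1⟩,
          by simp only; omega⟩
        exact ⟨_, ((i4 H φ hφ e1 hR ⟨_, ho⟩ rfl).2 i e0).symm⟩
    · left
      obtain ⟨i', k1, k2⟩ := p_top H φ hφ (x := b - 1 - x) (by omega) (by omega)
      have e : i' = i := by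
        obtain ⟨h, h4⟩ := k2
        have r := (r2_t H.tab H.hw e2 (by omega) (by omega) (rc (rc (rc (d2 w rN i))))).2
        have ed : d2 w rN i = .E := by
          unfold d2; rw [if_neg (by omega), if_pos (by omega)]
        rw [ed] at r
        have h5 : ee2 H φ hφ (.f2 i) = ee2 H φ hφ (.f2 i') := by
          rw [h4]
          change jl _ _ (rc (rc (rc (d2 w rN i)))) = _
          rw [ed]
          exact r
        have h6 := Rgn.E2_inj _ _ _ _ h5
        simp only [Ex.f2.injEq] at h6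
        exact h6.symm
      subst e
      refine ⟨_, _, 0, Or.inl ⟨rfl, rfl, (H.S.row _ (by omega) (by omega)).1.1,
        (H.S.row _ (by omega) (by omega)).1.2, ?_⟩, k1, k2, rfl⟩
      rintro ⟨-, -, -, h⟩
      simp only [nb] at h
      omega
    · obtain ⟨k1, k2⟩ := p_f2l H φ hφ e1 e0
      rcases bf lR with hR | hR
      · left
        refine ⟨_, _, 0, Or.inr (Or.inl ⟨hR, ?_⟩), k1, k2 hR, rfl⟩
        unfold SpL
        rw [if_neg (by rw [e1]; simp)]
        exact Or.inr ⟨rfl, rfl, rfl⟩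
      · right
        have ho : (a - 1, j - 1) ∈ PO P1 P2 a b j := mem_PO.2 ⟨⟨H.tab.a4.2 ⟨e1, hR⟩,
          H.tab.a3.2 e1⟩, by simp only; omega⟩
        exact ⟨_, ((i2 H φ hφ e1 hR ⟨_, ho⟩ rfl).2 i e0).symm⟩
  · -- other tiles
    obtain ⟨⟨o1, o2⟩, o3⟩ := mem_PO.1 o.2
    by_cases m1' : mp1 a b j lS lR rN rR o.1 = true ∧ old2 (μ1 a o.1) d = true
    · right
      obtain ⟨m1', hd⟩ := m1'
      rcases mp1_true m1' with ⟨e1, e2, e3⟩ | ⟨e1, e2, e3⟩
      · have hμ : μ1 a o.1 = .W := by unfold μ1; rw [e3]; simp only; rw [if_pos (by omega)]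
        rw [hμ] at hd
        cases d
        · exact absurd hd (by decide)
        · exact absurd hd (by decide)
        · exact ⟨_, (i1 H φ hφ e1 e2 o e3).1⟩
        · obtain ⟨i0, j0, -⟩ := ix1_l (a := a) (b := b) (j := j) (w := w) (rN := rN) H.tab H.hw e1
          exact ⟨_, (i1 H φ hφ e1 e2 o e3).2 i0 j0⟩
      · have hμ : μ1 a o.1 = .N := by unfold μ1; rw [e3]; simp only; rw [if_neg (by omega)]
        rw [hμ] at hd
        cases d
        · exact ⟨_, (i3 H φ hφ e1 e2 o e3).1⟩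
        · exact absurd hd (by decide)
        · exact absurd hd (by decide)
        · obtain ⟨i0, j0, -⟩ := ix1_r (a := a) (b := b) (j := j) (w := w) (lS := lS) H.tab H.hw e1
          exact ⟨_, (i3 H φ hφ e1 e2 o e3).2 i0 j0⟩
    · by_cases m2' : mp2 a b j lS lR rN rR o.1 = true ∧ old2 (μ2 a o.1) d = true
      · right
        obtain ⟨m2', hd⟩ := m2'
        rcases mp2_true m2' with ⟨e1, e2, e3⟩ | ⟨e1, e2, e3⟩
        · have hμ : μ2 a o.1 = .S := by unfold μ2; rw [e3]; simp only; rw [if_pos (by omega)]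
          rw [hμ] at hd
          cases d
          · exact absurd hd (by decide)
          · obtain ⟨i0, j0, -⟩ := ix2_l (a := a) (b := b) (j := j) (w := w) (rN := rN) H.tab H.hw e1
            exact ⟨_, (i2 H φ hφ e1 e2 o e3).2 i0 j0⟩
          · exact ⟨_, (i2 H φ hφ e1 e2 o e3).1⟩
          · exact absurd hd (by decide)
        · have hμ : μ2 a o.1 = .E := by unfold μ2; rw [e3]; simp only; rw [if_neg (by omega)]
          rw [hμ] at hd
          cases d
          · exact ⟨_, (i4 H φ hφ e1 e2 o e3).1⟩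
          · obtain ⟨i0, j0, -⟩ := ix2_r (a := a) (b := b) (j := j) (w := w) (lS := lS) H.tab H.hw e1
            exact ⟨_, (i4 H φ hφ e1 e2 o e3).2 i0 j0⟩
          · exact absurd hd (by decide)
          · exact absurd hd (by decide)
      · left
        refine ⟨(o.1, d), (o.1, d), 0, Or.inl ⟨rfl, rfl, (H.p1 _).2 o1, (H.p2 _).2 o2, ?_⟩,
          p_o H φ hφ o d m1', p_o' H φ hφ o d m2', rfl⟩
        -- the edge is not inside the box
        obtain ⟨⟨x, y⟩, ho⟩ := o
        simp only at o1 o2 o3 m1' m2' ⊢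
        rintro ⟨⟨k1, k2, k3⟩, k4⟩
        simp only at k1 k2 k3
        have hx : x = a - 2 ∧ cL = true ∨ x = a - 1 ∨ x = b ∨ x = b + 1 ∧ cR = true := by
          cases cL <;> cases cR <;> simp only [bi_true, bi_false] at k1 k2 <;>
            simp only [Bool.false_eq_true, and_false, and_true, false_or, or_false] <;> omega
        rcases hx with ⟨rfl, hc⟩ | rfl | rfl | ⟨rfl, hc⟩
        · have := H.S.behL hc
          rcases k3 with rfl | rfl
          · exact this.1 ((H.p2 _).2 o2)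
          · exact this.2 ((H.p2 _).2 o2)
        · rcases k3 with rfl | rfl
          · obtain ⟨e1, e2⟩ := H.tab.a2.1 o2
            have hcL := H.S.lc e2
            rw [hcL] at k4
            have hm : mp1 a b y lS lR rN rR (a - 1, y) = true := by
              rw [mp1_l hab, e1, e2]; rfl
            have hμ : μ1 a (a - 1, y) = .W := by unfold μ1; simp only; rw [if_pos (by omega)]
            rw [hμ] at m1'
            obtain ⟨k5, k6, k7⟩ := k4
            cases d
            · simp only [nb, bi_false] at k5; omega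
            · simp only [nb] at k7; omega
            · exact m1' ⟨hm, by decide⟩
            · exact m1' ⟨hm, by decide⟩
          · obtain ⟨e1, e2⟩ := H.tab.a4.1 o1
            have hcL := H.S.lc e2
            rw [hcL] at k4
            have hm : mp2 a b j lS lR rN rR (a - 1, j - 1) = true := by
              rw [mp2_l hab, e1, e2]; rfl
            have hμ : μ2 a (a - 1, j - 1) = .S := by unfold μ2; simp only; rw [if_pos (by omega)]
            rw [hμ] at m2'
            obtain ⟨k5, k6, k7⟩ := k4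
            cases d
            · simp only [nb, bi_false] at k5; omega
            · exact m2' ⟨hm, by decide⟩
            · exact m2' ⟨hm, by decide⟩
            · simp only [nb] at k7; omega
        · rcases k3 with rfl | rfl
          · obtain ⟨e1, e2⟩ := H.tab.b2.1 o2
            have hcR := H.S.rc e2
            rw [hcR] at k4
            have hm : mp1 a x y lS lR rN rR (x, y) = true := by
              rw [mp1_r hab, e1, e2]; rfl
            have hμ : μ1 a (x, y) = .N := by unfold μ1; simp only; rw [if_neg (by omega)]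
            rw [hμ] at m1'
            obtain ⟨k5, k6, k7⟩ := k4
            cases d
            · exact m1' ⟨hm, by decide⟩
            · simp only [nb] at k7; omega
            · simp only [nb, bi_false] at k6; omega
            · exact m1' ⟨hm, by decide⟩
          · obtain ⟨e1, e2⟩ := H.tab.b4.1 o1
            have hcR := H.S.rc e2
            rw [hcR] at k4
            have hm : mp2 a x j lS lR rN rR (x, j - 1) = true := by
              rw [mp2_r hab, e1, e2]; rfl
            have hμ : μ2 a (x, j - 1) = .E := by unfold μ2; simp only; rw [if_neg (by omega)]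
            rw [hμ] at m2'
            obtain ⟨k5, k6, k7⟩ := k4
            cases d
            · exact m2' ⟨hm, by decide⟩
            · exact m2' ⟨hm, by decide⟩
            · simp only [nb, bi_false] at k6; omega
            · simp only [nb] at k7; omega
        · have := H.S.behR hc
          rcases k3 with rfl | rfl
          · exact this.1 ((H.p2 _).2 o2)
          · exact this.2 ((H.p2 _).2 o2)
  · -- the mark on the right
    rcases bf rN with hN | hN
    · subst hN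
      obtain ⟨k1, k2⟩ := p_uS H φ hφ rfl
      rcases bf rR with hR | hR
      · left
        refine ⟨_, _, 1, Or.inr (Or.inr ⟨hR, ?_⟩), k1, k2 hR, dd_u H φ hφ⟩
        unfold SpR
        rw [if_neg (by simp)]
        exact Or.inl ⟨rfl, rfl, rfl⟩
      · right
        have ho : (b, j - 1) ∈ PO P1 P2 a b j := mem_PO.2 ⟨⟨H.tab.b4.2 ⟨rfl, hR⟩, H.tab.b3.2 rfl⟩,
          by simp only; omega⟩
        exact ⟨_, ((i4 H φ hφ rfl hR ⟨_, ho⟩ rfl).1).symm⟩
    · subst hN
      obtain ⟨k1, k2⟩ := p_uN H φ hφ rfl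
      rcases bf rR with hR | hR
      · left
        refine ⟨_, _, 1, Or.inr (Or.inr ⟨hR, ?_⟩), k1 hR, k2, dd_u H φ hφ⟩
        unfold SpR
        rw [if_pos rfl]
        exact Or.inl ⟨rfl, rfl, rfl⟩
      · right
        have ho : (b, j) ∈ PO P1 P2 a b j := mem_PO.2 ⟨⟨H.tab.b1.2 rfl, H.tab.b2.2 ⟨rfl, hR⟩⟩,
          by simp only; omega⟩
        exact ⟨_, ((i3 H φ hφ rfl hR ⟨_, ho⟩ rfl).1).symm⟩
  · -- the mark on the left
    rcases bf lS with hN | hN
    · subst hN
      obtain ⟨k1, k2⟩ := p_vN H φ hφ rfl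
      rcases bf lR with hR | hR
      · left
        refine ⟨_, _, -1, Or.inr (Or.inl ⟨hR, ?_⟩), k1, k2 hR, dd_v H φ hφ⟩
        unfold SpL
        rw [if_neg (by simp)]
        exact Or.inl ⟨rfl, rfl, rfl⟩
      · right
        have ho : (a - 1, j - 1) ∈ PO P1 P2 a b j := mem_PO.2 ⟨⟨H.tab.a4.2 ⟨rfl, hR⟩,
          H.tab.a3.2 rfl⟩, by simp only; omega⟩
        exact ⟨_, ((i2 H φ hφ rfl hR ⟨_, ho⟩ rfl).1).symm⟩
    · subst hN
      obtain ⟨k1, k2⟩ := p_vS H φ hφ rfl
      rcases bf lR with hR | hR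
      · left
        refine ⟨_, _, -1, Or.inr (Or.inl ⟨hR, ?_⟩), k1 hR, k2, dd_v H φ hφ⟩
        unfold SpL
        rw [if_pos rfl]
        exact Or.inl ⟨rfl, rfl, rfl⟩
      · right
        have ho : (a - 1, j) ∈ PO P1 P2 a b j := mem_PO.2 ⟨⟨H.tab.a1.2 rfl, H.tab.a2.2 ⟨rfl, hR⟩⟩,
          by simp only; omega⟩
        exact ⟨_, ((i1 H φ hφ rfl hR ⟨_, ho⟩ rfl).1).symm⟩

/-- **The wires between the exposed ends.** -/
theorem ex_pr (q : EX P1 P2 a b j w lS rN) : ∃ q', Pr H φ hφ q q' := by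
  rcases pl_or H φ hφ q with ⟨z, z', δ, h, hq⟩ | h
  swap
  · exact h
  obtain ⟨hz, -⟩ := hq.l
  obtain ⟨v, t, hG, -⟩ := G_tot H.I1 H.e1 H.T1 hz
  obtain ⟨v', δ', h1, h2⟩ := H.S.loc.pair h hG
  obtain ⟨q', hq'⟩ := ends_pl H φ hφ h1
  exact ⟨q', pr_real hq hq' hG h2 rfl⟩

/-! ### Incoming ends -/

theorem inq_par {x y x' y' : ℤ} {d : Dir} (e : (x + y) % 2 = (x' + y') % 2) :
    inq (x, y) d = inq (x', y') d := by
  unfold inq
  simp only
  rw [e]

theorem inq_hv {x y x' y' : ℤ} {d d' : Dir} (e : (x + y) % 2 ≠ (x' + y') % 2)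
    (h : d.v = !d'.v) : inq (x, y) d = inq (x', y') d' := by
  unfold inq
  simp only
  rw [h]
  rcases Int.emod_two_eq_zero_or_one (x + y) with h1 | h1
  · have h2 : (x' + y') % 2 = 1 := by omega
    rw [h1, h2]
    cases d'.v <;> rfl
  · have h2 : (x' + y') % 2 = 0 := by omega
    rw [h1, h2]
    cases d'.v <;> rfl

/-- the exposed ends are incoming in both networks or in none -/
theorem ex_io (q : EX P1 P2 a b j w lS rN) :
    inc (sp (Mf P1 (mp1 a b j lS lR rN rR)) tyP) (ee1 H φ hφ q) =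
      inc (sp (Mf P2 (mp2 a b j lS lR rN rR)) tyP) (ee2 H φ hφ q) := by
  have hw0 := H.hw0
  have hw := H.hw
  have hab := H.S.ab
  have i1 : ∀ (x : Ix1 P1 P2 a b j w lS rN) (d : Dir),
      inc (sp (Mf P1 (mp1 a b j lS lR rN rR)) tyP) (J1 H.tab H.hw x, d) = inq (u1 x) d :=
    fun x d => inc_mk _ _ _ _ _ _ _ _ x d
  have i2 : ∀ (x : Ix2 P1 P2 a b j w lS rN) (d : Dir),
      inc (sp (Mf P2 (mp2 a b j lS lR rN rR)) tyP) (J2 H.tab H.hw x, d) = inq (u2 x) d :=
    fun x d => inc_mk _ _ _ _ _ _ _ _ x d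
  rcases q with i | i | ⟨o, d⟩ | _ | _
  · change inc _ (J1 H.tab H.hw (.inr (.inr i)), rc (rc (rc (d1 w lS i)))) =
      inc _ (J2 H.tab H.hw (.inl (sp1 lS rN hw0 i).1), (sp1 lS rN hw0 i).2)
    rw [i1, i2]
    change inq (lp1 a b j w lS i) _ = inq (a + ((sp1 lS rN hw0 i).1.1.1 : ℤ), j - 1) _
    rcases c1 (a := a) (b := b) (j := j) (rN := rN) hw0 i with ⟨e0, e1, e2, e3, e4, e5, -⟩ |
      ⟨x, ex, e0, e2, e3, e4, e5, -⟩ | ⟨e0, e1, e2, e3, e4, e5, -⟩
    · rw [e2, e3, e4, e5]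
      exact inq_par (by simp only; omega)
    · rw [e2, e3, e4, e5]
      exact inq_par (by simp only)
    · rw [e2, e3, e4, e5]
      exact inq_par (by simp only; omega)
  · change inc _ (J1 H.tab H.hw (.inl (sp2 lS rN hw0 i).1), (sp2 lS rN hw0 i).2) =
      inc _ (J2 H.tab H.hw (.inr (.inr i)), rc (rc (rc (d2 w rN i))))
    rw [i1, i2]
    change inq (a + ((sp2 lS rN hw0 i).1.1.1 : ℤ), j) _ = inq (lp2 a b j w rN i) _
    rcases c2 (a := a) (b := b) (j := j) (lS := lS) hw0 i with ⟨e0, e1, e2, e3, e4, e5, -⟩ |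
      ⟨x, ex, e0, e2, e3, e4, e5, -⟩ | ⟨e0, e1, e2, e3, e4, e5, -⟩
    · rw [e2, e3, e4, e5]
      exact inq_par (by simp only; omega)
    · rw [e2, e3, e4, e5]
      exact inq_par (by simp only; omega)
    · rw [e2, e3, e4, e5]
      exact inq_par (by simp only; omega)
  · change inc _ (J1 H.tab H.hw (.inr (.inl o)), d) = inc _ (J2 H.tab H.hw (.inr (.inl o)), d)
    rw [i1, i2]
    rfl
  · have hn : m1 w lS rN - 1 < m1 w lS rN := by have := H.n1; omega
    change inc _ (J1 H.tab H.hw (.inr (.inr ⟨m1 w lS rN - 1, hn⟩)),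
        rc (rc (d1 w lS (m1 w lS rN - 1)))) =
      inc _ (J2 H.tab H.hw (.inr (.inr ⟨0, H.n2⟩)), d2 w rN 0)
    rw [i1, i2]
    change inq (lp1 a b j w lS (m1 w lS rN - 1)) _ = inq (lp2 a b j w rN 0) _
    have k1 := c1 (a := a) (b := b) (j := j) hw0 (⟨m1 w lS rN - 1, hn⟩ : Fin (m1 w lS rN))
    have k2 := c2 (a := a) (b := b) (j := j) hw0 (⟨0, H.n2⟩ : Fin (m2 w lS rN))
    simp only at k1 k2
    have hb : bn rN = 0 ∨ bn rN = 1 := by cases rN <;> simp
    cases hN : rN
    · have hb : bn rN = 0 := by rw [hN]; rfl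
      have hb' : bn (!rN) = 1 := by rw [hN]; rfl
      rcases k1 with ⟨e0, -⟩ | ⟨x, ex, e0, e2, e3, -⟩ | ⟨-, e1, -⟩
      · simp only [m1] at e0; omega
      · simp only [m1] at e0
        rcases k2 with ⟨-, -, f2, f3, -⟩ | ⟨y, ey, f0, -⟩ | ⟨f0, -⟩
        · rw [hN] at f2 f3 e2 e3
          rw [e2, e3, f2, f3]
          exact inq_hv (by omega) rfl
        · omega
        · omega
      · rw [hN] at e1; exact absurd e1 (by simp)
    · have hb : bn rN = 1 := by rw [hN]; rfl
      have hb' : bn (!rN) = 0 := by rw [hN]; rfl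
      rcases k1 with ⟨e0, -⟩ | ⟨x, ex, e0, -⟩ | ⟨-, -, e2, e3, -⟩
      · simp only [m1] at e0; omega
      · simp only [m1] at e0; omega
      · rcases k2 with ⟨-, f1, -⟩ | ⟨y, ey, f0, f2, f3, -⟩ | ⟨f0, -⟩
        · rw [hN] at f1; exact absurd f1 (by simp)
        · rw [hN] at f2 f3 e2 e3
          rw [e2, e3, f2, f3]
          exact inq_hv (by omega) rfl
        · omega
  · have hn : m2 w lS rN - 1 < m2 w lS rN := by have := H.n2; omega
    change inc _ (J1 H.tab H.hw (.inr (.inr ⟨0, H.n1⟩)), d1 w lS 0) =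
      inc _ (J2 H.tab H.hw (.inr (.inr ⟨m2 w lS rN - 1, hn⟩)),
        rc (rc (d2 w rN (m2 w lS rN - 1))))
    rw [i1, i2]
    change inq (lp1 a b j w lS 0) _ = inq (lp2 a b j w rN (m2 w lS rN - 1)) _
    have k1 := c1 (a := a) (b := b) (j := j) hw0 (⟨0, H.n1⟩ : Fin (m1 w lS rN))
    have k2 := c2 (a := a) (b := b) (j := j) hw0 (⟨m2 w lS rN - 1, hn⟩ : Fin (m2 w lS rN))
    simp only at k1 k2
    cases hN : lS
    · have hb : bn lS = 0 := by rw [hN]; rfl
      have hb' : bn (!lS) = 1 := by rw [hN]; rfl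
      rcases k1 with ⟨-, e1, -⟩ | ⟨x, ex, e0, e2, e3, -⟩ | ⟨e0, -⟩
      · rw [hN] at e1; exact absurd e1 (by simp)
      · rcases k2 with ⟨f0, -⟩ | ⟨y, ey, f0, -⟩ | ⟨-, -, f2, f3, -⟩
        · simp only [m2] at f0; omega
        · simp only [m2] at f0; omega
        · rw [hN] at f2 f3 e2 e3
          rw [e2, e3, f2, f3]
          exact inq_hv (by omega) rfl
      · omega
    · have hb : bn lS = 1 := by rw [hN]; rfl
      have hb' : bn (!lS) = 0 := by rw [hN]; rfl
      rcases k1 with ⟨-, -, e2, e3, -⟩ | ⟨x, ex, e0, -⟩ | ⟨e0, -⟩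
      · rcases k2 with ⟨f0, -⟩ | ⟨y, ey, f0, f2, f3, -⟩ | ⟨-, f1, -⟩
        · simp only [m2] at f0; omega
        · simp only [m2] at f0
          rw [hN] at f2 f3 e2 e3
          rw [e2, e3, f2, f3]
          exact inq_hv (by omega) rfl
        · rw [hN] at f1; exact absurd f1 (by simp)
      · omega
      · omega

/-! ### The root -/

/-- the root leads to corresponding ends or does not meet the tiles -/
theorem ex_root {z0 : End} (hz1 : ce z0.1 z0.2 = X1.c0) (hz2 : ce z0.1 z0.2 = X2.c0)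
    (hi : inq z0.1 z0.2 = false) (hY : Yk (Kb a b j cL cR) z0) :
    (¬ Meets X1 ∧ ¬ Meets X2) ∨ ∃ (m1 : Meets X1) (m2 : Meets X2)
      (q0 : EX P1 P2 a b j w lS rN),
      kp (Mf P1 (mp1 a b j lS lR rN rR)) (μf P1 (μ1 a)) (rx0 H.T1 m1) = ee1 H φ hφ q0 ∧
      kp (Mf P2 (mp2 a b j lS lR rN rR)) (μf P2 (μ2 a)) (rx0 H.T2 m2) = ee2 H φ hφ q0 ∧
      dsh X2 (rn0 X2) = dsh X1 (rn0 X1) - dd H φ hφ q0 := by
  have key : ∀ {v v' : End} {t δ : ℤ}, H.ES v v' δ → G (sto X1.E W1) z0 v t →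
      G (sto X2.E W2) z0 v' (t - δ) → ∃ (m1 : Meets X1) (m2 : Meets X2)
      (q0 : EX P1 P2 a b j w lS rN),
      kp (Mf P1 (mp1 a b j lS lR rN rR)) (μf P1 (μ1 a)) (rx0 H.T1 m1) = ee1 H φ hφ q0 ∧
      kp (Mf P2 (mp2 a b j lS lR rN rR)) (μf P2 (μ2 a)) (rx0 H.T2 m2) = ee2 H φ hφ q0 ∧
      dsh X2 (rn0 X2) = dsh X1 (rn0 X1) - dd H φ hφ q0 := by
    intro v v' t δ h h1 h2
    obtain ⟨q0, hq⟩ := ends_pl H φ hφ h
    obtain ⟨m1, r1, r2⟩ := root_rl H.I1 H.T1 hz1 hi h1 hq.l
    obtain ⟨m2, r3, r4⟩ := root_rl H.I2 H.T2 hz2 hi h2 hq.r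
    exact ⟨m1, m2, q0, r1, r3, by rw [r4, r2, hq.d]⟩
  by_cases hm : Meets X1
  · right
    obtain ⟨n, hn⟩ := hm
    rw [← hz1] at hn
    obtain ⟨v, t, h⟩ := G.ex H.I1 n z0 hi hn
    obtain ⟨v', δ, h1, h2⟩ := H.S.loc.main h hY
    exact key h1 h h2
  · by_cases hm2 : Meets X2
    · right
      obtain ⟨n, hn⟩ := hm2
      rw [← hz2] at hn
      obtain ⟨v', t, h⟩ := G.ex H.I2 n z0 hi hn
      obtain ⟨v, δ, h1, h2⟩ := H.S.loc.symm.main h hY
      refine key (δ := -δ) h1 h2 ?_
      rw [sub_neg_eq_add, sub_add_cancel]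
      exact h
    · exact Or.inl ⟨hm, hm2⟩

end Pool.Agent.H64.Win
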