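import Pool.Agent.H64.Win.Ends

/-!
# The wires between the exposed ends
-/

namespace Pool.Agent.H64.Win

open Pool.Agent.H64.Q1 hiding Tl
open Pool.Agent.H81.G1 Pool.Agent.Q1 Pool.Agent.H33.Q1
open Pool.Agent.H75.Perc Pool.Agent.H75.TwoArm
open Pool.Agent.H74.R45 hiding Tl
open Pool.Agent.H46.Sp (TP lbP tyP crP)
open Finset

variable {w : ℕ} {a b j : ℤ} {lS rN : Bool}
variable {X1 X2 : Env} {W1 W2 P1 P2 : Finset (ℤ × ℤ)} {lR cL rR cR : Bool}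
  (H : Cfg X1 X2 W1 W2 P1 P2 a b j w lS lR cL rN rR cR) (φ : ℂ)
  (hφ : ∀ k, Complex.sin (ang φ k) ≠ 0)

/-- the exposed end `q` is `z` in the first, `z'` in the second environment -/
structure Pl (q : EX P1 P2 a b j w lS rN) (z z' : End) (δ : ℤ) : Prop where
  l : Q1 H φ hφ q z
  r : Q2 H φ hφ q z'
  d : dd H φ hφ q = δ

/-- the exposed ends `q`, `q'` are joined in both networks, with the right turnings -/
structure Pr (q q' : EX P1 P2 a b j w lS rN) : Prop where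
  p1 : sπ (Mf P1 (mp1 a b j lS lR rN rR)) (μf P1 (μ1 a)) (wπ H.T1) (ee1 H φ hφ q) =
    ee1 H φ hφ q'
  p2 : sπ (Mf P2 (mp2 a b j lS lR rN rR)) (μf P2 (μ2 a)) (wπ H.T2) (ee2 H φ hφ q) =
    ee2 H φ hφ q'
  t : sτ (Mf P2 (mp2 a b j lS lR rN rR)) (μf P2 (μ2 a)) (wτ H.T2) (ee2 H φ hφ q) =
    sτ (Mf P1 (mp1 a b j lS lR rN rR)) (μf P1 (μ1 a)) (wτ H.T1) (ee1 H φ hφ q) +
      dd H φ hφ q - dd H φ hφ q'

variable {H φ hφ} {q q' : EX P1 P2 a b j w lS rN}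

theorem Pr.symm (P : Pr H φ hφ q q') : Pr H φ hφ q' q := by
  refine ⟨?_, ?_, ?_⟩
  · rw [← P.p1]; exact sπ_sπ (wπ_wπ _) _
  · rw [← P.p2]; exact sπ_sπ (wπ_wπ _) _
  · have a1 := sτ_sπ (M := Mf P2 (mp2 a b j lS lR rN rR)) (s := μf P2 (μ2 a)) (wτ_wπ H.T2)
      (ee2 H φ hφ q)
    have a2 := sτ_sπ (M := Mf P1 (mp1 a b j lS lR rN rR)) (s := μf P1 (μ1 a)) (wτ_wπ H.T1)
      (ee1 H φ hφ q)
    rw [P.p2] at a1
    rw [P.p1] at a2
    rw [a1, a2, P.t]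
    ring

/-- real ends -/
theorem pr_real {z z' v v' : End} {δ δ' t t' : ℤ} (A : Pl H φ hφ q z z' δ)
    (A' : Pl H φ hφ q' v v' δ') (h : G (sto X1.E W1) z v t) (h' : G (sto X2.E W2) z' v' t')
    (e : t' = t + δ - δ') : Pr H φ hφ q q' := by
  obtain ⟨k1, k2⟩ := H.w1 A.l A'.l h
  obtain ⟨k3, k4⟩ := H.w2 A.r A'.r h'
  exact ⟨k1, k3, by rw [k4, k2, A.d, A'.d, e]⟩

/-! ### Internal wires -/

variable (H φ hφ)

/-- the internal wires of the first network -/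
theorem int1 (o : OT P1 P2 a b j) (i : Fin (m1 w lS rN)) (ho : lp1 a b j w lS i = o.1)
    (hm : mp1 a b j lS lR rN rR o.1 = true) :
    (sπ (Mf P1 (mp1 a b j lS lR rN rR)) (μf P1 (μ1 a)) (wπ H.T1)
      (jo (J1 H.tab H.hw) (o, rc (rc (μ1 a o.1)))) = jl (J1 H.tab H.hw) i (rc (μ1 a o.1)) ∧
    sτ (Mf P1 (mp1 a b j lS lR rN rR)) (μf P1 (μ1 a)) (wτ H.T1)
      (jo (J1 H.tab H.hw) (o, rc (rc (μ1 a o.1)))) = -1) ∧
    (sπ (Mf P1 (mp1 a b j lS lR rN rR)) (μf P1 (μ1 a)) (wπ H.T1)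
      (jo (J1 H.tab H.hw) (o, rc (rc (rc (μ1 a o.1))))) = jl (J1 H.tab H.hw) i (μ1 a o.1) ∧
    sτ (Mf P1 (mp1 a b j lS lR rN rR)) (μf P1 (μ1 a)) (wτ H.T1)
      (jo (J1 H.tab H.hw) (o, rc (rc (rc (μ1 a o.1))))) = 1) := by
  have hP : o.1 ∈ P1 := (mem_PO.1 o.2).1.1
  have hM : (⟨o.1, hP⟩ : TP P1) ∈ Mf P1 (mp1 a b j lS lR rN rR) := mem_Mf.2 hm
  have e1 : ∀ d, jo (J1 H.tab H.hw) (o, d) = (.inl ⟨o.1, hP⟩, d) := by
    intro d
    unfold jo J1
    rw [mkJ_apply]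
    unfold mkf
    rw [dif_neg (by change ¬ (false = true); simp)]
    rfl
  have e2 : ∀ d, jl (J1 H.tab H.hw) i d = (.inr ⟨⟨o.1, hP⟩, hM⟩, d) := by
    intro d
    unfold jl J1
    rw [mkJ_apply]
    unfold mkf
    have hv : v1 lR rR (P1 := P1) (P2 := P2) (a := a) (b := b) (j := j) (w := w) (lS := lS)
        (rN := rN) (.inr (.inr i)) = true := by
      change mp1 a b j lS lR rN rR (lp1 a b j w lS i) = true
      rw [ho, hm]
    rw [dif_pos hv]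
    congr 3
    exact Subtype.ext ho
  obtain ⟨s1, s2, -, -⟩ := sπ_int (Mf P1 (mp1 a b j lS lR rN rR)) (μf P1 (μ1 a)) (wπ H.T1) hM
  obtain ⟨t1, t2, -, -⟩ := sτ_int (Mf P1 (mp1 a b j lS lR rN rR)) (μf P1 (μ1 a)) (wτ H.T1) hM
  rw [e1, e1, e2, e2]
  exact ⟨⟨s1, t1⟩, s2, t2⟩

/-- the internal wires of the second network -/
theorem int2 (o : OT P1 P2 a b j) (i : Fin (m2 w lS rN)) (ho : lp2 a b j w rN i = o.1)
    (hm : mp2 a b j lS lR rN rR o.1 = true) :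
    (sπ (Mf P2 (mp2 a b j lS lR rN rR)) (μf P2 (μ2 a)) (wπ H.T2)
      (jo (J2 H.tab H.hw) (o, rc (rc (μ2 a o.1)))) = jl (J2 H.tab H.hw) i (rc (μ2 a o.1)) ∧
    sτ (Mf P2 (mp2 a b j lS lR rN rR)) (μf P2 (μ2 a)) (wτ H.T2)
      (jo (J2 H.tab H.hw) (o, rc (rc (μ2 a o.1)))) = -1) ∧
    (sπ (Mf P2 (mp2 a b j lS lR rN rR)) (μf P2 (μ2 a)) (wπ H.T2)
      (jo (J2 H.tab H.hw) (o, rc (rc (rc (μ2 a o.1))))) = jl (J2 H.tab H.hw) i (μ2 a o.1) ∧
    sτ (Mf P2 (mp2 a b j lS lR rN rR)) (μf P2 (μ2 a)) (wτ H.T2)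
      (jo (J2 H.tab H.hw) (o, rc (rc (rc (μ2 a o.1))))) = 1) := by
  have hP : o.1 ∈ P2 := (mem_PO.1 o.2).1.2
  have hM : (⟨o.1, hP⟩ : TP P2) ∈ Mf P2 (mp2 a b j lS lR rN rR) := mem_Mf.2 hm
  have e1 : ∀ d, jo (J2 H.tab H.hw) (o, d) = (.inl ⟨o.1, hP⟩, d) := by
    intro d
    unfold jo J2
    rw [mkJ_apply]
    unfold mkf
    rw [dif_neg (by change ¬ (false = true); simp)]
    rfl
  have e2 : ∀ d, jl (J2 H.tab H.hw) i d = (.inr ⟨⟨o.1, hP⟩, hM⟩, d) := by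
    intro d
    unfold jl J2
    rw [mkJ_apply]
    unfold mkf
    have hv : v2 lR rR (P1 := P1) (P2 := P2) (a := a) (b := b) (j := j) (w := w) (lS := lS)
        (rN := rN) (.inr (.inr i)) = true := by
      change mp2 a b j lS lR rN rR (lp2 a b j w rN i) = true
      rw [ho, hm]
    rw [dif_pos hv]
    congr 3
    exact Subtype.ext ho
  obtain ⟨s1, s2, -, -⟩ := sπ_int (Mf P2 (mp2 a b j lS lR rN rR)) (μf P2 (μ2 a)) (wπ H.T2) hM
  obtain ⟨t1, t2, -, -⟩ := sτ_int (Mf P2 (mp2 a b j lS lR rN rR)) (μf P2 (μ2 a)) (wτ H.T2) hM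
  rw [e1, e1, e2, e2]
  exact ⟨⟨s1, t1⟩, s2, t2⟩

/-- reflex corner on the left, line towards S -/
theorem i1 (h : lS = true) (hR : lR = true) (o : OT P1 P2 a b j) (ho : o.1 = (a - 1, j)) :
    Pr H φ hφ (.o (o, .E)) .v ∧
      ∀ i : Fin (m1 w lS rN), (i : ℕ) = 0 → Pr H φ hφ (.o (o, .S)) (.f1 i) := by
  have hw0 := H.hw0
  have hab := H.S.ab
  have Z := (H.S.l3 hR h).inner
  have hm : mp1 a b j lS lR rN rR o.1 = true := by rw [ho, mp1_l hab, h, hR]; rfl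
  have hm2 : mp2 a b j lS lR rN rR o.1 = false := by
    rw [Bool.eq_false_iff]
    intro hc
    rcases mp2_true hc with ⟨h1, -⟩ | ⟨-, -, h1⟩
    · rw [h] at h1; exact absurd h1 (by simp)
    · rw [ho, Prod.mk.injEq] at h1; omega
  have hμ : μ1 a o.1 = .W := by
    unfold μ1; rw [ho]; simp only; rw [if_pos (by omega)]
  have r2 : ∀ d, Q2 H φ hφ (.o (o, d)) ((a - 1, j), d) := by
    intro d
    have := p_o' H φ hφ o d (by rw [hm2]; simp)
    rwa [ho] at this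
  have k := p_vS H φ hφ h
  obtain ⟨i0, j0, j1⟩ := ix1_l (a := a) (b := b) (j := j) (w := w) (rN := rN) H.tab H.hw h
  have I := int1 H o i0 (j1.trans ho.symm) hm
  rw [hμ] at I
  have ei : (⟨0, H.n1⟩ : Fin (m1 w lS rN)) = i0 := Fin.ext j0.symm
  have ed : d1 w lS i0 = .N := by
    unfold d1; rw [j0, h]; simp
  constructor
  · obtain ⟨k1, k2⟩ := H.w2 (r2 .E) k.2 Z.1
    refine ⟨?_, k1, ?_⟩
    · change sπ _ _ _ (jo _ (o, _)) = jl _ ⟨0, H.n1⟩ (d1 w lS (⟨0, H.n1⟩ : Fin (m1 w lS rN)))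
      rw [ei, ed]
      exact I.1.1
    · rw [k2, dd_v, dd_o]
      change (0 : ℤ) = sτ _ _ _ (jo _ (o, _)) + 0 - -1
      have := I.1.2
      change sτ _ _ _ (jo _ (o, .E)) = -1 at this
      rw [this]
      norm_num
  · intro i hi
    have e0 : i = i0 := Fin.ext (hi.trans j0.symm)
    subst e0
    have k' := p_f1l H φ hφ h j0
    obtain ⟨k1, k2⟩ := H.w2 (r2 .S) k'.2 Z.2
    refine ⟨?_, k1, ?_⟩
    · change sπ _ _ _ (jo _ (o, _)) = jl _ _ (rc (rc (rc (d1 w lS i))))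
      rw [ed]
      exact I.2.1
    · rw [k2, dd_f1, dd_o]
      change (1 : ℤ) = sτ _ _ _ (jo _ (o, _)) + 0 - 0
      have := I.2.2
      change sτ _ _ _ (jo _ (o, .S)) = 1 at this
      rw [this]
      norm_num

/-- reflex corner on the left, line towards N -/
theorem i2 (h : lS = false) (hR : lR = true) (o : OT P1 P2 a b j) (ho : o.1 = (a - 1, j - 1)) :
    Pr H φ hφ (.o (o, .E)) .v ∧
      ∀ i : Fin (m2 w lS rN), (i : ℕ) = bn (!rN) + w → Pr H φ hφ (.o (o, .N)) (.f2 i) := by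
  have hw0 := H.hw0
  have hab := H.S.ab
  have Z := (H.S.l4 hR h).inner
  have hm : mp2 a b j lS lR rN rR o.1 = true := by rw [ho, mp2_l hab, h, hR]; rfl
  have hm2 : mp1 a b j lS lR rN rR o.1 = false := by
    rw [Bool.eq_false_iff]
    intro hc
    rcases mp1_true hc with ⟨h1, -⟩ | ⟨-, -, h1⟩
    · rw [h] at h1; exact absurd h1 (by simp)
    · rw [ho, Prod.mk.injEq] at h1; omega
  have hμ : μ2 a o.1 = .S := by
    unfold μ2; rw [ho]; simp only; rw [if_pos (by omega)]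
  have r2 : ∀ d, Q1 H φ hφ (.o (o, d)) ((a - 1, j - 1), d) := by
    intro d
    have := p_o H φ hφ o d (by rw [hm2]; simp)
    rwa [ho] at this
  have k := p_vN H φ hφ h
  obtain ⟨i0, j0, j1⟩ := ix2_l (a := a) (b := b) (j := j) (w := w) (rN := rN) H.tab H.hw h
  have I := int2 H o i0 (j1.trans ho.symm) hm
  rw [hμ] at I
  have hn : m2 w lS rN - 1 < m2 w lS rN := by have := H.n2; omega
  have hb : bn (!lS) = 1 := by rw [h]; rfl
  have ei : (⟨m2 w lS rN - 1, hn⟩ : Fin (m2 w lS rN)) = i0 :=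
    Fin.ext (by simp only; rw [j0]; simp only [m2]; omega)
  have ed : d2 w rN i0 = .N := by
    unfold d2; rw [j0, if_neg (by omega), if_neg (by omega)]
  constructor
  · obtain ⟨k1, k2⟩ := H.w1 (r2 .E) k.1 Z.1
    refine ⟨k1, ?_, ?_⟩
    · change sπ _ _ _ (jo _ (o, _)) = jl _ ⟨m2 w lS rN - 1, hn⟩
        (rc (rc (d2 w rN (⟨m2 w lS rN - 1, hn⟩ : Fin (m2 w lS rN)))))
      rw [ei, ed]
      exact I.2.1
    · rw [k2, dd_v, dd_o]
      change sτ _ _ _ (jo _ (o, _)) = (0 : ℤ) + 0 - -1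
      have := I.2.2
      change sτ _ _ _ (jo _ (o, .E)) = 1 at this
      rw [this]
      norm_num
  · intro i hi
    have e0 : i = i0 := Fin.ext (hi.trans j0.symm)
    subst e0
    have k' := p_f2l H φ hφ h j0
    obtain ⟨k1, k2⟩ := H.w1 (r2 .N) k'.1 Z.2
    refine ⟨k1, ?_, ?_⟩
    · change sπ _ _ _ (jo _ (o, _)) = jl _ _ (rc (rc (rc (d2 w rN i))))
      rw [ed]
      exact I.1.1
    · rw [k2, dd_f2, dd_o]
      change sτ _ _ _ (jo _ (o, _)) = (-1 : ℤ) + 0 - 0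
      have := I.1.2
      change sτ _ _ _ (jo _ (o, .N)) = -1 at this
      rw [this]
      norm_num

/-- reflex corner on the right, line towards N -/
theorem i3 (h : rN = true) (hR : rR = true) (o : OT P1 P2 a b j) (ho : o.1 = (b, j)) :
    Pr H φ hφ (.o (o, .W)) .u ∧
      ∀ i : Fin (m1 w lS rN), (i : ℕ) = bn lS + w → Pr H φ hφ (.o (o, .S)) (.f1 i) := by
  have hw0 := H.hw0
  have hab := H.S.ab
  have Z := (H.S.r3 hR h).inner
  have hm : mp1 a b j lS lR rN rR o.1 = true := by rw [ho, mp1_r hab, h, hR]; rfl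
  have hm2 : mp2 a b j lS lR rN rR o.1 = false := by
    rw [Bool.eq_false_iff]
    intro hc
    rcases mp2_true hc with ⟨-, -, h1⟩ | ⟨h1, -⟩
    · rw [ho, Prod.mk.injEq] at h1; omega
    · rw [h] at h1; exact absurd h1 (by simp)
  have hμ : μ1 a o.1 = .N := by
    unfold μ1; rw [ho]; simp only; rw [if_neg (by omega)]
  have r2 : ∀ d, Q2 H φ hφ (.o (o, d)) ((b, j), d) := by
    intro d
    have := p_o' H φ hφ o d (by rw [hm2]; simp)
    rwa [ho] at this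
  have k := p_uN H φ hφ h
  obtain ⟨i0, j0, j1⟩ := ix1_r (a := a) (b := b) (j := j) (w := w) (lS := lS) H.tab H.hw h
  have I := int1 H o i0 (j1.trans ho.symm) hm
  rw [hμ] at I
  have hn : m1 w lS rN - 1 < m1 w lS rN := by have := H.n1; omega
  have hb : bn rN = 1 := by rw [h]; rfl
  have ei : (⟨m1 w lS rN - 1, hn⟩ : Fin (m1 w lS rN)) = i0 :=
    Fin.ext (by simp only; rw [j0]; simp only [m1]; omega)
  have ed : d1 w lS i0 = .S := by
    unfold d1; rw [j0, if_neg (by omega), if_neg (by omega)]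
  constructor
  · obtain ⟨k1, k2⟩ := H.w2 (r2 .W) k.2 Z.1
    refine ⟨?_, k1, ?_⟩
    · change sπ _ _ _ (jo _ (o, _)) = jl _ ⟨m1 w lS rN - 1, hn⟩
        (rc (rc (d1 w lS (⟨m1 w lS rN - 1, hn⟩ : Fin (m1 w lS rN)))))
      rw [ei, ed]
      exact I.2.1
    · rw [k2, dd_u, dd_o]
      change (0 : ℤ) = sτ _ _ _ (jo _ (o, _)) + 0 - 1
      have := I.2.2
      change sτ _ _ _ (jo _ (o, .W)) = 1 at this
      rw [this]
      norm_num
  · intro i hi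
    have e0 : i = i0 := Fin.ext (hi.trans j0.symm)
    subst e0
    have k' := p_f1r H φ hφ h j0
    obtain ⟨k1, k2⟩ := H.w2 (r2 .S) k'.2 Z.2
    refine ⟨?_, k1, ?_⟩
    · change sπ _ _ _ (jo _ (o, _)) = jl _ _ (rc (rc (rc (d1 w lS i))))
      rw [ed]
      exact I.1.1
    · rw [k2, dd_f1, dd_o]
      change (-1 : ℤ) = sτ _ _ _ (jo _ (o, _)) + 0 - 0
      have := I.1.2
      change sτ _ _ _ (jo _ (o, .S)) = -1 at this
      rw [this]
      norm_num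

/-- reflex corner on the right, line towards S -/
theorem i4 (h : rN = false) (hR : rR = true) (o : OT P1 P2 a b j) (ho : o.1 = (b, j - 1)) :
    Pr H φ hφ (.o (o, .W)) .u ∧
      ∀ i : Fin (m2 w lS rN), (i : ℕ) = 0 → Pr H φ hφ (.o (o, .N)) (.f2 i) := by
  have hw0 := H.hw0
  have hab := H.S.ab
  have Z := (H.S.r4 hR h).inner
  have hm : mp2 a b j lS lR rN rR o.1 = true := by rw [ho, mp2_r hab, h, hR]; rfl
  have hm2 : mp1 a b j lS lR rN rR o.1 = false := by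
    rw [Bool.eq_false_iff]
    intro hc
    rcases mp1_true hc with ⟨-, -, h1⟩ | ⟨h1, -⟩
    · rw [ho, Prod.mk.injEq] at h1; omega
    · rw [h] at h1; exact absurd h1 (by simp)
  have hμ : μ2 a o.1 = .E := by
    unfold μ2; rw [ho]; simp only; rw [if_neg (by omega)]
  have r2 : ∀ d, Q1 H φ hφ (.o (o, d)) ((b, j - 1), d) := by
    intro d
    have := p_o H φ hφ o d (by rw [hm2]; simp)
    rwa [ho] at this
  have k := p_uS H φ hφ h
  obtain ⟨i0, j0, j1⟩ := ix2_r (a := a) (b := b) (j := j) (w := w) (lS := lS) H.tab H.hw h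
  have I := int2 H o i0 (j1.trans ho.symm) hm
  rw [hμ] at I
  have ei : (⟨0, H.n2⟩ : Fin (m2 w lS rN)) = i0 := Fin.ext j0.symm
  have ed : d2 w rN i0 = .S := by
    unfold d2; rw [j0, h]; simp
  constructor
  · obtain ⟨k1, k2⟩ := H.w1 (r2 .W) k.1 Z.1
    refine ⟨k1, ?_, ?_⟩
    · change sπ _ _ _ (jo _ (o, _)) = jl _ ⟨0, H.n2⟩ (d2 w rN (⟨0, H.n2⟩ : Fin (m2 w lS rN)))
      rw [ei, ed]
      exact I.1.1
    · rw [k2, dd_u, dd_o]
      change sτ _ _ _ (jo _ (o, _)) = (0 : ℤ) + 0 - 1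
      have := I.1.2
      change sτ _ _ _ (jo _ (o, .W)) = -1 at this
      rw [this]
      norm_num
  · intro i hi
    have e0 : i = i0 := Fin.ext (hi.trans j0.symm)
    subst e0
    have k' := p_f2r H φ hφ h j0
    obtain ⟨k1, k2⟩ := H.w1 (r2 .N) k'.1 Z.2
    refine ⟨k1, ?_, ?_⟩
    · change sπ _ _ _ (jo _ (o, _)) = jl _ _ (rc (rc (rc (d2 w rN i))))
      rw [ed]
      exact I.2.1
    · rw [k2, dd_f2, dd_o]
      change sτ _ _ _ (jo _ (o, _)) = (1 : ℤ) + 0 - 0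
      have := I.2.2
      change sτ _ _ _ (jo _ (o, .N)) = 1 at this
      rw [this]
      norm_num

end Pool.Agent.H64.Win
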