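import Pool.Agent.H64.Win.Real
import Pool.Agent.H64.Win.Front

/-!
# Positions of the tiles of two environments which differ in a strip
-/

namespace Pool.Agent.H64.Win

open Pool.Agent.H64.Q1 hiding Tl
open Pool.Agent.H81.G1 Pool.Agent.Q1 Pool.Agent.H33.Q1
open Pool.Agent.H75.Perc Pool.Agent.H75.TwoArm
open Pool.Agent.H74.R45 hiding Tl
open Pool.Agent.H46.Sp (TP lbP tyP crP)
open Finset

/-- which of the four special tiles are random -/
structure Tab (σ σ' : State) (a b j : ℤ) (lS lR rN rR : Bool) : Prop where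
  a1 : σ (a - 1, j) = none ↔ lS = true
  a2 : σ' (a - 1, j) = none ↔ lS = true ∧ lR = true
  a3 : σ' (a - 1, j - 1) = none ↔ lS = false
  a4 : σ (a - 1, j - 1) = none ↔ lS = false ∧ lR = true
  b1 : σ (b, j) = none ↔ rN = true
  b2 : σ' (b, j) = none ↔ rN = true ∧ rR = true
  b3 : σ' (b, j - 1) = none ↔ rN = false
  b4 : σ (b, j - 1) = none ↔ rN = false ∧ rR = true

theorem ZS.V2 {σ1 σ2 : State} {U V A B U2 V2 : ℤ × ℤ} {n i : Dir} {ch : Bool}
    (Z : ZS ch σ1 σ2 U V A B U2 V2 n i) : σ2 V ≠ none := by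
  cases hc : ch
  · rw [Z.nc hc]; simp
  · rw [(Z.yc hc).1]; simp

theorem Strip.tab {σ σ' : State} {a b j : ℤ} {lS lR cL rN rR cR : Bool}
    (S : Strip σ σ' a b j lS lR cL rN rR cR) : Tab σ σ' a b j lS lR rN rR := by
  have left : (σ (a - 1, j) = none ↔ lS = true) ∧ (σ' (a - 1, j) = none ↔ lS = true ∧ lR = true) ∧
      (σ' (a - 1, j - 1) = none ↔ lS = false) ∧
      (σ (a - 1, j - 1) = none ↔ lS = false ∧ lR = true) := by
    cases h1 : lR <;> cases h2 : lS
    · have Z := S.l2 h1 h2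
      have z1 := Z.rU; have z2 := Z.sU; have z3 := Z.sV; have z4 := Z.V2
      simp [z1, z2, z3, z4]
    · have Z := S.l1 h1 h2
      have z1 := Z.rU; have z2 := Z.sU; have z3 := Z.sV; have z4 := Z.V2
      simp [z1, z2, z3, z4]
    · have Z := S.l4 h1 h2
      have z1 := Z.rU.1; have z2 := Z.rU.2; have z3 := Z.sV.1; have z4 := Z.sV.2
      simp [z1, z2, z3, z4]
    · have Z := S.l3 h1 h2
      have z1 := Z.rU.1; have z2 := Z.rU.2; have z3 := Z.sV.1; have z4 := Z.sV.2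
      simp [z1, z2, z3, z4]
  have right : (σ (b, j) = none ↔ rN = true) ∧ (σ' (b, j) = none ↔ rN = true ∧ rR = true) ∧
      (σ' (b, j - 1) = none ↔ rN = false) ∧
      (σ (b, j - 1) = none ↔ rN = false ∧ rR = true) := by
    cases h1 : rR <;> cases h2 : rN
    · have Z := S.r2 h1 h2
      have z1 := Z.rU; have z2 := Z.sU; have z3 := Z.sV; have z4 := Z.V2
      simp [z1, z2, z3, z4]
    · have Z := S.r1 h1 h2
      have z1 := Z.rU; have z2 := Z.sU; have z3 := Z.sV; have z4 := Z.V2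
      simp [z1, z2, z3, z4]
    · have Z := S.r4 h1 h2
      have z1 := Z.rU.1; have z2 := Z.rU.2; have z3 := Z.sV.1; have z4 := Z.sV.2
      simp [z1, z2, z3, z4]
    · have Z := S.r3 h1 h2
      have z1 := Z.rU.1; have z2 := Z.rU.2; have z3 := Z.sV.1; have z4 := Z.sV.2
      simp [z1, z2, z3, z4]
  obtain ⟨l1, l2, l3, l4⟩ := left
  obtain ⟨r1, r2, r3, r4⟩ := right
  exact ⟨l1, l2, l3, l4, r1, r2, r3, r4⟩

/-- **Two environments which differ in a strip.** -/
structure Cfg (X1 X2 : Env) (W1 W2 P1 P2 : Finset (ℤ × ℤ)) (a b j : ℤ) (w : ℕ)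
    (lS lR cL rN rR cR : Bool) : Prop where
  I1 : IsEnv X1 X1.E W1
  I2 : IsEnv X2 X2.E W2
  e1 : ∀ q, lt q ∈ X1.E ↔ q ∈ P1
  e2 : ∀ q, lt q ∈ X2.E ↔ q ∈ P2
  S : Strip (sto X1.E W1) (sto X2.E W2) a b j lS lR cL rN rR cR
  hw : b = a + w
  T1 : Tiles X1 (lbP : TP P1 → ℤ × ℤ) tyP crP
  T2 : Tiles X2 (lbP : TP P2 → ℤ × ℤ) tyP crP

/-- positions of the tiles which do not change -/
def PO (P1 P2 : Finset (ℤ × ℤ)) (a b j : ℤ) : Finset (ℤ × ℤ) :=
  (P1 ∩ P2).filter fun q => ¬ (a ≤ q.1 ∧ q.1 < b ∧ (q.2 = j ∨ q.2 = j - 1))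

/-- the tiles which do not change -/
abbrev OT (P1 P2 : Finset (ℤ × ℤ)) (a b j : ℤ) : Type := {q : ℤ × ℤ // q ∈ PO P1 P2 a b j}

theorem mem_PO {P1 P2 : Finset (ℤ × ℤ)} {a b j : ℤ} {q : ℤ × ℤ} : q ∈ PO P1 P2 a b j ↔
    (q ∈ P1 ∧ q ∈ P2) ∧ ¬ (a ≤ q.1 ∧ q.1 < b ∧ (q.2 = j ∨ q.2 = j - 1)) := by
  unfold PO
  rw [mem_filter, mem_inter]

/-- positions of the first line -/
def lp1 (a b j : ℤ) (w : ℕ) (L : Bool) (i : ℕ) : ℤ × ℤ :=
  if i < bn L then (a - 1, j) else if i < bn L + w then (a + ((i : ℤ) - bn L), j - 1) else (b, j)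

/-- positions of the second line -/
def lp2 (a b j : ℤ) (w : ℕ) (R : Bool) (i : ℕ) : ℤ × ℤ :=
  if i < bn (!R) then (b, j - 1) else if i < bn (!R) + w then (b - 1 - ((i : ℤ) - bn (!R)), j)
  else (a - 1, j - 1)

/-- split tiles of the first environment -/
def mp1 (a b j : ℤ) (lS lR rN rR : Bool) (q : ℤ × ℤ) : Bool :=
  (lS && lR && decide (q = (a - 1, j))) || (rN && rR && decide (q = (b, j)))

/-- split tiles of the second environment -/
def mp2 (a b j : ℤ) (lS lR rN rR : Bool) (q : ℤ × ℤ) : Bool :=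
  (!lS && lR && decide (q = (a - 1, j - 1))) || (!rN && rR && decide (q = (b, j - 1)))

/-- first ends of the split tiles -/
def μ1 (a : ℤ) (q : ℤ × ℤ) : Dir := if q.1 < a then .W else .N

/-- first ends of the split tiles -/
def μ2 (a : ℤ) (q : ℤ × ℤ) : Dir := if q.1 < a then .S else .E

section pos

variable {X1 X2 : Env} {W1 W2 P1 P2 : Finset (ℤ × ℤ)} {a b j : ℤ} {w : ℕ}
  {lS lR cL rN rR cR : Bool}

theorem Cfg.p1 (H : Cfg X1 X2 W1 W2 P1 P2 a b j w lS lR cL rN rR cR) (q : ℤ × ℤ) :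
    sto X1.E W1 q = none ↔ q ∈ P1 := by rw [sto_none, H.e1]

theorem Cfg.p2 (H : Cfg X1 X2 W1 W2 P1 P2 a b j w lS lR cL rN rR cR) (q : ℤ × ℤ) :
    sto X2.E W2 q = none ↔ q ∈ P2 := by rw [sto_none, H.e2]

/-- the table -/
structure TabP (P1 P2 : Finset (ℤ × ℤ)) (a b j : ℤ) (lS lR rN rR : Bool) : Prop where
  a1 : (a - 1, j) ∈ P1 ↔ lS = true
  a2 : (a - 1, j) ∈ P2 ↔ lS = true ∧ lR = true
  a3 : (a - 1, j - 1) ∈ P2 ↔ lS = false
  a4 : (a - 1, j - 1) ∈ P1 ↔ lS = false ∧ lR = true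
  b1 : (b, j) ∈ P1 ↔ rN = true
  b2 : (b, j) ∈ P2 ↔ rN = true ∧ rR = true
  b3 : (b, j - 1) ∈ P2 ↔ rN = false
  b4 : (b, j - 1) ∈ P1 ↔ rN = false ∧ rR = true
  row : ∀ x, a ≤ x → x < b → ((x, j) ∈ P1 ∧ (x, j) ∈ P2) ∧ (x, j - 1) ∈ P1 ∧ (x, j - 1) ∈ P2
  out : ∀ q, q ≠ (a - 1, j) → q ≠ (a - 1, j - 1) → q ≠ (b, j) → q ≠ (b, j - 1) →
    (q ∈ P1 ↔ q ∈ P2)
  ab : a + 2 ≤ b

theorem Cfg.tab (H : Cfg X1 X2 W1 W2 P1 P2 a b j w lS lR cL rN rR cR) :
    TabP P1 P2 a b j lS lR rN rR := by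
  have t := H.S.tab
  refine ⟨?_, ?_, ?_, ?_, ?_, ?_, ?_, ?_, ?_, ?_, H.S.ab⟩
  · rw [← H.p1]; exact t.a1
  · rw [← H.p2]; exact t.a2
  · rw [← H.p2]; exact t.a3
  · rw [← H.p1]; exact t.a4
  · rw [← H.p1]; exact t.b1
  · rw [← H.p2]; exact t.b2
  · rw [← H.p2]; exact t.b3
  · rw [← H.p1]; exact t.b4
  · intro x h1 h2
    rw [← H.p1, ← H.p2, ← H.p1, ← H.p2]
    exact H.S.row x h1 h2
  · intro q h1 h2 h3 h4
    rw [← H.p1, ← H.p2, H.S.out q h1 h2 h3 h4]

/-- indices -/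
abbrev Ix1 (P1 P2 : Finset (ℤ × ℤ)) (a b j : ℤ) (w : ℕ) (lS rN : Bool) : Type :=
  RQ w 1 ⊕ OT P1 P2 a b j ⊕ Fin (m1 w lS rN)

abbrev Ix2 (P1 P2 : Finset (ℤ × ℤ)) (a b j : ℤ) (w : ℕ) (lS rN : Bool) : Type :=
  RQ w 1 ⊕ OT P1 P2 a b j ⊕ Fin (m2 w lS rN)

/-- position of a tile -/
def u1 : Ix1 P1 P2 a b j w lS rN → ℤ × ℤ
  | .inl p => (a + p.1.1, j)
  | .inr (.inl o) => o.1
  | .inr (.inr i) => lp1 a b j w lS i

/-- halves -/
def v1 (lR rR : Bool) : Ix1 P1 P2 a b j w lS rN → Bool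
  | .inl _ => false
  | .inr (.inl _) => false
  | .inr (.inr i) => mp1 a b j lS lR rN rR (lp1 a b j w lS i)

/-- position of a tile -/
def u2 : Ix2 P1 P2 a b j w lS rN → ℤ × ℤ
  | .inl p => (a + p.1.1, j - 1)
  | .inr (.inl o) => o.1
  | .inr (.inr i) => lp2 a b j w rN i

/-- halves -/
def v2 (lR rR : Bool) : Ix2 P1 P2 a b j w lS rN → Bool
  | .inl _ => false
  | .inr (.inl _) => false
  | .inr (.inr i) => mp2 a b j lS lR rN rR (lp2 a b j w rN i)

theorem lp1_cases {i : ℕ} (hi : i < m1 w lS rN) (hw : b = a + w) :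
    (i = 0 ∧ lS = true ∧ lp1 a b j w lS i = (a - 1, j)) ∨
    (∃ x, a ≤ x ∧ x < b ∧ x = a + ((i : ℤ) - bn lS) ∧ bn lS ≤ i ∧ i < bn lS + w ∧
      lp1 a b j w lS i = (x, j - 1)) ∨
    (i = bn lS + w ∧ rN = true ∧ lp1 a b j w lS i = (b, j)) := by
  unfold lp1
  by_cases c1 : i < bn lS
  · left
    cases lS
    · simp at c1
    · simp only [bn_true] at c1
      obtain rfl : i = 0 := by omega
      simp
  · by_cases c2 : i < bn lS + w
    · right; left
      refine ⟨_, ?_, ?_, rfl, by omega, c2, ?_⟩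
      · omega
      · omega
      · rw [if_neg c1, if_pos c2]
    · right; right
      rw [if_neg c1, if_neg c2]
      cases rN
      · simp only [m1, bn_false] at hi; omega
      · simp only [m1, bn_true] at hi
        exact ⟨by omega, rfl, rfl⟩

theorem lp2_cases {i : ℕ} (hi : i < m2 w lS rN) (hw : b = a + w) :
    (i = 0 ∧ rN = false ∧ lp2 a b j w rN i = (b, j - 1)) ∨
    (∃ x, a ≤ x ∧ x < b ∧ x = b - 1 - ((i : ℤ) - bn (!rN)) ∧ bn (!rN) ≤ i ∧ i < bn (!rN) + w ∧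
      lp2 a b j w rN i = (x, j)) ∨
    (i = bn (!rN) + w ∧ lS = false ∧ lp2 a b j w rN i = (a - 1, j - 1)) := by
  unfold lp2
  by_cases c1 : i < bn (!rN)
  · left
    cases rN
    · simp only [Bool.not_false, bn_true] at c1
      obtain rfl : i = 0 := by omega
      simp
    · simp at c1
  · by_cases c2 : i < bn (!rN) + w
    · right; left
      refine ⟨_, ?_, ?_, rfl, by omega, c2, ?_⟩
      · omega
      · omega
      · rw [if_neg c1, if_pos c2]
    · right; right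
      rw [if_neg c1, if_neg c2]
      cases lS
      · simp only [m2, Bool.not_false, bn_true] at hi
        exact ⟨by omega, rfl, rfl⟩
      · simp only [m2, Bool.not_true, bn_false] at hi; omega

theorem mp1_row {x y : ℤ} (h1 : a ≤ x) (h2 : x < b) : mp1 a b j lS lR rN rR (x, y) = false := by
  unfold mp1
  have e1 : decide ((x, y) = (a - 1, j)) = false := by
    simp only [Prod.mk.injEq, decide_eq_false_iff_not]; omega
  have e2 : decide ((x, y) = (b, j)) = false := by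
    simp only [Prod.mk.injEq, decide_eq_false_iff_not]; omega
  rw [e1, e2]; simp

theorem mp2_row {x y : ℤ} (h1 : a ≤ x) (h2 : x < b) : mp2 a b j lS lR rN rR (x, y) = false := by
  unfold mp2
  have e1 : decide ((x, y) = (a - 1, j - 1)) = false := by
    simp only [Prod.mk.injEq, decide_eq_false_iff_not]; omega
  have e2 : decide ((x, y) = (b, j - 1)) = false := by
    simp only [Prod.mk.injEq, decide_eq_false_iff_not]; omega
  rw [e1, e2]; simp

theorem mp1_l (hab : a + 2 ≤ b) : mp1 a b j lS lR rN rR (a - 1, j) = (lS && lR) := by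
  unfold mp1
  have e2 : decide ((a - 1, j) = (b, j)) = false := by
    simp only [Prod.mk.injEq, decide_eq_false_iff_not]; omega
  rw [e2]; simp

theorem mp1_r (hab : a + 2 ≤ b) : mp1 a b j lS lR rN rR (b, j) = (rN && rR) := by
  unfold mp1
  have e2 : decide ((b, j) = (a - 1, j)) = false := by
    simp only [Prod.mk.injEq, decide_eq_false_iff_not]; omega
  rw [e2]; simp

theorem mp2_l (hab : a + 2 ≤ b) : mp2 a b j lS lR rN rR (a - 1, j - 1) = (!lS && lR) := by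
  unfold mp2
  have e2 : decide ((a - 1, j - 1) = (b, j - 1)) = false := by
    simp only [Prod.mk.injEq, decide_eq_false_iff_not]; omega
  rw [e2]; simp

theorem mp2_r (hab : a + 2 ≤ b) : mp2 a b j lS lR rN rR (b, j - 1) = (!rN && rR) := by
  unfold mp2
  have e2 : decide ((b, j - 1) = (a - 1, j - 1)) = false := by
    simp only [Prod.mk.injEq, decide_eq_false_iff_not]; omega
  rw [e2]; simp

theorem mp1_true {q : ℤ × ℤ} (h : mp1 a b j lS lR rN rR q = true) :
    (lS = true ∧ lR = true ∧ q = (a - 1, j)) ∨ (rN = true ∧ rR = true ∧ q = (b, j)) := by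
  unfold mp1 at h
  simp only [Bool.or_eq_true, Bool.and_eq_true, decide_eq_true_eq] at h
  tauto

theorem mp2_true {q : ℤ × ℤ} (h : mp2 a b j lS lR rN rR q = true) :
    (lS = false ∧ lR = true ∧ q = (a - 1, j - 1)) ∨
      (rN = false ∧ rR = true ∧ q = (b, j - 1)) := by
  unfold mp2 at h
  simp only [Bool.or_eq_true, Bool.and_eq_true, decide_eq_true_eq, Bool.not_eq_true'] at h
  tauto

variable (T : TabP P1 P2 a b j lS lR rN rR) (hw : b = a + w)

include T hw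

theorem hu1 (x : Ix1 P1 P2 a b j w lS rN) : u1 x ∈ P1 := by
  rcases x with ⟨⟨p, q⟩, hp, hq⟩ | o | i
  · simp only at hp hq
    exact (T.row _ (by simp only; omega) (by simp only; omega)).1.1
  · exact (mem_PO.1 o.2).1.1
  · change lp1 a b j w lS i ∈ P1
    rcases lp1_cases (j := j) i.2 hw with ⟨-, h1, h2⟩ | ⟨x, h1, h2, -, -, -, h3⟩ | ⟨-, h1, h2⟩
    · rw [h2]; exact T.a1.2 h1
    · rw [h3]; exact (T.row _ h1 h2).2.1
    · rw [h2]; exact T.b1.2 h1

theorem hu2 (x : Ix2 P1 P2 a b j w lS rN) : u2 x ∈ P2 := by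
  rcases x with ⟨⟨p, q⟩, hp, hq⟩ | o | i
  · simp only at hp hq
    exact (T.row _ (by simp only; omega) (by simp only; omega)).2.2
  · exact (mem_PO.1 o.2).1.2
  · change lp2 a b j w rN i ∈ P2
    rcases lp2_cases (j := j) i.2 hw with ⟨-, h1, h2⟩ | ⟨x, h1, h2, -, -, -, h3⟩ | ⟨-, h1, h2⟩
    · rw [h2]; exact T.b3.2 h1
    · rw [h3]; exact (T.row _ h1 h2).1.2
    · rw [h2]; exact T.a3.2 h1

omit T hw in
theorem hv1 (x : Ix1 P1 P2 a b j w lS rN) (h : v1 lR rR x = true) :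
    mp1 a b j lS lR rN rR (u1 x) = true := by
  rcases x with p | o | i
  · exact absurd h (by simp [v1])
  · exact absurd h (by simp [v1])
  · exact h

omit T hw in
theorem hv2 (x : Ix2 P1 P2 a b j w lS rN) (h : v2 lR rR x = true) :
    mp2 a b j lS lR rN rR (u2 x) = true := by
  rcases x with p | o | i
  · exact absurd h (by simp [v2])
  · exact absurd h (by simp [v2])
  · exact h

theorem inj1 (x y : Ix1 P1 P2 a b j w lS rN) (h : u1 x = u1 y) (h' : v1 lR rR x = v1 lR rR y) :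
    x = y := by
  have hab := T.ab
  -- others and the line
  have key : ∀ (o : OT P1 P2 a b j) (i : Fin (m1 w lS rN)), o.1 = lp1 a b j w lS i →
      false = mp1 a b j lS lR rN rR (lp1 a b j w lS i) → False := by
    intro o i h1 h2
    obtain ⟨⟨o1, o2⟩, o3⟩ := mem_PO.1 o.2
    rcases lp1_cases (j := j) i.2 hw with ⟨-, c1, c2⟩ | ⟨x, c1, c2, -, -, -, c3⟩ | ⟨-, c1, c2⟩
    · rw [c2] at h1 h2
      rw [mp1_l hab] at h2
      rw [h1] at o2
      rw [(T.a2.1 o2).1, (T.a2.1 o2).2] at h2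
      simp at h2
    · rw [c3] at h1
      apply o3
      rw [h1]
      exact ⟨c1, c2, Or.inr rfl⟩
    · rw [c2] at h1 h2
      rw [mp1_r hab] at h2
      rw [h1] at o2
      rw [(T.b2.1 o2).1, (T.b2.1 o2).2] at h2
      simp at h2
  rcases x with ⟨⟨p, q⟩, hp, hq⟩ | o | i <;> rcases y with ⟨⟨p', q'⟩, hp', hq'⟩ | o' | i'
  · simp only [u1, Prod.mk.injEq] at h hp hq hp' hq'
    simp only [Sum.inl.injEq, Subtype.mk.injEq, Prod.mk.injEq]
    omega
  · exfalso
    simp only [u1] at h hp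
    refine (mem_PO.1 o'.2).2 ?_
    rw [← h]
    exact ⟨by simp only; omega, by simp only; omega, Or.inl rfl⟩
  · exfalso
    simp only [u1] at h hp
    rcases lp1_cases (j := j) i'.2 hw with ⟨-, c1, c2⟩ | ⟨x, c1, c2, -, -, -, c3⟩ | ⟨-, c1, c2⟩
    · rw [c2, Prod.mk.injEq] at h; omega
    · rw [c3, Prod.mk.injEq] at h; omega
    · rw [c2, Prod.mk.injEq] at h; omega
  · exfalso
    simp only [u1] at h hp'
    refine (mem_PO.1 o.2).2 ?_
    rw [h]
    exact ⟨by simp only; omega, by simp only; omega, Or.inl rfl⟩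
  · simp only [u1] at h
    rw [Subtype.ext h]
  · exact (key o i' h h').elim
  · exfalso
    simp only [u1] at h hp'
    rcases lp1_cases (j := j) i.2 hw with ⟨-, c1, c2⟩ | ⟨x, c1, c2, -, -, -, c3⟩ | ⟨-, c1, c2⟩
    · rw [c2, Prod.mk.injEq] at h; omega
    · rw [c3, Prod.mk.injEq] at h; omega
    · rw [c2, Prod.mk.injEq] at h; omega
  · exact (key o' i h.symm h'.symm).elim
  · have h3 : lp1 a b j w lS i = lp1 a b j w lS i' := h
    have : (i : ℕ) = i' := by
      rcases lp1_cases (j := j) i.2 hw with ⟨c0, c1, c2⟩ | ⟨x, c1, c2, c4, c5, c6, c3⟩ | ⟨c0, c1, c2⟩ <;>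
      rcases lp1_cases (j := j) i'.2 hw with ⟨d0, d1, d2⟩ | ⟨y, d1, d2, d4, d5, d6, d3⟩ | ⟨d0, d1, d2⟩
      · omega
      · rw [c2, d3, Prod.mk.injEq] at h3; omega
      · rw [c2, d2, Prod.mk.injEq] at h3; omega
      · rw [c3, d2, Prod.mk.injEq] at h3; omega
      · rw [c3, d3, Prod.mk.injEq] at h3; omega
      · rw [c3, d2, Prod.mk.injEq] at h3; omega
      · rw [c2, d2, Prod.mk.injEq] at h3; omega
      · rw [c2, d3, Prod.mk.injEq] at h3; omega
      · omega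
    rw [Fin.ext this]

theorem inj2 (x y : Ix2 P1 P2 a b j w lS rN) (h : u2 x = u2 y) (h' : v2 lR rR x = v2 lR rR y) :
    x = y := by
  have hab := T.ab
  have key : ∀ (o : OT P1 P2 a b j) (i : Fin (m2 w lS rN)), o.1 = lp2 a b j w rN i →
      false = mp2 a b j lS lR rN rR (lp2 a b j w rN i) → False := by
    intro o i h1 h2
    obtain ⟨⟨o1, o2⟩, o3⟩ := mem_PO.1 o.2
    rcases lp2_cases (j := j) i.2 hw with ⟨-, c1, c2⟩ | ⟨x, c1, c2, -, -, -, c3⟩ | ⟨-, c1, c2⟩
    · rw [c2] at h1 h2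
      rw [mp2_r hab] at h2
      rw [h1] at o1
      rw [(T.b4.1 o1).1, (T.b4.1 o1).2] at h2
      simp at h2
    · rw [c3] at h1
      apply o3
      rw [h1]
      exact ⟨c1, c2, Or.inl rfl⟩
    · rw [c2] at h1 h2
      rw [mp2_l hab] at h2
      rw [h1] at o1
      rw [(T.a4.1 o1).1, (T.a4.1 o1).2] at h2
      simp at h2
  rcases x with ⟨⟨p, q⟩, hp, hq⟩ | o | i <;> rcases y with ⟨⟨p', q'⟩, hp', hq'⟩ | o' | i'
  · simp only [u2, Prod.mk.injEq] at h hp hq hp' hq'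
    simp only [Sum.inl.injEq, Subtype.mk.injEq, Prod.mk.injEq]
    omega
  · exfalso
    simp only [u2] at h hp
    refine (mem_PO.1 o'.2).2 ?_
    rw [← h]
    exact ⟨by simp only; omega, by simp only; omega, Or.inr rfl⟩
  · exfalso
    simp only [u2] at h hp
    rcases lp2_cases (j := j) i'.2 hw with ⟨-, c1, c2⟩ | ⟨x, c1, c2, -, -, -, c3⟩ | ⟨-, c1, c2⟩
    · rw [c2, Prod.mk.injEq] at h; omega
    · rw [c3, Prod.mk.injEq] at h; omega
    · rw [c2, Prod.mk.injEq] at h; omega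
  · exfalso
    simp only [u2] at h hp'
    refine (mem_PO.1 o.2).2 ?_
    rw [h]
    exact ⟨by simp only; omega, by simp only; omega, Or.inr rfl⟩
  · simp only [u2] at h
    rw [Subtype.ext h]
  · exact (key o i' h h').elim
  · exfalso
    simp only [u2] at h hp'
    rcases lp2_cases (j := j) i.2 hw with ⟨-, c1, c2⟩ | ⟨x, c1, c2, -, -, -, c3⟩ | ⟨-, c1, c2⟩
    · rw [c2, Prod.mk.injEq] at h; omega
    · rw [c3, Prod.mk.injEq] at h; omega
    · rw [c2, Prod.mk.injEq] at h; omega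
  · exact (key o' i h.symm h'.symm).elim
  · have h3 : lp2 a b j w rN i = lp2 a b j w rN i' := h
    have : (i : ℕ) = i' := by
      rcases lp2_cases (j := j) i.2 hw with ⟨c0, c1, c2⟩ | ⟨x, c1, c2, c4, c5, c6, c3⟩ | ⟨c0, c1, c2⟩ <;>
      rcases lp2_cases (j := j) i'.2 hw with ⟨d0, d1, d2⟩ | ⟨y, d1, d2, d4, d5, d6, d3⟩ | ⟨d0, d1, d2⟩
      · omega
      · rw [c2, d3, Prod.mk.injEq] at h3; omega
      · rw [c2, d2, Prod.mk.injEq] at h3; omega
      · rw [c3, d2, Prod.mk.injEq] at h3; omega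
      · rw [c3, d3, Prod.mk.injEq] at h3; omega
      · rw [c3, d2, Prod.mk.injEq] at h3; omega
      · rw [c2, d2, Prod.mk.injEq] at h3; omega
      · rw [c2, d3, Prod.mk.injEq] at h3; omega
      · omega
    rw [Fin.ext this]

/-- the index of a line tile -/
theorem ix1_l (h : lS = true) : ∃ i : Fin (m1 w lS rN), (i : ℕ) = 0 ∧
    lp1 a b j w lS i = (a - 1, j) := by
  subst h
  refine ⟨⟨0, by simp [m1]⟩, rfl, ?_⟩
  unfold lp1
  simp

theorem ix1_r (h : rN = true) : ∃ i : Fin (m1 w lS rN), (i : ℕ) = bn lS + w ∧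
    lp1 a b j w lS i = (b, j) := by
  subst h
  refine ⟨⟨bn lS + w, by simp [m1]⟩, rfl, ?_⟩
  unfold lp1
  simp only
  rw [if_neg (by omega), if_neg (by omega)]

theorem ix1_b {x : ℤ} (h1 : a ≤ x) (h2 : x < b) : ∃ i : Fin (m1 w lS rN),
    bn lS ≤ (i : ℕ) ∧ (i : ℕ) < bn lS + w ∧ x = a + (((i : ℕ) : ℤ) - bn lS) ∧
    lp1 a b j w lS i = (x, j - 1) := by
  refine ⟨⟨bn lS + (x - a).toNat, by simp only [m1]; omega⟩, by simp only; omega,
    by simp only; omega, by simp only; omega, ?_⟩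
  unfold lp1
  simp only
  rw [if_neg (by omega), if_pos (by omega), Prod.mk.injEq]
  omega

theorem ix2_r (h : rN = false) : ∃ i : Fin (m2 w lS rN), (i : ℕ) = 0 ∧
    lp2 a b j w rN i = (b, j - 1) := by
  subst h
  refine ⟨⟨0, by simp [m2]⟩, rfl, ?_⟩
  unfold lp2
  simp

theorem ix2_l (h : lS = false) : ∃ i : Fin (m2 w lS rN), (i : ℕ) = bn (!rN) + w ∧
    lp2 a b j w rN i = (a - 1, j - 1) := by
  subst h
  refine ⟨⟨bn (!rN) + w, by simp [m2]⟩, rfl, ?_⟩
  unfold lp2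
  simp only
  rw [if_neg (by omega), if_neg (by omega)]

theorem ix2_t {x : ℤ} (h1 : a ≤ x) (h2 : x < b) : ∃ i : Fin (m2 w lS rN),
    bn (!rN) ≤ (i : ℕ) ∧ (i : ℕ) < bn (!rN) + w ∧ x = b - 1 - (((i : ℕ) : ℤ) - bn (!rN)) ∧
    lp2 a b j w rN i = (x, j) := by
  refine ⟨⟨bn (!rN) + (b - 1 - x).toNat, by simp only [m2]; omega⟩, by simp only; omega,
    by simp only; omega, by simp only; omega, ?_⟩
  unfold lp2
  simp only
  rw [if_neg (by omega), if_pos (by omega), Prod.mk.injEq]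
  omega

theorem surj1 (q : ℤ × ℤ) (s : Bool) (hq : q ∈ P1)
    (hs : s = true → mp1 a b j lS lR rN rR q = true) :
    ∃ x : Ix1 P1 P2 a b j w lS rN, u1 x = q ∧ v1 lR rR x = s := by
  have hab := T.ab
  cases s
  · by_cases c1 : a ≤ q.1 ∧ q.1 < b ∧ (q.2 = j ∨ q.2 = j - 1)
    · obtain ⟨x, y⟩ := q
      obtain ⟨c2, c3, c4⟩ := c1
      simp only at c2 c3 c4
      rcases c4 with rfl | rfl
      · refine ⟨.inl ⟨((x - a).toNat, 0), by simp only; omega, Nat.one_pos⟩, ?_, rfl⟩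
        change (a + (((x - a).toNat : ℕ) : ℤ), y) = (x, y)
        rw [Prod.mk.injEq]
        omega
      · obtain ⟨i, -, -, -, h⟩ := ix1_b (lS := lS) (rN := rN) T hw c2 c3
        refine ⟨.inr (.inr i), h, ?_⟩
        change mp1 a b j lS lR rN rR (lp1 a b j w lS i) = false
        rw [h]
        exact mp1_row c2 c3
    · by_cases c2 : q ∈ P2
      · exact ⟨.inr (.inl ⟨q, mem_PO.2 ⟨⟨hq, c2⟩, c1⟩⟩), rfl, rfl⟩
      · -- the tile is random in the first environment only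
        by_cases d1 : q = (a - 1, j)
        · subst d1
          have e1 := T.a1.1 hq
          obtain ⟨i, -, h⟩ := ix1_l (a := a) (b := b) (j := j) (w := w) (rN := rN) T hw e1
          refine ⟨.inr (.inr i), h, ?_⟩
          change mp1 a b j lS lR rN rR (lp1 a b j w lS i) = false
          rw [h, mp1_l hab]
          by_contra hcon
          simp only [Bool.not_eq_false, Bool.and_eq_true] at hcon
          exact c2 (T.a2.2 hcon)
        by_cases d2 : q = (b, j)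
        · subst d2
          have e1 := T.b1.1 hq
          obtain ⟨i, -, h⟩ := ix1_r (a := a) (b := b) (j := j) (w := w) (lS := lS) T hw e1
          refine ⟨.inr (.inr i), h, ?_⟩
          change mp1 a b j lS lR rN rR (lp1 a b j w lS i) = false
          rw [h, mp1_r hab]
          by_contra hcon
          simp only [Bool.not_eq_false, Bool.and_eq_true] at hcon
          exact c2 (T.b2.2 hcon)
        by_cases d3 : q = (a - 1, j - 1)
        · subst d3
          exact absurd (T.a3.2 (T.a4.1 hq).1) c2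
        by_cases d4 : q = (b, j - 1)
        · subst d4
          exact absurd (T.b3.2 (T.b4.1 hq).1) c2
        exact absurd ((T.out q d1 d3 d2 d4).1 hq) c2
  · have hm := hs rfl
    rcases mp1_true hm with ⟨e1, e2, rfl⟩ | ⟨e1, e2, rfl⟩
    · obtain ⟨i, -, h⟩ := ix1_l (a := a) (b := b) (j := j) (w := w) (rN := rN) T hw e1
      refine ⟨.inr (.inr i), h, ?_⟩
      change mp1 a b j lS lR rN rR (lp1 a b j w lS i) = true
      rw [h]; exact hm
    · obtain ⟨i, -, h⟩ := ix1_r (a := a) (b := b) (j := j) (w := w) (lS := lS) T hw e1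
      refine ⟨.inr (.inr i), h, ?_⟩
      change mp1 a b j lS lR rN rR (lp1 a b j w lS i) = true
      rw [h]; exact hm

theorem surj2 (q : ℤ × ℤ) (s : Bool) (hq : q ∈ P2)
    (hs : s = true → mp2 a b j lS lR rN rR q = true) :
    ∃ x : Ix2 P1 P2 a b j w lS rN, u2 x = q ∧ v2 lR rR x = s := by
  have hab := T.ab
  cases s
  · by_cases c1 : a ≤ q.1 ∧ q.1 < b ∧ (q.2 = j ∨ q.2 = j - 1)
    · obtain ⟨x, y⟩ := q
      obtain ⟨c2, c3, c4⟩ := c1
      simp only at c2 c3 c4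
      rcases c4 with rfl | rfl
      · obtain ⟨i, -, -, -, h⟩ := ix2_t (lS := lS) (rN := rN) T hw c2 c3
        refine ⟨.inr (.inr i), h, ?_⟩
        change mp2 a b y lS lR rN rR (lp2 a b y w rN i) = false
        rw [h]
        exact mp2_row c2 c3
      · refine ⟨.inl ⟨((x - a).toNat, 0), by simp only; omega, Nat.one_pos⟩, ?_, rfl⟩
        change (a + (((x - a).toNat : ℕ) : ℤ), j - 1) = (x, j - 1)
        rw [Prod.mk.injEq]
        omega
    · by_cases c2 : q ∈ P1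
      · exact ⟨.inr (.inl ⟨q, mem_PO.2 ⟨⟨c2, hq⟩, c1⟩⟩), rfl, rfl⟩
      · by_cases d1 : q = (a - 1, j - 1)
        · subst d1
          have e1 := T.a3.1 hq
          obtain ⟨i, -, h⟩ := ix2_l (a := a) (b := b) (j := j) (w := w) (rN := rN) T hw e1
          refine ⟨.inr (.inr i), h, ?_⟩
          change mp2 a b j lS lR rN rR (lp2 a b j w rN i) = false
          rw [h, mp2_l hab]
          by_contra hcon
          simp only [Bool.not_eq_false, Bool.and_eq_true, Bool.not_eq_true'] at hcon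
          exact c2 (T.a4.2 hcon)
        by_cases d2 : q = (b, j - 1)
        · subst d2
          have e1 := T.b3.1 hq
          obtain ⟨i, -, h⟩ := ix2_r (a := a) (b := b) (j := j) (w := w) (lS := lS) T hw e1
          refine ⟨.inr (.inr i), h, ?_⟩
          change mp2 a b j lS lR rN rR (lp2 a b j w rN i) = false
          rw [h, mp2_r hab]
          by_contra hcon
          simp only [Bool.not_eq_false, Bool.and_eq_true, Bool.not_eq_true'] at hcon
          exact c2 (T.b4.2 hcon)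
        by_cases d3 : q = (a - 1, j)
        · subst d3
          exact absurd (T.a1.2 (T.a2.1 hq).1) c2
        by_cases d4 : q = (b, j)
        · subst d4
          exact absurd (T.b1.2 (T.b2.1 hq).1) c2
        exact absurd ((T.out q d3 d1 d4 d2).2 hq) c2
  · have hm := hs rfl
    rcases mp2_true hm with ⟨e1, e2, rfl⟩ | ⟨e1, e2, rfl⟩
    · obtain ⟨i, -, h⟩ := ix2_l (a := a) (b := b) (j := j) (w := w) (rN := rN) T hw e1
      refine ⟨.inr (.inr i), h, ?_⟩
      change mp2 a b j lS lR rN rR (lp2 a b j w rN i) = true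
      rw [h]; exact hm
    · obtain ⟨i, -, h⟩ := ix2_r (a := a) (b := b) (j := j) (w := w) (lS := lS) T hw e1
      refine ⟨.inr (.inr i), h, ?_⟩
      change mp2 a b j lS lR rN rR (lp2 a b j w rN i) = true
      rw [h]; exact hm

/-- the tiles of the first network -/
noncomputable def J1 : Ix1 P1 P2 a b j w lS rN ≃ TP P1 ⊕ ↥(Mf P1 (mp1 a b j lS lR rN rR)) :=
  mkJ P1 (mp1 a b j lS lR rN rR) u1 (v1 lR rR) (hu1 T hw) hv1 (inj1 T hw) (surj1 T hw)

/-- the tiles of the second network -/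
noncomputable def J2 : Ix2 P1 P2 a b j w lS rN ≃ TP P2 ⊕ ↥(Mf P2 (mp2 a b j lS lR rN rR)) :=
  mkJ P2 (mp2 a b j lS lR rN rR) u2 (v2 lR rR) (hu2 T hw) hv2 (inj2 T hw) (surj2 T hw)

/-- real ends of the first network -/
abbrev R1 (P1 : Finset (ℤ × ℤ)) (a b j : ℤ) (lS lR rN rR : Bool)
    (x : (TP P1 ⊕ ↥(Mf P1 (mp1 a b j lS lR rN rR))) × Dir) (z : End) : Prop :=
  Rl P1 (mp1 a b j lS lR rN rR) (μ1 a) x z

/-- real ends of the second network -/
abbrev R2 (P2 : Finset (ℤ × ℤ)) (a b j : ℤ) (lS lR rN rR : Bool)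
    (x : (TP P2 ⊕ ↥(Mf P2 (mp2 a b j lS lR rN rR))) × Dir) (z : End) : Prop :=
  Rl P2 (mp2 a b j lS lR rN rR) (μ2 a) x z

theorem r1_of {x : Ix1 P1 P2 a b j w lS rN} {d : Dir} {z : End} (hz : (u1 x, d) = z)
    (h : v1 lR rR x = (mp1 a b j lS lR rN rR z.1 && old2 (μ1 a z.1) d)) :
    R1 P1 a b j lS lR rN rR (J1 T hw x, d) z := by
  subst hz
  exact rl_mk _ _ _ _ _ _ _ _ h

theorem r2_of {x : Ix2 P1 P2 a b j w lS rN} {d : Dir} {z : End} (hz : (u2 x, d) = z)
    (h : v2 lR rR x = (mp2 a b j lS lR rN rR z.1 && old2 (μ2 a z.1) d)) :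
    R2 P2 a b j lS lR rN rR (J2 T hw x, d) z := by
  subst hz
  exact rl_mk _ _ _ _ _ _ _ _ h

end pos

end Pool.Agent.H64.Win
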