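import Pool.Agent.H64.Win.Loc

/-!
# Two environments which differ in a strip: the wires
-/

namespace Pool.Agent.H64.Win

open Pool.Agent.H64.Q1 hiding Tl
open Pool.Agent.H81.G1 Pool.Agent.Q1 Pool.Agent.H33.Q1
open Pool.Agent.H75.Perc Pool.Agent.H75.TwoArm
open Pool.Agent.H74.R45 hiding Tl

/-- `0` or `1` -/
def bi (b : Bool) : ℤ := if b then 1 else 0

@[simp] theorem bi_true : bi true = 1 := rfl
@[simp] theorem bi_false : bi false = 0 := rfl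

theorem bi_le (b : Bool) : 0 ≤ bi b ∧ bi b ≤ 1 := by cases b <;> simp

/-- **The strip** `[a,b) × {j-1, j}` in two states. `lS` : the left column goes towards S (of the first
state), otherwise towards N (of the second state); `rN` : the right column goes towards N (of the first
state), otherwise towards S (of the second state); `lR`, `rR` : reflex corners; `cL`, `cR` : the natural
state is not the state of the turn. -/
structure Strip (σ σ' : State) (a b j : ℤ) (lS lR cL rN rR cR : Bool) : Prop where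
  ab : a + 2 ≤ b
  row : ∀ x, a ≤ x → x < b → (σ (x, j) = none ∧ σ' (x, j) = none) ∧
    σ (x, j - 1) = none ∧ σ' (x, j - 1) = none
  out : ∀ q, q ≠ (a - 1, j) → q ≠ (a - 1, j - 1) → q ≠ (b, j) → q ≠ (b, j - 1) → σ q = σ' q
  l1 : lR = false → lS = true →
    ZS cL σ σ' (a - 1, j) (a - 1, j - 1) (a, j) (a, j - 1) (a - 2, j) (a - 2, j - 1) .N .E
  l2 : lR = false → lS = false →
    ZS cL σ' σ (a - 1, j - 1) (a - 1, j) (a, j - 1) (a, j) (a - 2, j - 1) (a - 2, j) .S .E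
  l3 : lR = true → lS = true → ZR σ σ' (a - 1, j) (a - 1, j - 1) (a, j) (a, j - 1) .N .E
  l4 : lR = true → lS = false → ZR σ' σ (a - 1, j - 1) (a - 1, j) (a, j - 1) (a, j) .S .E
  lc : lR = true → cL = false
  r1 : rR = false → rN = true →
    ZS cR σ σ' (b, j) (b, j - 1) (b - 1, j) (b - 1, j - 1) (b + 1, j) (b + 1, j - 1) .N .W
  r2 : rR = false → rN = false →
    ZS cR σ' σ (b, j - 1) (b, j) (b - 1, j - 1) (b - 1, j) (b + 1, j - 1) (b + 1, j) .S .W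
  r3 : rR = true → rN = true → ZR σ σ' (b, j) (b, j - 1) (b - 1, j) (b - 1, j - 1) .N .W
  r4 : rR = true → rN = false → ZR σ' σ (b, j - 1) (b, j) (b - 1, j - 1) (b - 1, j) .S .W
  rc : rR = true → cR = false

/-- the box -/
def Kb (a b j : ℤ) (cL cR : Bool) (q : ℤ × ℤ) : Prop :=
  a - 1 - bi cL ≤ q.1 ∧ q.1 ≤ b + bi cR ∧ (q.2 = j ∨ q.2 = j - 1)

/-- corresponding ends at a straight left end of the strip -/
def SpL (a j : ℤ) (lS : Bool) (w w' : End) (δ : ℤ) : Prop :=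
  if lS then (w = ((a - 1, j), .N) ∧ w' = ((a, j), .W) ∧ δ = -1) ∨
    (w = ((a - 1, j), .W) ∧ w' = ((a, j - 1), .W) ∧ δ = 0)
  else (w = ((a, j - 1), .W) ∧ w' = ((a - 1, j - 1), .S) ∧ δ = -1) ∨
    (w = ((a, j), .W) ∧ w' = ((a - 1, j - 1), .W) ∧ δ = 0)

/-- corresponding ends at a straight right end of the strip -/
def SpR (b j : ℤ) (rN : Bool) (w w' : End) (δ : ℤ) : Prop :=
  if rN then (w = ((b, j), .N) ∧ w' = ((b - 1, j), .E) ∧ δ = 1) ∨
    (w = ((b, j), .E) ∧ w' = ((b - 1, j - 1), .E) ∧ δ = 0)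
  else (w = ((b - 1, j - 1), .E) ∧ w' = ((b, j - 1), .S) ∧ δ = 1) ∨
    (w = ((b - 1, j), .E) ∧ w' = ((b, j - 1), .E) ∧ δ = 0)

/-- corresponding ends -/
def Ends (σ σ' : State) (a b j : ℤ) (lS lR cL rN rR cR : Bool) (w w' : End) (δ : ℤ) : Prop :=
  (w = w' ∧ δ = 0 ∧ σ w.1 = none ∧ σ' w.1 = none ∧ Yk (Kb a b j cL cR) w) ∨
  (lR = false ∧ SpL a j lS w w' δ) ∨ (rR = false ∧ SpR b j rN w w' δ)

section geo

variable {a b j : ℤ} {cL cR : Bool} {c : ℤ × ℤ} {e : Dir}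

theorem bdL (hK : Kb a b j cL cR c) (hc : c.1 < a) (hn : ¬ Kb a b j cL cR (nb c e)) (hab : a + 2 ≤ b) :
    Bd cL (a - 1, j) (a - 1, j - 1) (a - 2, j) (a - 2, j - 1) .N .E (c, e) ∧
    Bd cL (a - 1, j - 1) (a - 1, j) (a - 2, j - 1) (a - 2, j) .S .E (c, e) := by
  obtain ⟨x, y⟩ := c
  have h1 := bi_le cL
  have h2 := bi_le cR
  unfold Kb at hK hn
  unfold Bd
  simp only at hc hK
  cases cL <;> cases e <;>
    simp only [nb, op, bi_true, bi_false, Prod.mk.injEq, reduceCtorEq, and_false, and_true, or_false,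
      false_or, true_and, false_and] at hK hn h1 ⊢ <;> omega

theorem bdL' (hab : a + 2 ≤ b) {z : End}
    (h : Bd cL (a - 1, j) (a - 1, j - 1) (a - 2, j) (a - 2, j - 1) .N .E z ∨
      Bd cL (a - 1, j - 1) (a - 1, j) (a - 2, j - 1) (a - 2, j) .S .E z) :
    Yk (Kb a b j cL cR) z := by
  have h2 := bi_le cR
  rintro ⟨-, hK⟩
  obtain ⟨⟨x, y⟩, e⟩ := z
  unfold Kb at hK
  unfold Bd at h
  cases cL <;> cases e <;>
    simp only [nb, op, bi_true, bi_false, Prod.mk.injEq, reduceCtorEq, and_false, and_true, or_false,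
      false_or, true_and, false_and] at hK h <;> omega

theorem bdR (hK : Kb a b j cL cR c) (hc : b ≤ c.1) (hn : ¬ Kb a b j cL cR (nb c e)) (hab : a + 2 ≤ b) :
    Bd cR (b, j) (b, j - 1) (b + 1, j) (b + 1, j - 1) .N .W (c, e) ∧
    Bd cR (b, j - 1) (b, j) (b + 1, j - 1) (b + 1, j) .S .W (c, e) := by
  obtain ⟨x, y⟩ := c
  have h1 := bi_le cL
  have h2 := bi_le cR
  unfold Kb at hK hn
  unfold Bd
  simp only at hc hK
  cases cR <;> cases e <;>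
    simp only [nb, op, bi_true, bi_false, Prod.mk.injEq, reduceCtorEq, and_false, and_true, or_false,
      false_or, true_and, false_and] at hK hn h1 ⊢ <;> omega

theorem bdR' (hab : a + 2 ≤ b) {z : End}
    (h : Bd cR (b, j) (b, j - 1) (b + 1, j) (b + 1, j - 1) .N .W z ∨
      Bd cR (b, j - 1) (b, j) (b + 1, j - 1) (b + 1, j) .S .W z) :
    Yk (Kb a b j cL cR) z := by
  have h1 := bi_le cL
  rintro ⟨-, hK⟩
  obtain ⟨⟨x, y⟩, e⟩ := z
  unfold Kb at hK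
  unfold Bd at h
  cases cR <;> cases e <;>
    simp only [nb, op, bi_true, bi_false, Prod.mk.injEq, reduceCtorEq, and_false, and_true, or_false,
      false_or, true_and, false_and] at hK h <;> omega

theorem brL (hK : Kb a b j false cR c) (hc : c.1 < a) (hn : ¬ Kb a b j false cR (nb c e))
    (hab : a + 2 ≤ b) :
    BR (a - 1, j) (a - 1, j - 1) .N .E (c, e) ∧ BR (a - 1, j - 1) (a - 1, j) .S .E (c, e) := by
  obtain ⟨x, y⟩ := c
  have h2 := bi_le cR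
  unfold Kb at hK hn
  unfold BR
  simp only at hc hK
  cases e <;>
    simp only [nb, op, bi_true, bi_false, Prod.mk.injEq, reduceCtorEq, and_false, and_true, or_false,
      false_or, true_and, false_and] at hK hn ⊢ <;> omega

theorem brL' (hab : a + 2 ≤ b) {z : End}
    (h : BR (a - 1, j) (a - 1, j - 1) .N .E z ∨ BR (a - 1, j - 1) (a - 1, j) .S .E z) :
    Yk (Kb a b j false cR) z := by
  have h2 := bi_le cR
  rintro ⟨-, hK⟩
  obtain ⟨⟨x, y⟩, e⟩ := z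
  unfold Kb at hK
  unfold BR at h
  cases e <;>
    simp only [nb, op, bi_true, bi_false, Prod.mk.injEq, reduceCtorEq, and_false, and_true, or_false,
      false_or, true_and, false_and] at hK h <;> omega

theorem brR (hK : Kb a b j cL false c) (hc : b ≤ c.1) (hn : ¬ Kb a b j cL false (nb c e))
    (hab : a + 2 ≤ b) :
    BR (b, j) (b, j - 1) .N .W (c, e) ∧ BR (b, j - 1) (b, j) .S .W (c, e) := by
  obtain ⟨x, y⟩ := c
  have h2 := bi_le cL
  unfold Kb at hK hn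
  unfold BR
  simp only at hc hK
  cases e <;>
    simp only [nb, op, bi_true, bi_false, Prod.mk.injEq, reduceCtorEq, and_false, and_true, or_false,
      false_or, true_and, false_and] at hK hn ⊢ <;> omega

theorem brR' (hab : a + 2 ≤ b) {z : End}
    (h : BR (b, j) (b, j - 1) .N .W z ∨ BR (b, j - 1) (b, j) .S .W z) :
    Yk (Kb a b j cL false) z := by
  have h2 := bi_le cL
  rintro ⟨-, hK⟩
  obtain ⟨⟨x, y⟩, e⟩ := z
  unfold Kb at hK
  unfold BR at h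
  cases e <;>
    simp only [nb, op, bi_true, bi_false, Prod.mk.injEq, reduceCtorEq, and_false, and_true, or_false,
      false_or, true_and, false_and] at hK h <;> omega

end geo

section main

variable {σ σ' : State} {a b j : ℤ} {lS lR cL rN rR cR : Bool}

/-- regular ends -/
theorem gate_reg {w : End} (h1 : σ w.1 = none) (h2 : σ' w.1 = none)
    (h3 : Yk (Kb a b j cL cR) w) : Gate σ σ' (Ends σ σ' a b j lS lR cL rN rR cR) w :=
  ⟨w, w, 0, 0, Or.inl ⟨rfl, rfl, h1, h2, h3⟩, Pa.nil _, Pa.nil _⟩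

/-- the special ends of a straight left end -/
theorem Strip.gL (S : Strip σ σ' a b j lS lR cL rN rR cR) (hR : lR = false) :
    (∀ w w' δ, SpL a j lS w w' δ → (σ w.1 = none ∧ σ' w'.1 = none) ∧
      ∃ y τ, Yk (Kb a b j cL cR) y ∧ Pa σ w y τ ∧ Pa σ' w' y (τ + δ)) ∧
    ∀ c e, Kb a b j cL cR c → c.1 < a → ¬ Kb a b j cL cR (nb c e) →
      (∃ β, σ c = some β ∧ σ' c = some β ∧ Yk (Kb a b j cL cR) (c, e.mate β)) ∨
      Gate σ σ' (Ends σ σ' a b j lS lR cL rN rR cR) (c, e) := by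
  have hab := S.ab
  cases lS
  · -- towards N
    have Z := S.l2 hR rfl
    have z1 := Z.rU
    have z2 := Z.rA
    have z3 := Z.rB
    have g1 : ∃ τ, Pa σ ((a, j - 1), Dir.W) ((a - 1, j - 1), Dir.S) τ ∧
        Pa σ' ((a - 1, j - 1), Dir.S) ((a - 1, j - 1), Dir.S) (τ + -1) :=
      ⟨1, Z.line, Pa.nil _⟩
    have g2 : ∃ y τ, (y = ((a - 1, j - 1), Dir.W) ∧ cL = false ∨
        y = ((a - 1, j), Dir.N) ∧ cL = true) ∧ Pa σ ((a, j), Dir.W) y τ ∧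
        Pa σ' ((a - 1, j - 1), Dir.W) y (τ + 0) := by
      cases cL
      · exact ⟨_, 0, Or.inl ⟨rfl, rfl⟩, Z.reg_nc, Pa.nil _⟩
      · obtain ⟨k1, k2⟩ := Z.reg_yc
        exact ⟨_, _, Or.inr ⟨rfl, rfl⟩, k2, by rw [add_zero]; exact k1⟩
    refine ⟨?_, ?_⟩
    · intro w w' δ h
      unfold SpL at h
      simp only [Bool.false_eq_true, if_false] at h
      rcases h with ⟨rfl, rfl, rfl⟩ | ⟨rfl, rfl, rfl⟩
      · obtain ⟨τ, k1, k2⟩ := g1
        exact ⟨⟨z2.2, z1⟩, _, τ, bdL' hab (Or.inr (Or.inl rfl)), k1, k2⟩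
      · obtain ⟨y, τ, h0, k1, k2⟩ := g2
        refine ⟨⟨z3.2, z1⟩, y, τ, ?_, k1, k2⟩
        rcases h0 with ⟨rfl, h0⟩ | ⟨rfl, h0⟩
        · exact bdL' hab (Or.inr (Or.inr (Or.inl ⟨h0, Or.inl rfl⟩)))
        · exact bdL' hab (Or.inr (Or.inr (Or.inr ⟨h0, Or.inl rfl⟩)))
    · intro c e h1 h2 h3
      rcases Z.entry (bdL h1 h2 h3 hab).2 with ⟨β, h4, h5, h6⟩ | h4 | ⟨h0, h4⟩ | ⟨h0, h4⟩
      · exact Or.inl ⟨β, h5, h4, bdL' hab (Or.inr h6)⟩
      · obtain ⟨τ, k1, k2⟩ := g1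
        rw [h4]
        exact Or.inr ⟨_, _, -1, τ, Or.inr (Or.inl ⟨hR, Or.inl ⟨rfl, rfl, rfl⟩⟩), k1, k2⟩
      · obtain ⟨y, τ, h0', k1, k2⟩ := g2
        rw [h4]
        rcases h0' with ⟨rfl, h0'⟩ | ⟨rfl, h0'⟩
        · exact Or.inr ⟨_, _, 0, τ, Or.inr (Or.inl ⟨hR, Or.inr ⟨rfl, rfl, rfl⟩⟩), k1, k2⟩
        · rw [h0] at h0'; exact absurd h0' (by simp)
      · obtain ⟨y, τ, h0', k1, k2⟩ := g2
        rw [h4]
        rcases h0' with ⟨rfl, h0'⟩ | ⟨rfl, h0'⟩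
        · rw [h0] at h0'; exact absurd h0' (by simp)
        · exact Or.inr ⟨_, _, 0, τ, Or.inr (Or.inl ⟨hR, Or.inr ⟨rfl, rfl, rfl⟩⟩), k1, k2⟩
  · -- towards S
    have Z := S.l1 hR rfl
    have z1 := Z.rU
    have z2 := Z.rA
    have z3 := Z.rB
    have g1 : ∃ τ, Pa σ ((a - 1, j), Dir.N) ((a - 1, j), Dir.N) τ ∧
        Pa σ' ((a, j), Dir.W) ((a - 1, j), Dir.N) (τ + -1) :=
      ⟨0, Pa.nil _, Z.line⟩
    have g2 : ∃ y τ, (y = ((a - 1, j), Dir.W) ∧ cL = false ∨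
        y = ((a - 1, j - 1), Dir.S) ∧ cL = true) ∧ Pa σ ((a - 1, j), Dir.W) y τ ∧
        Pa σ' ((a, j - 1), Dir.W) y (τ + 0) := by
      cases cL
      · exact ⟨_, 0, Or.inl ⟨rfl, rfl⟩, Pa.nil _, Z.reg_nc⟩
      · obtain ⟨k1, k2⟩ := Z.reg_yc
        exact ⟨_, _, Or.inr ⟨rfl, rfl⟩, k1, by rw [add_zero]; exact k2⟩
    refine ⟨?_, ?_⟩
    · intro w w' δ h
      unfold SpL at h
      simp only [if_true] at h
      rcases h with ⟨rfl, rfl, rfl⟩ | ⟨rfl, rfl, rfl⟩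
      · obtain ⟨τ, k1, k2⟩ := g1
        exact ⟨⟨z1, z2.2⟩, _, τ, bdL' hab (Or.inl (Or.inl rfl)), k1, k2⟩
      · obtain ⟨y, τ, h0, k1, k2⟩ := g2
        refine ⟨⟨z1, z3.2⟩, y, τ, ?_, k1, k2⟩
        rcases h0 with ⟨rfl, h0⟩ | ⟨rfl, h0⟩
        · exact bdL' hab (Or.inl (Or.inr (Or.inl ⟨h0, Or.inl rfl⟩)))
        · exact bdL' hab (Or.inl (Or.inr (Or.inr ⟨h0, Or.inl rfl⟩)))
    · intro c e h1 h2 h3
      rcases Z.entry (bdL h1 h2 h3 hab).1 with ⟨β, h4, h5, h6⟩ | h4 | ⟨h0, h4⟩ | ⟨h0, h4⟩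
      · exact Or.inl ⟨β, h4, h5, bdL' hab (Or.inl h6)⟩
      · obtain ⟨τ, k1, k2⟩ := g1
        rw [h4]
        exact Or.inr ⟨_, _, -1, τ, Or.inr (Or.inl ⟨hR, Or.inl ⟨rfl, rfl, rfl⟩⟩), k1, k2⟩
      · obtain ⟨y, τ, h0', k1, k2⟩ := g2
        rw [h4]
        rcases h0' with ⟨rfl, h0'⟩ | ⟨rfl, h0'⟩
        · exact Or.inr ⟨_, _, 0, τ, Or.inr (Or.inl ⟨hR, Or.inr ⟨rfl, rfl, rfl⟩⟩), k1, k2⟩
        · rw [h0] at h0'; exact absurd h0' (by simp)
      · obtain ⟨y, τ, h0', k1, k2⟩ := g2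
        rw [h4]
        rcases h0' with ⟨rfl, h0'⟩ | ⟨rfl, h0'⟩
        · rw [h0] at h0'; exact absurd h0' (by simp)
        · exact Or.inr ⟨_, _, 0, τ, Or.inr (Or.inl ⟨hR, Or.inr ⟨rfl, rfl, rfl⟩⟩), k1, k2⟩

/-- the special ends of a straight right end -/
theorem Strip.gR (S : Strip σ σ' a b j lS lR cL rN rR cR) (hR : rR = false) :
    (∀ w w' δ, SpR b j rN w w' δ → (σ w.1 = none ∧ σ' w'.1 = none) ∧
      ∃ y τ, Yk (Kb a b j cL cR) y ∧ Pa σ w y τ ∧ Pa σ' w' y (τ + δ)) ∧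
    ∀ c e, Kb a b j cL cR c → b ≤ c.1 → ¬ Kb a b j cL cR (nb c e) →
      (∃ β, σ c = some β ∧ σ' c = some β ∧ Yk (Kb a b j cL cR) (c, e.mate β)) ∨
      Gate σ σ' (Ends σ σ' a b j lS lR cL rN rR cR) (c, e) := by
  have hab := S.ab
  cases rN
  · -- towards S
    have Z := S.r2 hR rfl
    have z1 := Z.rU
    have z2 := Z.rA
    have z3 := Z.rB
    have g1 : ∃ τ, Pa σ ((b - 1, j - 1), Dir.E) ((b, j - 1), Dir.S) τ ∧
        Pa σ' ((b, j - 1), Dir.S) ((b, j - 1), Dir.S) (τ + 1) :=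
      ⟨-1, Z.line, Pa.nil _⟩
    have g2 : ∃ y τ, (y = ((b, j - 1), Dir.E) ∧ cR = false ∨
        y = ((b, j), Dir.N) ∧ cR = true) ∧ Pa σ ((b - 1, j), Dir.E) y τ ∧
        Pa σ' ((b, j - 1), Dir.E) y (τ + 0) := by
      cases cR
      · exact ⟨_, 0, Or.inl ⟨rfl, rfl⟩, Z.reg_nc, Pa.nil _⟩
      · obtain ⟨k1, k2⟩ := Z.reg_yc
        exact ⟨_, _, Or.inr ⟨rfl, rfl⟩, k2, by rw [add_zero]; exact k1⟩
    refine ⟨?_, ?_⟩
    · intro w w' δ h
      unfold SpR at h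
      simp only [Bool.false_eq_true, if_false] at h
      rcases h with ⟨rfl, rfl, rfl⟩ | ⟨rfl, rfl, rfl⟩
      · obtain ⟨τ, k1, k2⟩ := g1
        exact ⟨⟨z2.2, z1⟩, _, τ, bdR' hab (Or.inr (Or.inl rfl)), k1, k2⟩
      · obtain ⟨y, τ, h0, k1, k2⟩ := g2
        refine ⟨⟨z3.2, z1⟩, y, τ, ?_, k1, k2⟩
        rcases h0 with ⟨rfl, h0⟩ | ⟨rfl, h0⟩
        · exact bdR' hab (Or.inr (Or.inr (Or.inl ⟨h0, Or.inl rfl⟩)))
        · exact bdR' hab (Or.inr (Or.inr (Or.inr ⟨h0, Or.inl rfl⟩)))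
    · intro c e h1 h2 h3
      rcases Z.entry (bdR h1 h2 h3 hab).2 with ⟨β, h4, h5, h6⟩ | h4 | ⟨h0, h4⟩ | ⟨h0, h4⟩
      · exact Or.inl ⟨β, h5, h4, bdR' hab (Or.inr h6)⟩
      · obtain ⟨τ, k1, k2⟩ := g1
        rw [h4]
        exact Or.inr ⟨_, _, 1, τ, Or.inr (Or.inr ⟨hR, Or.inl ⟨rfl, rfl, rfl⟩⟩), k1, k2⟩
      · obtain ⟨y, τ, h0', k1, k2⟩ := g2
        rw [h4]
        rcases h0' with ⟨rfl, h0'⟩ | ⟨rfl, h0'⟩
        · exact Or.inr ⟨_, _, 0, τ, Or.inr (Or.inr ⟨hR, Or.inr ⟨rfl, rfl, rfl⟩⟩), k1, k2⟩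
        · rw [h0] at h0'; exact absurd h0' (by simp)
      · obtain ⟨y, τ, h0', k1, k2⟩ := g2
        rw [h4]
        rcases h0' with ⟨rfl, h0'⟩ | ⟨rfl, h0'⟩
        · rw [h0] at h0'; exact absurd h0' (by simp)
        · exact Or.inr ⟨_, _, 0, τ, Or.inr (Or.inr ⟨hR, Or.inr ⟨rfl, rfl, rfl⟩⟩), k1, k2⟩
  · -- towards N
    have Z := S.r1 hR rfl
    have z1 := Z.rU
    have z2 := Z.rA
    have z3 := Z.rB
    have g1 : ∃ τ, Pa σ ((b, j), Dir.N) ((b, j), Dir.N) τ ∧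
        Pa σ' ((b - 1, j), Dir.E) ((b, j), Dir.N) (τ + 1) :=
      ⟨0, Pa.nil _, Z.line⟩
    have g2 : ∃ y τ, (y = ((b, j), Dir.E) ∧ cR = false ∨
        y = ((b, j - 1), Dir.S) ∧ cR = true) ∧ Pa σ ((b, j), Dir.E) y τ ∧
        Pa σ' ((b - 1, j - 1), Dir.E) y (τ + 0) := by
      cases cR
      · exact ⟨_, 0, Or.inl ⟨rfl, rfl⟩, Pa.nil _, Z.reg_nc⟩
      · obtain ⟨k1, k2⟩ := Z.reg_yc
        exact ⟨_, _, Or.inr ⟨rfl, rfl⟩, k1, by rw [add_zero]; exact k2⟩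
    refine ⟨?_, ?_⟩
    · intro w w' δ h
      unfold SpR at h
      simp only [if_true] at h
      rcases h with ⟨rfl, rfl, rfl⟩ | ⟨rfl, rfl, rfl⟩
      · obtain ⟨τ, k1, k2⟩ := g1
        exact ⟨⟨z1, z2.2⟩, _, τ, bdR' hab (Or.inl (Or.inl rfl)), k1, k2⟩
      · obtain ⟨y, τ, h0, k1, k2⟩ := g2
        refine ⟨⟨z1, z3.2⟩, y, τ, ?_, k1, k2⟩
        rcases h0 with ⟨rfl, h0⟩ | ⟨rfl, h0⟩
        · exact bdR' hab (Or.inl (Or.inr (Or.inl ⟨h0, Or.inl rfl⟩)))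
        · exact bdR' hab (Or.inl (Or.inr (Or.inr ⟨h0, Or.inl rfl⟩)))
    · intro c e h1 h2 h3
      rcases Z.entry (bdR h1 h2 h3 hab).1 with ⟨β, h4, h5, h6⟩ | h4 | ⟨h0, h4⟩ | ⟨h0, h4⟩
      · exact Or.inl ⟨β, h4, h5, bdR' hab (Or.inl h6)⟩
      · obtain ⟨τ, k1, k2⟩ := g1
        rw [h4]
        exact Or.inr ⟨_, _, 1, τ, Or.inr (Or.inr ⟨hR, Or.inl ⟨rfl, rfl, rfl⟩⟩), k1, k2⟩
      · obtain ⟨y, τ, h0', k1, k2⟩ := g2
        rw [h4]
        rcases h0' with ⟨rfl, h0'⟩ | ⟨rfl, h0'⟩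
        · exact Or.inr ⟨_, _, 0, τ, Or.inr (Or.inr ⟨hR, Or.inr ⟨rfl, rfl, rfl⟩⟩), k1, k2⟩
        · rw [h0] at h0'; exact absurd h0' (by simp)
      · obtain ⟨y, τ, h0', k1, k2⟩ := g2
        rw [h4]
        rcases h0' with ⟨rfl, h0'⟩ | ⟨rfl, h0'⟩
        · rw [h0] at h0'; exact absurd h0' (by simp)
        · exact Or.inr ⟨_, _, 0, τ, Or.inr (Or.inr ⟨hR, Or.inr ⟨rfl, rfl, rfl⟩⟩), k1, k2⟩

theorem Strip.rL (S : Strip σ σ' a b j lS lR cL rN rR cR) (hR : lR = true) :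
    ∀ c e, Kb a b j cL cR c → c.1 < a → ¬ Kb a b j cL cR (nb c e) →
      (∃ β, σ c = some β ∧ σ' c = some β ∧ Yk (Kb a b j cL cR) (c, e.mate β)) ∨
      Gate σ σ' (Ends σ σ' a b j lS lR cL rN rR cR) (c, e) := by
  have hab := S.ab
  have hc := S.lc hR
  subst hc
  intro c e h1 h2 h3
  cases lS
  · have Z := S.l4 hR rfl
    rcases Z.entry (brL h1 h2 h3 hab).2 with ⟨β, h4, h5, h6⟩ | h4 | h4
    · exact Or.inl ⟨β, h5, h4, brL' hab (Or.inr h6)⟩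
    · rw [h4]
      exact Or.inr (gate_reg Z.rU.2 Z.rU.1 (brL' hab (Or.inr (Or.inl rfl))))
    · rw [h4]
      exact Or.inr (gate_reg Z.rU.2 Z.rU.1 (brL' hab (Or.inr (Or.inr (Or.inl rfl)))))
  · have Z := S.l3 hR rfl
    rcases Z.entry (brL h1 h2 h3 hab).1 with ⟨β, h4, h5, h6⟩ | h4 | h4
    · exact Or.inl ⟨β, h4, h5, brL' hab (Or.inl h6)⟩
    · rw [h4]
      exact Or.inr (gate_reg Z.rU.1 Z.rU.2 (brL' hab (Or.inl (Or.inl rfl))))
    · rw [h4]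
      exact Or.inr (gate_reg Z.rU.1 Z.rU.2 (brL' hab (Or.inl (Or.inr (Or.inl rfl)))))

theorem Strip.rR' (S : Strip σ σ' a b j lS lR cL rN rR cR) (hR : rR = true) :
    ∀ c e, Kb a b j cL cR c → b ≤ c.1 → ¬ Kb a b j cL cR (nb c e) →
      (∃ β, σ c = some β ∧ σ' c = some β ∧ Yk (Kb a b j cL cR) (c, e.mate β)) ∨
      Gate σ σ' (Ends σ σ' a b j lS lR cL rN rR cR) (c, e) := by
  have hab := S.ab
  have hc := S.rc hR
  subst hc
  intro c e h1 h2 h3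
  cases rN
  · have Z := S.r4 hR rfl
    rcases Z.entry (brR h1 h2 h3 hab).2 with ⟨β, h4, h5, h6⟩ | h4 | h4
    · exact Or.inl ⟨β, h5, h4, brR' hab (Or.inr h6)⟩
    · rw [h4]
      exact Or.inr (gate_reg Z.rU.2 Z.rU.1 (brR' hab (Or.inr (Or.inl rfl))))
    · rw [h4]
      exact Or.inr (gate_reg Z.rU.2 Z.rU.1 (brR' hab (Or.inr (Or.inr (Or.inl rfl)))))
  · have Z := S.r3 hR rfl
    rcases Z.entry (brR h1 h2 h3 hab).1 with ⟨β, h4, h5, h6⟩ | h4 | h4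
    · exact Or.inl ⟨β, h4, h5, brR' hab (Or.inl h6)⟩
    · rw [h4]
      exact Or.inr (gate_reg Z.rU.1 Z.rU.2 (brR' hab (Or.inl (Or.inl rfl))))
    · rw [h4]
      exact Or.inr (gate_reg Z.rU.1 Z.rU.2 (brR' hab (Or.inl (Or.inr (Or.inl rfl)))))

/-- **The wires of the two environments outside the box are the same.** -/
theorem Strip.loc (S : Strip σ σ' a b j lS lR cL rN rR cR) :
    Loc σ σ' (Kb a b j cL cR) (Ends σ σ' a b j lS lR cL rN rR cR) where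
  rnd := by
    intro w w' δ h
    rcases h with ⟨rfl, -, h1, h2, -⟩ | ⟨h1, h2⟩ | ⟨h1, h2⟩
    · exact ⟨h1, h2⟩
    · exact ((S.gL h1).1 _ _ _ h2).1
    · exact ((S.gR h1).1 _ _ _ h2).1
  gate := by
    intro w w' δ h
    rcases h with ⟨rfl, rfl, h1, h2, h3⟩ | ⟨h1, h2⟩ | ⟨h1, h2⟩
    · exact ⟨w, 0, h3, Pa.nil _, Pa.nil _⟩
    · exact ((S.gL h1).1 _ _ _ h2).2
    · exact ((S.gR h1).1 _ _ _ h2).2
  step := by
    intro c e hY
    have hab := S.ab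
    by_cases hK : Kb a b j cL cR c
    · have hn : ¬ Kb a b j cL cR (nb c e) := fun h => hY ⟨hK, h⟩
      by_cases h1 : c.1 < a
      · cases hR : lR
        · subst hR
          exact (S.gL rfl).2 c e hK h1 hn
        · subst hR
          exact S.rL rfl c e hK h1 hn
      · by_cases h2 : b ≤ c.1
        · cases hR : rR
          · subst hR
            exact (S.gR rfl).2 c e hK h2 hn
          · subst hR
            exact S.rR' rfl c e hK h2 hn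
        · obtain ⟨x, y⟩ := c
          simp only at h1 h2
          obtain ⟨⟨k1, k2⟩, k3, k4⟩ := S.row x (by omega) (by omega)
          obtain ⟨-, -, h3⟩ := hK
          simp only at h3
          rcases h3 with rfl | rfl
          · exact Or.inr (gate_reg k1 k2 hY)
          · exact Or.inr (gate_reg k3 k4 hY)
    · have h1 := bi_le cL
      have h2 := bi_le cR
      have hout : σ c = σ' c := by
        apply S.out c
        · rintro rfl; exact hK ⟨by simp only; omega, by simp only; omega, Or.inl rfl⟩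
        · rintro rfl; exact hK ⟨by simp only; omega, by simp only; omega, Or.inr rfl⟩
        · rintro rfl; exact hK ⟨by simp only; omega, by simp only; omega, Or.inl rfl⟩
        · rintro rfl; exact hK ⟨by simp only; omega, by simp only; omega, Or.inr rfl⟩
      cases h : σ c with
      | none =>
        exact Or.inr (gate_reg h (hout ▸ h) hY)
      | some β =>
        exact Or.inl ⟨β, rfl, by rw [← hout, h], fun h' => hK h'.1⟩

end main

end Pool.Agent.H64.Win
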