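import Pool.Agent.H64.Win.Exch
import Pool.Agent.H64.Win.Strip
import Pool.Agent.H93.Sp.Net

/-!
# Ends of the tiles of a split network as positions
-/

namespace Pool.Agent.H64.Win

open Pool.Agent.H64.Q1 hiding Tl
open Pool.Agent.H81.G1 Pool.Agent.Q1 Pool.Agent.H33.Q1
open Pool.Agent.H75.Perc Pool.Agent.H75.TwoArm
open Pool.Agent.H74.R45 hiding Tl
open Pool.Agent.H46.Sp (TP lbP tyP crP)
open Finset

section split

variable {ι : Type*} [DecidableEq ι] {M : Finset ι} {s : ι → Dir} {π : ι × Dir → ι × Dir}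
  {t : ι × Dir → ℤ}

theorem sπ_sπ (h : ∀ x, π (π x) = x) (z : (ι ⊕ ↥M) × Dir) : sπ M s π (sπ M s π z) = z := by
  rcases end_cases M s z with ⟨x, rfl⟩ | ⟨m, hm, rfl | rfl | rfl | rfl⟩
  · rw [sπ_kp, sπ_kp, h]
  · rw [(sπ_int M s _ hm).1, (sπ_int M s _ hm).2.2.1]
  · rw [(sπ_int M s _ hm).2.1, (sπ_int M s _ hm).2.2.2]
  · rw [(sπ_int M s _ hm).2.2.1, (sπ_int M s _ hm).1]
  · rw [(sπ_int M s _ hm).2.2.2, (sπ_int M s _ hm).2.1]

theorem sτ_sπ (h : ∀ x, t (π x) = -t x) (z : (ι ⊕ ↥M) × Dir) :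
    sτ M s t (sπ M s π z) = -sτ M s t z := by
  rcases end_cases M s z with ⟨x, rfl⟩ | ⟨m, hm, rfl | rfl | rfl | rfl⟩
  · rw [sπ_kp, sτ_kp, sτ_kp, h]
  · rw [(sπ_int M s _ hm).1, (sτ_int M s _ hm).1, (sτ_int M s _ hm).2.2.1]; rfl
  · rw [(sπ_int M s _ hm).2.1, (sτ_int M s _ hm).2.1, (sτ_int M s _ hm).2.2.2]
  · rw [(sπ_int M s _ hm).2.2.1, (sτ_int M s _ hm).1, (sτ_int M s _ hm).2.2.1]
  · rw [(sπ_int M s _ hm).2.2.2, (sτ_int M s _ hm).2.1, (sτ_int M s _ hm).2.2.2]; rfl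

end split

variable {P : Finset (ℤ × ℤ)}

/-- the split tiles -/
def Mf (P : Finset (ℤ × ℤ)) (mp : ℤ × ℤ → Bool) : Finset (TP P) :=
  univ.filter fun i => mp i.1 = true

theorem mem_Mf {mp : ℤ × ℤ → Bool} {i : TP P} : i ∈ Mf P mp ↔ mp i.1 = true := by
  unfold Mf
  simp

/-- the first ends of the split tiles -/
abbrev μf (P : Finset (ℤ × ℤ)) (μ : ℤ × ℤ → Dir) : TP P → Dir := fun i => μ i.1

/-- the end `x` of the split network is the end `z` -/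
def Rl (P : Finset (ℤ × ℤ)) (mp : ℤ × ℤ → Bool) (μ : ℤ × ℤ → Dir)
    (x : (TP P ⊕ ↥(Mf P mp)) × Dir) (z : End) : Prop :=
  ∃ h : z.1 ∈ P, x = kp (Mf P mp) (μf P μ) (⟨z.1, h⟩, z.2)

variable {mp : ℤ × ℤ → Bool} {μ : ℤ × ℤ → Dir} {X : Env} {E W : Finset (ℤ × ℤ)}

/-- a wire of the split network -/
theorem wire_rl (hX : IsEnv X E W) (T : Tiles X (lbP : TP P → ℤ × ℤ) tyP crP)
    {x y : (TP P ⊕ ↥(Mf P mp)) × Dir} {z w : End} {t : ℤ} (hx : Rl P mp μ x z)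
    (hy : Rl P mp μ y w) (h : G (sto E W) z w t) :
    sπ (Mf P mp) (μf P μ) (wπ T) x = y ∧ sτ (Mf P mp) (μf P μ) (wτ T) x = t := by
  obtain ⟨hz, rfl⟩ := hx
  obtain ⟨hw, rfl⟩ := hy
  rw [sπ_kp, sτ_kp]
  obtain ⟨a1, a2⟩ := h.wπ hX T (z := (⟨z.1, hz⟩, z.2)) (w := (⟨w.1, hw⟩, w.2)) rfl rfl rfl rfl
  rw [a1, a2]
  exact ⟨rfl, rfl⟩

/-- every end is joined to an end -/
theorem G_tot (hX : IsEnv X E W) (hm : ∀ q, lt q ∈ E ↔ q ∈ P)
    (T : Tiles X (lbP : TP P → ℤ × ℤ) tyP crP) {z : End} (hz : z.1 ∈ P) :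
    ∃ w t, G (sto E W) z w t ∧ w.1 ∈ P := by
  have key : ∀ z : End, z.1 ∈ P → inq z.1 z.2 = false → ∃ w t, G (sto E W) z w t ∧ w.1 ∈ P := by
    intro z hz hi
    have h1 := wl_mem T (x := (⟨z.1, hz⟩, z.2)) hi
    obtain ⟨w, t, h⟩ := G.ex hX _ z hi h1
    exact ⟨w, t, h, (hm _).1 (sto_none.1 h.random)⟩
  cases hi : inq z.1 z.2
  · exact key z hz hi
  · -- the other end is outgoing
    obtain ⟨⟨⟨q, hq⟩, d⟩, hy⟩ : ∃ y, wπ T (⟨z.1, hz⟩, z.2) = y := ⟨_, rfl⟩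
    have h1 : inc tyP ((⟨q, hq⟩, d) : TP P × Dir) = false := by
      rw [← hy, inc_wπ]
      change (!inq z.1 z.2) = false
      rw [hi]; rfl
    obtain ⟨w, t, h, hw⟩ := key (q, d) hq h1
    obtain ⟨a1, a2⟩ := h.wπ hX T (z := (⟨q, hq⟩, d)) (w := (⟨w.1, hw⟩, w.2)) rfl rfl rfl rfl
    rw [← hy, wπ_wπ] at a1
    have e : w = z := by
      have h3 := congrArg (fun x : TP P × Dir => ((x.1.1, x.2) : End)) a1
      exact h3.symm
    subst e
    exact ⟨(q, d), -t, h.symm (sto_none.2 ((hm _).2 hq)), hq⟩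

/-! ### Numbering of the tiles -/

section mk

variable {I : Type*} (P) (mp) (u : I → ℤ × ℤ) (v : I → Bool) (hu : ∀ x, u x ∈ P)
  (hv : ∀ x, v x = true → mp (u x) = true)

/-- the tile number `x` -/
def mkf (x : I) : TP P ⊕ ↥(Mf P mp) :=
  if h : v x = true then .inr ⟨⟨u x, hu x⟩, mem_Mf.2 (hv x h)⟩ else .inl ⟨u x, hu x⟩

variable (inj : ∀ x y, u x = u y → v x = v y → x = y)
  (surj : ∀ (q : ℤ × ℤ) (s : Bool), q ∈ P → (s = true → mp q = true) → ∃ x, u x = q ∧ v x = s)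

include inj surj in
theorem mkf_bij : Function.Bijective (mkf P mp u v hu hv) := by
  constructor
  · intro x y h
    unfold mkf at h
    split_ifs at h with h1 h2 h2
    · simp only [Sum.inr.injEq, Subtype.mk.injEq] at h
      exact inj x y h (by rw [h1, h2])
    · simp only [Sum.inl.injEq, Subtype.mk.injEq] at h
      exact inj x y h (by simp only [Bool.not_eq_true] at h1 h2; rw [h1, h2])
  · rintro (⟨q, hq⟩ | ⟨⟨q, hq⟩, hm⟩)
    · obtain ⟨x, rfl, h2⟩ := surj q false hq (by simp)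
      refine ⟨x, ?_⟩
      unfold mkf
      rw [dif_neg (by rw [h2]; simp)]
    · obtain ⟨x, rfl, h2⟩ := surj q true hq (fun _ => mem_Mf.1 hm)
      refine ⟨x, ?_⟩
      unfold mkf
      rw [dif_pos h2]

/-- the numbering -/
noncomputable def mkJ : I ≃ TP P ⊕ ↥(Mf P mp) :=
  Equiv.ofBijective (mkf P mp u v hu hv) (mkf_bij P mp u v hu hv inj surj)

theorem mkJ_apply (x : I) : mkJ P mp u v hu hv inj surj x = mkf P mp u v hu hv x := rfl

/-- the real ends -/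
theorem rl_mk {x : I} {d : Dir} (h : v x = (mp (u x) && old2 (μ (u x)) d)) :
    Rl P mp μ (mkJ P mp u v hu hv inj surj x, d) (u x, d) := by
  refine ⟨hu x, ?_⟩
  rw [mkJ_apply]
  unfold mkf kp
  have e : ((⟨u x, hu x⟩ : TP P) ∈ Mf P mp ∧ old2 (μ (u x)) d = true) ↔ v x = true := by
    rw [mem_Mf, h, Bool.and_eq_true]
  by_cases hv' : v x = true
  · rw [dif_pos hv', dif_pos (e.2 hv')]
  · rw [dif_neg hv', dif_neg (fun h => hv' (e.1 h))]

/-- the type of an end -/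
theorem inc_mk (x : I) (d : Dir) : inc (sp (Mf P mp) tyP) (mkJ P mp u v hu hv inj surj x, d) =
    inq (u x) d := by
  rw [mkJ_apply]
  unfold mkf
  split_ifs <;> rfl

end mk

/-! ### The root -/

/-- the root leads to an incoming end -/
theorem root_rl (hX : IsEnv X E W) (T : Tiles X (lbP : TP P → ℤ × ℤ) tyP crP) {z0 w : End}
    {x : (TP P ⊕ ↥(Mf P mp)) × Dir} {t : ℤ} (h0 : ce z0.1 z0.2 = X.c0)
    (hi : inq z0.1 z0.2 = false) (h : G (sto E W) z0 w t) (hw : Rl P mp μ x w) :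
    ∃ m : Meets X, kp (Mf P mp) (μf P μ) (rx0 T m) = x ∧ dsh X (rn0 X) = t := by
  obtain ⟨hw1, rfl⟩ := hw
  obtain ⟨h1, h2⟩ := h.out hX hi
  rw [h0] at h1
  obtain ⟨n, a1, a2, a3⟩ := h1
  have hz : inc tyP ((⟨w.1, hw1⟩, w.2) : TP P × Dir) = true := h2
  have hc : crP ((⟨w.1, hw1⟩, w.2) : TP P × Dir) = ce w.1 w.2 := rfl
  have hm : Meets X := ⟨n, by rw [a2, ← hc]; exact mem_cr T hz⟩
  have hn : rn0 X = n := by
    rcases lt_trichotomy (rn0 X) n with h | h | h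
    · exact absurd (rn0_mem hm) (a1 _ h)
    · exact h
    · exact absurd (by rw [a2, ← hc]; exact mem_cr T hz) (rn0_lt hm h)
  refine ⟨hm, ?_, ?_⟩
  · congr 1
    apply cr_inj T (rx0_in T hm) hz
    rw [rx0_cr T hm, hn, a2, hc]
  · rw [hn]
    exact a3

end Pool.Agent.H64.Win
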