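import Pool.Agent.H64.Win.Inc

/-!
# The increments of the environments of a window: `SameW`
-/

namespace Pool.Agent.H64.Win

open Pool.Agent.H64.Q1 hiding Tl
open Pool.Agent.H81.G1 Pool.Agent.Q1 Pool.Agent.H33.Q1
open Pool.Agent.H75.Perc hiding ph
open Pool.Agent.H75.TwoArm
open Pool.Agent.H74.R45 hiding Tl Out mem_EJ EJ WJ XJ mem_PJ PJ XJ_E XJ_c0 XJ_k0 XJ_T tilesJ
open Pool.Agent.H46.Sp
open Pool.Agent.H46.Sp.Win
open Pool.Agent.H74.Win (FW FW_eq tileW SameW ends)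
open Finset

variable {D : Pool.Agent.H46.Sp.Win} {O : Out D} {j x y : ℤ} {u : ℂ}

/-- induction along the rows -/
theorem ind_row {P : ℤ → Prop} {i k : ℤ} (h : i ≤ k) (h0 : P i)
    (hs : ∀ j, i ≤ j → j < k → P j → P (j + 1)) : P k := by
  obtain ⟨n, hn⟩ := Int.eq_ofNat_of_zero_le (show 0 ≤ k - i by omega)
  have : ∀ m : ℕ, m ≤ n → P (i + m) := by
    intro m
    induction m with
    | zero => intro _; simpa using h0
    | succ m ih =>
      intro hm
      have := hs (i + m) (by omega) (by omega) (ih (by omega))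
      rw [add_assoc] at this
      exact_mod_cast this
  have h2 := this n le_rfl
  rwa [← hn, add_sub_cancel] at h2

theorem lowH (hu : Complex.sin (2 * u) ≠ 0) (h0 : 0 ≤ j) (h1 : j ≤ D.h) (hy : j ≤ y)
    (hy' : y ≤ D.h) (hx : D.m (y - 1) ≤ x) (hx' : x < D.M (y - 1)) :
    Fu O u j (he (x, y)) = Fu O u 0 (he (x, y)) := by
  refine ind_row (P := fun i => Fu O u i (he (x, y)) = Fu O u 0 (he (x, y))) h0 rfl ?_
  intro i i0 i1 ih
  rw [← ih]
  have := F_up (O := O) hu i0 (by omega) (x := x) (y := y - 1) (e := .N)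
    ⟨by omega, by omega, hx, hx'⟩ (by
      rcases eq_or_lt_of_le (show i ≤ y - 1 by omega) with h | h
      · exact Or.inr ⟨h.symm, rfl⟩
      · exact Or.inl h)
  change Fu O u (i + 1) (he (x, y - 1 + 1)) = Fu O u i (he (x, y - 1 + 1)) at this
  rwa [sub_add_cancel] at this

theorem lowV (hu : Complex.sin (2 * u) ≠ 0) (h0 : 0 ≤ j) (h1 : j ≤ D.h) (hy : j ≤ y)
    (hy' : y < D.h) (hx : D.a y ≤ x) (hx' : x ≤ D.b y) :
    Fu O u j (ve (x, y)) = Fu O u 0 (ve (x, y)) := by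
  have k1 := m_le_a (D := D) (y := y) (by omega)
  have k2 := b_le_M (D := D) (y := y) (by omega)
  have k3 := D.ab y (by omega) hy'
  refine ind_row (P := fun i => Fu O u i (ve (x, y)) = Fu O u 0 (ve (x, y))) h0 rfl ?_
  intro i i0 i1 ih
  rw [← ih]
  by_cases h : x < D.b y
  · exact F_up (O := O) hu i0 (by omega) (x := x) (y := y) (e := .W)
      ⟨by omega, by omega, by omega, by omega⟩ (Or.inl (by omega))
  · have := F_up (O := O) hu i0 (by omega) (x := x - 1) (y := y) (e := .E)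
      ⟨by omega, by omega, by omega, by omega⟩ (Or.inl (by omega))
    change Fu O u (i + 1) (ve (x - 1 + 1, y)) = Fu O u i (ve (x - 1 + 1, y)) at this
    rwa [sub_add_cancel] at this

theorem upH (hu : Complex.sin (2 * u) ≠ 0) (h0 : 0 ≤ j) (h1 : j ≤ D.h) (hy : -1 ≤ y)
    (hy' : y ≤ j - 1) (hx : D.m y ≤ x) (hx' : x < D.M y) :
    Fu O u j (he (x, y)) = Fu O u D.h (he (x, y)) := by
  have := ind_row (P := fun i => Fu O u i (he (x, y)) = Fu O u j (he (x, y))) h1 rfl ?_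
  · exact this.symm
  intro i i0 i1 ih
  rw [← ih]
  exact F_dn (O := O) hu (by omega) i1 (x := x) (y := y) (e := .S)
    ⟨by omega, by omega, hx, hx'⟩ (by
      rcases eq_or_lt_of_le (show y ≤ i - 1 by omega) with h | h
      · exact Or.inr ⟨h, rfl⟩
      · exact Or.inl h)

theorem upV (hu : Complex.sin (2 * u) ≠ 0) (h0 : 0 ≤ j) (h1 : j ≤ D.h) (hy : -1 ≤ y)
    (hy' : y < j - 1) (hx : D.a (y + 1) ≤ x) (hx' : x ≤ D.b (y + 1)) :
    Fu O u j (ve (x, y)) = Fu O u D.h (ve (x, y)) := by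
  have k1 := m_le_a' (D := D) (y := y) (by omega)
  have k2 := b_le_M' (D := D) (y := y) (by omega)
  have k3 := D.ab (y + 1) (by omega) (by omega)
  have := ind_row (P := fun i => Fu O u i (ve (x, y)) = Fu O u j (ve (x, y))) h1 rfl ?_
  · exact this.symm
  intro i i0 i1 ih
  rw [← ih]
  by_cases h : x < D.b (y + 1)
  · exact F_dn (O := O) hu (by omega) i1 (x := x) (y := y) (e := .W)
      ⟨by omega, by omega, by omega, by omega⟩ (Or.inl (by omega))
  · have := F_dn (O := O) hu (by omega) i1 (x := x - 1) (y := y) (e := .E)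
      ⟨by omega, by omega, by omega, by omega⟩ (Or.inl (by omega))
    change Fu O u (i + 1) (ve (x - 1 + 1, y)) = Fu O u i (ve (x - 1 + 1, y)) at this
    rwa [sub_add_cancel] at this

/-! ### Phases -/

theorem zt_up {n : ℤ} (h : n % 24 = 4) : zt ^ n = w6 := by
  obtain ⟨k, rfl⟩ : ∃ k, n = 4 * 1 + 24 * k := ⟨n / 24, by omega⟩
  rw [zpow_add₀ zt_ne, zt_24, mul_one, ← ph_zt, ph_one]

theorem zt_dn {n : ℤ} (h : n % 24 = 20) : w6 * zt ^ n = 1 := by
  obtain ⟨k, rfl⟩ : ∃ k, n = 4 * (-1) + 24 * k := ⟨n / 24 + 1, by omega⟩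
  rw [zpow_add₀ zt_ne, zt_24, mul_one, ← ph_zt, ← ph_one, ← ph_add]
  exact ph_zero

theorem zt_on {n : ℤ} (h : n = 0) : zt ^ n = 1 := by rw [h, zpow_zero]

theorem ty_ve (x y : ℤ) : ty (ve (x, y)) = 1 + 2 * ((x + y + 1) % 2) := by
  rcases Int.emod_two_eq_zero_or_one (x + y) with h | h
  · rw [ty_ve_W h]; omega
  · rw [ty_ve_E h]; omega

theorem ty_he (x y : ℤ) : ty (he (x, y)) = 2 * ((x + y + 1) % 2) := by
  rcases Int.emod_two_eq_zero_or_one (x + y) with h | h
  · rw [ty_he_N h]; omega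
  · rw [ty_he_S h]; omega

/-! ### Linear algebra -/

section alg

theorem sin0 (hu : Complex.sin (2 * u) ≠ 0) : Complex.sin ((u + Real.pi) / 3) ≠ 0 := by
  apply Pool.Agent.H64.R45.sin_third
  have := Pool.Agent.H64.R45.sin_u hu 2
  convert this using 2
  push_cast
  ring

theorem sin1 (hu : Complex.sin (2 * u) ≠ 0) :
    Complex.sin ((u + Real.pi / 2 + Real.pi) / 3) ≠ 0 := by
  apply Pool.Agent.H64.R45.sin_third
  have := Pool.Agent.H64.R45.sin_u hu 3
  convert this using 2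
  push_cast
  ring

theorem sin2 (hu : Complex.sin (2 * u) ≠ 0) :
    Complex.sin ((u - Real.pi / 2 + Real.pi) / 3) ≠ 0 := by
  apply Pool.Agent.H64.R45.sin_third
  have := Pool.Agent.H64.R45.sin_u hu 1
  convert this using 2
  push_cast
  ring

theorem num_ne (u : ℂ) (h : Complex.sin ((u + Real.pi) / 3) ≠ 0) :
    (1 - wa u) * w6 + wa u ≠ 0 := by
  rw [ratio_wa u h]
  exact mul_ne_zero (Complex.exp_ne_zero _) (den_ne u h)

theorem alg_S (hu : Complex.sin (2 * u) ≠ 0) {V H : ℂ}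
    (h : ((1 - (1 - wa (u + Real.pi / 2))) + (1 - wa (u + Real.pi / 2)) * w6) * V =
      ((1 - (1 - wa (u + Real.pi / 2))) * w6 + (1 - wa (u + Real.pi / 2))) * H) :
    ((1 - wa u) + wa u * w6) * (w6 * H) = ((1 - wa u) * w6 + wa u) * V := by
  have k := wa_rel u (sin0 hu) (sin1 hu)
  have k2 := num_ne (u + Real.pi / 2) (sin1 hu)
  apply mul_left_cancel₀ k2
  linear_combination H * k - ((1 - wa u) * w6 + wa u) * h

theorem alg_N (hu : Complex.sin (2 * u) ≠ 0) {V H : ℂ}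
    (h : ((1 - (1 - wa (u - Real.pi / 2))) + (1 - wa (u - Real.pi / 2)) * w6) * V =
      ((1 - (1 - wa (u - Real.pi / 2))) * w6 + (1 - wa (u - Real.pi / 2))) * H) :
    ((1 - wa u) + wa u * w6) * H = ((1 - wa u) * w6 + wa u) * (w6 * V) := by
  have k := wa_rel (u - Real.pi / 2) (sin2 hu) (by
    rw [sub_add_cancel]; exact sin0 hu)
  rw [sub_add_cancel] at k
  have k2 := den_ne (u - Real.pi / 2) (sin2 hu)
  apply mul_left_cancel₀ k2
  linear_combination -V * k - ((1 - wa u) + wa u * w6) * h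

end alg

/-- the relation `star` at `x` -/
def StarAt (O : Out D) (u : ℂ) (j x : ℤ) : Prop :=
  ((1 - wa u) + wa u * w6) * (Fu O u (j + 1) (ve (x, j)) + Fu O u j (ve (x, j - 1))) =
    ((1 - wa u) * w6 + wa u) * (Fu O u j (ve (x, j)) + Fu O u (j + 1) (ve (x, j - 1)))

theorem inZ (h0 : 0 ≤ j) (h1 : j < D.h) (hx : D.a j ≤ x + 2) (hx' : x ≤ D.b j + 1)
    (hy : y = j ∨ y = j - 1) : D.InZ x y := by
  have k1 := a_min (D := D) h0 h1
  have k2 := b_max (D := D) h0 h1
  unfold InZ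
  omega

/-- turn at a deterministic tile -/
theorem turnJ (h0 : 0 ≤ j) {q : ℤ × ℤ} {β : Bool} (hs : σJ O j q = some β) {e : Dir}
    (h1 : σJ O j (nb q e) = none) (h2 : σJ O j (nb q (e.mate β)) = none) (hz : D.InZ q.1 q.2) :
    Fu O u j (ce q (e.mate β)) = ph (e.tn β) * Fu O u j (ce q e) := by
  unfold Fu
  rw [FW_eq h0, FW_eq h0]
  refine turn ⟨rfl, fun _ => rfl, fun _ => rfl⟩ (Pool.Agent.H46.Sp.Win.tilesJ O h0) hs
    (mem_PJ.2 ((σJ_none O).1 h1)) (mem_PJ.2 ((σJ_none O).1 h2)) ?_ _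
  intro h
  apply O.hroot
  change plab O.c0 = lt q at h
  rw [h]
  exact Pool.Agent.H46.Sp.Win.mem_GA.2 hz

/-- tiles of weight `w` -/
theorem tileJ (h0 : 0 ≤ j) {w : ℂ} (hE : σJ O j (x, y) = none)
    (hw : αJ D j (wa u) (wa (u + Real.pi / 2)) (wa (u - Real.pi / 2)) (x, y) = w) :
    ((1 - w) + w * w6) * (Fu O u j (ve (x, y)) + Fu O u j (ve (x + 1, y))) =
      ((1 - w) * w6 + w) * (Fu O u j (he (x, y + 1)) + Fu O u j (he (x, y))) := by
  have hE' := (σJ_none O).1 hE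
  refine tileW h0 hE' ?_
  rw [← hw]
  exact hasW _ _ _ x y (mem_PJ.2 hE')

/-- left end towards S -/
theorem star_lS (hu : Complex.sin (2 * u) ≠ 0) (h0 : 0 ≤ j) (h1 : j < D.h) (f1 : fL D j = false)
    (f2 : fS D j = true) : StarAt O u j (D.a j) := by
  have hab := D.ab j h0 h1
  have Z := (stripJ O h0 h1).l1 f1 f2
  have hw := (wt (D := D) h0 h1 (wa u) (wa (u + Real.pi / 2)) (wa (u - Real.pi / 2))).l1 f2 f1
  have t := tileJ (O := O) h0 Z.rU hw
  rw [sub_add_cancel] at t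
  have e1 : Fu O u (j + 1) (ve (D.a j, j)) = w6 * Fu O u j (he (D.a j - 1, j + 1)) := by
    have := incJ (O := O) hu h0 h1 (z := ((D.a j - 1, j), .N)) (z' := ((D.a j, j), .W)) (δ := -1)
      (Or.inr (Or.inl ⟨f1, by unfold SpL; rw [if_pos f2]; exact Or.inl ⟨rfl, rfl, rfl⟩⟩))
    change Fu O u (j + 1) (ve (D.a j, j)) = zt ^ (6 * (ty (ve (D.a j, j)) -
      ty (he (D.a j - 1, j + 1))) + 2 * (-1)) * Fu O u j (he (D.a j - 1, j + 1)) at this
    rw [this, zt_up]
    rw [ty_ve, ty_he]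
    omega
  have e2 : Fu O u (j + 1) (ve (D.a j, j - 1)) = Fu O u j (ve (D.a j - 1, j)) := by
    have := incJ (O := O) hu h0 h1 (z := ((D.a j - 1, j), .W)) (z' := ((D.a j, j - 1), .W))
      (δ := 0) (Or.inr (Or.inl ⟨f1, by
        unfold SpL; rw [if_pos f2]; exact Or.inr ⟨rfl, rfl, rfl⟩⟩))
    change Fu O u (j + 1) (ve (D.a j, j - 1)) = zt ^ (6 * (ty (ve (D.a j, j - 1)) -
      ty (ve (D.a j - 1, j))) + 2 * 0) * Fu O u j (ve (D.a j - 1, j)) at this
    rw [this, zt_on, one_mul]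
    rw [ty_ve, ty_ve]
    omega
  have e3 : Fu O u j (ve (D.a j, j - 1)) = w6 * Fu O u j (he (D.a j - 1, j)) := by
    have := turnJ (u := u) h0 (show σJ O j (D.a j - 1, j - 1) = some true from Z.sV) (e := .N) (by
      rw [← Z.rU]; simp [nb]) (by
      rw [← Z.rB.1]; simp [nb, Dir.mate]) (inZ h0 h1 (by omega) (by omega) (Or.inr rfl))
    change Fu O u j (ve (D.a j - 1 + 1, j - 1)) = ph 1 * Fu O u j (he (D.a j - 1, j - 1 + 1)) at this
    rwa [sub_add_cancel, sub_add_cancel, ph_one] at this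
  unfold StarAt
  rw [e1, e3, e2, ← mul_add, alg_S hu t, add_comm (Fu O u j (ve (D.a j, j)))]

/-- left end towards N -/
theorem star_lN (hu : Complex.sin (2 * u) ≠ 0) (h0 : 0 ≤ j) (h1 : j < D.h) (f1 : fL D j = false)
    (f2 : fS D j = false) : StarAt O u j (D.a j) := by
  have hab := D.ab j h0 h1
  have Z := (stripJ O h0 h1).l2 f1 f2
  have hw := (wt (D := D) h0 h1 (wa u) (wa (u + Real.pi / 2)) (wa (u - Real.pi / 2))).l2 f2 f1
  have t := tileJ (O := O) (by omega) Z.rU hw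
  rw [sub_add_cancel, sub_add_cancel] at t
  have e1 : Fu O u (j + 1) (he (D.a j - 1, j - 1)) = w6 * Fu O u j (ve (D.a j, j - 1)) := by
    have := incJ (O := O) hu h0 h1 (z := ((D.a j, j - 1), .W)) (z' := ((D.a j - 1, j - 1), .S))
      (δ := -1)
      (Or.inr (Or.inl ⟨f1, by
        unfold SpL; rw [if_neg (by rw [f2]; simp)]; exact Or.inl ⟨rfl, rfl, rfl⟩⟩))
    change Fu O u (j + 1) (he (D.a j - 1, j - 1)) = zt ^ (6 * (ty (he (D.a j - 1, j - 1)) -
      ty (ve (D.a j, j - 1))) + 2 * (-1)) * Fu O u j (ve (D.a j, j - 1)) at this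
    rw [this, zt_up]
    rw [ty_ve, ty_he]
    omega
  have e2 : Fu O u (j + 1) (ve (D.a j - 1, j - 1)) = Fu O u j (ve (D.a j, j)) := by
    have := incJ (O := O) hu h0 h1 (z := ((D.a j, j), .W)) (z' := ((D.a j - 1, j - 1), .W))
      (δ := 0) (Or.inr (Or.inl ⟨f1, by
        unfold SpL; rw [if_neg (by rw [f2]; simp)]; exact Or.inr ⟨rfl, rfl, rfl⟩⟩))
    change Fu O u (j + 1) (ve (D.a j - 1, j - 1)) = zt ^ (6 * (ty (ve (D.a j - 1, j - 1)) -
      ty (ve (D.a j, j))) + 2 * 0) * Fu O u j (ve (D.a j, j)) at this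
    rw [this, zt_on, one_mul]
    rw [ty_ve, ty_ve]
    omega
  have e3 : Fu O u (j + 1) (he (D.a j - 1, j)) = w6 * Fu O u (j + 1) (ve (D.a j, j)) := by
    have := turnJ (u := u) (by omega) (show σJ O (j + 1) (D.a j - 1, j) = some false from Z.sV)
      (e := .E) (by
      rw [← Z.rB.1]; simp [nb]) (by
      rw [← Z.rU]; simp [nb, Dir.mate]) (inZ h0 h1 (by omega) (by omega) (Or.inl rfl))
    change Fu O u (j + 1) (he (D.a j - 1, j)) = ph 1 * Fu O u (j + 1) (ve (D.a j - 1 + 1, j))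
      at this
    rwa [sub_add_cancel, ph_one] at this
  have k := alg_N hu t
  rw [e1, e2, e3, ← mul_add] at k
  unfold StarAt
  apply mul_left_cancel₀ w6_ne
  linear_combination k

/-- right end towards N -/
theorem star_rN (hu : Complex.sin (2 * u) ≠ 0) (h0 : 0 ≤ j) (h1 : j < D.h) (f1 : fR D j = false)
    (f2 : fN D j = true) : StarAt O u j (D.b j) := by
  have hab := D.ab j h0 h1
  have Z := (stripJ O h0 h1).r1 f1 f2
  have hw := (wt (D := D) h0 h1 (wa u) (wa (u + Real.pi / 2)) (wa (u - Real.pi / 2))).r1 f2 f1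
  have t := tileJ (O := O) h0 Z.rU hw
  have e1 : w6 * Fu O u (j + 1) (ve (D.b j, j)) = Fu O u j (he (D.b j, j + 1)) := by
    have := incJ (O := O) hu h0 h1 (z := ((D.b j, j), .N)) (z' := ((D.b j - 1, j), .E)) (δ := 1)
      (Or.inr (Or.inr ⟨f1, by unfold SpR; rw [if_pos f2]; exact Or.inl ⟨rfl, rfl, rfl⟩⟩))
    change Fu O u (j + 1) (ve (D.b j - 1 + 1, j)) = zt ^ (6 * (ty (ve (D.b j - 1 + 1, j)) -
      ty (he (D.b j, j + 1))) + 2 * 1) * Fu O u j (he (D.b j, j + 1)) at this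
    rw [sub_add_cancel] at this
    rw [this, ← mul_assoc, zt_dn, one_mul]
    rw [ty_ve, ty_he]
    omega
  have e2 : Fu O u (j + 1) (ve (D.b j, j - 1)) = Fu O u j (ve (D.b j + 1, j)) := by
    have := incJ (O := O) hu h0 h1 (z := ((D.b j, j), .E)) (z' := ((D.b j - 1, j - 1), .E))
      (δ := 0) (Or.inr (Or.inr ⟨f1, by
        unfold SpR; rw [if_pos f2]; exact Or.inr ⟨rfl, rfl, rfl⟩⟩))
    change Fu O u (j + 1) (ve (D.b j - 1 + 1, j - 1)) = zt ^ (6 * (ty (ve (D.b j - 1 + 1, j - 1)) -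
      ty (ve (D.b j + 1, j))) + 2 * 0) * Fu O u j (ve (D.b j + 1, j)) at this
    rw [sub_add_cancel] at this
    rw [this, zt_on, one_mul]
    rw [ty_ve, ty_ve]
    omega
  have e3 : Fu O u j (he (D.b j, j)) = w6 * Fu O u j (ve (D.b j, j - 1)) := by
    have := turnJ (u := u) h0 (show σJ O j (D.b j, j - 1) = some false from Z.sV) (e := .W) (by
      rw [← Z.rB.1]; simp [nb]) (by
      rw [← Z.rU]; simp [nb, Dir.mate]) (inZ h0 h1 (by omega) (by omega) (Or.inr rfl))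
    change Fu O u j (he (D.b j, j - 1 + 1)) = ph 1 * Fu O u j (ve (D.b j, j - 1)) at this
    rwa [sub_add_cancel, ph_one] at this
  have k := alg_N hu t
  rw [← e1, ← e2, e3, ← mul_add] at k
  unfold StarAt
  apply mul_left_cancel₀ w6_ne
  linear_combination k

/-- right end towards S -/
theorem star_rS (hu : Complex.sin (2 * u) ≠ 0) (h0 : 0 ≤ j) (h1 : j < D.h) (f1 : fR D j = false)
    (f2 : fN D j = false) : StarAt O u j (D.b j) := by
  have hab := D.ab j h0 h1
  have Z := (stripJ O h0 h1).r2 f1 f2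
  have hw := (wt (D := D) h0 h1 (wa u) (wa (u + Real.pi / 2)) (wa (u - Real.pi / 2))).r2 f2 f1
  have t := tileJ (O := O) (by omega) Z.rU hw
  rw [sub_add_cancel] at t
  have e1 : Fu O u j (ve (D.b j, j - 1)) = w6 * Fu O u (j + 1) (he (D.b j, j - 1)) := by
    have := incJ (O := O) hu h0 h1 (z := ((D.b j - 1, j - 1), .E)) (z' := ((D.b j, j - 1), .S))
      (δ := 1)
      (Or.inr (Or.inr ⟨f1, by
        unfold SpR; rw [if_neg (by rw [f2]; simp)]; exact Or.inl ⟨rfl, rfl, rfl⟩⟩))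
    change Fu O u (j + 1) (he (D.b j, j - 1)) = zt ^ (6 * (ty (he (D.b j, j - 1)) -
      ty (ve (D.b j - 1 + 1, j - 1))) + 2 * 1) * Fu O u j (ve (D.b j - 1 + 1, j - 1)) at this
    rw [sub_add_cancel] at this
    rw [this, ← mul_assoc, zt_dn, one_mul]
    rw [ty_ve, ty_he]
    omega
  have e2 : Fu O u (j + 1) (ve (D.b j + 1, j - 1)) = Fu O u j (ve (D.b j, j)) := by
    have := incJ (O := O) hu h0 h1 (z := ((D.b j - 1, j), .E)) (z' := ((D.b j, j - 1), .E))
      (δ := 0) (Or.inr (Or.inr ⟨f1, by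
        unfold SpR; rw [if_neg (by rw [f2]; simp)]; exact Or.inr ⟨rfl, rfl, rfl⟩⟩))
    change Fu O u (j + 1) (ve (D.b j + 1, j - 1)) = zt ^ (6 * (ty (ve (D.b j + 1, j - 1)) -
      ty (ve (D.b j - 1 + 1, j))) + 2 * 0) * Fu O u j (ve (D.b j - 1 + 1, j)) at this
    rw [sub_add_cancel] at this
    rw [this, zt_on, one_mul]
    rw [ty_ve, ty_ve]
    omega
  have e3 : Fu O u (j + 1) (ve (D.b j, j)) = w6 * Fu O u (j + 1) (he (D.b j, j)) := by
    have := turnJ (u := u) (by omega) (show σJ O (j + 1) (D.b j, j) = some true from Z.sV)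
      (e := .S) (by
      rw [← Z.rU]; simp [nb]) (by
      rw [← Z.rB.1]; simp [nb, Dir.mate]) (inZ h0 h1 (by omega) (by omega) (Or.inl rfl))
    change Fu O u (j + 1) (ve (D.b j, j)) = ph 1 * Fu O u (j + 1) (he (D.b j, j)) at this
    rwa [ph_one] at this
  have k := alg_S hu t
  rw [e2] at k
  unfold StarAt
  rw [e1, e3, ← mul_add, k]
  ring

/-! ### Along the row -/

/-- `star` moves one step -/
theorem star_step (hu : Complex.sin (2 * u) ≠ 0) (h0 : 0 ≤ j) (h1 : j < D.h) (hx : D.a j ≤ x)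
    (hx' : x < D.b j) (h : StarAt O u j (x + 1)) : StarAt O u j x := by
  have r := row_none O h0 h1 hx hx'
  have W := wt (D := D) h0 h1 (wa u) (wa (u + Real.pi / 2)) (wa (u - Real.pi / 2))
  have t1 := tileJ (O := O) h0 (r j).1 (W.reg1 x hx hx')
  have t2 := tileJ (O := O) h0 (r j).2 (W.row1 x hx hx')
  have t3 := tileJ (O := O) (by omega) (r (j + 1)).1 (W.row2 x hx hx')
  have t4 := tileJ (O := O) (by omega) (r (j + 1)).2 (W.reg2 x hx hx')
  have k1 := m_le_a (D := D) (y := j) h0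
  have k2 := b_le_M (D := D) (y := j) h0
  have k3 := m_le_a' (D := D) (y := j - 1) (by omega)
  have k4 := b_le_M' (D := D) (y := j - 1) (by omega)
  rw [sub_add_cancel] at k3 k4 t2 t4
  have c1 : Fu O u (j + 1) (he (x, j + 1)) = Fu O u j (he (x, j + 1)) :=
    F_up (O := O) hu h0 h1 (x := x) (y := j) (e := .N) ⟨by omega, h1, by omega, by omega⟩
      (Or.inr ⟨rfl, rfl⟩)
  have c2 : Fu O u (j + 1) (he (x, j - 1)) = Fu O u j (he (x, j - 1)) :=
    F_dn (O := O) hu h0 h1 (x := x) (y := j - 1) (e := .S) ⟨by omega, by omega, by omega, by omega⟩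
      (Or.inr ⟨rfl, rfl⟩)
  have hw : (1 : ℂ) + w6 ≠ 0 := one_add_w6_ne
  have t1' : Fu O u j (ve (x, j)) + Fu O u j (ve (x + 1, j)) =
      Fu O u j (he (x, j + 1)) + Fu O u j (he (x, j)) := by
    apply mul_left_cancel₀ hw
    linear_combination 2 * t1
  have t4' : Fu O u (j + 1) (ve (x, j - 1)) + Fu O u (j + 1) (ve (x + 1, j - 1)) =
      Fu O u (j + 1) (he (x, j)) + Fu O u (j + 1) (he (x, j - 1)) := by
    apply mul_left_cancel₀ hw
    linear_combination 2 * t4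
  unfold StarAt at h ⊢
  rw [c1] at t3
  rw [c2] at t4'
  linear_combination t2 + t3 - ((1 - wa u) * w6 + wa u) * (t1' + t4') - h

/-- `star` at the left end from `star` at any point of the row -/
theorem star_left (hu : Complex.sin (2 * u) ≠ 0) (h0 : 0 ≤ j) (h1 : j < D.h) (hx : D.a j ≤ x)
    (hx' : x ≤ D.b j) (h : StarAt O u j x) : StarAt O u j (D.a j) := by
  obtain ⟨n, hn⟩ := Int.eq_ofNat_of_zero_le (show 0 ≤ x - D.a j by omega)
  have : ∀ m : ℕ, ∀ x, x = D.a j + m → x ≤ D.b j → StarAt O u j x → StarAt O u j (D.a j) := by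
    intro m
    induction m with
    | zero => intro x hx _ h; rw [hx] at h; simpa using h
    | succ m ih =>
      intro x hx hx' h
      push_cast at hx
      have e : x = x - 1 + 1 := by ring
      rw [e] at h
      exact ih (x - 1) (by omega) (by omega)
        (star_step hu h0 h1 (by omega) (by omega) h)
  exact this n x (by omega) hx' h

/-- **`SameW`.** `hR` : no row has a reflex corner at both ends. -/
theorem sameW_wa (O : Out D) (u : ℂ) (hu : Complex.sin (2 * u) ≠ 0)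
    (hR : ∀ j, 0 ≤ j → j < D.h → ¬ (fL D j = true ∧ fR D j = true)) :
    SameW O (wa u) (wa (u + Real.pi / 2)) (wa (u - Real.pi / 2)) where
  lowH := fun j h0 h1 x y a1 a2 a3 a4 => lowH hu h0 h1 a1 a2 a3 a4
  lowV := fun j h0 h1 x y a1 a2 a3 a4 => lowV hu h0 h1 a1 a2 a3 a4
  upH := fun j h0 h1 x y a1 a2 a3 a4 => upH hu h0 h1 a1 a2 a3 a4
  upV := fun j h0 h1 x y a1 a2 a3 a4 => upV hu h0 h1 a1 a2 a3 a4
  star := by
    intro j h0 h1
    have hab := D.ab j h0 h1
    change StarAt O u j (D.a j)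
    rcases bf (fL D j) with f | f
    · rcases bf (fS D j) with f' | f'
      · exact star_lN hu h0 h1 f f'
      · exact star_lS hu h0 h1 f f'
    · have f2 : fR D j = false := by
        rcases bf (fR D j) with g | g
        · exact g
        · exact absurd ⟨f, g⟩ (hR j h0 h1)
      refine star_left hu h0 h1 (x := D.b j) (by omega) le_rfl ?_
      rcases bf (fN D j) with f' | f'
      · exact star_rS hu h0 h1 f2 f'
      · exact star_rN hu h0 h1 f2 f'

end Pool.Agent.H64.Win
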