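import Pool.Agent.H64.Q1.Reg11

/-!
# Splitting tiles of a network

`spl M s N` : every tile `m ∈ M` of the network `N` is replaced by two tiles `inl m`, `inr m`, joined by two
wires. The ends `s m`, `rc (s m)` of the tile `m` are ends of `inl m`, the other ends are ends of `inr m`.
-/

namespace Pool.Agent.H64.Win

open Pool.Agent.H64.Q1 Pool.Agent.H81.G1 Finset

/-- the ends of the second tile -/
def old2 (s d : Dir) : Bool := decide (d = rc (rc s)) || decide (d = rc (rc (rc s)))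

theorem old2_0 (s : Dir) : old2 s s = false := by cases s <;> rfl
theorem old2_1 (s : Dir) : old2 s (rc s) = false := by cases s <;> rfl
theorem old2_2 (s : Dir) : old2 s (rc (rc s)) = true := by cases s <;> rfl
theorem old2_3 (s : Dir) : old2 s (rc (rc (rc s))) = true := by cases s <;> rfl

theorem rc4 (s : Dir) : rc (rc (rc (rc s))) = s := by cases s <;> rfl
theorem rc_ne0 (s : Dir) : rc s ≠ s := by cases s <;> simp [rc]
theorem rc_ne1 (s : Dir) : rc (rc s) ≠ s := by cases s <;> simp [rc]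
theorem rc_ne2 (s : Dir) : rc (rc (rc s)) ≠ s := by cases s <;> simp [rc]
theorem rc_inj {s d : Dir} (h : rc s = rc d) : s = d := by
  revert h; cases s <;> cases d <;> simp [rc]

theorem dir4 (s d : Dir) : d = s ∨ d = rc s ∨ d = rc (rc s) ∨ d = rc (rc (rc s)) := by
  cases s <;> cases d <;> simp [rc]

section split

variable {ι : Type*} [DecidableEq ι] (M : Finset ι) (s : ι → Dir)

/-- the place of an end -/
def kp (x : ι × Dir) : (ι ⊕ ↥M) × Dir :=
  if h : x.1 ∈ M ∧ old2 (s x.1) x.2 = true then (.inr ⟨x.1, h.1⟩, x.2) else (.inl x.1, x.2)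

/-- the wires of the split network -/
def sπ (π : ι × Dir → ι × Dir) (z : (ι ⊕ ↥M) × Dir) : (ι ⊕ ↥M) × Dir :=
  match z.1 with
  | .inl i => if h : i ∈ M ∧ old2 (s i) z.2 = true then
      (.inr ⟨i, h.1⟩, if z.2 = rc (rc (s i)) then rc (s i) else s i) else kp M s (π (i, z.2))
  | .inr k => if old2 (s k) z.2 = true then kp M s (π (k, z.2)) else
      (.inl k, if z.2 = rc (s k) then rc (rc (s k)) else rc (rc (rc (s k))))

/-- the turnings of the split network -/
def sτ (t : ι × Dir → ℤ) (z : (ι ⊕ ↥M) × Dir) : ℤ :=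
  match z.1 with
  | .inl i => if i ∈ M ∧ old2 (s i) z.2 = true then (if z.2 = rc (rc (s i)) then -1 else 1)
      else t (i, z.2)
  | .inr k => if old2 (s k) z.2 = true then t (k, z.2) else (if z.2 = rc (s k) then 1 else -1)

/-- the split network -/
def spl (N : Net ι) : Net (ι ⊕ ↥M) := ⟨sπ M s N.π, sτ M s N.t, kp M s N.x0, kp M s N.y0⟩

/-- the types of the split network -/
def sp (p : ι → Bool) (z : ι ⊕ ↥M) : Bool :=
  match z with
  | .inl i => p i
  | .inr k => p k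

/-- the underlying end -/
def un (z : (ι ⊕ ↥M) × Dir) : ι × Dir :=
  match z.1 with
  | .inl i => (i, z.2)
  | .inr k => (↑k, z.2)

theorem un_kp (x : ι × Dir) : un M (kp M s x) = x := by
  unfold kp
  split_ifs <;> rfl

theorem kp_inj : Function.Injective (kp M s) := fun x y h => by
  rw [← un_kp M s x, h, un_kp]

/-- internal ends -/
def Int (z : (ι ⊕ ↥M) × Dir) : Prop :=
  (∃ i, z.1 = .inl i ∧ i ∈ M ∧ old2 (s i) z.2 = true) ∨ ∃ k : ↥M, z.1 = .inr k ∧ old2 (s k) z.2 = false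

theorem kp_of_not {x : ι × Dir} (h : ¬ (x.1 ∈ M ∧ old2 (s x.1) x.2 = true)) :
    kp M s x = (.inl x.1, x.2) := by
  unfold kp; rw [dif_neg h]

theorem kp_of {x : ι × Dir} (h : x.1 ∈ M) (h' : old2 (s x.1) x.2 = true) :
    kp M s x = (.inr ⟨x.1, h⟩, x.2) := by
  unfold kp; rw [dif_pos ⟨h, h'⟩]

theorem not_int_kp (x : ι × Dir) : ¬ Int M s (kp M s x) := by
  by_cases h : x.1 ∈ M ∧ old2 (s x.1) x.2 = true
  · rw [kp_of M s h.1 h.2]
    rintro (⟨i, h1, -⟩ | ⟨k, h1, h2⟩)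
    · exact absurd h1 (by simp)
    · simp only [Sum.inr.injEq] at h1
      subst h1
      simp only at h2
      rw [h.2] at h2
      exact absurd h2 (by simp)
  · rw [kp_of_not M s h]
    rintro (⟨i, h1, h2, h3⟩ | ⟨k, h1, h2⟩)
    · simp only [Sum.inl.injEq] at h1
      subst h1
      exact h ⟨h2, h3⟩
    · exact absurd h1 (by simp)

theorem int_ne_kp {z : (ι ⊕ ↥M) × Dir} (h : Int M s z) (x : ι × Dir) : z ≠ kp M s x :=
  fun e => not_int_kp M s x (e ▸ h)

/-- an end is old or internal -/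
theorem old_or_int (z : (ι ⊕ ↥M) × Dir) : kp M s (un M z) = z ∨ Int M s z := by
  obtain ⟨i | k, d⟩ := z
  · by_cases h : i ∈ M ∧ old2 (s i) d = true
    · exact Or.inr (Or.inl ⟨i, rfl, h.1, h.2⟩)
    · left
      change kp M s (i, d) = _
      rw [kp_of_not M s h]
  · by_cases h : old2 (s k) d = true
    · left
      change kp M s (↑k, d) = _
      rw [kp_of M s k.2 h]
    · right; right
      exact ⟨k, rfl, by simpa using h⟩

variable (π : ι × Dir → ι × Dir) (t : ι × Dir → ℤ)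

theorem sπ_kp (x : ι × Dir) : sπ M s π (kp M s x) = kp M s (π x) := by
  by_cases h : x.1 ∈ M ∧ old2 (s x.1) x.2 = true
  · rw [kp_of M s h.1 h.2]
    unfold sπ
    simp only
    rw [if_pos h.2]
  · rw [kp_of_not M s h]
    unfold sπ
    simp only
    rw [dif_neg h]

theorem sτ_kp (x : ι × Dir) : sτ M s t (kp M s x) = t x := by
  by_cases h : x.1 ∈ M ∧ old2 (s x.1) x.2 = true
  · rw [kp_of M s h.1 h.2]
    unfold sτ
    simp only
    rw [if_pos h.2]
  · rw [kp_of_not M s h]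
    unfold sτ
    simp only
    rw [if_neg h]

/-- the internal wires -/
theorem sπ_int {m : ι} (hm : m ∈ M) :
    sπ M s π (.inl m, rc (rc (s m))) = (.inr ⟨m, hm⟩, rc (s m)) ∧
    sπ M s π (.inl m, rc (rc (rc (s m)))) = (.inr ⟨m, hm⟩, s m) ∧
    sπ M s π (.inr ⟨m, hm⟩, rc (s m)) = (.inl m, rc (rc (s m))) ∧
    sπ M s π (.inr ⟨m, hm⟩, s m) = (.inl m, rc (rc (rc (s m)))) := by
  refine ⟨?_, ?_, ?_, ?_⟩
  · unfold sπ; simp only
    rw [dif_pos ⟨hm, old2_2 _⟩, if_pos trivial]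
  · unfold sπ; simp only
    rw [dif_pos ⟨hm, old2_3 _⟩, if_neg (rc_ne0 _)]
  · unfold sπ; simp only
    rw [if_neg (by rw [old2_1]; simp), if_pos trivial]
  · unfold sπ; simp only
    rw [if_neg (by rw [old2_0]; simp), if_neg (rc_ne0 _).symm]

theorem sτ_int {m : ι} (hm : m ∈ M) :
    sτ M s t (.inl m, rc (rc (s m))) = -1 ∧
    sτ M s t (.inl m, rc (rc (rc (s m)))) = 1 ∧
    sτ M s t (.inr ⟨m, hm⟩, rc (s m)) = 1 ∧
    sτ M s t (.inr ⟨m, hm⟩, s m) = -1 := by
  refine ⟨?_, ?_, ?_, ?_⟩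
  · unfold sτ; simp only
    rw [if_pos ⟨hm, old2_2 _⟩, if_pos trivial]
  · unfold sτ; simp only
    rw [if_pos ⟨hm, old2_3 _⟩, if_neg (rc_ne0 _)]
  · unfold sτ; simp only
    rw [if_neg (by rw [old2_1]; simp), if_pos trivial]
  · unfold sτ; simp only
    rw [if_neg (by rw [old2_0]; simp), if_neg (rc_ne0 _).symm]

/-- the four internal ends -/
theorem int_cases {z : (ι ⊕ ↥M) × Dir} (h : Int M s z) : ∃ (m : ι) (hm : m ∈ M),
    z = (.inl m, rc (rc (s m))) ∨ z = (.inl m, rc (rc (rc (s m)))) ∨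
    z = (.inr ⟨m, hm⟩, rc (s m)) ∨ z = (.inr ⟨m, hm⟩, s m) := by
  obtain ⟨z, d⟩ := z
  rcases h with ⟨i, h1, h2, h3⟩ | ⟨k, h1, h3⟩
  · simp only at h1 h3
    subst h1
    refine ⟨i, h2, ?_⟩
    rcases dir4 (s i) d with rfl | rfl | rfl | rfl
    · rw [old2_0] at h3; simp at h3
    · rw [old2_1] at h3; simp at h3
    · exact Or.inl rfl
    · exact Or.inr (Or.inl rfl)
  · simp only at h1 h3
    subst h1
    refine ⟨k, k.2, ?_⟩
    rcases dir4 (s k) d with rfl | rfl | rfl | rfl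
    · exact Or.inr (Or.inr (Or.inr rfl))
    · exact Or.inr (Or.inr (Or.inl rfl))
    · rw [old2_2] at h3; simp at h3
    · rw [old2_3] at h3; simp at h3

/-- case distinction of the ends -/
theorem end_cases (z : (ι ⊕ ↥M) × Dir) : (∃ x, z = kp M s x) ∨ ∃ (m : ι) (hm : m ∈ M),
    z = (.inl m, rc (rc (s m))) ∨ z = (.inl m, rc (rc (rc (s m)))) ∨
    z = (.inr ⟨m, hm⟩, rc (s m)) ∨ z = (.inr ⟨m, hm⟩, s m) := by
  rcases old_or_int M s z with h | h
  · exact Or.inl ⟨_, h.symm⟩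
  · exact Or.inr (int_cases M s h)

variable {M s}

theorem inc_kp (p : ι → Bool) (x : ι × Dir) : inc (sp M p) (kp M s x) = inc p x := by
  unfold kp
  split_ifs <;> rfl

/-- **The split network satisfies the axioms.** -/
theorem spl_good [Fintype ι] {N : Net ι} {p : ι → Bool} (h : N.Good p) :
    (spl M s N).Good (sp M p) := by
  refine ⟨?_, ?_, ?_, ?_, ?_, ?_, ?_⟩
  · intro z
    change sπ M s N.π (sπ M s N.π z) = z
    rcases end_cases M s z with ⟨x, rfl⟩ | ⟨m, hm, rfl | rfl | rfl | rfl⟩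
    · rw [sπ_kp, sπ_kp, h.inv]
    · rw [(sπ_int M s _ hm).1, (sπ_int M s _ hm).2.2.1]
    · rw [(sπ_int M s _ hm).2.1, (sπ_int M s _ hm).2.2.2]
    · rw [(sπ_int M s _ hm).2.2.1, (sπ_int M s _ hm).1]
    · rw [(sπ_int M s _ hm).2.2.2, (sπ_int M s _ hm).2.1]
  · intro z
    change sπ M s N.π z ≠ z
    rcases end_cases M s z with ⟨x, rfl⟩ | ⟨m, hm, rfl | rfl | rfl | rfl⟩
    · rw [sπ_kp]
      exact fun e => h.ne x (kp_inj M s e)
    · rw [(sπ_int M s _ hm).1]; simp
    · rw [(sπ_int M s _ hm).2.1]; simp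
    · rw [(sπ_int M s _ hm).2.2.1]; simp
    · rw [(sπ_int M s _ hm).2.2.2]; simp
  · intro z
    change sτ M s N.t (sπ M s N.π z) = -sτ M s N.t z
    rcases end_cases M s z with ⟨x, rfl⟩ | ⟨m, hm, rfl | rfl | rfl | rfl⟩
    · rw [sπ_kp, sτ_kp, sτ_kp, h.t_neg]
    · rw [(sπ_int M s _ hm).1, (sτ_int M s _ hm).1, (sτ_int M s _ hm).2.2.1]; rfl
    · rw [(sπ_int M s _ hm).2.1, (sτ_int M s _ hm).2.1, (sτ_int M s _ hm).2.2.2]
    · rw [(sπ_int M s _ hm).2.2.1, (sτ_int M s _ hm).1, (sτ_int M s _ hm).2.2.1]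
    · rw [(sπ_int M s _ hm).2.2.2, (sτ_int M s _ hm).2.1, (sτ_int M s _ hm).2.2.2]; rfl
  · intro z
    change inc (sp M p) (sπ M s N.π z) = !inc (sp M p) z
    rcases end_cases M s z with ⟨x, rfl⟩ | ⟨m, hm, rfl | rfl | rfl | rfl⟩
    · rw [sπ_kp, inc_kp, inc_kp, h.ty]
    · rw [(sπ_int M s _ hm).1]
      unfold inc sp
      simp only
      cases s m <;> cases p m <;> rfl
    · rw [(sπ_int M s _ hm).2.1]
      unfold inc sp
      simp only
      cases s m <;> cases p m <;> rfl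
    · rw [(sπ_int M s _ hm).2.2.1]
      unfold inc sp
      simp only
      cases s m <;> cases p m <;> rfl
    · rw [(sπ_int M s _ hm).2.2.2]
      unfold inc sp
      simp only
      cases s m <;> cases p m <;> rfl
  · change inc (sp M p) (kp M s N.x0) = true
    rw [inc_kp, h.x0_in]
  · change inc (sp M p) (kp M s N.y0) = true
    rw [inc_kp, h.y0_in]
  · change kp M s N.y0 ≠ kp M s N.x0
    exact fun e => h.y0_ne (kp_inj M s e)

/-! ### Steps -/

/-- the state of the split tile -/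
def mer (M : Finset ι) (s : ι → Dir) (σ : ι ⊕ ↥M → Bool) (i : ι) : Bool :=
  if h : i ∈ M then (((σ (.inl i) == (s i).v) || (σ (.inr ⟨i, h⟩) == (s i).v)) == (s i).v)
  else σ (.inl i)

theorem mate_t (s : Dir) : s.mate (true == s.v) = rc s ∧ (rc s).mate (true == s.v) = s ∧
    (rc (rc s)).mate (true == s.v) = rc (rc (rc s)) ∧
    (rc (rc (rc s))).mate (true == s.v) = rc (rc s) := by
  cases s <;> exact ⟨rfl, rfl, rfl, rfl⟩

theorem mate_f (s : Dir) : s.mate (false == s.v) = rc (rc (rc s)) ∧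
    (rc s).mate (false == s.v) = rc (rc s) ∧ (rc (rc s)).mate (false == s.v) = rc s ∧
    (rc (rc (rc s))).mate (false == s.v) = s := by
  cases s <;> exact ⟨rfl, rfl, rfl, rfl⟩

theorem tn_t (s : Dir) : s.tn (true == s.v) = 1 ∧ (rc s).tn (true == s.v) = -1 ∧
    (rc (rc s)).tn (true == s.v) = 1 ∧ (rc (rc (rc s))).tn (true == s.v) = -1 := by
  cases s <;> exact ⟨rfl, rfl, rfl, rfl⟩

theorem tn_f (s : Dir) : s.tn (false == s.v) = -1 ∧ (rc s).tn (false == s.v) = 1 ∧
    (rc (rc s)).tn (false == s.v) = -1 ∧ (rc (rc (rc s))).tn (false == s.v) = 1 := by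
  cases s <;> exact ⟨rfl, rfl, rfl, rfl⟩

theorem beq_v (x v : Bool) : x = ((x == v) == v) := by cases x <;> cases v <;> rfl

section step

variable [Fintype ι] (N : Net ι) (σ : ι ⊕ ↥M → Bool)

/-- a path of `n` steps from `z` to `z'` with the turning `d`, whose inner ends are internal -/
structure Pt (z z' : (ι ⊕ ↥M) × Dir) (n : ℕ) (d : ℤ) : Prop where
  pos : 0 < n
  fin : ((spl M s N).step σ)^[n] z = z'
  tu : (spl M s N).KT σ z n = d
  int : ∀ i, 0 < i → i < n → Int M s (((spl M s N).step σ)^[i] z)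

theorem Pt.one {z z' : (ι ⊕ ↥M) × Dir} {d : ℤ} (h1 : (spl M s N).step σ z = z')
    (h2 : (spl M s N).dt σ z = d) : Pt (s := s) N σ z z' 1 d := by
  refine ⟨one_pos, h1, ?_, fun i h1 h2 => by omega⟩
  unfold Net.KT
  rw [Finset.sum_range_one]
  exact h2

theorem Pt.cons {z z' z'' : (ι ⊕ ↥M) × Dir} {d d' e : ℤ} {n : ℕ}
    (h1 : (spl M s N).step σ z = z') (h2 : (spl M s N).dt σ z = d) (hi : Int M s z')
    (h : Pt (s := s) N σ z' z'' n d') (he : e = d + d') : Pt (s := s) N σ z z'' (n + 1) e := by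
  subst he
  refine ⟨by omega, ?_, ?_, ?_⟩
  · rw [Function.iterate_succ_apply, h1, h.fin]
  · unfold Net.KT
    rw [Finset.sum_range_succ']
    have e : ∀ i, ((spl M s N).step σ)^[i + 1] z = ((spl M s N).step σ)^[i] z' := by
      intro i
      rw [Function.iterate_succ_apply, h1]
    simp only [e]
    have := h.tu
    unfold Net.KT at this
    rw [this]
    change d' + (spl M s N).dt σ z = d + d'
    rw [h2]
    ring
  · intro i h3 h4
    obtain ⟨k, rfl⟩ : ∃ k, i = k + 1 := ⟨i - 1, by omega⟩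
    rw [Function.iterate_succ_apply, h1]
    rcases Nat.eq_zero_or_pos k with rfl | hk
    · exact hi
    · exact h.int k hk (by omega)

theorem int_a {m : ι} (hm : m ∈ M) : Int M s (.inl m, rc (rc (s m))) :=
  Or.inl ⟨m, rfl, hm, old2_2 _⟩

theorem int_b {m : ι} (hm : m ∈ M) : Int M s (.inl m, rc (rc (rc (s m)))) :=
  Or.inl ⟨m, rfl, hm, old2_3 _⟩

theorem int_c {m : ι} (hm : m ∈ M) : Int M s (.inr ⟨m, hm⟩, rc (s m)) :=
  Or.inr ⟨_, rfl, old2_1 _⟩

theorem int_d {m : ι} (hm : m ∈ M) : Int M s (.inr ⟨m, hm⟩, s m) :=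
  Or.inr ⟨_, rfl, old2_0 _⟩

/-- **One step of the network is a path in the split network.** -/
theorem spl_step (x : ι × Dir) : ∃ n, Pt (s := s) N σ (kp M s x) (kp M s (N.step (mer M s σ) x)) n
    (N.dt (mer M s σ) x) := by
  obtain ⟨i, d⟩ := x
  by_cases hi : i ∈ M
  swap
  · -- an old tile
    have hk : ∀ d, kp M s (i, d) = (.inl i, d) := fun d => kp_of_not M s fun h => hi h.1
    have hm : mer M s σ i = σ (.inl i) := by unfold mer; rw [dif_neg hi]
    refine ⟨1, Pt.one N σ ?_ ?_⟩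
    · rw [hk]
      unfold Net.step
      simp only
      rw [hm]
      have e : ∀ z, (spl M s N).π z = sπ M s N.π z := fun _ => rfl
      rw [e, ← hk, sπ_kp]
    · rw [hk]
      unfold Net.dt
      simp only
      rw [hm]
      have e : ∀ z, (spl M s N).t z = sτ M s N.t z := fun _ => rfl
      rw [e, ← hk, sτ_kp]
  -- a split tile
  have k0 : kp M s (i, s i) = (.inl i, s i) := kp_of_not M s (by
    rintro ⟨-, h⟩; simp only [old2_0] at h; exact absurd h (by simp))
  have k1 : kp M s (i, rc (s i)) = (.inl i, rc (s i)) := kp_of_not M s (by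
    rintro ⟨-, h⟩; simp only [old2_1] at h; exact absurd h (by simp))
  have k2 : kp M s (i, rc (rc (s i))) = (.inr ⟨i, hi⟩, rc (rc (s i))) :=
    kp_of M s (x := (i, rc (rc (s i)))) hi (old2_2 _)
  have k3 : kp M s (i, rc (rc (rc (s i)))) = (.inr ⟨i, hi⟩, rc (rc (rc (s i)))) :=
    kp_of M s (x := (i, rc (rc (rc (s i))))) hi (old2_3 _)
  obtain ⟨w0, w1, w2, w3⟩ := sπ_int M s N.π hi
  obtain ⟨v0, v1, v2, v3⟩ := sτ_int M s N.t hi
  -- steps
  have stp : ∀ (z : ι ⊕ ↥M) (d : Dir), (spl M s N).step σ (z, d) = sπ M s N.π (z, d.mate (σ z)) :=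
    fun _ _ => rfl
  have stt : ∀ (z : ι ⊕ ↥M) (d : Dir), (spl M s N).dt σ (z, d) =
      d.tn (σ z) + sτ M s N.t (z, d.mate (σ z)) := fun _ _ => rfl
  have out : ∀ d, sπ M s N.π (kp M s (i, d)) = kp M s (N.π (i, d)) := fun d => sπ_kp M s _ _
  have out' : ∀ d, sτ M s N.t (kp M s (i, d)) = N.t (i, d) := fun d => sτ_kp M s _ _
  have o0 := out (s i); have o1 := out (rc (s i)); have o2 := out (rc (rc (s i)))
  have o3 := out (rc (rc (rc (s i))))
  have o0' := out' (s i); have o1' := out' (rc (s i)); have o2' := out' (rc (rc (s i)))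
  have o3' := out' (rc (rc (rc (s i))))
  rw [k0] at o0 o0'
  rw [k1] at o1 o1'
  rw [k2] at o2 o2'
  rw [k3] at o3 o3'
  obtain ⟨mt0, mt1, mt2, mt3⟩ := mate_t (s i)
  obtain ⟨mf0, mf1, mf2, mf3⟩ := mate_f (s i)
  obtain ⟨tt0, tt1, tt2, tt3⟩ := tn_t (s i)
  obtain ⟨tf0, tf1, tf2, tf3⟩ := tn_f (s i)
  have hs : ∀ d, N.step (mer M s σ) (i, d) = N.π (i, d.mate (mer M s σ i)) := fun _ => rfl
  have hd : ∀ d, N.dt (mer M s σ) (i, d) = d.tn (mer M s σ i) + N.t (i, d.mate (mer M s σ i)) :=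
    fun _ => rfl
  have hm : mer M s σ i = (((σ (.inl i) == (s i).v) || (σ (.inr ⟨i, hi⟩) == (s i).v)) == (s i).v) := by
    unfold mer; rw [dif_pos hi]
  rw [hs, hd, hm]
  have hp := beq_v (σ (.inl i)) (s i).v
  have hq := beq_v (σ (.inr ⟨i, hi⟩)) (s i).v
  generalize (σ (.inl i) == (s i).v) = cp at hp hm ⊢
  generalize (σ (.inr ⟨i, hi⟩) == (s i).v) = cq at hq hm ⊢
  have ia := int_a (s := s) hi
  have ib := int_b (s := s) hi
  have ic := int_c (s := s) hi
  have id' := int_d (s := s) hi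
  rcases dir4 (s i) d with rfl | rfl | rfl | rfl
  · rw [k0]
    cases cp
    · -- p false
      have e1 : (spl M s N).step σ (.inl i, s i) = (.inr ⟨i, hi⟩, s i) := by
        rw [stp, hp, mf0, w1]
      have d1 : (spl M s N).dt σ (.inl i, s i) = 0 := by
        rw [stt, hp, mf0, tf0, v1]; rfl
      cases cq
      · simp only [Bool.or_self]
        rw [mf0, tf0]
        refine ⟨_, Pt.cons N σ e1 d1 id' (Pt.one N σ (z' := kp M s (N.π (i, rc (rc (rc (s i))))))
          (d := -1 + N.t (i, rc (rc (rc (s i))))) ?_ ?_) (by ring)⟩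
        · rw [stp, hq, mf0, o3]
        · rw [stt, hq, mf0, tf0, o3']
      · simp only [Bool.or_true]
        rw [mt0, tt0]
        refine ⟨_, Pt.cons N σ e1 d1 id' (Pt.cons N σ (z' := (.inl i, rc (rc (s i))))
          (d := 2) ?_ ?_ ia (Pt.one N σ (z' := kp M s (N.π (i, rc (s i))))
          (d := -1 + N.t (i, rc (s i))) ?_ ?_) rfl) (by ring)⟩
        · rw [stp, hq, mt0, w2]
        · rw [stt, hq, mt0, tt0, v2]; rfl
        · rw [stp, hp, mf2, o1]
        · rw [stt, hp, mf2, tf2, o1']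
    · simp only [Bool.true_or]
      rw [mt0, tt0]
      refine ⟨_, Pt.one N σ ?_ ?_⟩
      · rw [stp, hp, mt0, o1]
      · rw [stt, hp, mt0, tt0, o1']
  · rw [k1]
    cases cp
    · have e1 : (spl M s N).step σ (.inl i, rc (s i)) = (.inr ⟨i, hi⟩, rc (s i)) := by
        rw [stp, hp, mf1, w0]
      have d1 : (spl M s N).dt σ (.inl i, rc (s i)) = 0 := by
        rw [stt, hp, mf1, tf1, v0]; rfl
      cases cq
      · simp only [Bool.or_self]
        rw [mf1, tf1]
        refine ⟨_, Pt.cons N σ e1 d1 ic (Pt.one N σ (z' := kp M s (N.π (i, rc (rc (s i)))))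
          (d := 1 + N.t (i, rc (rc (s i)))) ?_ ?_) (by ring)⟩
        · rw [stp, hq, mf1, o2]
        · rw [stt, hq, mf1, tf1, o2']
      · simp only [Bool.or_true]
        rw [mt1, tt1]
        refine ⟨_, Pt.cons N σ e1 d1 ic (Pt.cons N σ (z' := (.inl i, rc (rc (rc (s i)))))
          (d := -2) ?_ ?_ ib (Pt.one N σ (z' := kp M s (N.π (i, s i)))
          (d := 1 + N.t (i, s i)) ?_ ?_) rfl) (by ring)⟩
        · rw [stp, hq, mt1, w3]
        · rw [stt, hq, mt1, tt1, v3]; rfl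
        · rw [stp, hp, mf3, o0]
        · rw [stt, hp, mf3, tf3, o0']
    · simp only [Bool.true_or]
      rw [mt1, tt1]
      refine ⟨_, Pt.one N σ ?_ ?_⟩
      · rw [stp, hp, mt1, o0]
      · rw [stt, hp, mt1, tt1, o0']
  · rw [k2]
    cases cq
    · have e1 : (spl M s N).step σ (.inr ⟨i, hi⟩, rc (rc (s i))) = (.inl i, rc (rc (s i))) := by
        rw [stp, hq, mf2, w2]
      have d1 : (spl M s N).dt σ (.inr ⟨i, hi⟩, rc (rc (s i))) = 0 := by
        rw [stt, hq, mf2, tf2, v2]; rfl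
      cases cp
      · simp only [Bool.or_self]
        rw [mf2, tf2]
        refine ⟨_, Pt.cons N σ e1 d1 ia (Pt.one N σ (z' := kp M s (N.π (i, rc (s i))))
          (d := -1 + N.t (i, rc (s i))) ?_ ?_) (by ring)⟩
        · rw [stp, hp, mf2, o1]
        · rw [stt, hp, mf2, tf2, o1']
      · simp only [Bool.true_or]
        rw [mt2, tt2]
        refine ⟨_, Pt.cons N σ e1 d1 ia (Pt.cons N σ (z' := (.inr ⟨i, hi⟩, s i))
          (d := 2) ?_ ?_ id' (Pt.one N σ (z' := kp M s (N.π (i, rc (rc (rc (s i))))))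
          (d := -1 + N.t (i, rc (rc (rc (s i))))) ?_ ?_) rfl) (by ring)⟩
        · rw [stp, hp, mt2, w1]
        · rw [stt, hp, mt2, tt2, v1]; rfl
        · rw [stp, hq, mf0, o3]
        · rw [stt, hq, mf0, tf0, o3']
    · simp only [Bool.or_true]
      rw [mt2, tt2]
      refine ⟨_, Pt.one N σ ?_ ?_⟩
      · rw [stp, hq, mt2, o3]
      · rw [stt, hq, mt2, tt2, o3']
  · rw [k3]
    cases cq
    · have e1 : (spl M s N).step σ (.inr ⟨i, hi⟩, rc (rc (rc (s i)))) =
          (.inl i, rc (rc (rc (s i)))) := by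
        rw [stp, hq, mf3, w3]
      have d1 : (spl M s N).dt σ (.inr ⟨i, hi⟩, rc (rc (rc (s i)))) = 0 := by
        rw [stt, hq, mf3, tf3, v3]; rfl
      cases cp
      · simp only [Bool.or_self]
        rw [mf3, tf3]
        refine ⟨_, Pt.cons N σ e1 d1 ib (Pt.one N σ (z' := kp M s (N.π (i, s i)))
          (d := 1 + N.t (i, s i)) ?_ ?_) (by ring)⟩
        · rw [stp, hp, mf3, o0]
        · rw [stt, hp, mf3, tf3, o0']
      · simp only [Bool.true_or]
        rw [mt3, tt3]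
        refine ⟨_, Pt.cons N σ e1 d1 ib (Pt.cons N σ (z' := (.inr ⟨i, hi⟩, rc (s i)))
          (d := -2) ?_ ?_ ic (Pt.one N σ (z' := kp M s (N.π (i, rc (rc (s i)))))
          (d := 1 + N.t (i, rc (rc (s i)))) ?_ ?_) rfl) (by ring)⟩
        · rw [stp, hp, mt3, w0]
        · rw [stt, hp, mt3, tt3, v0]; rfl
        · rw [stp, hq, mf1, o2]
        · rw [stt, hq, mf1, tf1, o2']
    · simp only [Bool.or_true]
      rw [mt3, tt3]
      refine ⟨_, Pt.one N σ ?_ ?_⟩
      · rw [stp, hq, mt3, o2]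
      · rw [stt, hq, mt3, tt3, o2']

end step

end split

end Pool.Agent.H64.Win
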