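import Pool.Agent.H64.Win.Split

/-!
# The state sum of a split network
-/

namespace Pool.Agent.H64.Win

open Pool.Agent.H64.Q1 Pool.Agent.H81.G1 Finset

/-! ### Amplitudes -/

section amp

variable {ι : Type*} [Fintype ι] [DecidableEq ι] {N : Net ι} {σ : ι → Bool}

theorem amp_hit {k : ℕ} (hk : k < N.ln σ N.x0) (h : (N.step σ)^[k] N.x0 = N.y0) :
    N.amp σ = zt ^ (-2 * N.KT σ N.x0 k) := by
  unfold Net.amp
  rw [Finset.sum_eq_single k]
  · rw [if_pos h]
  · intro i hi hne
    rw [if_neg]
    intro h'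
    exact hne (Function.iterate_injOn_Iio_minimalPeriod (Set.mem_Iio.2 (mem_range.1 hi))
      (Set.mem_Iio.2 hk) (h'.trans h.symm))
  · intro h'; exact absurd (mem_range.2 hk) h'

theorem amp_miss (h : ∀ k < N.ln σ N.x0, (N.step σ)^[k] N.x0 ≠ N.y0) : N.amp σ = 0 := by
  unfold Net.amp
  apply Finset.sum_eq_zero
  intro i hi
  rw [if_neg (h i (mem_range.1 hi))]

end amp

section

variable {ι : Type*} [Fintype ι] [DecidableEq ι] {M : Finset ι} {s : ι → Dir}

/-- **The amplitude of a state of the split network.** -/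
theorem spl_amp {N : Net ι} {p : ι → Bool} (hN : N.Good p) (σ : ι ⊕ ↥M → Bool) :
    (spl M s N).amp σ = N.amp (mer M s σ) := by
  classical
  set f := N.step (mer M s σ) with hf
  set g := (spl M s N).step σ with hg
  choose n hn using spl_step (s := s) N σ
  -- times
  let T : ℕ → ℕ := fun k => ∑ i ∈ range k, n (f^[i] N.x0)
  have T0 : T 0 = 0 := rfl
  have T1 : ∀ k, T (k + 1) = T k + n (f^[k] N.x0) := fun k => Finset.sum_range_succ _ _
  have Tp : ∀ k, T k < T (k + 1) := fun k => by
    have := (hn (f^[k] N.x0)).pos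
    rw [T1]; omega
  have Tm : StrictMono T := strictMono_nat_of_lt_succ Tp
  have gT : ∀ k, g^[T k] (kp M s N.x0) = kp M s (f^[k] N.x0) := by
    intro k
    induction k with
    | zero => rfl
    | succ k ih =>
      rw [T1, Nat.add_comm, Function.iterate_add_apply, ih, (hn (f^[k] N.x0)).fin,
        Function.iterate_succ_apply']
  have KTadd : ∀ z a b, (spl M s N).KT σ z (a + b) =
      (spl M s N).KT σ z a + (spl M s N).KT σ (g^[a] z) b := by
    intro z a b
    unfold Net.KT
    rw [Finset.sum_range_add]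
    congr 1
    refine Finset.sum_congr rfl fun i _ => ?_
    rw [← Function.iterate_add_apply, Nat.add_comm i a]
  have KT : ∀ k, (spl M s N).KT σ (kp M s N.x0) (T k) = N.KT (mer M s σ) N.x0 k := by
    intro k
    induction k with
    | zero => rfl
    | succ k ih =>
      rw [T1, KTadd, ih, gT, (hn (f^[k] N.x0)).tu]
      unfold Net.KT
      rw [Finset.sum_range_succ]
  have mid : ∀ k i, T k < i → i < T (k + 1) → Int M s (g^[i] (kp M s N.x0)) := by
    intro k i h1 h2
    rw [T1] at h2
    obtain ⟨j, rfl⟩ : ∃ j, i = j + T k := ⟨i - T k, by omega⟩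
    rw [Function.iterate_add_apply, gT]
    exact (hn (f^[k] N.x0)).int j (by omega) (by omega)
  have loc : ∀ K i, i < T K → ∃ k < K, T k = i ∨ (T k < i ∧ i < T (k + 1)) := by
    intro K
    induction K with
    | zero => intro i hi; rw [T0] at hi; omega
    | succ K ih =>
      intro i hi
      rcases Nat.lt_or_ge i (T K) with h | h
      · obtain ⟨k, hk, h'⟩ := ih i h
        exact ⟨k, by omega, h'⟩
      · refine ⟨K, by omega, ?_⟩
        rcases Nat.eq_or_lt_of_le h with h | h
        · exact Or.inl h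
        · exact Or.inr ⟨h, hi⟩
  have hK := ln_pos hN (mer M s σ) hN.x0_in
  set K := N.ln (mer M s σ) N.x0 with hKd
  have hfK : f^[K] N.x0 = N.x0 := Function.isPeriodicPt_minimalPeriod f N.x0
  -- the visited ends
  have vis : ∀ i < T K, ∀ y, g^[i] (kp M s N.x0) = kp M s y → ∃ k < K, T k = i ∧ f^[k] N.x0 = y := by
    intro i hi y hy
    obtain ⟨k, hk, h | ⟨h1, h2⟩⟩ := loc K i hi
    · refine ⟨k, hk, h, ?_⟩
      rw [← h, gT] at hy
      exact kp_inj M s hy
    · exact absurd hy (int_ne_kp M s (mid k i h1 h2) y)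
  have hTK : 0 < T K := by
    have := Tm hK
    rwa [T0] at this
  have hper : g^[T K] (kp M s N.x0) = kp M s N.x0 := by rw [gT, hfK]
  have hln : (spl M s N).ln σ (spl M s N).x0 = T K := by
    change Function.minimalPeriod g (kp M s N.x0) = T K
    have h1 : Function.minimalPeriod g (kp M s N.x0) ≤ T K :=
      Function.IsPeriodicPt.minimalPeriod_le hTK hper
    have h2 : 0 < Function.minimalPeriod g (kp M s N.x0) :=
      Function.IsPeriodicPt.minimalPeriod_pos hTK hper
    rcases Nat.eq_or_lt_of_le h1 with h | h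
    · exact h
    · exfalso
      have h3 : g^[Function.minimalPeriod g (kp M s N.x0)] (kp M s N.x0) = kp M s N.x0 :=
        Function.isPeriodicPt_minimalPeriod _ _
      obtain ⟨k, hk, h4, h5⟩ := vis _ h _ h3
      have hk0 : 0 < k := by
        rcases Nat.eq_zero_or_pos k with rfl | hk0
        · rw [T0] at h4; omega
        · exact hk0
      have := Function.IsPeriodicPt.minimalPeriod_le hk0 h5
      have : K ≤ k := this
      omega
  by_cases hex : ∃ k < K, f^[k] N.x0 = N.y0
  · obtain ⟨k, hk, hky⟩ := hex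
    rw [amp_hit hk hky]
    have h1 : g^[T k] (kp M s N.x0) = kp M s N.y0 := by rw [gT, hky]
    have h2 := amp_hit (N := spl M s N) (σ := σ) (k := T k) (by rw [hln]; exact Tm hk) h1
    rw [h2]
    congr 1
    change -2 * (spl M s N).KT σ (kp M s N.x0) (T k) = _
    rw [KT]
  · push Not at hex
    rw [amp_miss hex]
    apply amp_miss
    intro i hi h
    rw [hln] at hi
    obtain ⟨k, hk, -, h5⟩ := vis i hi _ h
    exact hex k hk h5

end

/-! ### Sums -/

section sums

variable {ι : Type*} [Fintype ι] [DecidableEq ι]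

/-- the image of a product weight under a map of the coordinates -/
theorem push {A B : Type*} [Fintype A] [Fintype B] [DecidableEq B] (φ : ι → A → B)
    (h : ι → A → ℂ) (F : (ι → B) → ℂ) :
    ∑ x : ι → A, (∏ i, h i (x i)) * F (fun i => φ i (x i)) =
      ∑ y : ι → B, (∏ i, ∑ a ∈ univ.filter (fun a => φ i a = y i), h i a) * F y := by
  have e1 : ∀ y : ι → B, (∏ i, ∑ a ∈ univ.filter (fun a => φ i a = y i), h i a) * F y =
      ∑ x : ι → A, if (fun i => φ i (x i)) = y then (∏ i, h i (x i)) * F y else 0 := by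
    intro y
    rw [Finset.prod_univ_sum, Finset.sum_mul, ← Finset.sum_filter]
    refine Finset.sum_congr ?_ fun _ _ => rfl
    ext x
    simp only [Fintype.mem_piFinset, mem_filter, mem_univ, true_and, funext_iff]
  rw [Finset.sum_congr rfl fun y _ => e1 y, Finset.sum_comm]
  refine Finset.sum_congr rfl fun x _ => ?_
  rw [Finset.sum_ite_eq]
  simp

/-- coordinates with a fixed value -/
theorem ext_sum (M : Finset ι) (g : ↥M → Bool → ℂ) (G : (↥M → Bool) → ℂ) :
    ∑ τ : ↥M → Bool, (∏ k, g k (τ k)) * G τ =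
      ∑ τ : ι → Bool, (∏ i, if h : i ∈ M then g ⟨i, h⟩ (τ i) else (if τ i then 0 else 1)) *
        G (fun k => τ k) := by
  rw [← (Equiv.piEquivPiSubtypeProd (fun i => i ∈ M) (fun _ => Bool)).symm.sum_comp,
    Fintype.sum_prod_type]
  refine Finset.sum_congr rfl fun τ _ => ?_
  have e1 : ∀ τ' : {i // i ∉ M} → Bool, (∏ i, if h : i ∈ M then g ⟨i, h⟩
      ((Equiv.piEquivPiSubtypeProd (fun i => i ∈ M) (fun _ => Bool)).symm (τ, τ') i) else
      (if (Equiv.piEquivPiSubtypeProd (fun i => i ∈ M) (fun _ => Bool)).symm (τ, τ') i then 0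
        else 1)) = (∏ k, g k (τ k)) * ∏ k, (if τ' k then (0 : ℂ) else 1) := by
    intro τ'
    rw [← Fintype.prod_subtype_mul_prod_subtype (fun i => i ∈ M)]
    congr 1
    · refine Finset.prod_congr (by ext; simp) fun k _ => ?_
      rw [dif_pos k.2]
      simp [Equiv.piEquivPiSubtypeProd]
    · refine Finset.prod_congr rfl fun k _ => ?_
      rw [dif_neg k.2]
      simp [Equiv.piEquivPiSubtypeProd, k.2]
  have e2 : ∀ τ' : {i // i ∉ M} → Bool, (fun k : ↥M =>
      (Equiv.piEquivPiSubtypeProd (fun i => i ∈ M) (fun _ => Bool)).symm (τ, τ') k) = τ := by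
    intro τ'
    funext k
    simp [Equiv.piEquivPiSubtypeProd]
  simp only [e1, e2]
  rw [← Finset.sum_mul, ← Finset.mul_sum]
  have e3 : ∑ τ' : {i // i ∉ M} → Bool, ∏ k, (if τ' k then (0 : ℂ) else 1) = 1 := by
    have h := Finset.prod_univ_sum (t := fun _ : {i // i ∉ M} => (Finset.univ : Finset Bool))
      (f := fun _ b => if b then (0 : ℂ) else 1)
    rw [Fintype.piFinset_univ] at h
    rw [← h]
    apply Finset.prod_eq_one
    intro i _
    rw [Fintype.sum_bool]
    simp
  rw [e3, mul_one]

variable {M : Finset ι} {s : ι → Dir}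

/-- **The weights of the split network.** -/
structure SW (M : Finset ι) (s : ι → Dir) (a b : ι → ℂ) (a' b' : ι ⊕ ↥M → ℂ) : Prop where
  ab : ∀ i, a i + b i = 1
  ab' : ∀ i, a' i + b' i = 1
  o : ∀ i, i ∉ M → a i = a' (.inl i)
  m : ∀ m (hm : m ∈ M), (if (s m).v then a m else b m) =
    (if (s m).v then a' (.inl m) else b' (.inl m)) *
      (if (s m).v then a' (.inr ⟨m, hm⟩) else b' (.inr ⟨m, hm⟩))

theorem sum_mer {a b : ι → ℂ} {a' b' : ι ⊕ ↥M → ℂ} (H : SW M s a b a' b') (F : (ι → Bool) → ℂ) :
    ∑ σ : ι ⊕ ↥M → Bool, (∏ z, if σ z then b' z else a' z) * F (mer M s σ) =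
      ∑ σ : ι → Bool, (∏ i, if σ i then b i else a i) * F σ := by
  rw [← (Equiv.sumArrowEquivProdArrow ι ↥M Bool).symm.sum_comp, Fintype.sum_prod_type]
  have e1 : ∀ σ : ι → Bool, ∑ τ : ↥M → Bool,
      (∏ z, if (Equiv.sumArrowEquivProdArrow ι ↥M Bool).symm (σ, τ) z then b' z else a' z) *
        F (mer M s ((Equiv.sumArrowEquivProdArrow ι ↥M Bool).symm (σ, τ))) =
      ∑ τ : ι → Bool, (∏ i, (if σ i then b' (.inl i) else a' (.inl i)) *
        (if h : i ∈ M then (if τ i then b' (.inr ⟨i, h⟩) else a' (.inr ⟨i, h⟩)) else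
          (if τ i then 0 else 1))) *
        F (fun i => if i ∈ M then (((σ i == (s i).v) || (τ i == (s i).v)) == (s i).v) else σ i) := by
    intro σ
    have h1 := ext_sum M (fun k y => if y then b' (.inr k) else a' (.inr k))
      (fun τ => F (mer M s ((Equiv.sumArrowEquivProdArrow ι ↥M Bool).symm (σ, τ))))
    have h2 : ∀ τ : ↥M → Bool,
        (∏ z, if (Equiv.sumArrowEquivProdArrow ι ↥M Bool).symm (σ, τ) z then b' z else a' z) =
        (∏ i, if σ i then b' (.inl i) else a' (.inl i)) *
          ∏ k, if τ k then b' (.inr k) else a' (.inr k) := by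
      intro τ
      rw [Fintype.prod_sum_type]
      rfl
    simp only [h2]
    simp only [mul_assoc]
    rw [← Finset.mul_sum, h1, Finset.mul_sum]
    refine Finset.sum_congr rfl fun τ _ => ?_
    rw [Finset.prod_mul_distrib, mul_assoc]
    congr 3
  rw [Finset.sum_congr rfl fun σ _ => e1 σ]
  -- pairs
  have h3 := push (ι := ι) (A := Bool × Bool) (B := Bool)
    (fun i x => if i ∈ M then (((x.1 == (s i).v) || (x.2 == (s i).v)) == (s i).v) else x.1)
    (fun i x => (if x.1 then b' (.inl i) else a' (.inl i)) *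
        (if h : i ∈ M then (if x.2 then b' (.inr ⟨i, h⟩) else a' (.inr ⟨i, h⟩)) else
          (if x.2 then 0 else 1))) F
  rw [← (Equiv.arrowProdEquivProdArrow ι (fun _ => Bool) (fun _ => Bool)).symm.sum_comp,
    Fintype.sum_prod_type] at h3
  refine Eq.trans ?_ (h3.trans ?_)
  · rfl
  · refine Finset.sum_congr rfl fun y _ => ?_
    congr 1
    refine Finset.prod_congr rfl fun i _ => ?_
    rw [Finset.sum_filter, Fintype.sum_prod_type]
    simp only [Fintype.sum_bool]
    by_cases hi : i ∈ M
    · simp only [if_pos hi, dif_pos hi]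
      have h4 := H.m i hi
      have h5 := H.ab i
      have h6 := H.ab' (.inl i)
      have h7 := H.ab' (.inr ⟨i, hi⟩)
      have h5' : a i = 1 - b i := by linear_combination h5
      have h6' : a' (.inl i) = 1 - b' (.inl i) := by linear_combination h6
      have h7' : a' (.inr ⟨i, hi⟩) = 1 - b' (.inr ⟨i, hi⟩) := by linear_combination h7
      rw [h5', h6', h7'] at h4
      rw [h5', h6', h7']
      cases h8 : (s i).v <;> rw [h8] at h4 <;> cases y i <;> simp at h4 ⊢ <;>
        first | linear_combination h4 | linear_combination -h4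
    · simp only [if_neg hi, dif_neg hi]
      have h4 := H.o i hi
      have h5 := H.ab i
      have h6 := H.ab' (.inl i)
      have h7 : b i = b' (.inl i) := by linear_combination h5 - h6 - h4
      rw [h4, h7]
      cases y i <;> simp

/-- **The state sum of the split network.** -/
theorem spl_Z {N : Net ι} {p : ι → Bool} (hN : N.Good p) {a b : ι → ℂ} {a' b' : ι ⊕ ↥M → ℂ}
    (H : SW M s a b a' b') : (spl M s N).Z a' b' = N.Z a b := by
  unfold Net.Z
  rw [← sum_mer H (fun σ => N.amp σ)]
  refine Finset.sum_congr rfl fun σ _ => ?_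
  rw [spl_amp hN]

end sums

end Pool.Agent.H64.Win
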