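import Pool.Agent.H64.Win.Comp
import Pool.Agent.H93.Sp.Net

/-!
# The environments `X_j` and `X_(j+1)` of a window differ in a strip
-/

namespace Pool.Agent.H64.Win

open Pool.Agent.H64.Q1 hiding Tl
open Pool.Agent.H81.G1 Pool.Agent.Q1 Pool.Agent.H33.Q1
open Pool.Agent.H75.Perc Pool.Agent.H75.TwoArm
open Pool.Agent.H74.R45 hiding Tl Out mem_EJ EJ WJ XJ
open Pool.Agent.H46.Sp
open Pool.Agent.H46.Sp.Win
open Finset

variable {D : Pool.Agent.H46.Sp.Win} (O : Out D) {j x y : ℤ}

/-! ### States of the single tiles -/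

/-- the state -/
noncomputable abbrev σJ (O : Out D) (j : ℤ) : State := sto (D.EJ j) (D.WJ j O.Wo)

theorem σJ_none : σJ O j (x, y) = none ↔ D.InE j x y := by
  rw [sto_none, mem_EJ]

theorem σJ_some {s : Bool} : σJ O j (x, y) = some s ↔ ¬ D.InE j x y ∧
    s = (decide (lt (x, y) ∈ D.WJ j O.Wo) == decide ((x + y) % 2 = 1)) := by
  rw [sto_some, mem_EJ]

/-- natural state -/
def nat (c : Bool) (x y : ℤ) : Bool := c == decide ((x + y) % 2 = 1)

theorem sL_B (h0 : -1 ≤ y) (h1 : y < D.h) (h : D.LB j y) :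
    σJ O j (D.m y - 1, y) = some true := by
  rw [σJ_some]
  have k := col_l (D := D) (j := j) (y := y)
  refine ⟨?_, ?_⟩
  · rw [InE_l h0 h1]
    intro h2
    rcases h2 with h2 | h2
    · exact (k.1 h2).2.1 h
    · exact (k.2.1 h2).1 h
  · have e : lt (D.m y - 1, y) ∈ D.WJ j O.Wo ↔ (D.m y - 1 + y) % 2 = 1 := by
      rw [mem_WJ_l O h0 h1]
      have := k.2.2.1 h
      tauto
    rw [show decide (lt (D.m y - 1, y) ∈ D.WJ j O.Wo) = decide ((D.m y - 1 + y) % 2 = 1) from
      decide_eq_decide.2 e]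
    simp

theorem sL_A (h0 : -1 ≤ y) (h1 : y < D.h) (h : D.LA j y) :
    σJ O j (D.m y - 1, y) = some false := by
  rw [σJ_some]
  have k := col_l (D := D) (j := j) (y := y)
  refine ⟨?_, ?_⟩
  · rw [InE_l h0 h1]
    intro h2
    rcases h2 with h2 | h2
    · exact (k.1 h2).2.2.1 h
    · exact (k.2.1 h2).2.1 h
  · have hB : ¬ D.LB j y := fun h2 => (k.2.2.1 h2).1 h
    have hO := k.2.2.2 h
    have e : lt (D.m y - 1, y) ∈ D.WJ j O.Wo ↔ (D.m y - 1 + y) % 2 = 0 := by
      rw [mem_WJ_l O h0 h1]
      tauto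
    rw [show decide (lt (D.m y - 1, y) ∈ D.WJ j O.Wo) = decide ((D.m y - 1 + y) % 2 = 0) from
      decide_eq_decide.2 e]
    rcases Int.emod_two_eq_zero_or_one (D.m y - 1 + y) with h2 | h2 <;> simp [h2]

theorem sL_O (h0 : -1 ≤ y) (h1 : y < D.h) (h : D.LO j y) :
    σJ O j (D.m y - 1, y) = some (nat (D.cl y) (D.m y - 1) y) := by
  rw [σJ_some]
  have k := col_l (D := D) (j := j) (y := y)
  refine ⟨?_, ?_⟩
  · rw [InE_l h0 h1]
    intro h2
    rcases h2 with h2 | h2
    · exact (k.1 h2).2.2.2 h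
    · exact (k.2.1 h2).2.2 h
  · have hB : ¬ D.LB j y := fun h2 => (k.2.2.1 h2).2 h
    have hA : ¬ D.LA j y := fun h2 => (k.2.2.2 h2) h
    have e : lt (D.m y - 1, y) ∈ D.WJ j O.Wo ↔ D.cl y = true := by
      rw [mem_WJ_l O h0 h1]
      tauto
    unfold nat
    simp only [e, Bool.decide_eq_true]

/-- the exterior to the left -/
theorem sL_X (h0 : -1 ≤ y) (h1 : y < D.h) (h2 : x + 2 ≤ D.m y) (h3 : D.a (D.yP - 1) ≤ x + 2) :
    σJ O j (x, y) = some (nat (D.cl y) x y) := by
  rw [σJ_some]
  refine ⟨not_InE (by omega), ?_⟩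
  unfold nat
  simp only [mem_WJ_l2 O h0 h1 h2 h3, Bool.decide_eq_true]

theorem sR_B (hj : 0 ≤ j) (h0 : -1 ≤ y) (h1 : y < D.h) (h : D.RB j y) :
    σJ O j (D.M y, y) = some true := by
  rw [σJ_some]
  have k := col_r (D := D) (j := j) (y := y) hj
  refine ⟨?_, ?_⟩
  · rw [InE_r h0 h1]
    intro h2
    rcases h2 with h2 | h2
    · exact (k.1 h2).2.1 h
    · exact (k.2.1 h2).1 h
  · have e : lt (D.M y, y) ∈ D.WJ j O.Wo ↔ (D.M y + y) % 2 = 1 := by
      rw [mem_WJ_r O h0 h1]
      have := k.2.2.1 h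
      tauto
    rw [show decide (lt (D.M y, y) ∈ D.WJ j O.Wo) = decide ((D.M y + y) % 2 = 1) from
      decide_eq_decide.2 e]
    simp

theorem sR_A (hj : 0 ≤ j) (h0 : -1 ≤ y) (h1 : y < D.h) (h : D.RA j y) :
    σJ O j (D.M y, y) = some false := by
  rw [σJ_some]
  have k := col_r (D := D) (j := j) (y := y) hj
  refine ⟨?_, ?_⟩
  · rw [InE_r h0 h1]
    intro h2
    rcases h2 with h2 | h2
    · exact (k.1 h2).2.2.1 h
    · exact (k.2.1 h2).2.1 h
  · have hB : ¬ D.RB j y := fun h2 => (k.2.2.1 h2).1 h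
    have hO := k.2.2.2 h
    have e : lt (D.M y, y) ∈ D.WJ j O.Wo ↔ (D.M y + y) % 2 = 0 := by
      rw [mem_WJ_r O h0 h1]
      tauto
    rw [show decide (lt (D.M y, y) ∈ D.WJ j O.Wo) = decide ((D.M y + y) % 2 = 0) from
      decide_eq_decide.2 e]
    rcases Int.emod_two_eq_zero_or_one (D.M y + y) with h2 | h2 <;> simp [h2]

theorem sR_O (hj : 0 ≤ j) (h0 : -1 ≤ y) (h1 : y < D.h) (h : D.RO j y) :
    σJ O j (D.M y, y) = some (nat (D.cr y) (D.M y) y) := by
  rw [σJ_some]
  have k := col_r (D := D) (j := j) (y := y) hj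
  refine ⟨?_, ?_⟩
  · rw [InE_r h0 h1]
    intro h2
    rcases h2 with h2 | h2
    · exact (k.1 h2).2.2.2 h
    · exact (k.2.1 h2).2.2 h
  · have hB : ¬ D.RB j y := fun h2 => (k.2.2.1 h2).2 h
    have hA : ¬ D.RA j y := fun h2 => (k.2.2.2 h2) h
    have e : lt (D.M y, y) ∈ D.WJ j O.Wo ↔ D.cr y = true := by
      rw [mem_WJ_r O h0 h1]
      tauto
    unfold nat
    simp only [e, Bool.decide_eq_true]

theorem sR_X (h0 : -1 ≤ y) (h1 : y < D.h) (h2 : D.M y + 1 ≤ x) (h3 : x ≤ D.b D.yQ + 1) :
    σJ O j (x, y) = some (nat (D.cr y) x y) := by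
  rw [σJ_some]
  refine ⟨not_InE (by omega), ?_⟩
  unfold nat
  simp only [mem_WJ_r2 O h0 h1 h2 h3, Bool.decide_eq_true]

/-- neighbouring tiles of the same colour have different states -/
theorem nat_ne {c : Bool} {x y x' y' : ℤ} (h : (x + y) % 2 ≠ (x' + y') % 2) :
    nat c x y = !nat c x' y' := by
  unfold nat
  rcases Int.emod_two_eq_zero_or_one (x + y) with h1 | h1
  · have h2 : (x' + y') % 2 = 1 := by omega
    rw [h1, h2]; cases c <;> rfl
  · have h2 : (x' + y') % 2 = 0 := by omega
    rw [h1, h2]; cases c <;> rfl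

theorem nat_eq {c : Bool} {x y x' y' : ℤ} (h : (x + y) % 2 = (x' + y') % 2) :
    nat c x y = nat c x' y' := by
  unfold nat
  rw [h]

/-! ### Flags -/

/-- the line goes towards S at the left end -/
def fS (D : Pool.Agent.H46.Sp.Win) (j : ℤ) : Bool := decide (j < D.yP)

/-- reflex corner at the left end -/
def fL (D : Pool.Agent.H46.Sp.Win) (j : ℤ) : Bool :=
  if j < D.yP then decide (j + 1 < D.yP ∧ D.a (j + 1) < D.a j) else decide (D.a (j - 1) < D.a j)

/-- the line goes towards N at the right end -/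
def fN (D : Pool.Agent.H46.Sp.Win) (j : ℤ) : Bool := decide (j < D.yQ)

/-- reflex corner at the right end -/
def fR (D : Pool.Agent.H46.Sp.Win) (j : ℤ) : Bool :=
  if j < D.yQ then decide (D.b j < D.b (j + 1)) else decide (D.yQ < j ∧ D.b j < D.b (j - 1))

/-- the tile behind the corner changes, left -/
def gL (D : Pool.Agent.H46.Sp.Win) (j : ℤ) : Bool :=
  !fL D j && (if j < D.yP then !nat (D.cl (j - 1)) (D.a j - 1) (j - 1) else
    nat (D.cl j) (D.a j - 1) j)

/-- the tile behind the corner changes, right -/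
def gR (D : Pool.Agent.H46.Sp.Win) (j : ℤ) : Bool :=
  !fR D j && (if j < D.yQ then nat (D.cr (j - 1)) (D.b j) (j - 1) else
    !nat (D.cr j) (D.b j) j)

/-- geometry at the left end -/
theorem geoL (h0 : 0 ≤ j) (h1 : j < D.h) :
    (j < D.yP → D.m (j - 1) = D.a j ∧
      (j + 1 < D.yP ∧ D.a (j + 1) < D.a j ∧ D.m j = D.a (j + 1) ∨
        ¬ (j + 1 < D.yP ∧ D.a (j + 1) < D.a j) ∧ D.m j = D.a j)) ∧
    (D.yP ≤ j → D.m j = D.a j ∧ D.m (j - 1) = D.a (j - 1) ∧
      (D.a (j - 1) < D.a j ∨ D.yP < j ∧ D.a (j - 1) = D.a j)) := by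
  have hP := D.P0
  constructor
  · intro h
    refine ⟨by rw [m_lo (by omega), sub_add_cancel], ?_⟩
    by_cases c : j + 1 < D.yP ∧ D.a (j + 1) < D.a j
    · exact Or.inl ⟨c.1, c.2, m_lo c.1⟩
    · refine Or.inr ⟨c, ?_⟩
      by_cases c2 : j + 1 < D.yP
      · rw [m_lo c2]
        have := D.aL j h0 c2
        omega
      · exact m_hi (by omega)
  · intro h
    refine ⟨m_hi (by omega), m_hi (by omega), ?_⟩
    rcases lt_or_ge (D.a (j - 1)) (D.a j) with c | c
    · exact Or.inl c
    · right
      rcases eq_or_lt_of_le h with h2 | h2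
      · subst h2
        have := D.aP h1
        omega
      · have := D.aU (j - 1) (by omega) (by omega)
        rw [sub_add_cancel] at this
        exact ⟨h2, by omega⟩

/-- geometry at the right end -/
theorem geoR (h0 : 0 ≤ j) (h1 : j < D.h) :
    (j < D.yQ → D.M (j - 1) = D.b j ∧ D.M j = D.b (j + 1) ∧
      (D.b j < D.b (j + 1) ∨ j + 1 < D.yQ ∧ D.b j = D.b (j + 1))) ∧
    (D.yQ ≤ j → D.M j = D.b j ∧
      (D.yQ < j ∧ D.b j < D.b (j - 1) ∧ D.M (j - 1) = D.b (j - 1) ∨
        ¬ (D.yQ < j ∧ D.b j < D.b (j - 1)) ∧ D.M (j - 1) = D.b j)) := by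
  have hQ := D.Q0
  constructor
  · intro h
    refine ⟨by rw [M_lo (by omega), sub_add_cancel], M_lo h, ?_⟩
    rcases lt_or_ge (D.b j) (D.b (j + 1)) with c | c
    · exact Or.inl c
    · right
      rcases eq_or_lt_of_le (show j + 1 ≤ D.yQ by omega) with h2 | h2
      · have := D.bQ (by omega)
        rw [← h2, add_sub_cancel_right] at this
        omega
      · have := D.bL j h0 h2
        exact ⟨h2, by omega⟩
  · intro h
    refine ⟨M_hi h, ?_⟩
    by_cases c : D.yQ < j ∧ D.b j < D.b (j - 1)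
    · exact Or.inl ⟨c.1, c.2, M_hi (by omega)⟩
    · refine Or.inr ⟨c, ?_⟩
      rcases eq_or_lt_of_le h with h2 | h2
      · rw [M_lo (by omega), sub_add_cancel]
      · rw [M_hi (by omega)]
        have := D.bU (j - 1) (by omega) (by omega)
        rw [sub_add_cancel] at this
        omega

/-- width of the strip -/
def wj (D : Pool.Agent.H46.Sp.Win) (j : ℤ) : ℕ := (D.b j - D.a j).toNat

/-- the tiles of the row -/
theorem row_none (h0 : 0 ≤ j) (h1 : j < D.h) (hx : D.a j ≤ x) (hx' : x < D.b j) (i : ℤ) :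
    σJ O i (x, j) = none ∧ σJ O i (x, j - 1) = none := by
  have k1 := m_le_a (D := D) (y := j) h0
  have k2 := b_le_M (D := D) (y := j) h0
  have k3 := m_le_a' (D := D) (y := j - 1) (by omega)
  have k4 := b_le_M' (D := D) (y := j - 1) (by omega)
  rw [sub_add_cancel] at k3 k4
  rw [σJ_none, σJ_none]
  exact ⟨Or.inl ⟨by omega, by omega, by omega, by omega⟩,
    Or.inl ⟨by omega, by omega, by omega, by omega⟩⟩

/-- **The strip.** -/
theorem stripJ (h0 : 0 ≤ j) (h1 : j < D.h) : Strip (σJ O j) (σJ O (j + 1)) (D.a j) (D.b j) j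
    (fS D j) (fL D j) (gL D j) (fN D j) (fR D j) (gR D j) := by
  have hP := D.P0
  have hP1 := D.P1
  have hQ := D.Q0
  have hQ1 := D.Q1
  have hab := D.ab j h0 h1
  have hm := a_min (D := D) h0 h1
  have hM := b_max (D := D) h0 h1
  obtain ⟨gl1, gl2⟩ := geoL (D := D) h0 h1
  obtain ⟨gr1, gr2⟩ := geoR (D := D) h0 h1
  have rowa := row_none O h0 h1 (x := D.a j) le_rfl (by omega)
  have rowb := row_none O h0 h1 (x := D.b j - 1) (by omega) (by omega)
  have Lj := L_j (D := D) (j := j)
  have Lj1 := L_j1 (D := D) (j := j)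
  have Lsj := L_sj (D := D) (j := j)
  have Lsj1 := L_sj1 (D := D) (j := j)
  have Rj := R_j (D := D) (j := j)
  have Rj1 := R_j1 (D := D) (j := j)
  have Rsj := R_sj (D := D) (j := j)
  have Rsj1 := R_sj1 (D := D) (j := j)
  refine ⟨hab, ?_, ?_, ?_, ?_, ?_, ?_, ?_, ?_, ?_, ?_, ?_, ?_⟩
  · intro x hx hx'
    have k1 := row_none O h0 h1 hx hx' j
    have k2 := row_none O h0 h1 hx hx' (j + 1)
    exact ⟨⟨k1.1, k2.1⟩, k1.2, k2.2⟩
  · -- the other tiles
    rintro ⟨x, y⟩ n1 n2 n3 n4
    by_cases hQ' : D.InQ j x y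
    · obtain ⟨c1 | c1, c2 | c2⟩ := hQ'
      · -- left column, row j
        subst c1
        rcases lt_or_ge y D.yP with c | c
        · obtain ⟨g1, g2⟩ := gl1 c
          rcases g2 with ⟨g2, g3, g4⟩ | ⟨g2, g3⟩
          · rw [c2, sL_B O (by omega) h1 (Lj.2.2.1.2 ⟨g2, g3⟩),
              sL_B O (by omega) h1 (Lsj.2.2.1.2 c)]
          · exact absurd (by rw [c2, g3]) n1
        · exact absurd (by rw [c2, (gl2 c).1]) n1
      · subst c1
        rcases lt_or_ge y D.yQ with c | c
        · obtain ⟨g1, g2, g3⟩ := gr1 c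
          rcases g3 with g3 | ⟨g3, g4⟩
          · by_cases c3 : y + 1 = D.yQ
            · rw [c2, sR_B O h0 (by omega) h1 (Rj.2.2.1.2 c3),
                sR_B O (by omega) (by omega) h1 (Rsj.2.2.1.2 (by omega))]
            · rw [c2, sR_A O h0 (by omega) h1 (Rj.2.2.2.1.2 ⟨by omega, g3⟩),
                sR_A O (by omega) (by omega) h1 (Rsj.2.2.2.1.2 (by omega))]
          · exact absurd (by rw [c2, g2, g4]) n3
        · exact absurd (by rw [c2, (gr2 c).1]) n3
      · -- left column, row j - 1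
        subst c1
        rcases lt_or_ge j D.yP with c | c
        · exact absurd (by rw [c2, (gl1 c).1]) n2
        · obtain ⟨g1, g2, g3⟩ := gl2 c
          rcases g3 with g3 | ⟨g3, g4⟩
          · by_cases c3 : j = D.yP
            · rw [c2, sL_B O (by omega) (by omega) (Lj1.2.2.1.2 (by omega)),
                sL_B O (by omega) (by omega) (Lsj1.2.2.1.2 c3)]
            · rw [c2, sL_A O (by omega) (by omega) (Lj1.2.2.2.1.2 (by omega)),
                sL_A O (by omega) (by omega) (Lsj1.2.2.2.1.2 ⟨by omega, g3⟩)]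
          · exact absurd (by rw [c2, g2, g4]) n2
      · subst c1
        rcases lt_or_ge j D.yQ with c | c
        · exact absurd (by rw [c2, (gr1 c).1]) n4
        · obtain ⟨g1, g2⟩ := gr2 c
          rcases g2 with ⟨g2, g3, g4⟩ | ⟨g2, g3⟩
          · rw [c2, sR_B O h0 (by omega) (by omega) (Rj1.2.2.1.2 c),
              sR_B O (by omega) (by omega) (by omega) (Rsj1.2.2.1.2 ⟨g2, g3⟩)]
          · exact absurd (by rw [c2, g3]) n4
    · have e1 := InE_succ (D := D) hQ'
      have e2 := mem_WJ_succ (D := D) (Wo := O.Wo) hQ'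
      have e3 := mem_EJ_succ (D := D) hQ'
      unfold σJ sto
      simp only [e2, e3]
  · -- left, straight, towards S
    intro f1 f2
    have c : j < D.yP := by simpa [fS] using f2
    obtain ⟨g1, g2⟩ := gl1 c
    have hR : ¬ (j + 1 < D.yP ∧ D.a (j + 1) < D.a j) := by
      unfold fL at f1; rw [if_pos c] at f1; simpa using f1
    have g3 : D.m j = D.a j := by
      rcases g2 with ⟨h2, h3, -⟩ | ⟨-, h3⟩
      · exact absurd ⟨h2, h3⟩ hR
      · exact h3
    have hgL : gL D j = !nat (D.cl (j - 1)) (D.a j - 1) (j - 1) := by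
      unfold gL; rw [f1, if_pos c]; simp
    have sO := sL_O O (j := j + 1) (y := j - 1) (by omega) (by omega) (Lsj1.2.2.2.2.2 c)
    have sU := sL_B O (j := j + 1) (y := j) (by omega) h1 (Lsj.2.2.1.2 c)
    have sV := sL_B O (j := j) (y := j - 1) (by omega) (by omega) (Lj1.2.2.1.2 (by omega))
    have rU : σJ O j (D.m j - 1, j) = none := by
      rw [σJ_none, InE_l (by omega) h1]; exact Or.inl (Lj.1.2 ⟨c, hR⟩)
    rw [g1] at sO sV
    rw [g3] at sU rU
    refine ⟨rfl, rfl, rfl, ?_, ?_, ?_, ?_, rU, sU, sV,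
      ⟨(row_none O h0 h1 le_rfl (by omega) j).1, (row_none O h0 h1 le_rfl (by omega) (j + 1)).1⟩,
      ⟨(row_none O h0 h1 le_rfl (by omega) j).2, (row_none O h0 h1 le_rfl (by omega) (j + 1)).2⟩,
      ?_, ?_⟩
    · simp [nb]
    · simp [nb]
    · simp only [nb, op, Prod.mk.injEq, and_true]; omega
    · simp only [nb, op, Prod.mk.injEq, and_true]; omega
    · intro hc
      rw [hgL] at hc
      rw [sO]
      have : nat (D.cl (j - 1)) (D.a j - 1) (j - 1) = true := by simpa using hc
      rw [this]; rfl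
    · intro hc
      rw [hgL] at hc
      have hn : nat (D.cl (j - 1)) (D.a j - 1) (j - 1) = false := by simpa using hc
      have hcl : D.cl (j - 1) = D.cl j := by
        have := D.scl (j - 1) (by omega) (by omega)
        rw [sub_add_cancel] at this
        exact this (g1.trans g3.symm)
      have x1 : ∀ i, σJ O i (D.a j - 2, j) = some (nat (D.cl j) (D.a j - 2) j) := fun i =>
        sL_X O (by omega) h1 (by omega) (by omega)
      have x2 : ∀ i, σJ O i (D.a j - 2, j - 1) = some (nat (D.cl (j - 1)) (D.a j - 2) (j - 1)) :=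
        fun i => sL_X O (by omega) (by omega) (by omega) (by omega)
      have y1 : nat (D.cl j) (D.a j - 2) j = false := by
        rw [← hcl, nat_eq (x' := D.a j - 1) (y' := j - 1) (by omega), hn]
      have y2 : nat (D.cl (j - 1)) (D.a j - 2) (j - 1) = true := by
        rw [nat_ne (x' := D.a j - 1) (y' := j - 1) (by omega), hn]; rfl
      rw [sO, x1, x1, x2, x2, hn, y1, y2]
      exact ⟨rfl, rfl, rfl, rfl, rfl⟩
  · -- left, straight, towards N
    intro f1 f2
    have c : ¬ j < D.yP := by simpa [fS] using f2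
    obtain ⟨g1, g2, g3⟩ := gl2 (by omega)
    have hR : ¬ D.a (j - 1) < D.a j := by
      unfold fL at f1; rw [if_neg c] at f1; simpa using f1
    have g4 : D.yP < j ∧ D.a (j - 1) = D.a j := by
      rcases g3 with h2 | h2
      · exact absurd h2 hR
      · exact h2
    have hgL : gL D j = nat (D.cl j) (D.a j - 1) j := by
      unfold gL; rw [f1, if_neg c]; simp
    have sO := sL_O O (j := j) (y := j) (by omega) h1 (Lj.2.2.2.2.2 (by omega))
    have sU := sL_A O (j := j) (y := j - 1) (by omega) (by omega) (Lj1.2.2.2.1.2 g4.1)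
    have sV := sL_A O (j := j + 1) (y := j) (by omega) h1 (Lsj.2.2.2.1.2 (by omega))
    have rU : σJ O (j + 1) (D.m (j - 1) - 1, j - 1) = none := by
      rw [σJ_none, InE_l (by omega) (by omega)]; exact Or.inr (Lsj1.2.1.2 ⟨g4.1, hR⟩)
    rw [g2, g4.2] at sU rU
    rw [g1] at sO sV
    refine ⟨rfl, rfl, ?_, ?_, ?_, ?_, ?_, rU, sU, sV,
      ⟨(row_none O h0 h1 le_rfl (by omega) (j + 1)).2, (row_none O h0 h1 le_rfl (by omega) j).2⟩,
      ⟨(row_none O h0 h1 le_rfl (by omega) (j + 1)).1, (row_none O h0 h1 le_rfl (by omega) j).1⟩,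
      ?_, ?_⟩
    · simp [nb, op]
    · simp [nb]
    · simp [nb]
    · simp only [nb, op, Prod.mk.injEq, and_true]; omega
    · simp only [nb, op, Prod.mk.injEq, and_true]; omega
    · intro hc
      rw [hgL] at hc
      rw [sO, hc]; rfl
    · intro hc
      rw [hgL] at hc
      have hcl : D.cl (j - 1) = D.cl j := by
        have := D.scl (j - 1) (by omega) (by omega)
        rw [sub_add_cancel] at this
        exact this (g2.trans (g4.2.trans g1.symm))
      have x1 : ∀ i, σJ O i (D.a j - 2, j) = some (nat (D.cl j) (D.a j - 2) j) := fun i =>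
        sL_X O (by omega) h1 (by omega) (by omega)
      have x2 : ∀ i, σJ O i (D.a j - 2, j - 1) = some (nat (D.cl (j - 1)) (D.a j - 2) (j - 1)) :=
        fun i => sL_X O (by omega) (by omega) (by omega) (by omega)
      have y1 : nat (D.cl j) (D.a j - 2) j = false := by
        rw [nat_ne (x' := D.a j - 1) (y' := j) (by omega), hc]; rfl
      have y2 : nat (D.cl (j - 1)) (D.a j - 2) (j - 1) = true := by
        rw [hcl, nat_eq (x' := D.a j - 1) (y' := j) (by omega), hc]
      rw [sO, x1, x1, x2, x2, hc, y1, y2]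
      exact ⟨rfl, rfl, rfl, rfl, rfl⟩
  · -- left, reflex, towards S
    intro f1 f2
    have c : j < D.yP := by simpa [fS] using f2
    obtain ⟨g1, g2⟩ := gl1 c
    have hR : j + 1 < D.yP ∧ D.a (j + 1) < D.a j := by
      unfold fL at f1; rw [if_pos c] at f1; simpa using f1
    have g3 : D.m j = D.a (j + 1) := m_lo hR.1
    have hb := b_le_M (D := D) (y := j) h0
    have rU : ∀ i, σJ O i (D.a j - 1, j) = none := by
      intro i
      rw [σJ_none]
      exact Or.inl ⟨by omega, h1, by omega, by omega⟩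
    have sV := sL_B O (j := j) (y := j - 1) (by omega) (by omega) (Lj1.2.2.1.2 (by omega))
    have sO := sL_O O (j := j + 1) (y := j - 1) (by omega) (by omega) (Lsj1.2.2.2.2.2 c)
    rw [g1] at sV sO
    have hn : nat (D.cl (j - 1)) (D.a j - 1) (j - 1) = true := by
      have := D.pll (j - 1) (by omega) (by omega)
      rw [sub_add_cancel] at this
      have h5 := this (by
        change D.m j < D.m (j - 1)
        rw [g1, g3]; exact hR.2)
      change ((D.m (j - 1) + (j - 1)) % 2 = 0 ↔ _) at h5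
      rw [g1] at h5
      unfold nat
      rcases Int.emod_two_eq_zero_or_one (D.a j + (j - 1)) with h6 | h6
      · rw [h5.1 h6]
        have : (D.a j - 1 + (j - 1)) % 2 = 1 := by omega
        rw [this]; rfl
      · have h7 : D.cl (j - 1) = false := by
          rw [Bool.eq_false_iff]
          intro h8
          have := h5.2 h8
          omega
        have : (D.a j - 1 + (j - 1)) % 2 = 0 := by omega
        rw [this, h7]; rfl
    rw [hn] at sO
    refine ⟨rfl, rfl, rfl, ?_, ?_, ⟨rU j, rU (j + 1)⟩, ⟨sV, sO⟩,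
      ⟨(row_none O h0 h1 le_rfl (by omega) j).1, (row_none O h0 h1 le_rfl (by omega) (j + 1)).1⟩,
      ⟨(row_none O h0 h1 le_rfl (by omega) j).2, (row_none O h0 h1 le_rfl (by omega) (j + 1)).2⟩⟩
    · simp [nb]
    · simp [nb]
  · -- left, reflex, towards N
    intro f1 f2
    have c : ¬ j < D.yP := by simpa [fS] using f2
    obtain ⟨g1, g2, g3⟩ := gl2 (by omega)
    have hR : D.a (j - 1) < D.a j := by
      unfold fL at f1; rw [if_neg c] at f1; simpa using f1
    have hb := b_le_M' (D := D) (y := j - 1) (by omega)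
    rw [sub_add_cancel] at hb
    have rU : ∀ i, σJ O i (D.a j - 1, j - 1) = none := by
      intro i
      rw [σJ_none]
      exact Or.inl ⟨by omega, by omega, by omega, by omega⟩
    have sV := sL_A O (j := j + 1) (y := j) (by omega) h1 (Lsj.2.2.2.1.2 (by omega))
    have sO := sL_O O (j := j) (y := j) (by omega) h1 (Lj.2.2.2.2.2 (by omega))
    rw [g1] at sV sO
    have hn : nat (D.cl j) (D.a j - 1) j = false := by
      have := D.pul (j - 1) (by omega) (by omega)
      rw [sub_add_cancel] at this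
      have h5 := this (by
        change D.m (j - 1) < D.m j
        rw [g1, g2]; exact hR)
      change ((D.m j + (j - 1)) % 2 = 0 ↔ _) at h5
      rw [g1] at h5
      unfold nat
      rcases Int.emod_two_eq_zero_or_one (D.a j + (j - 1)) with h6 | h6
      · rw [h5.1 h6]
        have : (D.a j - 1 + j) % 2 = 0 := by omega
        rw [this]; rfl
      · have h7 : D.cl j = false := by
          rw [Bool.eq_false_iff]
          intro h8
          have := h5.2 h8
          omega
        have : (D.a j - 1 + j) % 2 = 1 := by omega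
        rw [this, h7]; rfl
    rw [hn] at sO
    refine ⟨rfl, rfl, ?_, ?_, ?_, ⟨rU (j + 1), rU j⟩, ⟨sV, sO⟩,
      ⟨(row_none O h0 h1 le_rfl (by omega) (j + 1)).2, (row_none O h0 h1 le_rfl (by omega) j).2⟩,
      ⟨(row_none O h0 h1 le_rfl (by omega) (j + 1)).1, (row_none O h0 h1 le_rfl (by omega) j).1⟩⟩
    · simp [nb, op]
    · simp [nb]
    · simp [nb]
  · intro h
    unfold gL
    rw [h]
    rfl
  · -- right, straight, towards N
    intro f1 f2
    have c : j < D.yQ := by simpa [fN] using f2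
    obtain ⟨g1, g2, g3⟩ := gr1 c
    have hR : ¬ D.b j < D.b (j + 1) := by
      unfold fR at f1; rw [if_pos c] at f1; simpa using f1
    have g4 : j + 1 < D.yQ ∧ D.b j = D.b (j + 1) := by
      rcases g3 with h2 | h2
      · exact absurd h2 hR
      · exact h2
    have hgR : gR D j = nat (D.cr (j - 1)) (D.b j) (j - 1) := by
      unfold gR; rw [f1, if_pos c]; simp
    have sO := sR_O O (j := j + 1) (y := j - 1) (by omega) (by omega) (by omega)
      (Rsj1.2.2.2.2.2 c)
    have sU := sR_A O (j := j + 1) (y := j) (by omega) (by omega) h1 (Rsj.2.2.2.1.2 g4.1)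
    have sV := sR_A O (j := j) (y := j - 1) h0 (by omega) (by omega) (Rj1.2.2.2.1.2 c)
    have rU : σJ O j (D.M j, j) = none := by
      rw [σJ_none, InE_r (by omega) h1]; exact Or.inr (Rj.2.1.2 ⟨c, hR⟩)
    rw [g1] at sO sV
    rw [g2, ← g4.2] at sU rU
    refine ⟨rfl, rfl, rfl, ?_, ?_, ?_, ?_, rU, sU, sV,
      ⟨(row_none O h0 h1 (by omega) (by omega) j).1,
        (row_none O h0 h1 (by omega) (by omega) (j + 1)).1⟩,
      ⟨(row_none O h0 h1 (by omega) (by omega) j).2,
        (row_none O h0 h1 (by omega) (by omega) (j + 1)).2⟩, ?_, ?_⟩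
    · simp [nb]
    · simp [nb]
    · simp [nb, op]
    · simp [nb, op]
    · intro hc
      rw [hgR] at hc
      rw [sO, hc]; rfl
    · intro hc
      rw [hgR] at hc
      have hcl : D.cr (j - 1) = D.cr j := by
        have := D.scr (j - 1) (by omega) (by omega)
        rw [sub_add_cancel] at this
        exact this (g1.trans (g4.2.trans g2.symm))
      have x1 : ∀ i, σJ O i (D.b j + 1, j) = some (nat (D.cr j) (D.b j + 1) j) := fun i =>
        sR_X O (by omega) h1 (by omega) (by omega)
      have x2 : ∀ i, σJ O i (D.b j + 1, j - 1) = some (nat (D.cr (j - 1)) (D.b j + 1) (j - 1)) :=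
        fun i => sR_X O (by omega) (by omega) (by omega) (by omega)
      have y1 : nat (D.cr j) (D.b j + 1) j = true := by
        rw [← hcl, nat_eq (x' := D.b j) (y' := j - 1) (by omega), hc]
      have y2 : nat (D.cr (j - 1)) (D.b j + 1) (j - 1) = false := by
        rw [nat_ne (x' := D.b j) (y' := j - 1) (by omega), hc]; rfl
      rw [sO, x1, x1, x2, x2, hc, y1, y2]
      exact ⟨rfl, rfl, rfl, rfl, rfl⟩
  · -- right, straight, towards S
    intro f1 f2
    have c : ¬ j < D.yQ := by simpa [fN] using f2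
    obtain ⟨g1, g2⟩ := gr2 (by omega)
    have hR : ¬ (D.yQ < j ∧ D.b j < D.b (j - 1)) := by
      unfold fR at f1; rw [if_neg c] at f1; simpa using f1
    have g3 : D.M (j - 1) = D.b j := by
      rcases g2 with ⟨h2, h3, -⟩ | ⟨-, h3⟩
      · exact absurd ⟨h2, h3⟩ hR
      · exact h3
    have hgR : gR D j = !nat (D.cr j) (D.b j) j := by
      unfold gR; rw [f1, if_neg c]; simp
    have sO := sR_O O (j := j) (y := j) h0 (by omega) h1 (Rj.2.2.2.2.2 (by omega))
    have sU := sR_B O (j := j) (y := j - 1) h0 (by omega) (by omega) (Rj1.2.2.1.2 (by omega))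
    have sV := sR_B O (j := j + 1) (y := j) (by omega) (by omega) h1 (Rsj.2.2.1.2 (by omega))
    have rU : σJ O (j + 1) (D.M (j - 1), j - 1) = none := by
      rw [σJ_none, InE_r (by omega) (by omega)]; exact Or.inl (Rsj1.1.2 ⟨by omega, hR⟩)
    rw [g3] at sU rU
    rw [g1] at sO sV
    refine ⟨rfl, rfl, ?_, ?_, ?_, ?_, ?_, rU, sU, sV,
      ⟨(row_none O h0 h1 (by omega) (by omega) (j + 1)).2,
        (row_none O h0 h1 (by omega) (by omega) j).2⟩,
      ⟨(row_none O h0 h1 (by omega) (by omega) (j + 1)).1,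
        (row_none O h0 h1 (by omega) (by omega) j).1⟩, ?_, ?_⟩
    · simp [nb, op]
    · simp [nb]
    · simp [nb]
    · simp [nb, op]
    · simp [nb, op]
    · intro hc
      rw [hgR] at hc
      rw [sO]
      have : nat (D.cr j) (D.b j) j = true := by simpa using hc
      rw [this]; rfl
    · intro hc
      rw [hgR] at hc
      have hn : nat (D.cr j) (D.b j) j = false := by simpa using hc
      have hcl : D.cr (j - 1) = D.cr j := by
        have := D.scr (j - 1) (by omega) (by omega)
        rw [sub_add_cancel] at this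
        exact this (g3.trans g1.symm)
      have x1 : ∀ i, σJ O i (D.b j + 1, j) = some (nat (D.cr j) (D.b j + 1) j) := fun i =>
        sR_X O (by omega) h1 (by omega) (by omega)
      have x2 : ∀ i, σJ O i (D.b j + 1, j - 1) = some (nat (D.cr (j - 1)) (D.b j + 1) (j - 1)) :=
        fun i => sR_X O (by omega) (by omega) (by omega) (by omega)
      have y1 : nat (D.cr j) (D.b j + 1) j = true := by
        rw [nat_ne (x' := D.b j) (y' := j) (by omega), hn]; rfl
      have y2 : nat (D.cr (j - 1)) (D.b j + 1) (j - 1) = false := by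
        rw [hcl, nat_eq (x' := D.b j) (y' := j) (by omega), hn]
      rw [sO, x1, x1, x2, x2, hn, y1, y2]
      exact ⟨rfl, rfl, rfl, rfl, rfl⟩
  · -- right, reflex, towards N
    intro f1 f2
    have c : j < D.yQ := by simpa [fN] using f2
    obtain ⟨g1, g2, g3⟩ := gr1 c
    have hR : D.b j < D.b (j + 1) := by
      unfold fR at f1; rw [if_pos c] at f1; simpa using f1
    have ha := m_le_a (D := D) (y := j) h0
    have rU : ∀ i, σJ O i (D.b j, j) = none := by
      intro i
      rw [σJ_none]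
      exact Or.inl ⟨by omega, h1, by omega, by omega⟩
    have sV := sR_A O (j := j) (y := j - 1) h0 (by omega) (by omega) (Rj1.2.2.2.1.2 c)
    have sO := sR_O O (j := j + 1) (y := j - 1) (by omega) (by omega) (by omega)
      (Rsj1.2.2.2.2.2 c)
    rw [g1] at sV sO
    have hn : nat (D.cr (j - 1)) (D.b j) (j - 1) = false := by
      have := D.plr (j - 1) (by omega) (by omega)
      rw [sub_add_cancel] at this
      have h5 := this (by
        change D.M (j - 1) < D.M j
        rw [g1, g2]; exact hR)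
      change ((D.M (j - 1) + (j - 1)) % 2 = 0 ↔ _) at h5
      rw [g1] at h5
      unfold nat
      rcases Int.emod_two_eq_zero_or_one (D.b j + (j - 1)) with h6 | h6
      · rw [h5.1 h6, h6]; rfl
      · have h7 : D.cr (j - 1) = false := by
          rw [Bool.eq_false_iff]
          intro h8
          have := h5.2 h8
          omega
        rw [h6, h7]; rfl
    rw [hn] at sO
    refine ⟨rfl, rfl, rfl, ?_, ?_, ⟨rU j, rU (j + 1)⟩, ⟨sV, sO⟩,
      ⟨(row_none O h0 h1 (by omega) (by omega) j).1,
        (row_none O h0 h1 (by omega) (by omega) (j + 1)).1⟩,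
      ⟨(row_none O h0 h1 (by omega) (by omega) j).2,
        (row_none O h0 h1 (by omega) (by omega) (j + 1)).2⟩⟩
    · simp [nb]
    · simp [nb]
  · -- right, reflex, towards S
    intro f1 f2
    have c : ¬ j < D.yQ := by simpa [fN] using f2
    obtain ⟨g1, g2⟩ := gr2 (by omega)
    have hR : D.yQ < j ∧ D.b j < D.b (j - 1) := by
      unfold fR at f1; rw [if_neg c] at f1; simpa using f1
    have g3 : D.M (j - 1) = D.b (j - 1) := M_hi (by omega)
    have ha := m_le_a' (D := D) (y := j - 1) (by omega)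
    rw [sub_add_cancel] at ha
    have rU : ∀ i, σJ O i (D.b j, j - 1) = none := by
      intro i
      rw [σJ_none]
      exact Or.inl ⟨by omega, by omega, by omega, by omega⟩
    have sV := sR_B O (j := j + 1) (y := j) (by omega) (by omega) h1 (Rsj.2.2.1.2 (by omega))
    have sO := sR_O O (j := j) (y := j) h0 (by omega) h1 (Rj.2.2.2.2.2 (by omega))
    rw [g1] at sV sO
    have hn : nat (D.cr j) (D.b j) j = true := by
      have := D.pur (j - 1) (by omega) (by omega)
      rw [sub_add_cancel] at this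
      have h5 := this (by
        change D.M j < D.M (j - 1)
        rw [g1, g3]; exact hR.2)
      change ((D.M j + (j - 1)) % 2 = 0 ↔ _) at h5
      rw [g1] at h5
      unfold nat
      rcases Int.emod_two_eq_zero_or_one (D.b j + (j - 1)) with h6 | h6
      · rw [h5.1 h6]
        have : (D.b j + j) % 2 = 1 := by omega
        rw [this]; rfl
      · have h7 : D.cr j = false := by
          rw [Bool.eq_false_iff]
          intro h8
          have := h5.2 h8
          omega
        have : (D.b j + j) % 2 = 0 := by omega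
        rw [this, h7]; rfl
    rw [hn] at sO
    refine ⟨rfl, rfl, ?_, ?_, ?_, ⟨rU (j + 1), rU j⟩, ⟨sV, sO⟩,
      ⟨(row_none O h0 h1 (by omega) (by omega) (j + 1)).2,
        (row_none O h0 h1 (by omega) (by omega) j).2⟩,
      ⟨(row_none O h0 h1 (by omega) (by omega) (j + 1)).1,
        (row_none O h0 h1 (by omega) (by omega) j).1⟩⟩
    · simp [nb, op]
    · simp [nb]
    · simp [nb]
  · intro h
    unfold gR
    rw [h]
    rfl

end Pool.Agent.H64.Win
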