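import Pool.Agent.H64.Win.Step

/-!
# The weights of the environments `X_j` and `X_(j+1)` of a window
-/

namespace Pool.Agent.H64.Win

open Pool.Agent.H64.Q1 hiding Tl
open Pool.Agent.H81.G1 Pool.Agent.Q1 Pool.Agent.H33.Q1
open Pool.Agent.H75.Perc Pool.Agent.H75.TwoArm
open Pool.Agent.H74.R45 hiding Tl Out mem_EJ EJ WJ XJ mem_PJ PJ XJ_E XJ_c0 XJ_k0 XJ_T
open Pool.Agent.H46.Sp
open Pool.Agent.H46.Sp.Win
open Finset

variable {D : Pool.Agent.H46.Sp.Win} {j x y : ℤ}

/-- weight of the state {W-N, S-E} of a tile of the environment number `j` -/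
noncomputable def αJ (D : Pool.Agent.H46.Sp.Win) (j : ℤ) (A B C : ℂ) (p : ℤ × ℤ) : ℂ :=
  if p.1 = D.m p.2 - 1 then (if p.2 < D.yP then 1 - B else 1 - C)
  else if p.1 = D.M p.2 then (if j ≤ p.2 then 1 - C else 1 - B)
  else if p.2 = j - 1 then A
  else if j ≤ p.2 then
    if p.1 < D.a p.2 then (if p.1 = D.a p.2 - 1 then 1 - (1 - A) * B else A)
    else if D.b p.2 ≤ p.1 then (if p.1 = D.b p.2 then (1 - C) * A else A)
    else 1 / 2
  else
    if p.1 < D.a (p.2 + 1) then (if p.1 = D.a (p.2 + 1) - 1 then A * (1 - C) else A)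
    else if D.b (p.2 + 1) ≤ p.1 then (if p.1 = D.b (p.2 + 1) then 1 - B * (1 - A) else A)
    else 1 / 2

theorem wal_half (x y : ℤ) : wal x y (1 / 2) = 1 / 2 := by
  unfold wal
  split_ifs <;> ring

theorem hasW (A B C : ℂ) : HasW (D.PJ j) (D.qJ j A B C) (αJ D j A B C) := by
  intro x y _
  unfold Pool.Agent.H46.Sp.Win.qJ αJ
  rw [tt_lt]
  simp only
  split_ifs <;> first | rfl | exact (wal_half x y).symm

/-- the end tile of the column on the right of row `j` is not random in both environments -/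
theorem not_M (h0 : 0 ≤ j) (h1 : j < D.h) : ¬ D.InE (j + 1) (D.M j) j := by
  have := R_sj (D := D) (j := j)
  rw [InE_r (by omega) h1]
  tauto

/-- **The weights.** -/
theorem wt (h0 : 0 ≤ j) (h1 : j < D.h) (A B C : ℂ) : Wt (D.PJ j) (D.PJ (j + 1)) (D.a j) (D.b j) j
    (fS D j) (fL D j) (fN D j) (fR D j) A B C A A (αJ D j A B C) (αJ D (j + 1) A B C) := by
  have hP := D.P0
  have hP1 := D.P1
  have hQ := D.Q0
  have hQ1 := D.Q1
  have hab := D.ab j h0 h1
  obtain ⟨gl1, gl2⟩ := geoL (D := D) h0 h1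
  obtain ⟨gr1, gr2⟩ := geoR (D := D) h0 h1
  have k1 := m_le_a (D := D) (y := j) h0
  have k2 := b_le_M (D := D) (y := j) h0
  have k3 := m_le_a' (D := D) (y := j - 1) (by omega)
  have k4 := b_le_M' (D := D) (y := j - 1) (by omega)
  rw [sub_add_cancel] at k3 k4
  have hj : j - 1 + 1 = j := by ring
  have hj' : j + 1 - 1 = j := by ring
  refine ⟨?_, ?_, ?_, ?_, ?_, ?_, ?_, ?_, ?_, ?_, ?_, ?_, ?_⟩
  · intro x hx hx'
    unfold αJ; simp only
    rw [if_neg (by omega), if_neg (by omega), if_neg (by omega), if_pos le_rfl, if_neg (by omega),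
      if_neg (by omega)]
  · intro x hx hx'
    unfold αJ; simp only
    rw [if_neg (by omega), if_neg (by omega), if_neg (by omega), if_neg (by omega), hj,
      if_neg (by omega), if_neg (by omega)]
  · intro x hx hx'
    unfold αJ; simp only
    rw [if_neg (by omega), if_neg (by omega), if_pos trivial]
  · intro x hx hx'
    unfold αJ; simp only
    rw [if_neg (by omega), if_neg (by omega), if_pos (by omega)]
  · intro f2 f1
    have c : j < D.yP := by simpa [fS] using f2
    obtain ⟨g1, g2⟩ := gl1 c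
    have hR : ¬ (j + 1 < D.yP ∧ D.a (j + 1) < D.a j) := by
      unfold fL at f1; rw [if_pos c] at f1; simpa using f1
    have g3 : D.m j = D.a j := by
      rcases g2 with ⟨h2, h3, -⟩ | ⟨-, h3⟩
      · exact absurd ⟨h2, h3⟩ hR
      · exact h3
    unfold αJ; simp only
    rw [if_pos (by omega), if_pos c]
  · intro f2 f1
    have c : j < D.yP := by simpa [fS] using f2
    obtain ⟨g1, g2⟩ := gl1 c
    have hR : j + 1 < D.yP ∧ D.a (j + 1) < D.a j := by
      unfold fL at f1; rw [if_pos c] at f1; simpa using f1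
    have g3 : D.m j = D.a (j + 1) := m_lo hR.1
    unfold αJ; simp only
    constructor
    · rw [if_neg (by omega), if_neg (by omega), if_neg (by omega), if_pos le_rfl,
        if_pos (by omega), if_pos trivial]
    · rw [if_neg (by omega), if_neg (by omega), if_pos (by omega)]
  · intro f2 f1
    have c : ¬ j < D.yP := by simpa [fS] using f2
    obtain ⟨g1, g2, g3⟩ := gl2 (by omega)
    have hR : ¬ D.a (j - 1) < D.a j := by
      unfold fL at f1; rw [if_neg c] at f1; simpa using f1
    have g4 : D.yP < j ∧ D.a (j - 1) = D.a j := by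
      rcases g3 with h2 | h2
      · exact absurd h2 hR
      · exact h2
    unfold αJ; simp only
    rw [if_pos (by omega), if_neg (by omega)]
  · intro f2 f1
    have c : ¬ j < D.yP := by simpa [fS] using f2
    obtain ⟨g1, g2, g3⟩ := gl2 (by omega)
    have hR : D.a (j - 1) < D.a j := by
      unfold fL at f1; rw [if_neg c] at f1; simpa using f1
    unfold αJ; simp only
    constructor
    · rw [if_neg (by omega), if_neg (by omega), if_neg (by omega), if_neg (by omega), hj,
        if_pos (by omega), if_pos rfl]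
    · rw [if_neg (by omega), if_neg (by omega), if_pos trivial]
  · intro f2 f1
    have c : j < D.yQ := by simpa [fN] using f2
    obtain ⟨g1, g2, g3⟩ := gr1 c
    have hR : ¬ D.b j < D.b (j + 1) := by
      unfold fR at f1; rw [if_pos c] at f1; simpa using f1
    have g4 : j + 1 < D.yQ ∧ D.b j = D.b (j + 1) := by
      rcases g3 with h2 | h2
      · exact absurd h2 hR
      · exact h2
    unfold αJ; simp only
    rw [if_neg (by omega), if_pos (by omega), if_pos le_rfl]
  · intro f2 f1
    have c : j < D.yQ := by simpa [fN] using f2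
    obtain ⟨g1, g2, g3⟩ := gr1 c
    have hR : D.b j < D.b (j + 1) := by
      unfold fR at f1; rw [if_pos c] at f1; simpa using f1
    unfold αJ; simp only
    constructor
    · rw [if_neg (by omega), if_neg (by omega), if_neg (by omega), if_pos le_rfl,
        if_neg (by omega), if_pos le_rfl, if_pos trivial]
    · rw [if_neg (by omega), if_neg (by omega), if_pos (by omega)]
  · intro f2 f1
    have c : ¬ j < D.yQ := by simpa [fN] using f2
    obtain ⟨g1, g2⟩ := gr2 (by omega)
    have hR : ¬ (D.yQ < j ∧ D.b j < D.b (j - 1)) := by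
      unfold fR at f1; rw [if_neg c] at f1; simpa using f1
    have g3 : D.M (j - 1) = D.b j := by
      rcases g2 with ⟨h2, h3, -⟩ | ⟨-, h3⟩
      · exact absurd ⟨h2, h3⟩ hR
      · exact h3
    unfold αJ; simp only
    rw [if_neg (by omega), if_pos (by omega), if_neg (by omega)]
  · intro f2 f1
    have c : ¬ j < D.yQ := by simpa [fN] using f2
    obtain ⟨g1, g2⟩ := gr2 (by omega)
    have hR : D.yQ < j ∧ D.b j < D.b (j - 1) := by
      unfold fR at f1; rw [if_neg c] at f1; simpa using f1
    have g3 : D.M (j - 1) = D.b (j - 1) := M_hi (by omega)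
    unfold αJ; simp only
    constructor
    · rw [if_neg (by omega), if_neg (by omega), if_neg (by omega), if_neg (by omega), hj,
        if_neg (by omega), if_pos le_rfl, if_pos rfl]
    · rw [if_neg (by omega), if_neg (by omega), if_pos trivial]
  · rintro ⟨x, y⟩ hq n1 n2 n3 n4
    obtain ⟨⟨o1, o2⟩, o3⟩ := mem_PO.1 hq
    rw [mem_PJ] at o1 o2
    simp only [ne_eq, Prod.mk.injEq, not_and] at n1 n2 n3 n4
    unfold αJ; simp only
    by_cases c1 : x = D.m y - 1
    · rw [if_pos c1, if_pos c1]
    rw [if_neg c1, if_neg c1]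
    by_cases c2 : x = D.M y
    · rw [if_pos c2, if_pos c2]
      have hy : y ≠ j := by
        rintro rfl
        rw [c2] at o2
        exact not_M h0 h1 o2
      by_cases c3 : j ≤ y
      · rw [if_pos c3, if_pos (show j + 1 ≤ y by omega)]
      · rw [if_neg c3, if_neg (show ¬ j + 1 ≤ y by omega)]
    rw [if_neg c2, if_neg c2]
    by_cases c3 : y = j
    · subst c3
      rw [if_neg (by omega), if_pos le_rfl, if_pos (show y = y + 1 - 1 by omega)]
      by_cases c4 : x < D.a y
      · rw [if_pos c4, if_neg (by omega)]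
      · rw [if_neg c4]
        by_cases c5 : D.b y ≤ x
        · rw [if_pos c5, if_neg (by omega)]
        · exact absurd ⟨by omega, by omega, Or.inl rfl⟩ o3
    · by_cases c4 : y = j - 1
      · subst c4
        rw [if_pos rfl, if_neg (by omega), if_neg (by omega), hj]
        by_cases c4 : x < D.a j
        · rw [if_pos c4, if_neg (by omega)]
        · rw [if_neg c4]
          by_cases c5 : D.b j ≤ x
          · rw [if_pos c5, if_neg (by omega)]
          · exact absurd ⟨by omega, by omega, Or.inr rfl⟩ o3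
      · rw [if_neg c4, if_neg (show ¬ y = j + 1 - 1 by omega)]
        by_cases c5 : j ≤ y
        · rw [if_pos c5, if_pos (show j + 1 ≤ y by omega)]
        · rw [if_neg c5, if_neg (show ¬ j + 1 ≤ y by omega)]

/-- **The configuration.** -/
theorem cfg (O : Out D) (h0 : 0 ≤ j) (h1 : j < D.h) :
    Cfg (Pool.Agent.H46.Sp.Win.XJ O j h0) (Pool.Agent.H46.Sp.Win.XJ O (j + 1) (by omega))
      (D.WJ j O.Wo) (D.WJ (j + 1) O.Wo) (D.PJ j) (D.PJ (j + 1)) (D.a j) (D.b j) j (wj D j)
      (fS D j) (fL D j) (gL D j) (fN D j) (fR D j) (gR D j) where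
  I1 := ⟨rfl, fun _ => rfl, fun _ => rfl⟩
  I2 := ⟨rfl, fun _ => rfl, fun _ => rfl⟩
  e1 := by
    rintro ⟨x, y⟩
    rw [mem_PJ, XJ_E, Pool.Agent.H46.Sp.Win.mem_EJ]
  e2 := by
    rintro ⟨x, y⟩
    rw [mem_PJ, XJ_E, Pool.Agent.H46.Sp.Win.mem_EJ]
  S := stripJ O h0 h1
  hw := by
    have := D.ab j h0 h1
    unfold wj
    rw [Int.toNat_of_nonneg (by omega)]
    ring
  T1 := tilesJ O h0
  T2 := tilesJ O (by omega)

end Pool.Agent.H64.Win
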